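import Pool.Agent.NH35.HK.Sys

/-! Systems of functions on a product of finite abelian groups: statements, second part. -/

set_option autoImplicit false
set_option linter.unusedSectionVars false

namespace Pool.Agent.NH35.HQ

open Finset Pool.Agent.NH35.HK

variable {ι : Type} [Fintype ι] [DecidableEq ι] {H : ι → Type} [∀ i, CommGroup (H i)]
  [∀ i, Fintype (H i)] [∀ i, DecidableEq (H i)]

/-- systems with the relations for all coordinates -/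
structure Full (d : Dat H) {Q : Type} [AddCommGroup Q] (c : Finset ι → (∀ i, H i) → Q) : Prop where
  dep : ∀ I, Dep I (c I)
  emp : c ∅ = 0
  rel : ∀ I, ∀ q ∈ I, ∀ u, NN q (c I) u = c (I.erase q) u - c (I.erase q) ((d.τ q)⁻¹ * u)

/-- `R i` contains one element of every pair `s`, `-s` -/
def Half (d : Dat H) (R : ∀ i, Finset (H i)) : Prop := ∀ i s, s ∈ R i ↔ d.κ i * s ∉ R i

/-- (A1) every system which vanishes on the small sets is a combination of integral ones -/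
def S_a1k : Prop := ∀ (ι : Type) [Fintype ι] [DecidableEq ι] (H : ι → Type) [∀ i, CommGroup (H i)]
  [∀ i, Fintype (H i)] [∀ i, DecidableEq (H i)] (d : Dat H) (ℓ : ι)
  (X : Finset ι → (∀ i, H i) → ℤ) (k : ℕ),
  (∀ γ : Finset ι → (∀ i, H i) → ℤ, Sys d ℓ γ → Odd1 d γ → (∀ A, A.card ≤ k → γ A = 0) →
    pair X γ = 0) →
  ∀ (Q : Type) [AddCommGroup Q] (c : Finset ι → (∀ i, H i) → Q), Sys d ℓ c → Odd1 d c →
    (∀ A, A.card ≤ k → c A = 0) → pair X c = 0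

/-- the element of the types `{ℓ, q}` and `{ℓ}` -/
noncomputable def BR (d : Dat H) (R : ∀ i, Finset (H i)) (ℓ q : ι) (I : Finset ι)
    (u : ∀ i, H i) : ℤ := by
  classical
  exact if q = ℓ then 0 else
    (if I = {ℓ, q} ∧ u ℓ ∈ R ℓ ∧ u q ∈ R q ∧ (∀ i, i ≠ ℓ → i ≠ q → u i = 1) then 1 else 0) +
    (if I = {ℓ} ∧ d.κ ℓ * u ℓ ∈ R ℓ ∧ d.κ ℓ * d.τ q ℓ * u ℓ ∉ R ℓ ∧ (∀ i, i ≠ ℓ → u i = 1) then 1
      else 0)

/-- (A2) the pairing with `BR` -/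
def S_br : Prop := ∀ (ι : Type) [Fintype ι] [DecidableEq ι] (H : ι → Type) [∀ i, CommGroup (H i)]
  [∀ i, Fintype (H i)] [∀ i, DecidableEq (H i)] (d : Dat H) (R : ∀ i, Finset (H i)), Half d R →
  ∀ ℓ q : ι, q ≠ ℓ → ∀ (Q : Type) [AddCommGroup Q] (c : Finset ι → (∀ i, H i) → Q), Sys d ℓ c →
    pair (BR d R ℓ q) (Od d c) = ∑ u : ∀ i, H i, (open Classical in
      if u q ∈ R q ∧ (∀ i, i ≠ ℓ → i ≠ q → u i = 1) then c {ℓ, q} u else 0)

/-- the functions on `∏ i ∈ J, H i` with zero sums over all coordinates -/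
structure ZS (J : Finset ι) (F : (∀ i, H i) → ℤ) : Prop where
  dep : Dep J F
  nul : ∀ q ∈ J, ∀ u, NN q F u = 0

/-- the difference of the functions at `a` and `-a` -/
def dl (d : Dat H) (i : ι) (a s : H i) : ℤ :=
  (if s = a then 1 else 0) - (if s = d.κ i * a then 1 else 0)

/-- (A3) odd functionals on the functions with zero sums -/
def S_alg : Prop := ∀ (ι : Type) [Fintype ι] [DecidableEq ι] (H : ι → Type) [∀ i, CommGroup (H i)]
  [∀ i, Fintype (H i)] [∀ i, DecidableEq (H i)] (d : Dat H) (R : ∀ i, Finset (H i)), Half d R →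
  ∀ (J : Finset ι) (Ψ : ((∀ i, H i) → ℤ) → ℤ),
  (∀ F G, ZS J F → ZS J G → Ψ (F + G) = Ψ F + Ψ G) →
  (∀ F, ZS J F → Ψ (fun u => F (d.κ * u)) = - Ψ F) →
  ∃ (z : (∀ i, H i) → ℤ) (e : ℤ), (Even J.card → e = 0) ∧
    (∀ w : ∀ i, H i, Even (Ψ fun u => ∏ i ∈ J, dl d i (w i) (u i)) → Even e) ∧
    ∀ F, ZS J F → Ψ F = (∑ u : ∀ i, H i, (open Classical in
        if (∀ i, i ∉ J → u i = 1) then z u * (F u - F (d.κ * u)) else 0)) +
      e * ∑ u : ∀ i, H i, (open Classical in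
        if (∀ i ∈ J, u i ∈ R i) ∧ (∀ i, i ∉ J → u i = 1) then F u else 0)

/-- the element with the sums over the coordinate `ℓ` -/
def NS (ℓ : ι) (Z : Finset ι → (∀ i, H i) → ℤ) (I : Finset ι) (u : ∀ i, H i) : ℤ :=
  if ℓ ∈ I then Z (I.erase ℓ) (Function.update u ℓ 1) else 0

/-- the pair `a`, `-a`, modulo two -/
def sg (d : Dat H) (i : ι) (a s : H i) : ZMod 2 := if s = a ∨ s = d.κ i * a then 1 else 0

/-- the cell of `w`, modulo two -/
def fI (d : Dat H) (I : Finset ι) (w u : ∀ i, H i) : ZMod 2 := ∏ i ∈ I, sg d i (w i) (u i)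

/-- (A4a) the leading term at one set `I`: the hypotheses are that `X` is killed by the integral odd
systems with zero sums over the coordinate `ℓ`, by those which vanish on all sets with at most `I.card`
elements, and, if `I` has an even number of at least four elements, by one system modulo two with
leading term a cell -/
def S_stp1 : Prop := ∀ (ι : Type) [Fintype ι] [DecidableEq ι] (H : ι → Type) [∀ i, CommGroup (H i)]
  [∀ i, Fintype (H i)] [∀ i, DecidableEq (H i)] (d : Dat H) (R : ∀ i, Finset (H i)), Half d R →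
  ∀ (ℓ : ι) (X : Finset ι → (∀ i, H i) → ℤ) (I : Finset ι), ℓ ∈ I →
  (∀ γ : Finset ι → (∀ i, H i) → ℤ, Sys d ℓ γ → Odd1 d γ → (∀ A u, NN ℓ (γ A) u = 0) →
    pair X γ = 0) →
  (∀ γ : Finset ι → (∀ i, H i) → ℤ, Sys d ℓ γ → Odd1 d γ → (∀ A, A.card ≤ I.card → γ A = 0) →
    pair X γ = 0) →
  (4 ≤ I.card → Even I.card →
    ∃ (w : ∀ i, H i) (c : Finset ι → (∀ i, H i) → ZMod 2), Sys d ℓ c ∧ Odd1 d c ∧
      (∀ A u, NN ℓ (c A) u = 0) ∧ (∀ A, ¬ I ⊆ A → c A = 0) ∧ c I = fI d I w ∧ pair X c = 0) →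
  ∃ (z : (∀ i, H i) → ℤ) (e : ℤ), (I.card ≠ 2 → e = 0) ∧
    (∀ u, (∃ i, i ∉ I.erase ℓ ∧ u i ≠ 1) → z u = 0) ∧
    ∀ (w : ∀ i, H i) (F : (∀ i, H i) → ℤ), Tst ℓ I F → pair X (Od d (Ext d I w F)) =
      (∑ u : ∀ i, H i, z u * (NN ℓ F u - NN ℓ F (d.κ * u))) +
      e * ∑ u : ∀ i, H i, (open Classical in
        if (∀ i ∈ I, i ≠ ℓ → u i ∈ R i) ∧ (∀ i, i ∉ I → u i = 1) then F u else 0)

/-- (A4) one coordinate is removed: the hypotheses are that `X` is killed by the integral odd systems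
with zero sums over the coordinate `ℓ`, and by one system modulo two with leading term a cell for every
set `I` with an even number of at least four elements -/
def S_step : Prop := ∀ (ι : Type) [Fintype ι] [DecidableEq ι] (H : ι → Type) [∀ i, CommGroup (H i)]
  [∀ i, Fintype (H i)] [∀ i, DecidableEq (H i)] (d : Dat H) (R : ∀ i, Finset (H i)), Half d R →
  ∀ (ℓ : ι) (S : Finset ι) (X : Finset ι → (∀ i, H i) → ℤ), ℓ ∈ S → (∀ A, ¬ A ⊆ S → X A = 0) →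
  (∀ γ : Finset ι → (∀ i, H i) → ℤ, Sys d ℓ γ → Odd1 d γ → (∀ A u, NN ℓ (γ A) u = 0) →
    pair X γ = 0) →
  (∀ I : Finset ι, ℓ ∈ I → I ⊆ S → 4 ≤ I.card → Even I.card →
    ∃ (w : ∀ i, H i) (c : Finset ι → (∀ i, H i) → ZMod 2), Sys d ℓ c ∧ Odd1 d c ∧
      (∀ A u, NN ℓ (c A) u = 0) ∧ (∀ A, ¬ I ⊆ A → c A = 0) ∧ c I = fI d I w ∧ pair X c = 0) →
  ∃ (e : ι → ℤ) (Z : Finset ι → (∀ i, H i) → ℤ), (∀ q, q ∉ S → e q = 0) ∧
    (∀ A, ¬ A ⊆ S.erase ℓ → Z A = 0) ∧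
    ∀ (Q : Type) [AddCommGroup Q] (c : Finset ι → (∀ i, H i) → Q), Sys d ℓ c → Odd1 d c →
      pair X c = (∑ q, e q • pair (BR d R ℓ q) c) + pair (NS ℓ Z) c

/-- a path from the cell of `w` to its translate by the Frobenius at `r`; `o` is an enumeration -/
def pth (d : Dat H) (o : ι → ℕ) (I : Finset ι) (r : ι) (w u : ∀ i, H i) : ZMod 2 :=
  ∑ i ∈ I, if d.τ r i = 1 ∨ d.τ r i = d.κ i then 0 else
    (∏ q ∈ I.filter fun q => o q < o i, sg d q (d.τ r q * w q) (u q)) *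
    (∏ q ∈ I.filter fun q => o i < o q, sg d q (w q) (u q)) *
    ((if u r = w r ∧ (u i = w i ∨ u i = d.τ r i * w i) then 1 else 0) +
     (if u r = d.κ r * w r ∧ (u i = d.κ i * w i ∨ u i = d.κ i * d.τ r i * w i) then 1 else 0))

/-- the system modulo two with leading term the cell of `w`, if there is at most one further
coordinate `r` -/
def ps (d : Dat H) (o : ι → ℕ) (I : Finset ι) (r : ι) (w : ∀ i, H i) (A : Finset ι)
    (u : ∀ i, H i) : ZMod 2 :=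
  if A = I then fI d I w u else if A = insert r I then pth d o I r w u else 0

/-- (A5) this is a system -/
def S_path : Prop := ∀ (ι : Type) [Fintype ι] [DecidableEq ι] (H : ι → Type) [∀ i, CommGroup (H i)]
  [∀ i, Fintype (H i)] [∀ i, DecidableEq (H i)] (d : Dat H) (o : ι → ℕ), Function.Injective o →
  ∀ (I : Finset ι) (r : ι) (w : ∀ i, H i), 2 ≤ I.card → insert r I = univ →
  Full d (ps d o I r w) ∧ Odd1 d (ps d o I r w)

/-- the sum over a box, modulo two -/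
noncomputable def bs2 (J : Finset ι) (a : ∀ i, Finset (H i)) (F : (∀ i, H i) → ZMod 2) : ZMod 2 := by
  classical
  exact ∑ u : ∀ i, H i, if (∀ i ∈ J, u i ∈ a i) ∧ (∀ i, i ∉ J → u i = 1) then F u else 0

/-- (A6) if there are few boxes, then there is a cell for which none of the boxes contributes -/
def S_hit2 : Prop := ∀ (ι : Type) [Fintype ι] [DecidableEq ι] (H : ι → Type) [∀ i, CommGroup (H i)]
  [∀ i, Fintype (H i)] [∀ i, DecidableEq (H i)] (d : Dat H) (o : ι → ℕ), Function.Injective o →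
  ∀ (I : Finset ι) (r : ι), insert r I = univ → ∀ (T : Type) [Fintype T] (A : T → Finset ι)
  (b : T → ∀ i, Finset (H i)),
  (∑ t : T, (if A t = I then ∏ i ∈ I, (2 * ((b t i).card : ℚ) / (Fintype.card (H i) : ℚ)) else
    if A t = insert r I then 2 * (I.card : ℚ) * (((b t r).card : ℚ) / (Fintype.card (H r) : ℚ)) *
      ∏ i ∈ I, (2 * ((b t i).card : ℚ) / (Fintype.card (H i) : ℚ)) else 0)) < 1 →
  ∃ w : ∀ i, H i, ∀ t, bs2 (A t) (b t) (ps d o I r w (A t)) = 0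

/-! ### Several special coordinates -/

/-- a family of boxes as in `Bx`, with the special coordinates `Sp` -/
structure BxS (d : Dat H) (ℓ : ι) (Sp : Finset ι) (K : ∀ i, Subgroup (H i)) (T : Type)
    [Fintype T] where
  A : T → Finset ι
  b : T → ∀ i, Finset (H i)
  ε : T → ℤ
  hε : ∀ t, ε t = 1 ∨ ε t = -1
  hℓ : ∀ t, ℓ ∈ A t
  hsmall : ∀ t, Fintype.card T * (b t ℓ).card < Fintype.card (H ℓ)
  hne : ∀ t, ∀ i ∈ A t, (b t i).Nonempty
  hdis : ∀ t, ∀ i ∈ A t, ∀ s ∈ b t i, d.κ i * s ∉ b t i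
  hcov : ∀ t, ∀ i ∈ A t, i ≠ ℓ → (∃ s, s ∉ b t i ∧ d.κ i * s ∉ b t i) ∨
    (i ∈ Sp ∧ ∃ g : H i, ∀ s, s ∈ b t i ↔ g * s ∈ K i)

/-- the element attached to a family of boxes -/
noncomputable def BxS.X {d : Dat H} {ℓ : ι} {Sp : Finset ι} {K : ∀ i, Subgroup (H i)} {T : Type}
    [Fintype T] (β : BxS d ℓ Sp K T) (I : Finset ι) (u : ∀ i, H i) : ℤ := by
  classical
  exact ∑ t, if β.A t = I ∧ (∀ i ∈ I, u i ∈ β.b t i) ∧ (∀ i, i ∉ I → u i = 1) then β.ε t else 0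

/-- (A7) as `S_hit` -/
def S_hitS : Prop := ∀ (ι : Type) [Fintype ι] [DecidableEq ι] (H : ι → Type) [∀ i, CommGroup (H i)]
  [∀ i, Fintype (H i)] [∀ i, DecidableEq (H i)] (d : Dat H) (ℓ : ι) (Sp : Finset ι)
  (K : ∀ i, Subgroup (H i)) (T : Type) [Fintype T] (β : BxS d ℓ Sp K T) (I : Finset ι), ℓ ∈ I →
  ∃ w : ∀ i, H i,
    (∀ F : (∀ i, H i) → ℤ, Dep (I.erase ℓ) F →
      pair β.X (Od d (Ext d I w (fun u => if u ℓ = w ℓ then F u else 0))) = 0) ∨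
    ∃ (e : ℤ) (t : T) (g : ∀ i, H i), (e = 1 ∨ e = -1) ∧ I ⊆ β.A t ∧
    ∀ F : (∀ i, H i) → ℤ, Dep (I.erase ℓ) F →
      pair β.X (Od d (Ext d I w (fun u => if u ℓ = w ℓ then F u else 0))) =
        e * bsum (I.erase ℓ) (fun i => (β.b t i).map (Equiv.mulLeft (g i)).toEmbedding) F

/-- (A8) as `S_top`; there are at most two special coordinates -/
def S_topS : Prop := ∀ (ι : Type) [Fintype ι] [DecidableEq ι] (H : ι → Type) [∀ i, CommGroup (H i)]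
  [∀ i, Fintype (H i)] [∀ i, DecidableEq (H i)] (d : Dat H) (ℓ : ι) (Sp : Finset ι)
  (K : ∀ i, Subgroup (H i)) (T : Type) [Fintype T] (β : BxS d ℓ Sp K T) (I : Finset ι),
  Sp.card ≤ 2 → (∀ i ∈ Sp, ∀ s, s ∈ K i ↔ d.κ i * s ∉ K i) → ℓ ∈ I →
  (∀ γ : Finset ι → (∀ i, H i) → ℤ, Sys d ℓ γ → Odd1 d γ → (∀ A, A.card ≤ I.card → γ A = 0) →
    pair β.X γ = 0) →
  (∀ γ : Finset ι → (∀ i, H i) → ℤ, Sys d ℓ γ → Odd1 d γ → (∀ A u, NN ℓ (γ A) u = 0) →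
    pair β.X γ = 0) →
  ∃ e : ℤ, (e = 0 ∨ ∃ i ∈ Sp, i ≠ ℓ ∧ I = {ℓ, i} ∧ (e = 1 ∨ e = -1)) ∧
    ∀ (w : ∀ i, H i) (F : (∀ i, H i) → ℤ), Tst ℓ I F → pair β.X (Od d (Ext d I w F)) =
      e * ∑ u : ∀ i, H i, (open Classical in
        if (∀ i ∈ I, i ≠ ℓ → u i ∈ K i) ∧ (∀ i, i ∉ I → u i = 1) then F u else 0)

/-- (A9) as `S_abs` -/
def S_absS : Prop := ∀ (ι : Type) [Fintype ι] [DecidableEq ι] (H : ι → Type) [∀ i, CommGroup (H i)]
  [∀ i, Fintype (H i)] [∀ i, DecidableEq (H i)] (d : Dat H) (ℓ : ι) (Sp : Finset ι)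
  (K : ∀ i, Subgroup (H i)) (R : ∀ i, Finset (H i)) (T : Type) [Fintype T] (β : BxS d ℓ Sp K T),
  Sp.card ≤ 2 → (∀ i ∈ Sp, ∀ s, s ∈ K i ↔ d.κ i * s ∉ K i) → Half d R →
  (∀ i ∈ Sp, ∀ s, s ∈ R i ↔ s ∈ K i) →
  (∀ γ : Finset ι → (∀ i, H i) → ℤ, Sys d ℓ γ → Odd1 d γ → (∀ A u, NN ℓ (γ A) u = 0) →
    pair β.X γ = 0) →
  ∃ e : ι → ℤ, (∀ i, e i = 0 ∨ (i ∈ Sp ∧ i ≠ ℓ ∧ (e i = 1 ∨ e i = -1))) ∧
    ∀ (Q : Type) [AddCommGroup Q] (c : Finset ι → (∀ i, H i) → Q), Sys d ℓ c → Odd1 d c →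
    pair β.X c = ∑ i, e i • pair (BR d R ℓ i) c

end Pool.Agent.NH35.HQ
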