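import Mathlib
import Pool.Agent.NH35.HQ.Sys
import Pool.Agent.NH35.HK.A1

set_option autoImplicit false
set_option linter.unusedSectionVars false

/-!
# Systems which vanish on the small sets are combinations of integral ones
-/

namespace Pool.Agent.NH35.HQ

open Finset Pool.Agent.NH35.HK

theorem a1k_of (h1 : S_ext) (h2 : S_dec) : S_a1k := by
  intro ι _ _ H _ _ _ d ℓ X k₀ hX Q _ c hc ho hc0
  have hE : ∀ I : Finset ι, ℓ ∈ I → k₀ < I.card → ∀ F : (∀ i, H i) → Q, Tst ℓ I F →
      pair X (Od d (Ext d I 1 F)) = 0 := by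
    intro I hI hIk F hF
    rw [A1h6.pair_comb d I 1 X (A1h6.DD ℓ I univ) F (A1h6.DD_rep ℓ I F hF univ)]
    apply Finset.sum_eq_zero
    intro v _
    have h3 := h1 ι H d ℓ I hI 1 ℤ (A1h6.DD ℓ I univ v) (A1h6.DD_tst ℓ I hI v)
    rw [hX _ h3.2.1 h3.2.2.1 (fun A hA => h3.2.2.2.2.1 A fun hIA => by
      have := card_le_card hIA
      omega), zero_smul]
  obtain ⟨R, hR⟩ : ∃ R : Finset (H ℓ), ∀ s, s ∈ R ↔ d.κ ℓ * s ∉ R := by
    refine ⟨univ.filter (fun s => Fintype.equivFin (H ℓ) s <
      Fintype.equivFin (H ℓ) (d.κ ℓ * s)), ?_⟩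
    intro s
    have hkk : d.κ ℓ * d.κ ℓ = 1 := congrFun d.hκ ℓ
    have hne : Fintype.equivFin (H ℓ) s ≠ Fintype.equivFin (H ℓ) (d.κ ℓ * s) := by
      intro h
      have h' := (Fintype.equivFin (H ℓ)).injective h
      exact d.hκ1 ℓ (mul_eq_right.mp h'.symm)
    simp only [mem_filter, mem_univ, true_and]
    rw [← mul_assoc, hkk, one_mul, not_lt]
    constructor
    · intro h
      exact h.le
    · intro h
      exact lt_of_le_of_ne h hne
  have key : ∀ m k : ℕ, k₀ < k → Fintype.card ι + 1 ≤ k + m → ∀ c : Finset ι → (∀ i, H i) → Q,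
      Sys d ℓ c → Odd1 d c → (∀ A, A.card < k → c A = 0) → pair X c = 0 := by
    intro m
    induction m with
    | zero =>
      intro k _ hk c _ _ h0
      unfold pair
      apply Finset.sum_eq_zero
      intro A _
      apply Finset.sum_eq_zero
      intro u _
      have hA : A.card ≤ Fintype.card ι := Finset.card_le_univ A
      rw [h0 A (by omega)]
      simp
    | succ m ih =>
      intro k hkk hk c hc ho h0
      obtain ⟨hT, γ', hs', ho', h0', hdec⟩ := h2 ι H d ℓ R hR Q c hc ho k h0
      have hγ' : pair X γ' = 0 :=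
        ih (k + 1) (by omega) (by omega) γ' hs' ho' (fun A hA => h0' A (by omega))
      have e : pair X c = (∑ I ∈ (univ.powersetCard k).filter (fun I => ℓ ∈ I),
          pair X (Od d (Ext d I 1 (fun u => if u ℓ ∈ R then c I u else 0)))) +
            pair X γ' := by
        unfold pair
        have e1 : ∀ A : Finset ι, ∀ u : (∀ i, H i), X A u • c A u =
            (∑ I ∈ (univ.powersetCard k).filter (fun I => ℓ ∈ I),
              X A u • Od d (Ext d I 1 (fun u => if u ℓ ∈ R then c I u else 0)) A u) +
                X A u • γ' A u := by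
          intro A u
          rw [← Finset.smul_sum, ← smul_add, ← hdec A u]
        rw [Finset.sum_congr rfl (fun A _ => Finset.sum_congr rfl (fun u _ => e1 A u))]
        rw [Finset.sum_congr rfl (fun A _ => Finset.sum_add_distrib), Finset.sum_add_distrib]
        congr 1
        calc ∑ A : Finset ι, ∑ u : (∀ i, H i), ∑ I ∈ (univ.powersetCard k).filter (fun I => ℓ ∈ I),
              X A u • Od d (Ext d I 1 (fun u => if u ℓ ∈ R then c I u else 0)) A u
            = ∑ A : Finset ι, ∑ I ∈ (univ.powersetCard k).filter (fun I => ℓ ∈ I),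
              ∑ u : (∀ i, H i),
              X A u • Od d (Ext d I 1 (fun u => if u ℓ ∈ R then c I u else 0)) A u :=
              Finset.sum_congr rfl (fun A _ => Finset.sum_comm)
          _ = _ := Finset.sum_comm
      rw [e, hγ', add_zero]
      apply Finset.sum_eq_zero
      intro I hI
      rw [mem_filter, mem_powersetCard] at hI
      exact hE I hI.2 (by omega) _ (hT I hI.1.2)
  exact key (Fintype.card ι + 1) (k₀ + 1) (by omega) (by omega) c hc ho
    (fun A hA => hc0 A (by omega))

end Pool.Agent.NH35.HQ
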