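import Pool.Agent.NH35.HQ.Sys
import Pool.Agent.NH35.HK.Abs

/-! (HQ-10) the main statement on systems with several special coordinates, from the other
statements. -/

set_option autoImplicit false
set_option linter.unusedSectionVars false

namespace Pool.Agent.NH35.HQ

open Finset Pool.Agent.NH35.HK Pool.Agent.NH35.HK.AbsH

namespace AbsSH

section gen

variable {ι : Type} [Fintype ι] [DecidableEq ι] {H : ι → Type} [∀ i, CommGroup (H i)]
  [∀ i, Fintype (H i)] [∀ i, DecidableEq (H i)]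

theorem pair_subXs' {Q : Type} [AddCommGroup Q] (X : Finset ι → (∀ i, H i) → ℤ)
    (Y : ι → Finset ι → (∀ i, H i) → ℤ) (e : ι → ℤ)
    (c : Finset ι → (∀ i, H i) → Q) (s : Finset ι) :
    pair (fun I u => X I u - ∑ i ∈ s, e i * Y i I u) c =
      pair X c - ∑ i ∈ s, e i • pair (Y i) c := by
  induction s using Finset.induction_on with
  | empty => simp
  | insert a s ha ih =>
    have h1 : (fun (I : Finset ι) (u : ∀ i, H i) => X I u - ∑ i ∈ insert a s, e i * Y i I u) =
        fun I u => (fun I u => X I u - ∑ i ∈ s, e i * Y i I u) I u - e a * Y a I u := by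
      funext I u
      rw [Finset.sum_insert ha]
      ring
    rw [h1, pair_subX, ih, Finset.sum_insert ha]
    abel

theorem pair_subXs {Q : Type} [AddCommGroup Q] (X : Finset ι → (∀ i, H i) → ℤ)
    (Y : ι → Finset ι → (∀ i, H i) → ℤ) (e : ι → ℤ)
    (c : Finset ι → (∀ i, H i) → Q) :
    pair (fun I u => X I u - ∑ i, e i * Y i I u) c = pair X c - ∑ i, e i • pair (Y i) c :=
  pair_subXs' X Y e c univ

theorem BR_small (d : Dat H) (R : ∀ i, Finset (H i)) (ℓ q : ι) {Q : Type}
    [AddCommGroup Q] (c : Finset ι → (∀ i, H i) → Q)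
    (h1 : c {ℓ} = 0) :
    pair (BR d R ℓ q) c = ∑ u : ∀ i, H i, (open Classical in
      if q ≠ ℓ ∧ u ℓ ∈ R ℓ ∧ u q ∈ R q ∧ (∀ i, i ≠ ℓ → i ≠ q → u i = 1) then c {ℓ, q} u
        else 0) := by
  classical
  unfold pair
  rw [Finset.sum_eq_single {ℓ, q}]
  · refine Finset.sum_congr rfl fun u _ => ?_
    unfold BR
    by_cases h : q = ℓ
    · simp [h]
    · have h2 : ({ℓ, q} : Finset ι) ≠ {ℓ} := by
        intro h3
        have : q ∈ ({ℓ} : Finset ι) := by rw [← h3]; simp
        exact h (by simpa using this)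
      simp only [h, if_false, h2, false_and, add_zero, true_and, ne_eq, not_false_eq_true]
      split_ifs with h4
      · rw [one_smul]
      · rw [zero_smul]
  · intro I _ hI
    refine Finset.sum_eq_zero fun u _ => ?_
    unfold BR
    by_cases h : q = ℓ
    · simp [h]
    · by_cases h2 : I = {ℓ}
      · subst h2
        rw [h1]; simp
      · simp [h2, hI]
  · intro h; exact absurd (Finset.mem_univ _) h

theorem BR_self (d : Dat H) (R : ∀ i, Finset (H i)) (ℓ : ι) {Q : Type}
    [AddCommGroup Q] (c : Finset ι → (∀ i, H i) → Q) :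
    pair (BR d R ℓ ℓ) c = 0 := by
  classical
  unfold pair BR
  simp

/-- the sets with two elements one of which is `ℓ` -/
theorem sum_two (ℓ : ι) {M : Type} [AddCommMonoid M] (f : Finset ι → M) :
    ∑ I ∈ (univ.powersetCard 2).filter (fun I => ℓ ∈ I), f I =
      ∑ i ∈ univ.erase ℓ, f {ℓ, i} := by
  classical
  rw [← Finset.sum_image (s := univ.erase ℓ) (g := fun i => ({ℓ, i} : Finset ι)) (f := f)]
  · refine Finset.sum_congr ?_ fun _ _ => rfl
    ext I
    rw [Finset.mem_filter, Finset.mem_powersetCard, Finset.mem_image]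
    constructor
    · rintro ⟨⟨_, hc⟩, hl⟩
      have h1 : (I.erase ℓ).card = 1 := by
        rw [Finset.card_erase_of_mem hl, hc]
      obtain ⟨a, ha⟩ := Finset.card_eq_one.mp h1
      have ha' : a ∈ I.erase ℓ := by rw [ha]; simp
      refine ⟨a, ?_, ?_⟩
      · rw [Finset.mem_erase] at ha' ⊢
        exact ⟨ha'.1, Finset.mem_univ _⟩
      · have := Finset.insert_erase hl
        rw [ha] at this
        exact this
    · rintro ⟨a, ha, rfl⟩
      rw [Finset.mem_erase] at ha
      exact ⟨⟨Finset.subset_univ _, Finset.card_pair (Ne.symm ha.1)⟩, by simp⟩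
  · intro a ha b hb hab
    have ha' : a ≠ ℓ := by
      have := Finset.mem_coe.mp ha
      rw [Finset.mem_erase] at this
      exact this.1
    have h1 : a ∈ ({ℓ, b} : Finset ι) := by
      have h2 : ({ℓ, a} : Finset ι) = {ℓ, b} := hab
      rw [← h2]; simp
    rw [Finset.mem_insert, Finset.mem_singleton] at h1
    rcases h1 with h1 | h1
    · exact absurd h1 ha'
    · exact h1

end gen

end AbsSH

open AbsSH in
theorem absS_of (h1 : S_ext) (h2 : S_dec) (h3 : S_a1) (h6 : S_topS) (h7 : S_br) : S_absS := by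
  classical
  intro ι _ _ H _ _ _ d ℓ Sp K R T _ β hSp hK hR hRK hN
  -- the downward induction
  have hcard : ∀ n : ℕ, (∀ γ : Finset ι → (∀ i, H i) → ℤ, Sys d ℓ γ → Odd1 d γ →
      (∀ A, A.card ≤ 2 + n → γ A = 0) → pair β.X γ = 0) →
      ∀ γ : Finset ι → (∀ i, H i) → ℤ, Sys d ℓ γ → Odd1 d γ →
      (∀ A, A.card ≤ 2 → γ A = 0) → pair β.X γ = 0 := by
    intro n
    induction n with
    | zero => intro h; exact h
    | succ n ih =>
      intro h
      apply ih
      intro γ hs ho hv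
      obtain ⟨ht, γ', hs', ho', hv', hdec⟩ := h2 ι H d ℓ (R ℓ) (hR ℓ) ℤ γ hs ho (2 + (n + 1))
        (fun A hA => hv A (by omega))
      have e1 : γ = (∑ I ∈ (univ.powersetCard (2 + (n + 1))).filter (fun I => ℓ ∈ I),
          Od d (Ext d I 1 (fun u => if u ℓ ∈ R ℓ then γ I u else 0))) + γ' := by
        funext A u
        rw [hdec A u]
        simp [Finset.sum_apply]
      rw [e1, pair_add, pair_sum, h γ' hs' ho' hv', add_zero]
      refine Finset.sum_eq_zero fun I hI => ?_
      rw [Finset.mem_filter, Finset.mem_powersetCard] at hI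
      obtain ⟨e, he, hF⟩ := h6 ι H d ℓ Sp K T β I hSp hK hI.2
        (fun γ hs ho hv => h γ hs ho (fun A hA => hv A (by rw [hI.1.2]; exact hA))) hN
      rw [hF 1 _ (ht I hI.1.2)]
      rcases he with he | ⟨i, _, _, he, _⟩
      · rw [he, zero_mul]
      · exfalso
        have := hI.1.2
        rw [he] at this
        have := Finset.card_le_two (a := ℓ) (b := i)
        omega
  have hQ2 : ∀ γ : Finset ι → (∀ i, H i) → ℤ, Sys d ℓ γ → Odd1 d γ →
      (∀ A, A.card ≤ 2 → γ A = 0) → pair β.X γ = 0 := by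
    apply hcard (Fintype.card ι)
    intro γ _ _ hv
    have : γ = 0 := by
      funext A
      exact hv A (by have := Finset.card_le_univ A; omega)
    rw [this, pair_zero]
  clear hcard
  -- the numbers e
  obtain ⟨e, he, hel, heF⟩ : ∃ e : ι → ℤ,
      (∀ i, e i = 0 ∨ (i ∈ Sp ∧ i ≠ ℓ ∧ (e i = 1 ∨ e i = -1))) ∧ e ℓ = 0 ∧
      ∀ i, i ≠ ℓ → ∀ F : (∀ i, H i) → ℤ, Tst ℓ {ℓ, i} F →
      pair β.X (Od d (Ext d {ℓ, i} 1 F)) =
      e i * ∑ u : ∀ i, H i, (if u i ∈ R i ∧ (∀ j, j ≠ ℓ → j ≠ i → u j = 1) then F u else 0) := by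
    have key : ∀ i : ι, ∃ e : ℤ, (e = 0 ∨ (i ∈ Sp ∧ i ≠ ℓ ∧ (e = 1 ∨ e = -1))) ∧
        (i = ℓ → e = 0) ∧ (i ≠ ℓ → ∀ F : (∀ i, H i) → ℤ, Tst ℓ {ℓ, i} F →
        pair β.X (Od d (Ext d {ℓ, i} 1 F)) =
        e * ∑ u : ∀ i, H i,
          (if u i ∈ R i ∧ (∀ j, j ≠ ℓ → j ≠ i → u j = 1) then F u else 0)) := by
      intro i
      by_cases hi : i = ℓ
      · exact ⟨0, Or.inl rfl, fun _ => rfl, fun h => absurd hi h⟩
      have hc : ({ℓ, i} : Finset ι).card = 2 := Finset.card_pair (Ne.symm hi)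
      obtain ⟨e, he, hF⟩ := h6 ι H d ℓ Sp K T β {ℓ, i} hSp hK (by simp)
        (fun γ hs ho hv => hQ2 γ hs ho (fun A hA => hv A (by rw [hc]; exact hA))) hN
      have he' : e = 0 ∨ (i ∈ Sp ∧ (e = 1 ∨ e = -1)) := by
        rcases he with he | ⟨j, hj, hjl, hij, he⟩
        · exact Or.inl he
        · right
          have h8 : i ∈ ({ℓ, j} : Finset ι) := by rw [← hij]; simp
          rw [Finset.mem_insert, Finset.mem_singleton] at h8
          rcases h8 with h8 | h8
          · exact absurd h8 hi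
          · rw [h8]; exact ⟨hj, he⟩
      refine ⟨e, ?_, fun h => absurd h hi, fun _ F hT => ?_⟩
      · rcases he' with h | ⟨h, h'⟩
        · exact Or.inl h
        · exact Or.inr ⟨h, hi, h'⟩
      · rw [hF 1 F hT]
        rcases he' with h | ⟨h, _⟩
        · rw [h, zero_mul, zero_mul]
        · congr 1
          refine Finset.sum_congr rfl fun u _ => ?_
          have hiff : ((∀ j ∈ ({ℓ, i} : Finset ι), j ≠ ℓ → u j ∈ K j) ∧
              (∀ j, j ∉ ({ℓ, i} : Finset ι) → u j = 1)) ↔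
              (u i ∈ R i ∧ (∀ j, j ≠ ℓ → j ≠ i → u j = 1)) := by
            constructor
            · rintro ⟨a, b⟩
              refine ⟨(hRK i h _).mpr (a i (by simp) hi), fun j h5 h6 => b j ?_⟩
              simp [h5, h6]
            · rintro ⟨a, b⟩
              refine ⟨fun j h5 h6 => ?_, fun j h5 => ?_⟩
              · rw [Finset.mem_insert, Finset.mem_singleton] at h5
                rcases h5 with h5 | h5
                · exact absurd h5 h6
                · subst h5
                  exact (hRK j h _).mp a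
              · rw [Finset.mem_insert, Finset.mem_singleton, not_or] at h5
                exact b j h5.1 h5.2
          by_cases h9 : (u i ∈ R i ∧ (∀ j, j ≠ ℓ → j ≠ i → u j = 1))
          · rw [if_pos h9, if_pos (hiff.mpr h9)]
          · rw [if_neg h9, if_neg (fun h10 => h9 (hiff.mp h10))]
    choose e h8 h9 h10 using key
    exact ⟨e, h8, h9 ℓ rfl, h10⟩
  refine ⟨e, he, ?_⟩
  -- the element X'
  set X' : Finset ι → (∀ i, H i) → ℤ := fun I u => β.X I u - ∑ i, e i * BR d R ℓ i I u with hX'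
  have hX'p : ∀ (Q : Type) [AddCommGroup Q] (c : Finset ι → (∀ i, H i) → Q),
      pair X' c = pair β.X c - ∑ i, e i • pair (BR d R ℓ i) c := by
    intro Q _ c
    exact pair_subXs _ _ _ _
  -- Q'(1)
  have hQ1 : ∀ γ : Finset ι → (∀ i, H i) → ℤ, Sys d ℓ γ → Odd1 d γ →
      (∀ A, A.card ≤ 1 → γ A = 0) → pair X' γ = 0 := by
    intro γ hs ho hv
    obtain ⟨ht, γ', hs', ho', hv', hdec⟩ := h2 ι H d ℓ (R ℓ) (hR ℓ) ℤ γ hs ho 2
      (fun A hA => hv A (by omega))
    have e1 : γ = (∑ I ∈ (univ.powersetCard 2).filter (fun I => ℓ ∈ I),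
        Od d (Ext d I 1 (fun u => if u ℓ ∈ R ℓ then γ I u else 0))) + γ' := by
      funext A u
      rw [hdec A u]
      simp [Finset.sum_apply]
    have e2 : pair β.X γ = ∑ I ∈ (univ.powersetCard 2).filter (fun I => ℓ ∈ I),
        pair β.X (Od d (Ext d I 1 (fun u => if u ℓ ∈ R ℓ then γ I u else 0))) := by
      conv_lhs => rw [e1]
      rw [pair_add, pair_sum, hQ2 γ' hs' ho' hv', add_zero]
    rw [hX'p, e2, sum_two ℓ, ← Finset.add_sum_erase univ _ (Finset.mem_univ ℓ), hel, zero_smul,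
      zero_add, ← Finset.sum_sub_distrib]
    refine Finset.sum_eq_zero fun i hi => ?_
    have hil : i ≠ ℓ := (Finset.mem_erase.mp hi).1
    have hc : ({ℓ, i} : Finset ι).card = 2 := Finset.card_pair (Ne.symm hil)
    rw [BR_small d R ℓ i γ (hv {ℓ} (by simp)), heF i hil _ (ht _ hc), smul_eq_mul, sub_eq_zero]
    congr 1
    refine Finset.sum_congr rfl fun u _ => ?_
    by_cases hu : u ℓ ∈ R ℓ
    · simp [hu, hil]
    · simp [hu]
  -- Q'(0)
  have hl : ℓ ∈ ({ℓ} : Finset ι) := by simp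
  have hw : ∀ (w w' : ∀ i, H i) (F : (∀ i, H i) → ℤ), Tst ℓ {ℓ} F →
      pair X' (Od d (Ext d {ℓ} w F)) = pair X' (Od d (Ext d {ℓ} w' F)) := by
    intro w w' F hT
    obtain ⟨_, s1, o1, v1, z1, _, _⟩ := h1 ι H d ℓ {ℓ} hl w ℤ F hT
    obtain ⟨_, s2, o2, v2, z2, _, _⟩ := h1 ι H d ℓ {ℓ} hl w' ℤ F hT
    rw [← sub_eq_zero, ← pair_sub]
    apply hQ1 _ (Sys.sub s1 s2) (Odd1.sub o1 o2)
    intro A hA
    by_cases hlA : ({ℓ} : Finset ι) ⊆ A
    · have : A = {ℓ} := (Finset.eq_of_subset_of_card_le hlA (by simpa using hA)).symm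
      subst this
      funext u
      rw [Pi.sub_apply, Pi.sub_apply, v1, v2, sub_self]; rfl
    · rw [Pi.sub_apply, z1 A hlA, z2 A hlA, sub_zero]
  have hNz : ∀ (w : ∀ i, H i) (F : (∀ i, H i) → ℤ), Tst ℓ {ℓ} F → (∀ u, NN ℓ F u = 0) →
      pair X' (Od d (Ext d {ℓ} w F)) = 0 := by
    intro w F hT hF
    obtain ⟨s0, s1, o1, v1, z1, n1, _⟩ := h1 ι H d ℓ {ℓ} hl w ℤ F hT
    rw [hX'p, hN _ s1 o1 (fun A u => (n1 hF A u).2), zero_sub, neg_eq_zero]
    refine Finset.sum_eq_zero fun i _ => ?_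
    by_cases h : i = ℓ
    · rw [h, hel, zero_smul]
    · rw [h7 ι H d R hR ℓ i h ℤ _ s0, sum_zero_of_NN ℓ, smul_zero]
      intro u
      unfold NN
      have hu : ∀ s : H ℓ, (Function.update u ℓ s i ∈ R i ∧ ∀ j, j ≠ ℓ → j ≠ i →
          Function.update u ℓ s j = 1) ↔ (u i ∈ R i ∧ ∀ j, j ≠ ℓ → j ≠ i → u j = 1) := by
        intro s
        rw [Function.update_of_ne h]
        constructor
        · rintro ⟨a, b⟩
          refine ⟨a, fun j h5 h6 => ?_⟩
          have := b j h5 h6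
          rwa [Function.update_of_ne h5] at this
        · rintro ⟨a, b⟩
          refine ⟨a, fun j h5 h6 => ?_⟩
          rw [Function.update_of_ne h5]
          exact b j h5 h6
      by_cases hc : (u i ∈ R i ∧ ∀ j, j ≠ ℓ → j ≠ i → u j = 1)
      · rw [← (n1 hF {ℓ, i} u).1]
        unfold NN
        refine Finset.sum_congr rfl fun s _ => ?_
        exact if_pos ((hu s).mpr hc)
      · refine Finset.sum_eq_zero fun s _ => ?_
        exact if_neg (fun h5 => hc ((hu s).mp h5))
  have hκκ : ∀ u : ∀ i, H i, d.κ * (d.κ * u) = u := by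
    intro u
    rw [← mul_assoc, d.hκ, one_mul]
  have hy : ∀ (F : (∀ i, H i) → ℤ), Tst ℓ {ℓ} F →
      pair X' (Od d (Ext d {ℓ} 1 F)) = 0 := by
    intro F hT
    have hTκ : Tst ℓ {ℓ} (fun u => F (d.κ * u)) := by
      refine ⟨fun u v huv => ?_, fun q hq hql => ?_⟩
      · apply hT.dep
        intro i hi
        simp only [Pi.mul_apply]
        rw [huv i hi]
      · exact absurd (by simpa using hq) hql
    have hTs : Tst ℓ {ℓ} (F - fun u => F (d.κ * u)) := by
      refine ⟨Dep.sub hT.dep hTκ.dep, fun q hq hql => ?_⟩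
      exact absurd (by simpa using hq) hql
    have hNs : ∀ u, NN ℓ (F - fun u => F (d.κ * u)) u = 0 := by
      intro u
      rw [NN_sub, sub_eq_zero]
      unfold NN
      refine Finset.sum_nbij' (fun s => d.κ ℓ * s) (fun s => d.κ ℓ * s) ?_ ?_ ?_ ?_ ?_
      · intro s _; exact Finset.mem_univ _
      · intro s _; exact Finset.mem_univ _
      · intro s _
        rw [← mul_assoc, ← Pi.mul_apply, d.hκ, Pi.one_apply, one_mul]
      · intro s _
        rw [← mul_assoc, ← Pi.mul_apply, d.hκ, Pi.one_apply, one_mul]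
      · intro s _
        apply hT.dep
        intro i hi
        rw [Finset.mem_singleton] at hi
        subst hi
        rw [Function.update_self, Pi.mul_apply, Function.update_self, ← mul_assoc, ← Pi.mul_apply,
          d.hκ, Pi.one_apply, one_mul]
    have hz := hNz 1 _ hTs hNs
    rw [Ext_sub, Od_sub, pair_sub] at hz
    obtain ⟨_, _, _, _, _, _, r1⟩ := h1 ι H d ℓ {ℓ} hl 1 ℤ F hT
    rw [r1, pair_neg, ← hw 1 (d.κ * 1) F hT] at hz
    omega
  have hall : ∀ γ : Finset ι → (∀ i, H i) → ℤ, Sys d ℓ γ → Odd1 d γ → pair X' γ = 0 := by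
    intro γ hs ho
    obtain ⟨ht, γ', hs', ho', hv', hdec⟩ := h2 ι H d ℓ (R ℓ) (hR ℓ) ℤ γ hs ho 1
      (fun A hA => hs.sup A (by
        have : A = ∅ := Finset.card_eq_zero.mp (by omega)
        rw [this]; simp))
    have e1 : γ = (∑ I ∈ (univ.powersetCard 1).filter (fun I => ℓ ∈ I),
        Od d (Ext d I 1 (fun u => if u ℓ ∈ R ℓ then γ I u else 0))) + γ' := by
      funext A u
      rw [hdec A u]
      simp [Finset.sum_apply]
    rw [e1, pair_add, pair_sum, hQ1 γ' hs' ho' hv', add_zero]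
    refine Finset.sum_eq_zero fun I hI => ?_
    rw [Finset.mem_filter, Finset.mem_powersetCard] at hI
    have hI1 : I = {ℓ} := by
      obtain ⟨a, ha⟩ := Finset.card_eq_one.mp hI.1.2
      have h5 := hI.2
      rw [ha, Finset.mem_singleton] at h5
      rw [ha, h5]
    have hT := ht I hI.1.2
    rw [hI1] at hT ⊢
    exact hy _ hT
  intro Q _ c hs ho
  have := h3 ι H d ℓ X' hall Q c hs ho
  rw [hX'p] at this
  exact sub_eq_zero.mp this

end Pool.Agent.NH35.HQ
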