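import Pool.Agent.NH35.HQ.Sys

/-! Odd functionals on the functions with zero sums. -/

set_option autoImplicit false
set_option linter.unusedSectionVars false

namespace Pool.Agent.NH35.HQ

open Finset Pool.Agent.NH35.HK

namespace AlgC

variable {ι : Type} [Fintype ι] [DecidableEq ι] {H : ι → Type} [∀ i, CommGroup (H i)]
  [∀ i, Fintype (H i)] [∀ i, DecidableEq (H i)]

/-! ### functions with zero sums -/

theorem zs_zero (J : Finset ι) : ZS J (0 : (∀ i, H i) → ℤ) :=
  ⟨fun _ _ _ => rfl, fun q _ u => Finset.sum_eq_zero fun _ _ => rfl⟩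

theorem zs_add {J : Finset ι} {F G : (∀ i, H i) → ℤ} (hF : ZS J F) (hG : ZS J G) :
    ZS J (F + G) := by
  refine ⟨fun u v h => ?_, fun q hq u => ?_⟩
  · rw [Pi.add_apply, Pi.add_apply, hF.dep u v h, hG.dep u v h]
  · have h1 := hF.nul q hq u
    have h2 := hG.nul q hq u
    unfold NN at h1 h2 ⊢
    simp only [Pi.add_apply, Finset.sum_add_distrib]
    rw [h1, h2, add_zero]

theorem zs_neg {J : Finset ι} {F : (∀ i, H i) → ℤ} (hF : ZS J F) : ZS J (-F) := by
  refine ⟨fun u v h => ?_, fun q hq u => ?_⟩
  · rw [Pi.neg_apply, Pi.neg_apply, hF.dep u v h]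
  · have h1 := hF.nul q hq u
    unfold NN at h1 ⊢
    simp only [Pi.neg_apply, Finset.sum_neg_distrib]
    rw [h1, neg_zero]

theorem zs_sum {J : Finset ι} {K : Type} (s : Finset K) (F : K → (∀ i, H i) → ℤ)
    (hF : ∀ k ∈ s, ZS J (F k)) : ZS J (∑ k ∈ s, F k) :=
  Finset.sum_induction F (ZS J) (fun _ _ => zs_add) (zs_zero J) hF

/-- additive on the functions with zero sums -/
def Adt (J : Finset ι) (Ψ : ((∀ i, H i) → ℤ) → ℤ) : Prop :=
  ∀ F G, ZS J F → ZS J G → Ψ (F + G) = Ψ F + Ψ G

theorem adt_zero {J : Finset ι} {Ψ : ((∀ i, H i) → ℤ) → ℤ} (h : Adt J Ψ) : Ψ 0 = 0 := by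
  have h1 := h 0 0 (zs_zero J) (zs_zero J)
  rw [add_zero] at h1
  omega

theorem adt_neg {J : Finset ι} {Ψ : ((∀ i, H i) → ℤ) → ℤ} (h : Adt J Ψ) {F : (∀ i, H i) → ℤ}
    (hF : ZS J F) : Ψ (-F) = - Ψ F := by
  have h1 := h F (-F) hF (zs_neg hF)
  rw [add_neg_cancel, adt_zero h] at h1
  omega

theorem adt_sum {J : Finset ι} {Ψ : ((∀ i, H i) → ℤ) → ℤ} (h : Adt J Ψ) {K : Type}
    (s : Finset K) (F : K → (∀ i, H i) → ℤ) (hF : ∀ k ∈ s, ZS J (F k)) :
    Ψ (∑ k ∈ s, F k) = ∑ k ∈ s, Ψ (F k) := by
  classical
  induction s using Finset.induction_on with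
  | empty => rw [Finset.sum_empty, Finset.sum_empty]; exact adt_zero h
  | insert a s ha ih =>
    have h1 : ∀ k ∈ s, ZS J (F k) := fun k hk => hF k (Finset.mem_insert_of_mem hk)
    rw [Finset.sum_insert ha, Finset.sum_insert ha, h _ _ (hF a (Finset.mem_insert_self _ _))
      (zs_sum s F h1), ih h1]

/-- the product with a function of one coordinate -/
def tn (i : ι) (f : H i → ℤ) (G : (∀ i, H i) → ℤ) (u : ∀ i, H i) : ℤ := f (u i) * G u

theorem zs_tn {J : Finset ι} {i : ι} (hi : i ∉ J) {f : H i → ℤ} (hf : ∑ s, f s = 0)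
    {G : (∀ i, H i) → ℤ} (hG : ZS J G) : ZS (insert i J) (tn i f G) := by
  refine ⟨fun u v h => ?_, fun q hq u => ?_⟩
  · unfold tn
    rw [h i (Finset.mem_insert_self _ _), hG.dep u v fun j hj => h j (Finset.mem_insert_of_mem hj)]
  · unfold NN tn
    by_cases hqi : q = i
    · subst hqi
      have e1 : ∀ s : H q, G (Function.update u q s) = G u := fun s =>
        hG.dep _ _ fun j hj => Function.update_of_ne (fun e : j = q => hi (e ▸ hj)) _ _
      simp only [Function.update_self, e1]
      rw [← Finset.sum_mul, hf, zero_mul]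
    · have hq' : q ∈ J := (Finset.mem_insert.1 hq).resolve_left hqi
      have h1 := hG.nul q hq' u
      unfold NN at h1
      simp only [Function.update_of_ne (Ne.symm hqi)]
      rw [← Finset.mul_sum, h1, mul_zero]

theorem tn_add (i : ι) (f : H i → ℤ) (G G' : (∀ i, H i) → ℤ) :
    tn i f (G + G') = tn i f G + tn i f G' := by
  funext u
  unfold tn
  rw [Pi.add_apply, Pi.add_apply, mul_add]

theorem adt_tn {J : Finset ι} {i : ι} (hi : i ∉ J) {f : H i → ℤ} (hf : ∑ s, f s = 0)
    {Ψ : ((∀ i, H i) → ℤ) → ℤ} (h : Adt (insert i J) Ψ) : Adt J fun G => Ψ (tn i f G) := by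
  intro F G hF hG
  show Ψ (tn i f (F + G)) = _
  rw [tn_add, h _ _ (zs_tn hi hf hF) (zs_tn hi hf hG)]

theorem zs_sl {J : Finset ι} {i : ι} (hi : i ∉ J) {F : (∀ i, H i) → ℤ}
    (hF : ZS (insert i J) F) (s : H i) : ZS J fun u => F (Function.update u i s) := by
  refine ⟨fun u v h => ?_, fun q hq u => ?_⟩
  · refine hF.dep _ _ fun j hj => ?_
    by_cases hji : j = i
    · subst hji
      rw [Function.update_self, Function.update_self]
    · rw [Function.update_of_ne hji, Function.update_of_ne hji]
      exact h j ((Finset.mem_insert.1 hj).resolve_left hji)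
  · have hqi : q ≠ i := fun e => hi (e ▸ hq)
    have h1 := hF.nul q (Finset.mem_insert_of_mem hq) (Function.update u i s)
    unfold NN at h1 ⊢
    rw [← h1]
    refine Finset.sum_congr rfl fun t _ => ?_
    show F (Function.update (Function.update u q t) i s) = _
    rw [Function.update_comm hqi]

section kappa

variable (d : Dat H)

theorem kk (i : ι) : d.κ i * d.κ i = 1 := congrFun d.hκ i

theorem kks (i : ι) (s : H i) : d.κ i * (d.κ i * s) = s := by
  rw [← mul_assoc, kk, one_mul]

theorem kku (u : ∀ i, H i) : d.κ * (d.κ * u) = u := by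
  rw [← mul_assoc, d.hκ, one_mul]

theorem kup (u : ∀ i, H i) (q : ι) (s : H q) :
    d.κ * Function.update u q s = Function.update (d.κ * u) q (d.κ q * s) := by
  funext j
  by_cases h : j = q
  · subst h
    rw [Pi.mul_apply, Function.update_self, Function.update_self]
  · rw [Pi.mul_apply, Function.update_of_ne h, Function.update_of_ne h, Pi.mul_apply]

theorem zs_kap {J : Finset ι} {F : (∀ i, H i) → ℤ} (hF : ZS J F) :
    ZS J fun u => F (d.κ * u) := by
  refine ⟨fun u v h => ?_, fun q hq u => ?_⟩
  · refine hF.dep _ _ fun j hj => ?_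
    rw [Pi.mul_apply, Pi.mul_apply, h j hj]
  · have h1 := hF.nul q hq (d.κ * u)
    unfold NN at h1 ⊢
    rw [← h1]
    simp only [kup]
    exact Equiv.sum_comp (Equiv.mulLeft (d.κ q)) fun s => F (Function.update (d.κ * u) q s)

variable {d} {R : ∀ i, Finset (H i)}

theorem half_sum (hR : Half d R) (i : ι) (g : H i → ℤ) :
    ∑ s, g s = ∑ s ∈ R i, g s + ∑ s ∈ R i, g (d.κ i * s) := by
  rw [← Finset.sum_add_sum_compl (R i) g]
  congr 1
  refine Finset.sum_nbij' (fun s => d.κ i * s) (fun s => d.κ i * s) ?_ ?_ ?_ ?_ ?_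
  · intro s hs
    by_contra h
    exact (Finset.mem_compl.1 hs) ((hR i s).2 h)
  · intro s hs
    exact Finset.mem_compl.2 ((hR i s).1 hs)
  · intro s _
    exact kks d i s
  · intro s _
    exact kks d i s
  · intro s _
    rw [kks]

/-- if the sum vanishes, the sum over the other half is the negative -/
theorem half_neg (hR : Half d R) (i : ι) {g : H i → ℤ} (h : ∑ s, g s = 0) :
    ∑ s ∈ R i, g (d.κ i * s) = - ∑ s ∈ R i, g s := by
  have := half_sum hR i g
  omega

theorem exists_r (hR : Half d R) (i : ι) : ∃ r, r ∈ R i := by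
  by_cases h : (1 : H i) ∈ R i
  · exact ⟨_, h⟩
  · refine ⟨d.κ i * 1, ?_⟩
    by_contra h1
    exact h ((hR i 1).2 h1)

end kappa

/-! ### representation of functionals -/

theorem rep {K : Type} (s : Finset K) (c : K → ℤ) (v : K → ∀ i, H i) :
    ∃ z : (∀ i, H i) → ℤ, (∀ u, (∀ k ∈ s, v k ≠ u) → z u = 0) ∧
      ∀ F : (∀ i, H i) → ℤ, ∑ k ∈ s, c k * F (v k) = ∑ u, z u * F u := by
  refine ⟨fun u => ∑ k ∈ s, if v k = u then c k else 0, fun u hu => ?_, fun F => ?_⟩
  · exact Finset.sum_eq_zero fun k hk => if_neg (hu k hk)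
  · simp only [Finset.sum_mul, ite_mul, zero_mul]
    rw [Finset.sum_comm]
    refine Finset.sum_congr rfl fun k _ => ?_
    rw [Finset.sum_ite_eq, if_pos (Finset.mem_univ _)]

theorem zs_const (m : ℤ) : ZS (∅ : Finset ι) (fun _ : ∀ i, H i => m) :=
  ⟨fun _ _ _ => rfl, fun q hq => absurd hq (Finset.notMem_empty q)⟩

theorem const_lin {Ψ : ((∀ i, H i) → ℤ) → ℤ} (h : Adt ∅ Ψ) (m : ℤ) :
    Ψ (fun _ => m) = m * Ψ (fun _ => 1) := by
  let f : ℤ →+ ℤ := AddMonoidHom.mk' (fun m => Ψ fun _ => m) fun a b =>
    h (fun _ => a) (fun _ => b) (zs_const a) (zs_const b)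
  have h1 : f (m • 1) = m • f 1 := map_zsmul f m 1
  rw [smul_eq_mul, smul_eq_mul, mul_one] at h1
  exact h1

theorem zs_emp {F : (∀ i, H i) → ℤ} (hF : ZS (∅ : Finset ι) F) : F = fun _ => F 1 :=
  funext fun u => hF.dep u 1 fun j hj => absurd hj (Finset.notMem_empty j)

/-- the difference of two elements -/
def df {i : ι} (a b : H i) (s : H i) : ℤ := (if s = a then 1 else 0) - (if s = b then 1 else 0)

theorem df_sum {i : ι} (a b : H i) : ∑ s, df a b s = 0 := by
  unfold df
  rw [Finset.sum_sub_distrib, Finset.sum_ite_eq', Finset.sum_ite_eq', if_pos (Finset.mem_univ _),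
    if_pos (Finset.mem_univ _), sub_self]

theorem p0 (J : Finset ι) : ∀ Ψ : ((∀ i, H i) → ℤ) → ℤ, Adt J Ψ →
    ∃ φ : (∀ i, H i) → ℤ, ∀ F, ZS J F → Ψ F = ∑ u, φ u * F u := by
  induction J using Finset.induction_on with
  | empty =>
    intro Ψ h
    obtain ⟨z, -, hz⟩ := rep (H := H) ({()} : Finset Unit) (fun _ => Ψ fun _ => 1) (fun _ => 1)
    refine ⟨z, fun F hF => ?_⟩
    rw [← hz, Finset.sum_singleton, zs_emp hF, const_lin h]
    ring
  | insert i J hi ih =>
    intro Ψ h
    have h1 : ∀ b : H i, ∃ φ : (∀ i, H i) → ℤ, ∀ G, ZS J G →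
        Ψ (tn i (df b 1) G) = ∑ u, φ u * G u := fun b =>
      ih _ (adt_tn hi (df_sum b 1) h)
    choose φ hφ using h1
    obtain ⟨z, -, hz⟩ := rep (H := H) (Finset.univ : Finset (H i × (∀ i, H i)))
      (fun k => φ k.1 k.2) (fun k => Function.update k.2 i k.1)
    refine ⟨z, fun F hF => ?_⟩
    have e1 : F = ∑ b : H i, tn i (df b 1) fun u => F (Function.update u i b) := by
      funext u
      rw [Finset.sum_apply]
      unfold tn df
      simp only [sub_mul, ite_mul, one_mul, zero_mul]
      rw [Finset.sum_sub_distrib, Finset.sum_ite_eq, if_pos (Finset.mem_univ _),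
        Function.update_eq_self]
      have h2 := hF.nul i (Finset.mem_insert_self _ _) u
      unfold NN at h2
      by_cases h3 : u i = 1
      · simp only [if_pos h3]
        rw [h2, sub_zero]
      · simp only [if_neg h3]
        rw [Finset.sum_const_zero, sub_zero]
    have e2 : Ψ F = ∑ b : H i, Ψ (tn i (df b 1) fun u => F (Function.update u i b)) := by
      conv_lhs => rw [e1]
      exact adt_sum h _ _ fun b _ => zs_tn hi (df_sum b 1) (zs_sl hi hF b)
    rw [e2, ← hz, Fintype.sum_prod_type]
    exact Finset.sum_congr rfl fun b _ => hφ b _ (zs_sl hi hF b)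

/-- the sum over the halves -/
def S2 (R : ∀ i, Finset (H i)) (J : Finset ι) (F : (∀ i, H i) → ℤ) : ℤ :=
  ∑ u ∈ Fintype.piFinset (fun j => if j ∈ J then R j else {1}), F u

theorem s2_empty (R : ∀ i, Finset (H i)) (F : (∀ i, H i) → ℤ) : S2 R ∅ F = F 1 := by
  unfold S2
  have e1 : Fintype.piFinset (fun j => if j ∈ (∅ : Finset ι) then R j else {1}) =
      ({1} : Finset (∀ i, H i)) := by
    ext u
    rw [Fintype.mem_piFinset, Finset.mem_singleton]
    constructor
    · intro h
      funext j
      have := h j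
      rw [if_neg (Finset.notMem_empty j), Finset.mem_singleton] at this
      exact this
    · rintro rfl j
      rw [if_neg (Finset.notMem_empty j), Finset.mem_singleton]
      rfl
  rw [e1, Finset.sum_singleton]

theorem s2_insert (R : ∀ i, Finset (H i)) {J : Finset ι} {i : ι} (hi : i ∉ J)
    (F : (∀ i, H i) → ℤ) :
    S2 R (insert i J) F = ∑ s ∈ R i, S2 R J fun u => F (Function.update u i s) := by
  unfold S2
  rw [← Finset.sum_product' (R i) _ fun s u => F (Function.update u i s)]
  refine Finset.sum_nbij' (fun v => (v i, Function.update v i 1))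
    (fun x => Function.update x.2 i x.1) ?_ ?_ ?_ ?_ ?_
  · intro v hv
    rw [Fintype.mem_piFinset] at hv
    rw [Finset.mem_product, Fintype.mem_piFinset]
    refine ⟨?_, fun j => ?_⟩
    · have := hv i
      rwa [if_pos (Finset.mem_insert_self _ _)] at this
    · by_cases hj : j = i
      · subst hj
        rw [if_neg hi]
        show Function.update v j 1 j ∈ _
        rw [Function.update_self, Finset.mem_singleton]
      · have := hv j
        show Function.update v i 1 j ∈ _
        rw [Function.update_of_ne hj]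
        by_cases hjJ : j ∈ J
        · rw [if_pos hjJ]
          rwa [if_pos (Finset.mem_insert_of_mem hjJ)] at this
        · rw [if_neg hjJ]
          rwa [if_neg fun h => hjJ ((Finset.mem_insert.1 h).resolve_left hj)] at this
  · rintro ⟨s, u⟩ hx
    rw [Finset.mem_product, Fintype.mem_piFinset] at hx
    obtain ⟨h1, h2⟩ := hx
    rw [Fintype.mem_piFinset]
    intro j
    show Function.update u i s j ∈ _
    by_cases hj : j = i
    · subst hj
      rw [Function.update_self, if_pos (Finset.mem_insert_self _ _)]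
      exact h1
    · have := h2 j
      rw [Function.update_of_ne hj]
      by_cases hjJ : j ∈ J
      · rw [if_pos (Finset.mem_insert_of_mem hjJ)]
        rwa [if_pos hjJ] at this
      · rw [if_neg fun h => hjJ ((Finset.mem_insert.1 h).resolve_left hj)]
        rwa [if_neg hjJ] at this
  · intro v _
    show Function.update (Function.update v i 1) i (v i) = v
    rw [Function.update_idem, Function.update_eq_self]
  · rintro ⟨s, u⟩ hx
    rw [Finset.mem_product, Fintype.mem_piFinset] at hx
    have h2 := hx.2 i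
    rw [if_neg hi, Finset.mem_singleton] at h2
    show (Function.update u i s i, Function.update (Function.update u i s) i 1) = (s, u)
    rw [Function.update_self, Function.update_idem]
    have h3 : Function.update u i 1 = u := by
      conv_rhs => rw [← Function.update_eq_self i u]
      have h4 : u i = 1 := h2
      rw [h4]
    rw [h3]
  · intro v _
    show F v = F (Function.update (Function.update v i 1) i (v i))
    rw [Function.update_idem, Function.update_eq_self]

/-! ### the main induction -/

section main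

variable {d : Dat H} {R : ∀ i, Finset (H i)}

/-- the representative of the half of `b` -/
def rb (d : Dat H) (R : ∀ i, Finset (H i)) {i : ι} (r b : H i) : H i :=
  if b ∈ R i then r else d.κ i * r

theorem rb_k (hR : Half d R) {i : ι} (r b : H i) : rb d R r (d.κ i * b) = d.κ i * rb d R r b := by
  unfold rb
  by_cases h : b ∈ R i
  · rw [if_pos h, if_neg ((hR i b).1 h)]
  · have h1 : d.κ i * b ∈ R i := by
      by_contra h1
      exact h ((hR i b).2 h1)
    rw [if_neg h, if_pos h1, kks]

theorem df_k {i : ι} (a b s : H i) : df a b (d.κ i * s) = df (d.κ i * a) (d.κ i * b) s := by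
  have h : ∀ x y : H i, d.κ i * x = y ↔ x = d.κ i * y := fun x y =>
    ⟨fun e => by rw [← e, kks], fun e => by rw [e, kks]⟩
  unfold df
  simp only [h]

theorem df_swap {i : ι} (a b s : H i) : df a b s = - df b a s := by
  unfold df
  ring

/-- the decomposition of a function with zero sum -/
theorem decomp (hR : Half d R) {i : ι} (r : H i) (g : H i → ℤ) (hg : ∑ s, g s = 0) (t : H i) :
    ∑ b, df b (rb d R r b) t * g b + df r (d.κ i * r) t * ∑ s ∈ R i, g s = g t := by
  unfold df
  simp only [sub_mul, ite_mul, one_mul, zero_mul]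
  rw [Finset.sum_sub_distrib, Finset.sum_ite_eq, if_pos (Finset.mem_univ _)]
  have e1 : ∑ b, (if t = rb d R r b then g b else 0) =
      (if t = r then ∑ s ∈ R i, g s else 0) - (if t = d.κ i * r then ∑ s ∈ R i, g s else 0) := by
    rw [half_sum hR i]
    have e2 : ∑ s ∈ R i, (if t = rb d R r s then g s else 0) =
        if t = r then ∑ s ∈ R i, g s else 0 := by
      have e4 : ∀ s ∈ R i, (if t = rb d R r s then g s else 0) = if t = r then g s else 0 := by
        intro s hs
        rw [show rb d R r s = r from if_pos hs]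
      rw [Finset.sum_congr rfl e4]
      by_cases h : t = r
      · simp only [if_pos h]
      · simp only [if_neg h, Finset.sum_const_zero]
    have e3 : ∑ s ∈ R i, (if t = rb d R r (d.κ i * s) then g (d.κ i * s) else 0) =
        - if t = d.κ i * r then ∑ s ∈ R i, g s else 0 := by
      have e4 : ∀ s ∈ R i, (if t = rb d R r (d.κ i * s) then g (d.κ i * s) else 0) =
          if t = d.κ i * r then g (d.κ i * s) else 0 := by
        intro s hs
        rw [show rb d R r (d.κ i * s) = d.κ i * r from if_neg ((hR i s).1 hs)]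
      rw [Finset.sum_congr rfl e4]
      by_cases h : t = d.κ i * r
      · simp only [if_pos h]
        exact half_neg hR i hg
      · simp only [if_neg h, Finset.sum_const_zero, neg_zero]
    rw [e2, e3]
    ring
  rw [e1]
  ring

theorem pm (hR : Half d R) (J : Finset ι) : ∀ (ε : ℤ) (Ψ : ((∀ i, H i) → ℤ) → ℤ),
    (ε = 1 ∨ ε = -1) → Adt J Ψ → (∀ F, ZS J F → Ψ (fun u => F (d.κ * u)) = ε * Ψ F) →
    ∃ (z : (∀ i, H i) → ℤ) (e : ℤ), (ε ≠ (-1) ^ J.card → e = 0) ∧
      ∀ F, ZS J F → Ψ F = ∑ u, z u * (F u + ε * F (d.κ * u)) + e * S2 R J F := by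
  induction J using Finset.induction_on with
  | empty =>
    intro ε Ψ hε h hΨ
    rcases hε with rfl | rfl
    · refine ⟨0, Ψ fun _ => 1, fun h1 => absurd (by simp) h1, fun F hF => ?_⟩
      rw [s2_empty]
      conv_lhs => rw [zs_emp hF, const_lin h]
      simp only [Pi.zero_apply, zero_mul, Finset.sum_const_zero, zero_add]
      ring
    · refine ⟨0, 0, fun _ => rfl, fun F hF => ?_⟩
      have h1 := hΨ F hF
      have h2 : (fun u => F (d.κ * u)) = F := by
        rw [zs_emp hF]
      rw [h2] at h1
      simp only [Pi.zero_apply, zero_mul, Finset.sum_const_zero, zero_add]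
      omega
  | insert i J hi ih =>
    intro ε Ψ hε h hΨ
    obtain ⟨r, hr⟩ := exists_r hR i
    -- the functionals with a fixed function of the new coordinate
    have h1 : ∀ b : H i, ∃ φ : (∀ i, H i) → ℤ, ∀ G, ZS J G →
        Ψ (tn i (df b (rb d R r b)) G) = ∑ u, φ u * G u := fun b =>
      p0 J _ (adt_tn hi (df_sum _ _) h)
    choose φ hφ using h1
    obtain ⟨z, e, he, hz⟩ := ih (-ε) (fun G => Ψ (tn i (df r (d.κ i * r)) G))
      (by rcases hε with h | h <;> rw [h] <;> simp) (adt_tn hi (df_sum _ _) h) (by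
        intro G hG
        have e1 : (tn i (df r (d.κ i * r)) fun u => G (d.κ * u)) =
            -(fun u => tn i (df r (d.κ i * r)) G (d.κ * u)) := by
          funext u
          rw [Pi.neg_apply]
          unfold tn
          rw [Pi.mul_apply, df_k, kks, df_swap (d.κ i * r) r]
          ring
        have h2 := zs_tn hi (df_sum r (d.κ i * r)) hG
        show Ψ (tn i (df r (d.κ i * r)) fun u => G (d.κ * u)) = _
        rw [e1, adt_neg h (zs_kap d h2), hΨ _ h2]
        ring)
    obtain ⟨z', -, hz'⟩ := rep (H := H) (R i ×ˢ (Finset.univ : Finset (∀ i, H i)))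
      (fun k => φ k.1 k.2 + z k.2) (fun k => Function.update k.2 i k.1)
    refine ⟨z', e, fun h1 => he ?_, fun F hF => ?_⟩
    · intro h2
      apply h1
      rw [Finset.card_insert_of_notMem hi, pow_succ, ← h2]
      ring
    · have hF0 : ∀ u, ∑ s, F (Function.update u i s) = 0 :=
        hF.nul i (Finset.mem_insert_self _ _)
      set Fr : (∀ i, H i) → ℤ := ∑ s ∈ R i, fun u => F (Function.update u i s) with hFr
      have hFrZ : ZS J Fr := zs_sum _ _ fun s _ => zs_sl hi hF s
      have e1 : F = (∑ b : H i, tn i (df b (rb d R r b)) fun u => F (Function.update u i b)) +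
          tn i (df r (d.κ i * r)) Fr := by
        funext u
        rw [Pi.add_apply, Finset.sum_apply]
        unfold tn
        rw [hFr, Finset.sum_apply]
        have h2 := decomp hR r (fun s => F (Function.update u i s)) (hF0 u) (u i)
        rw [h2, Function.update_eq_self]
      have e2 : Ψ F = ∑ b : H i, Ψ (tn i (df b (rb d R r b)) fun u => F (Function.update u i b)) +
          Ψ (tn i (df r (d.κ i * r)) Fr) := by
        conv_lhs => rw [e1]
        have h3 : ∀ b ∈ (Finset.univ : Finset (H i)), ZS (insert i J)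
            (tn i (df b (rb d R r b)) fun u => F (Function.update u i b)) := fun b _ =>
          zs_tn hi (df_sum _ _) (zs_sl hi hF b)
        rw [h _ _ (zs_sum _ _ h3) (zs_tn hi (df_sum _ _) hFrZ), adt_sum h _ _ h3]
      have e3 : ∀ b : H i, Ψ (tn i (df (d.κ i * b) (rb d R r (d.κ i * b)))
          fun u => F (Function.update u i (d.κ i * b))) =
          ε * ∑ u, φ b u * F (d.κ * Function.update u i b) := by
        intro b
        have h2 : ZS J fun u => F (d.κ * Function.update u i b) := by
          have h4 := zs_kap d (zs_sl hi hF (d.κ i * b))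
          have h5 : (fun u => F (Function.update (d.κ * u) i (d.κ i * b))) =
              fun u => F (d.κ * Function.update u i b) := by
            funext u
            rw [kup]
          rw [← h5]
          exact h4
        have h3 : (tn i (df (d.κ i * b) (rb d R r (d.κ i * b)))
            fun u => F (Function.update u i (d.κ i * b))) =
            fun u => tn i (df b (rb d R r b)) (fun u => F (d.κ * Function.update u i b))
              (d.κ * u) := by
          funext u
          unfold tn
          show _ * F (Function.update u i (d.κ i * b)) =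
            _ * F (d.κ * Function.update (d.κ * u) i b)
          rw [Pi.mul_apply, df_k, rb_k hR, kup, kku]
        rw [h3, hΨ _ (zs_tn hi (df_sum _ _) h2), hφ b _ h2]
      have e4 : ∀ u, Fr u = ∑ s ∈ R i, F (Function.update u i s) := fun u => by
        rw [hFr, Finset.sum_apply]
      have e5 : ∀ u, Fr (d.κ * u) = - ∑ s ∈ R i, F (d.κ * Function.update u i s) := by
        intro u
        rw [e4]
        simp only [kup]
        rw [half_neg hR i (g := fun s => F (Function.update (d.κ * u) i s)) (hF0 _), neg_neg]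
      have e6 : S2 R J Fr = ∑ s ∈ R i, S2 R J fun u => F (Function.update u i s) := by
        unfold S2
        rw [Finset.sum_comm]
        exact Finset.sum_congr rfl fun u _ => e4 u
      have a1 : ∑ s ∈ R i, Ψ (tn i (df s (rb d R r s)) fun u => F (Function.update u i s)) =
          ∑ s ∈ R i, ∑ u, φ s u * F (Function.update u i s) :=
        Finset.sum_congr rfl fun s _ => hφ s _ (zs_sl hi hF s)
      have a2 : ∑ s ∈ R i, Ψ (tn i (df (d.κ i * s) (rb d R r (d.κ i * s)))
          fun u => F (Function.update u i (d.κ i * s))) =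
          ∑ s ∈ R i, ε * ∑ u, φ s u * F (d.κ * Function.update u i s) :=
        Finset.sum_congr rfl fun s _ => e3 s
      have a3 : ∑ u, z u * (Fr u + -ε * Fr (d.κ * u)) = ∑ s ∈ R i, ∑ u, z u *
          (F (Function.update u i s) + ε * F (d.κ * Function.update u i s)) := by
        rw [Finset.sum_comm]
        refine Finset.sum_congr rfl fun u _ => ?_
        rw [e4, e5, ← Finset.mul_sum, Finset.sum_add_distrib, ← Finset.mul_sum]
        ring
      have h7 := hz' fun u => F u + ε * F (d.κ * u)
      rw [Finset.sum_product] at h7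
      rw [e2, half_sum hR i, a1, a2, hz Fr hFrZ, a3, e6, ← s2_insert R hi, ← h7, ← add_assoc,
        ← Finset.sum_add_distrib, ← Finset.sum_add_distrib]
      congr 1
      refine Finset.sum_congr rfl fun s _ => ?_
      rw [Finset.mul_sum, ← Finset.sum_add_distrib, ← Finset.sum_add_distrib]
      refine Finset.sum_congr rfl fun u _ => ?_
      ring

/-! ### the parity -/

theorem s2_prod (R : ∀ i, Finset (H i)) (J : Finset ι) (g : ∀ i, H i → ℤ) :
    S2 R J (fun u => ∏ i ∈ J, g i (u i)) = ∏ i ∈ J, ∑ s ∈ R i, g i s := by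
  unfold S2
  have h1 := Finset.prod_univ_sum (fun j => if j ∈ J then R j else ({1} : Finset (H j)))
    (fun j s => if j ∈ J then g j s else 1)
  have e1 : ∀ u : ∀ i, H i, ∏ i ∈ J, g i (u i) = ∏ j, (if j ∈ J then g j (u j) else 1) := by
    intro u
    rw [Finset.prod_ite_mem, Finset.univ_inter]
  simp only [e1]
  rw [← h1, ← Finset.prod_subset (Finset.subset_univ J)]
  · refine Finset.prod_congr rfl fun j hj => ?_
    simp only [if_pos hj]
  · intro j _ hj
    simp only [if_neg hj]
    rw [Finset.sum_singleton]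

theorem dl_eq (d : Dat H) (i : ι) (a s : H i) : dl d i a s = df a (d.κ i * a) s := rfl

theorem dl_k (i : ι) (a s : H i) : dl d i a (d.κ i * s) = - dl d i a s := by
  rw [dl_eq, dl_eq, df_k, kks, df_swap]

theorem dl_R (hR : Half d R) (i : ι) (a : H i) :
    ∑ s ∈ R i, dl d i a s = 1 ∨ ∑ s ∈ R i, dl d i a s = -1 := by
  unfold dl
  rw [Finset.sum_sub_distrib, Finset.sum_ite_eq', Finset.sum_ite_eq']
  by_cases h : a ∈ R i
  · left
    rw [if_pos h, if_neg ((hR i a).1 h)]
    rfl
  · right
    have h1 : d.κ i * a ∈ R i := by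
      by_contra h1
      exact h ((hR i a).2 h1)
    rw [if_neg h, if_pos h1]
    rfl

theorem zs_dl (J : Finset ι) (w : ∀ i, H i) : ZS J fun u => ∏ i ∈ J, dl d i (w i) (u i) := by
  refine ⟨fun u v h => Finset.prod_congr rfl fun i hi => by rw [h i hi], fun q hq u => ?_⟩
  unfold NN
  have e1 : ∀ s : H q, ∏ i ∈ J, dl d i (w i) (Function.update u q s i) =
      dl d q (w q) s * ∏ i ∈ J.erase q, dl d i (w i) (u i) := by
    intro s
    rw [← Finset.mul_prod_erase _ _ hq, Function.update_self]
    congr 1
    refine Finset.prod_congr rfl fun i hi => ?_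
    rw [Function.update_of_ne (Finset.ne_of_mem_erase hi)]
  simp only [e1]
  rw [← Finset.sum_mul]
  have e2 : ∑ s, dl d q (w q) s = 0 := df_sum _ _
  rw [e2, zero_mul]

theorem odd_prod {J : Finset ι} {g : ι → ℤ} (h : ∀ i ∈ J, g i = 1 ∨ g i = -1) :
    Odd (∏ i ∈ J, g i) :=
  Finset.prod_induction g Odd (fun _ _ => Odd.mul) odd_one fun i hi => by
    rcases h i hi with e | e <;> rw [e] <;> decide

end main

end AlgC

open AlgC in
/-- HQ-3 -/
theorem alg_ok : S_alg := by
  intro ι _ _ H _ _ _ d R hR J Ψ hadd hodd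
  obtain ⟨z, e, he, hz⟩ := pm hR J (-1) Ψ (Or.inr rfl) hadd (fun F hF => by rw [hodd F hF]; ring)
  obtain ⟨z', hz0, hz'⟩ := rep (H := H) (Finset.univ : Finset (∀ i, H i)) z
    (fun u j => if j ∈ J then u j else 1)
  have hS2 : ∀ F : (∀ i, H i) → ℤ, S2 R J F = ∑ u : ∀ i, H i, (open Classical in
      if (∀ i ∈ J, u i ∈ R i) ∧ (∀ i, i ∉ J → u i = 1) then F u else 0) := by
    intro F
    classical
    unfold S2
    rw [← Finset.sum_filter]
    refine Finset.sum_congr ?_ fun _ _ => rfl
    ext u
    rw [Fintype.mem_piFinset, Finset.mem_filter]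
    constructor
    · intro h
      refine ⟨Finset.mem_univ _, fun i hi => ?_, fun i hi => ?_⟩
      · have := h i
        rwa [if_pos hi] at this
      · have := h i
        rwa [if_neg hi, Finset.mem_singleton] at this
    · rintro ⟨-, h1, h2⟩ i
      by_cases hi : i ∈ J
      · rw [if_pos hi]
        exact h1 i hi
      · rw [if_neg hi, Finset.mem_singleton]
        exact h2 i hi
  have hF : ∀ F, ZS J F → ∑ u, z u * (F u + -1 * F (d.κ * u)) =
      ∑ u : ∀ i, H i, (open Classical in
        if (∀ i, i ∉ J → u i = 1) then z' u * (F u - F (d.κ * u)) else 0) := by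
    intro F hF
    have h1 := hz' fun u => F u - F (d.κ * u)
    have e1 : ∑ u, z u * (F u + -1 * F (d.κ * u)) = ∑ k, z k *
        (F (fun j => if j ∈ J then k j else 1) - F (d.κ * fun j => if j ∈ J then k j else 1)) := by
      refine Finset.sum_congr rfl fun u _ => ?_
      have e2 : F (fun j => if j ∈ J then u j else 1) = F u := hF.dep _ _ fun j hj => if_pos hj
      have e3 : F (d.κ * fun j => if j ∈ J then u j else 1) = F (d.κ * u) :=
        hF.dep _ _ fun j hj => by
          rw [Pi.mul_apply, Pi.mul_apply, if_pos hj]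
      rw [e2, e3]
      ring
    rw [e1, h1]
    refine Finset.sum_congr rfl fun u _ => ?_
    by_cases h : ∀ i, i ∉ J → u i = 1
    · rw [if_pos h]
    · rw [if_neg h, hz0 u, zero_mul]
      rintro k - hk
      apply h
      rintro i hi
      rw [← hk]
      exact if_neg hi
  refine ⟨z', e, fun h => he ?_, fun w hw => ?_, fun F hF' => ?_⟩
  · rw [h.neg_one_pow]
    decide
  · have h1 := hz _ (zs_dl (d := d) J w)
    rw [h1] at hw
    have h2 : Odd (S2 R J fun u => ∏ i ∈ J, dl d i (w i) (u i)) := by
      rw [s2_prod R J fun i => dl d i (w i)]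
      exact odd_prod fun i _ => dl_R hR i _
    have h3 : Even (∑ u, z u * ((∏ i ∈ J, dl d i (w i) (u i)) +
        -1 * ∏ i ∈ J, dl d i (w i) ((d.κ * u) i))) := by
      refine Finset.even_sum _ fun u _ => ?_
      refine Even.mul_left ?_ _
      have e1 : ∏ i ∈ J, dl d i (w i) ((d.κ * u) i) =
          (-1) ^ J.card * ∏ i ∈ J, dl d i (w i) (u i) := by
        have e2 : ∀ i ∈ J, dl d i (w i) ((d.κ * u) i) = -1 * dl d i (w i) (u i) := fun i _ => by
          rw [Pi.mul_apply, dl_k]
          ring
        rw [Finset.prod_congr rfl e2, Finset.prod_mul_distrib, Finset.prod_const]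
      rw [e1]
      rcases neg_one_pow_eq_or ℤ J.card with h | h
      · rw [h]
        exact ⟨0, by ring⟩
      · rw [h]
        exact ⟨∏ i ∈ J, dl d i (w i) (u i), by ring⟩
    have h4 := (Int.even_add.1 hw).1 h3
    rcases Int.even_mul.1 h4 with h5 | h5
    · exact h5
    · exact absurd h5 (Int.not_even_iff_odd.2 h2)
  · rw [hz F hF', hF F hF', hS2]

end Pool.Agent.NH35.HQ
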