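import Pool.Agent.NH35.HQ.Stm

/-! The box of an element and its size (job HQ-16, helper48; auxiliary lemmas copied from
HK/Box.lean). -/

set_option autoImplicit false
set_option linter.unusedSectionVars false

namespace Pool.Agent.NH35.HQ

open Finset Pool.Agent.H916R2 Pool.Agent.NH35.HG Pool.Agent.NH35.HE Pool.Agent.NH35.HK

private lemma bw_ord {m : ℕ} [NeZero m] (z : ZMod m) : addOrderOf z ∣ m := by
  have := addOrderOf_dvd_card (x := z)
  rwa [ZMod.card] at this

private lemma bw_ord_pos {m : ℕ} [NeZero m] (z : ZMod m) : 0 < addOrderOf z :=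
  Nat.pos_of_dvd_of_pos (bw_ord z) (Nat.pos_of_ne_zero (NeZero.ne m))

private lemma bw_dvd {m : ℕ} [NeZero m] (z : ZMod m) (q : m.primeFactors) :
    q.1 ^ (addOrderOf z).factorization q.1 ∣ q.1 ^ m.factorization q.1 :=
  pow_dvd_pow _ ((Nat.factorization_le_iff_dvd (bw_ord_pos z).ne' (NeZero.ne m)).2 (bw_ord z) q.1)

private lemma bw_card {n k : ℕ} [NeZero n] [NeZero k] (h : k ∣ n) (v : (ZMod n)ˣ) :
    (univ.filter fun s : (ZMod n)ˣ => ZMod.unitsMap h s = ZMod.unitsMap h v).card *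
      Fintype.card (ZMod k)ˣ = Fintype.card (ZMod n)ˣ := by
  classical
  have hs := ZMod.unitsMap_surjective h
  have h1 : Fintype.card (ZMod n)ˣ = ∑ y : (ZMod k)ˣ,
      (univ.filter fun s : (ZMod n)ˣ => ZMod.unitsMap h s = y).card := by
    rw [← Finset.card_univ (α := (ZMod n)ˣ)]
    exact Finset.card_eq_sum_card_fiberwise (f := ZMod.unitsMap h) (t := univ) (by intro x _; simp)
  have h2 : ∀ y : (ZMod k)ˣ, (univ.filter fun s : (ZMod n)ˣ => ZMod.unitsMap h s = y).card =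
      (univ.filter fun s : (ZMod n)ˣ => ZMod.unitsMap h s = ZMod.unitsMap h v).card := fun y =>
    MonoidHom.card_fiber_eq_of_mem_range (ZMod.unitsMap h) (x := y) (y := ZMod.unitsMap h v)
      (by simpa using hs y) ⟨v, rfl⟩
  rw [h1, Finset.sum_congr rfl fun y _ => h2 y, Finset.sum_const, Finset.card_univ, smul_eq_mul,
    mul_comm]

private lemma bw_cast {m N : ℕ} [NeZero m] (hN : N ∣ m) (X : ZMod m) :
    ZMod.castHom hN (ZMod N) X = 0 ↔ N ∣ X.val := by
  conv_lhs => rw [← ZMod.natCast_zmod_val X]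
  rw [map_natCast, ZMod.natCast_eq_zero_iff]

private lemma bw_mul {m N : ℕ} [NeZero m] (hN : N ∣ m) (X : ZMod m) :
    X * en m N = 0 ↔ N ∣ X.val := by
  obtain ⟨k, hk⟩ := hN
  have hm : m ≠ 0 := NeZero.ne m
  have hN0 : 0 < N := Nat.pos_of_ne_zero (by rintro rfl; simp at hk; exact hm hk)
  have hk0 : 0 < k := Nat.pos_of_ne_zero (by rintro rfl; simp at hk; exact hm hk)
  have h1 : m / N = k := by rw [hk]; exact Nat.mul_div_cancel_left k hN0
  have h2 : (m ∣ X.val * k) ↔ (N * k ∣ X.val * k) := by rw [← hk]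
  have h3 : X * en m N = ((X.val * k : ℕ) : ZMod m) := by
    unfold en
    rw [h1, Nat.cast_mul, ZMod.natCast_zmod_val]
  rw [h3, ZMod.natCast_eq_zero_iff, h2]
  exact Nat.mul_dvd_mul_iff_right hk0

private lemma bw_units {m N : ℕ} [NeZero m] (hN : N ∣ m) (U V : (ZMod m)ˣ) :
    ZMod.unitsMap hN U = ZMod.unitsMap hN V ↔ N ∣ ((U : ZMod m) - V).val := by
  rw [← bw_cast hN, map_sub, sub_eq_zero, Units.ext_iff]
  rfl

private lemma bw_mem_ty {m : ℕ} (z : ZMod m) (q : m.primeFactors) :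
    q ∈ ty z ↔ q.1 ∣ addOrderOf z := by
  simp [ty]

private lemma bw_eq {m : ℕ} [NeZero m] (C : Co m) (z : ZMod m)
    (u v : ∀ q : m.primeFactors, HH m q) :
    ((C.E u : (ZMod m)ˣ) : ZMod m) * en m (addOrderOf z) =
      ((C.E v : (ZMod m)ˣ) : ZMod m) * en m (addOrderOf z) ↔
    ∀ q ∈ ty z, ZMod.unitsMap (bw_dvd z q) (u q) = ZMod.unitsMap (bw_dvd z q) (v q) := by
  rw [← sub_eq_zero, ← sub_mul, bw_mul (bw_ord z)]
  have key : ∀ q : m.primeFactors, ZMod.unitsMap (bw_dvd z q) (u q) =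
      ZMod.unitsMap (bw_dvd z q) (v q) ↔ q.1 ^ (addOrderOf z).factorization q.1 ∣
        (((C.E u : (ZMod m)ˣ) : ZMod m) - ((C.E v : (ZMod m)ˣ) : ZMod m)).val := by
    intro q
    rw [← bw_units ((bw_dvd z q).trans (Nat.ordProj_dvd m q.1))]
    rw [← C.hE u q, ← C.hE v q]
    rw [← MonoidHom.comp_apply, ← MonoidHom.comp_apply, ZMod.unitsMap_comp]
  constructor
  · intro h q hq
    rw [key]
    exact (Nat.ordProj_dvd _ _).trans h
  · intro h
    rw [Nat.dvd_iff_prime_pow_dvd_dvd]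
    intro p k hp hpk
    rcases Nat.eq_zero_or_pos k with rfl | hk
    · simp
    have hpo : p ∣ addOrderOf z := (dvd_pow_self p hk.ne').trans hpk
    have hpm : p ∈ m.primeFactors :=
      Nat.mem_primeFactors.2 ⟨hp, hpo.trans (bw_ord z), NeZero.ne m⟩
    have h1 := (key ⟨p, hpm⟩).1 (h ⟨p, hpm⟩ ((bw_mem_ty z _).2 hpo))
    refine dvd_trans ?_ h1
    exact pow_dvd_pow _ ((hp.pow_dvd_iff_le_factorization (bw_ord_pos z).ne').1 hpk)

private lemma bw_exists {m : ℕ} [NeZero m] (z : ZMod m) :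
    ∃ U : (ZMod m)ˣ, (U : ZMod m) * en m (addOrderOf z) = z := by
  have hm : m ≠ 0 := NeZero.ne m
  have hord : addOrderOf z = m / m.gcd z.val := by
    conv_lhs => rw [← ZMod.natCast_zmod_val z]
    exact ZMod.addOrderOf_coe _ hm
  set d := m.gcd z.val with hd
  have hd0 : 0 < d := Nat.gcd_pos_of_pos_left _ (Nat.pos_of_ne_zero hm)
  have hdm : d ∣ m := Nat.gcd_dvd_left _ _
  obtain ⟨z', hz'⟩ : d ∣ z.val := Nat.gcd_dvd_right _ _
  have hcop : z'.Coprime (m / d) := by
    have h1 := Nat.coprime_div_gcd_div_gcd (m := m) (n := z.val) hd0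
    have h2 : z.val / m.gcd z.val = z' := by
      rw [← hd, hz']; exact Nat.mul_div_cancel_left _ hd0
    rw [h2] at h1
    exact h1.symm
  have hdd : m / d ∣ m := Nat.div_dvd_of_dvd hdm
  obtain ⟨U, hU⟩ := ZMod.unitsMap_surjective hdd (ZMod.unitOfCoprime z' hcop)
  refine ⟨U, ?_⟩
  have hk : m / (m / d) = d := Nat.div_div_self hdm hm
  have h1 : (z' : ZMod m) * en m (m / d) = z := by
    unfold en
    rw [hk, ← Nat.cast_mul, mul_comm z' d, ← hz', ZMod.natCast_zmod_val]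
  rw [hord]
  conv_rhs => rw [← h1]
  rw [← sub_eq_zero, ← sub_mul, bw_mul hdd, ← bw_cast hdd, map_sub, sub_eq_zero, map_natCast]
  have h2 := congrArg Units.val hU
  rw [ZMod.coe_unitOfCoprime] at h2
  rw [← h2]
  rfl

theorem boxW_ok : S_boxW := by
  classical
  intro m _ _ C z
  obtain ⟨U, hU⟩ := bw_exists z
  let v : ∀ q : m.primeFactors, HH m q := C.E.symm U
  have hv : ((C.E v : (ZMod m)ˣ) : ZMod m) * en m (addOrderOf z) = z := by
    change ((C.E (C.E.symm U) : (ZMod m)ˣ) : ZMod m) * en m (addOrderOf z) = z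
    rw [MulEquiv.apply_symm_apply]
    exact hU
  refine ⟨fun q => univ.filter fun x =>
    ZMod.unitsMap (bw_dvd z q) x = ZMod.unitsMap (bw_dvd z q) (v q), fun q _ => ?_, ?_⟩
  · have : NeZero (q.1 ^ (addOrderOf z).factorization q.1) :=
      ⟨pow_ne_zero _ (Nat.prime_of_mem_primeFactors q.2).ne_zero⟩
    rw [← ZMod.card_units_eq_totient]
    exact bw_card (bw_dvd z q) (v q)
  · intro Q _ c
    unfold ev
    refine sum_congr rfl fun u _ => ?_
    have h : InBox C z u ↔ (∀ i ∈ ty z, u i ∈ (univ.filter fun x =>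
        ZMod.unitsMap (bw_dvd z i) x = ZMod.unitsMap (bw_dvd z i) (v i))) ∧
        (∀ i, i ∉ ty z → u i = 1) := by
      unfold InBox
      have h1 := bw_eq C z u v
      rw [hv] at h1
      rw [h1]
      simp only [mem_filter, mem_univ, true_and]
    simp only [h]

end Pool.Agent.NH35.HQ
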