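import Pool.Agent.NH35.HQ.Stm
import Pool.Agent.NH35.HK.Sy

/-! HQ-17 (helper92): the element `BR` in terms of residues. -/

set_option autoImplicit false
set_option linter.unusedSectionVars false

namespace Pool.Agent.NH35.HQ

open Finset Pool.Agent.H916R2 Pool.Agent.NH35.HG Pool.Agent.NH35.HE Pool.Agent.NH35.HK

namespace Brs92

theorem hf_mod (q a b : ℕ) (h : a % bq q = b % bq q) : hf q a ↔ hf q b := by
  unfold hf
  unfold bq at h
  split_ifs at h ⊢ with h1
  · rw [h]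
  · rw [h]

theorem hf_cast (q a b : ℕ) (h : (a : ZMod (bq q)) = (b : ZMod (bq q))) : hf q a ↔ hf q b :=
  hf_mod q a b ((ZMod.natCast_eq_natCast_iff' _ _ _).1 h)

theorem hf_cop (q a : ℕ) (hq : q.Prime) (h : hf q a) : a.Coprime (bq q) := by
  unfold hf at h
  unfold bq
  split_ifs at h ⊢ with h1
  · have h2 : a % 2 = 1 := by omega
    rw [show (4 : ℕ) = 2 ^ 2 by norm_num]
    apply Nat.Coprime.pow_right
    exact (Nat.coprime_two_right).2 (Nat.odd_iff.2 h2)
  · rw [Nat.coprime_comm, Nat.Prime.coprime_iff_not_dvd hq]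
    intro h2
    exact h.1 (Nat.mod_eq_zero_of_dvd h2)

theorem half_nat {q n : ℕ} (hq : q.Prime) (hc : n.Coprime (bq q)) (hlt : n < bq q) :
    hf q n ↔ ¬ hf q (bq q - n) := by
  unfold hf
  unfold bq at hc hlt ⊢
  split_ifs at hc hlt ⊢ with h
  · have h1 : n % 2 = 1 :=
      Nat.odd_iff.1 (Nat.coprime_two_right.1 (Nat.Coprime.coprime_dvd_right (by norm_num) hc))
    omega
  · have h0 : n ≠ 0 := by
      intro h0
      rw [h0, Nat.coprime_zero_left] at hc
      exact hq.one_lt.ne' hc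
    have h1 : q % 2 = 1 := (hq.eq_two_or_odd).resolve_left h
    rw [Nat.mod_eq_of_lt hlt, Nat.mod_eq_of_lt (show q - n < q by omega)]
    omega

variable {m : ℕ} [NeZero m]

theorem bq_dvd (hm : Adm m) (q : m.primeFactors) : bq q.1 ∣ q.1 ^ m.factorization q.1 := by
  have hqp := Nat.prime_of_mem_primeFactors q.2
  have hqm := Nat.dvd_of_mem_primeFactors q.2
  unfold bq
  split_ifs with h
  · rw [h]
    have h4 : 4 ∣ m := by
      rcases hm with h1 | h1
      · rw [h] at hqm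
        exact absurd h1 (Nat.not_odd_iff_even.2 (even_iff_two_dvd.2 hqm))
      · exact h1
    have h2 : 2 ^ 2 ∣ m := by norm_num; exact h4
    have h3 := (Nat.prime_two.pow_dvd_iff_le_factorization (NeZero.ne m)).1 h2
    exact (show (4 : ℕ) = 2 ^ 2 by norm_num) ▸ pow_dvd_pow 2 h3
  · refine dvd_pow_self _ ?_
    have h1 := (hqp.dvd_iff_one_le_factorization (NeZero.ne m)).1 hqm
    omega

/-- the unit at `q` modulo `bq q` -/
theorem cast_u (hm : Adm m) (C : Co m) (u : ∀ q : m.primeFactors, HH m q) (q : m.primeFactors) :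
    (((u q : ZMod (q.1 ^ m.factorization q.1)).val : ℕ) : ZMod (bq q.1)) =
      ((((C.E u : (ZMod m)ˣ) : ZMod m).val : ℕ) : ZMod (bq q.1)) := by
  have h1 := SyAux.cast_E C u q
  have h2 : (((C.E u : (ZMod m)ˣ) : ZMod m).val : ZMod (q.1 ^ m.factorization q.1)) =
      (u q : ZMod (q.1 ^ m.factorization q.1)) := by
    rw [← h1, ZMod.castHom_apply, ZMod.natCast_val]
  rw [ZMod.natCast_eq_natCast_iff', ← h2, ZMod.val_natCast, Nat.mod_mod_of_dvd _ (bq_dvd hm q)]

theorem half_ok (hm : Adm m) (C : Co m) (R : ∀ q : m.primeFactors, Finset (HH m q))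
    (hR : ∀ (q : m.primeFactors) (g : HH m q),
      g ∈ R q ↔ hf q.1 (g : ZMod (q.1 ^ m.factorization q.1)).val) : Half C.d R := by
  intro q g
  have hqp := Nat.prime_of_mem_primeFactors q.2
  rw [hR, hR, C.hκ, neg_one_mul, Units.val_neg]
  have hbq := bq_dvd hm q
  have hv : 0 < bq q.1 := by
    unfold bq
    split_ifs
    · norm_num
    · exact hqp.pos
  haveI : NeZero (bq q.1) := ⟨hv.ne'⟩
  set g' : ZMod (q.1 ^ m.factorization q.1) := (g : ZMod (q.1 ^ m.factorization q.1)) with hg'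
  -- the value modulo bq q
  obtain ⟨y, hy⟩ : ∃ y : ZMod (bq q.1), y = ZMod.castHom hbq (ZMod (bq q.1)) g' := ⟨_, rfl⟩
  have e1 : ((g'.val : ℕ) : ZMod (bq q.1)) = y := by
    rw [hy, ZMod.castHom_apply, ZMod.natCast_val]
  have e2 : (((-g').val : ℕ) : ZMod (bq q.1)) = -y := by
    rw [hy, ← map_neg, ZMod.castHom_apply, ZMod.natCast_val]
  have e3 : ((g'.val : ℕ) : ZMod (bq q.1)) = ((y.val : ℕ) : ZMod (bq q.1)) := by
    rw [e1, ZMod.natCast_zmod_val]
  have e4 : (((-g').val : ℕ) : ZMod (bq q.1)) = (((-y).val : ℕ) : ZMod (bq q.1)) := by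
    rw [e2, ZMod.natCast_zmod_val]
  rw [hf_cast _ _ _ e3, hf_cast _ _ _ e4]
  have hyu : IsUnit y := by
    rw [hy]
    exact (Units.isUnit g).map _
  have hyc : y.val.Coprime (bq q.1) := by
    obtain ⟨w, hw⟩ := hyu
    rw [← hw]
    exact ZMod.val_coe_unit_coprime w
  have hylt := ZMod.val_lt y
  have hneg : (-y).val = bq q.1 - y.val := by
    rw [ZMod.neg_val]
    split_ifs with h
    · exfalso
      rw [h, ZMod.val_zero, Nat.coprime_zero_left] at hyc
      have := hqp.two_le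
      unfold bq at hyc
      split_ifs at hyc
      all_goals omega
    · rfl
  rw [hneg]
  exact half_nat hqp hyc hylt

/-- grouping by residues -/
theorem grp (C : Co m) (ℓ : m.primeFactors) (J : Finset m.primeFactors) (hℓ : ℓ ∈ J) (N0 : ℕ)
    (hN0 : N0 ∣ m) (hJ : ∀ q : m.primeFactors, q.1 ∣ N0 ↔ q ∈ J) (P : ℕ → Prop)
    (hP : ∀ a, P a → a.Coprime N0) (hP2 : ∀ a b, a % N0 = b % N0 → (P a ↔ P b))
    {Q : Type} [AddCommGroup Q] {D : ZMod m → Q} (hD : OddDist D) :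
    (∑ u : ∀ q : m.primeFactors, HH m q, (open Classical in
      if P (((C.E u : (ZMod m)ˣ) : ZMod m).val) ∧ ∀ q, q ∉ J → u q = 1 then
        D (((C.E u : (ZMod m)ˣ) : ZMod m) * en m (NI m J)) else 0)) =
    ∑ a ∈ range N0, (open Classical in
      if P a then D ((a * (m / N0) : ℕ) : ZMod m) else 0) := by
  classical
  have hm0 : 0 < m := Nat.pos_of_ne_zero (NeZero.ne m)
  obtain ⟨k, hk⟩ := hN0
  have hN00 : 0 < N0 := by
    rcases Nat.eq_zero_or_pos N0 with h | h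
    · rw [h, zero_mul] at hk; omega
    · exact h
  have hk0 : 0 < k := by
    rcases Nat.eq_zero_or_pos k with h | h
    · rw [h, mul_zero] at hk; omega
    · exact h
  have hdiv : m / N0 = k := Nat.div_eq_of_eq_mul_right hN00 hk
  rw [hdiv]
  have h1 : ∀ a ∈ range N0, (if P a then D ((a * k : ℕ) : ZMod m) else 0) =
      ∑ u : ∀ q : m.primeFactors, HH m q,
        if a = ((C.E u : (ZMod m)ˣ) : ZMod m).val % N0 then
          (if P (((C.E u : (ZMod m)ˣ) : ZMod m).val) ∧ ∀ q, q ∉ J → u q = 1 then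
          D (((C.E u : (ZMod m)ˣ) : ZMod m) * en m (NI m J)) else 0) else 0 := by
    intro a ha
    rw [mem_range] at ha
    by_cases hPa : P a
    · rw [if_pos hPa]
      have hcop := hP a hPa
      have hord : addOrderOf (((a * k : ℕ) : ZMod m)) = N0 := by
        rw [ZMod.addOrderOf_coe _ (NeZero.ne m)]
        have h2 : m.gcd (a * k) = k := by
          rw [hk, Nat.gcd_mul_right, Nat.gcd_comm, hcop, one_mul]
        rw [h2, hk, Nat.mul_div_cancel _ hk0]
      have hty : ty (((a * k : ℕ) : ZMod m)) = J := by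
        unfold ty
        ext q
        rw [mem_filter, hord]
        simp [hJ]
      have hev := SyAux.ev_sy C ℓ hD (((a * k : ℕ) : ZMod m)) (by rw [hord]; exact (hJ ℓ).2 hℓ)
      rw [← hev]
      unfold ev sy
      rw [hty]
      refine sum_congr rfl fun u _ => ?_
      rw [if_pos hℓ]
      have hbox : InBox C (((a * k : ℕ) : ZMod m)) u ↔
          (a = ((C.E u : (ZMod m)ˣ) : ZMod m).val % N0 ∧ ∀ q, q ∉ J → u q = 1) := by
        unfold InBox
        rw [hty, hord]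
        refine and_congr_left fun _ => ?_
        have e1 : ((C.E u : (ZMod m)ˣ) : ZMod m) * en m N0 =
            ((((C.E u : (ZMod m)ˣ) : ZMod m).val * k : ℕ) : ZMod m) := by
          unfold en
          rw [hdiv]
          push_cast
          rw [ZMod.natCast_zmod_val]
        rw [e1, ZMod.natCast_eq_natCast_iff]
        have e2 : (((C.E u : (ZMod m)ˣ) : ZMod m).val * k ≡ a * k [MOD m]) ↔
            (((C.E u : (ZMod m)ˣ) : ZMod m).val ≡ a [MOD N0]) := by
          have hgen : ∀ x : ℕ, (x * k ≡ a * k [MOD m]) ↔ (x ≡ a [MOD N0]) := by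
            intro x
            rw [hk]
            exact ⟨fun h => Nat.ModEq.mul_right_cancel' hk0.ne' h, fun h => h.mul_right' k⟩
          exact hgen _
        rw [e2]
        unfold Nat.ModEq
        rw [Nat.mod_eq_of_lt ha]
        exact eq_comm
      by_cases h3 : a = ((C.E u : (ZMod m)ˣ) : ZMod m).val % N0
      · have hPu : P (((C.E u : (ZMod m)ˣ) : ZMod m).val) := by
          refine (hP2 _ _ ?_).1 hPa
          rw [h3, Nat.mod_mod]
        rw [if_pos h3]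
        by_cases h4 : ∀ q, q ∉ J → u q = 1
        · rw [if_pos (hbox.2 ⟨h3, h4⟩), if_pos ⟨hPu, h4⟩]
        · rw [if_neg (fun h => h4 (hbox.1 h).2), if_neg (fun h => h4 h.2)]
      · rw [if_neg (fun h => h3 (hbox.1 h).1), if_neg h3]
    · rw [if_neg hPa]
      symm
      apply sum_eq_zero
      intro u _
      by_cases h3 : a = ((C.E u : (ZMod m)ˣ) : ZMod m).val % N0
      · rw [if_pos h3, if_neg]
        rintro ⟨h4, -⟩
        exact hPa ((hP2 _ _ (by rw [h3, Nat.mod_mod])).1 h4)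
      · rw [if_neg h3]
  rw [sum_congr rfl h1, sum_comm]
  refine sum_congr rfl fun u _ => ?_
  rw [sum_ite_eq', if_pos (mem_range.2 (Nat.mod_lt _ hN00))]

theorem dvd_bq {r q : ℕ} (hr : r.Prime) (hq : q.Prime) : r ∣ bq q ↔ r = q := by
  unfold bq
  split_ifs with h
  · subst h
    constructor
    · intro h
      have h1 : r ∣ 2 := hr.dvd_of_dvd_pow (show r ∣ 2 ^ 2 by norm_num; exact h)
      exact (Nat.prime_dvd_prime_iff_eq hr Nat.prime_two).1 h1
    · rintro rfl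
      norm_num
  · exact Nat.prime_dvd_prime_iff_eq hr hq

theorem cast_val (hm : Adm m) (q : m.primeFactors) (g : ZMod (q.1 ^ m.factorization q.1)) :
    ((g.val : ℕ) : ZMod (bq q.1)) = ZMod.castHom (bq_dvd hm q) (ZMod (bq q.1)) g := by
  rw [ZMod.castHom_apply, ZMod.natCast_val]

/-- the sum over the types -/
theorem hpair (C : Co m) (R : ∀ q : m.primeFactors, Finset (HH m q)) (ℓ q : m.primeFactors)
    (hne : q ≠ ℓ) {Q : Type} [AddCommGroup Q] (D : ZMod m → Q) :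
    pair (BR C.d R ℓ q) (sy C ℓ D) =
      (∑ u : ∀ q : m.primeFactors, HH m q, (open Classical in
        if u ℓ ∈ R ℓ ∧ u q ∈ R q ∧ (∀ i, i ≠ ℓ → i ≠ q → u i = 1) then
        D (((C.E u : (ZMod m)ˣ) : ZMod m) * en m (NI m {ℓ, q})) else 0)) +
      ∑ u : ∀ q : m.primeFactors, HH m q, (open Classical in
        if C.d.κ ℓ * u ℓ ∈ R ℓ ∧ C.d.κ ℓ * C.d.τ q ℓ * u ℓ ∉ R ℓ ∧
        (∀ i, i ≠ ℓ → u i = 1) then D (((C.E u : (ZMod m)ˣ) : ZMod m) * en m (NI m {ℓ})) else 0) := by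
  classical
  unfold pair
  have h1 : ∀ (I : Finset m.primeFactors) (u : ∀ q : m.primeFactors, HH m q),
      BR C.d R ℓ q I u • sy C ℓ D I u =
      (if I = {ℓ, q} then (if u ℓ ∈ R ℓ ∧ u q ∈ R q ∧ (∀ i, i ≠ ℓ → i ≠ q → u i = 1) then
        D (((C.E u : (ZMod m)ˣ) : ZMod m) * en m (NI m {ℓ, q})) else 0) else 0) +
      (if I = {ℓ} then (if C.d.κ ℓ * u ℓ ∈ R ℓ ∧ C.d.κ ℓ * C.d.τ q ℓ * u ℓ ∉ R ℓ ∧
      (∀ i, i ≠ ℓ → u i = 1) then D (((C.E u : (ZMod m)ˣ) : ZMod m) * en m (NI m {ℓ})) else 0)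
        else 0) := by
    intro I u
    unfold BR
    rw [if_neg hne, add_smul]
    congr 1
    · by_cases hI : I = {ℓ, q}
      · subst hI
        rw [if_pos rfl]
        by_cases h2 : u ℓ ∈ R ℓ ∧ u q ∈ R q ∧ (∀ i, i ≠ ℓ → i ≠ q → u i = 1)
        · rw [if_pos ⟨rfl, h2⟩, if_pos h2, one_smul]
          unfold sy
          rw [if_pos (Finset.mem_insert_self _ _)]
        · rw [if_neg (fun h => h2 h.2), if_neg h2, zero_smul]
      · rw [if_neg hI, if_neg (fun h => hI h.1), zero_smul]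
    · by_cases hI : I = {ℓ}
      · subst hI
        rw [if_pos rfl]
        by_cases h2 : C.d.κ ℓ * u ℓ ∈ R ℓ ∧ C.d.κ ℓ * C.d.τ q ℓ * u ℓ ∉ R ℓ ∧
          (∀ i, i ≠ ℓ → u i = 1)
        · rw [if_pos ⟨rfl, h2⟩, if_pos h2, one_smul]
          unfold sy
          rw [if_pos (Finset.mem_singleton_self _)]
        · rw [if_neg (fun h => h2 h.2), if_neg h2, zero_smul]
      · rw [if_neg hI, if_neg (fun h => hI h.1), zero_smul]
  simp only [h1]
  rw [Finset.sum_comm]
  simp only [Finset.sum_add_distrib, Finset.sum_ite_eq', Finset.mem_univ, if_true]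

end Brs92

open Brs92 in
/-- (B7) `BQ` in terms of systems -/
theorem brs_ok : S_brs := by
  classical
  intro m _ hm C R hR
  refine ⟨half_ok hm C R hR, ?_⟩
  intro ℓ q hℓ2 hne Q _ D hD
  have hℓp := Nat.prime_of_mem_primeFactors ℓ.2
  have hqp := Nat.prime_of_mem_primeFactors q.2
  have hne1 : q.1 ≠ ℓ.1 := fun h => hne (Subtype.ext h)
  have hbℓ : bq ℓ.1 = ℓ.1 := by unfold bq; rw [if_neg hℓ2]
  have hcop : Nat.Coprime ℓ.1 (bq q.1) :=
    (Nat.Prime.coprime_iff_not_dvd hℓp).2 fun h => hne1 ((dvd_bq hℓp hqp).1 h).symm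
  have hℓm : ℓ.1 ∣ m := Nat.dvd_of_mem_primeFactors ℓ.2
  have hqm : bq q.1 ∣ m := (bq_dvd hm q).trans (Nat.ordProj_dvd m q.1)
  have hN1 : ℓ.1 * bq q.1 ∣ m := hcop.mul_dvd_of_dvd_of_dvd hℓm hqm
  rw [hpair C R ℓ q hne D]
  unfold BQ
  congr 1
  · have hg := grp C ℓ {ℓ, q} (mem_insert_self _ _) (ℓ.1 * bq q.1) hN1 (fun r => by
        have hrp := Nat.prime_of_mem_primeFactors r.2
        rw [hrp.dvd_mul, Nat.prime_dvd_prime_iff_eq hrp hℓp, dvd_bq hrp hqp, mem_insert,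
          mem_singleton, Subtype.ext_iff, Subtype.ext_iff])
      (fun a => hf ℓ.1 a ∧ hf q.1 a)
      (fun a ha => by
        have h1 := hf_cop ℓ.1 a hℓp ha.1
        rw [hbℓ] at h1
        exact Nat.Coprime.mul_right h1 (hf_cop q.1 a hqp ha.2))
      (fun a b hab => by
        have hab' : a ≡ b [MOD ℓ.1 * bq q.1] := hab
        refine and_congr (hf_mod _ _ _ ?_) (hf_mod _ _ _ ?_)
        · rw [hbℓ]
          exact hab'.of_dvd (Dvd.intro _ rfl)
        · exact hab'.of_dvd (Dvd.intro_left _ rfl)) hD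
    refine Eq.trans (Eq.trans (sum_congr rfl fun u _ => ?_) hg) (sum_congr rfl fun a _ => ?_)
    · have e1 : u ℓ ∈ R ℓ ↔ hf ℓ.1 ((C.E u : (ZMod m)ˣ) : ZMod m).val := by
        rw [hR]
        exact hf_cast _ _ _ (cast_u hm C u ℓ)
      have e2 : u q ∈ R q ↔ hf q.1 ((C.E u : (ZMod m)ˣ) : ZMod m).val := by
        rw [hR]
        exact hf_cast _ _ _ (cast_u hm C u q)
      have e3 : (∀ r, r ∉ ({ℓ, q} : Finset m.primeFactors) → u r = 1) ↔
          ∀ i, i ≠ ℓ → i ≠ q → u i = 1 := by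
        constructor
        · intro h i h1 h2
          exact h i (by simp [h1, h2])
        · intro h r hr
          rw [Finset.mem_insert, Finset.mem_singleton] at hr
          push Not at hr
          exact h r hr.1 hr.2
      by_cases h : u ℓ ∈ R ℓ ∧ u q ∈ R q ∧ (∀ i, i ≠ ℓ → i ≠ q → u i = 1)
      · rw [if_pos h, if_pos ⟨⟨e1.1 h.1, e2.1 h.2.1⟩, e3.2 h.2.2⟩]
      · rw [if_neg h, if_neg fun h' => h ⟨e1.2 h'.1.1, e2.2 h'.1.2, e3.1 h'.2⟩]
    · by_cases h : hf ℓ.1 a ∧ hf q.1 a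
      · rw [if_pos h, if_pos h]
      · rw [if_neg h, if_neg h]
  · have hg := grp C ℓ {ℓ} (mem_singleton_self _) ℓ.1 hℓm (fun r => by
        have hrp := Nat.prime_of_mem_primeFactors r.2
        rw [Nat.prime_dvd_prime_iff_eq hrp hℓp, mem_singleton, Subtype.ext_iff])
      (fun a => hf ℓ.1 (ℓ.1 - a % ℓ.1) ∧ ¬ hf ℓ.1 (q.1 * (ℓ.1 - a % ℓ.1)))
      (fun a ha => by
        rw [Nat.coprime_comm, Nat.Prime.coprime_iff_not_dvd hℓp]
        intro h
        have h1 := ha.1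
        rw [Nat.mod_eq_zero_of_dvd h, Nat.sub_zero] at h1
        unfold hf at h1
        rw [if_neg hℓ2] at h1
        exact h1.1 (Nat.mod_self _))
      (fun a b hab => by rw [hab]) hD
    refine Eq.trans (Eq.trans (sum_congr rfl fun u _ => ?_) hg) (sum_congr rfl fun a ha => ?_)
    · haveI : NeZero ℓ.1 := ⟨hℓp.ne_zero⟩
      set x := ((C.E u : (ZMod m)ˣ) : ZMod m).val with hx
      have hc := cast_u hm C u ℓ
      rw [← hx] at hc
      have hxl : (((ℓ.1 - x % ℓ.1 : ℕ)) : ZMod (bq ℓ.1)) = -(x : ZMod (bq ℓ.1)) := by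
        rw [Nat.cast_sub (Nat.mod_lt _ hℓp.pos).le]
        have h1 : ((ℓ.1 : ℕ) : ZMod (bq ℓ.1)) = 0 := by
          rw [ZMod.natCast_eq_zero_iff, hbℓ]
        have h2 : ((x % ℓ.1 : ℕ) : ZMod (bq ℓ.1)) = (x : ZMod (bq ℓ.1)) := by
          rw [ZMod.natCast_eq_natCast_iff, hbℓ]
          exact Nat.mod_modEq _ _
        rw [h1, h2, zero_sub]
      have e1 : C.d.κ ℓ * u ℓ ∈ R ℓ ↔ hf ℓ.1 (ℓ.1 - x % ℓ.1) := by
        rw [hR, C.hκ, neg_one_mul, Units.val_neg]
        apply hf_cast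
        rw [hxl, cast_val hm, map_neg, ← cast_val hm, hc]
      have e2 : C.d.κ ℓ * C.d.τ q ℓ * u ℓ ∈ R ℓ ↔ hf ℓ.1 (q.1 * (ℓ.1 - x % ℓ.1)) := by
        rw [hR, C.hκ, neg_one_mul, neg_mul, Units.val_neg, Units.val_mul, C.hτ q ℓ fun h => hne h.symm]
        apply hf_cast
        rw [Nat.cast_mul, hxl, cast_val hm, map_neg, map_mul, ← cast_val hm ℓ (u ℓ : ZMod _), hc,
          map_natCast]
        ring
      have e3 : (∀ r, r ∉ ({ℓ} : Finset m.primeFactors) → u r = 1) ↔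
          ∀ i, i ≠ ℓ → u i = 1 := by
        constructor
        · intro h i h1
          exact h i (by simp [h1])
        · intro h r hr
          rw [Finset.mem_singleton] at hr
          exact h r hr
      by_cases h : C.d.κ ℓ * u ℓ ∈ R ℓ ∧ C.d.κ ℓ * C.d.τ q ℓ * u ℓ ∉ R ℓ ∧ (∀ i, i ≠ ℓ → u i = 1)
      · rw [if_pos h, if_pos ⟨⟨e1.1 h.1, fun h' => h.2.1 (e2.2 h')⟩, e3.2 h.2.2⟩]
      · rw [if_neg h, if_neg fun h' => h ⟨e1.2 h'.1.1, fun h'' => h'.1.2 (e2.1 h''), e3.1 h'.2⟩]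
    · rw [mem_range] at ha
      by_cases h : hf ℓ.1 (ℓ.1 - a) ∧ ¬ hf ℓ.1 (q.1 * (ℓ.1 - a))
      · rw [if_pos h, if_pos (by rw [Nat.mod_eq_of_lt ha]; exact h)]
      · rw [if_neg h, if_neg (by rw [Nat.mod_eq_of_lt ha]; exact h)]

theorem brs_of (_h : S_nrelA) : S_brs := brs_ok

end Pool.Agent.NH35.HQ
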