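import Pool.Agent.NH35.HQ.Stm2
import Pool.Agent.H916R2.Relations

/-! The condition modulo two by counting for sets with two elements (H3): a cell of the product of the groups of units which is
not hit by the boxes of the entries of a short multiset. -/

set_option autoImplicit false
set_option linter.unusedSectionVars false

namespace Pool.Agent.NH35.HQ

open Finset Pool.Agent.H916R2 Pool.Agent.NH35.HG Pool.Agent.NH35.HE Pool.Agent.NH35.HK

private lemma ratio_c2 (a φ h : ℕ) (hh : h ≠ 0) (e : a * φ = h) : (a : ℚ) / (h : ℚ) = 1 / (φ : ℚ) := by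
  have hφ : (φ : ℚ) ≠ 0 := by
    rintro h0
    have : φ = 0 := by exact_mod_cast h0
    subst this; simp at e; exact hh e.symm
  have ha : (a : ℚ) ≠ 0 := by
    rintro h0
    have : a = 0 := by exact_mod_cast h0
    subst this; simp at e; exact hh e.symm
  rw [← e]; push_cast
  field_simp

private lemma prod_c2 {ι : Type} [DecidableEq ι] (I : Finset ι) (hI : I.card = 2)
    (a φ h : ι → ℕ) (hh : ∀ i, h i ≠ 0) (e : ∀ i ∈ I, a i * φ i = h i) :
    ∏ i ∈ I, (2 * (a i : ℚ) / (h i : ℚ)) = 4 / ∏ i ∈ I, (φ i : ℚ) := by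
  have h1 : ∏ i ∈ I, (2 * (a i : ℚ) / (h i : ℚ)) = ∏ i ∈ I, ((2 : ℚ) / (φ i : ℚ)) := by
    refine Finset.prod_congr rfl fun i hi => ?_
    rw [mul_div_assoc, ratio_c2 _ _ _ (hh i) (e i hi)]; ring
  rw [h1, Finset.prod_div_distrib, Finset.prod_const, hI]; norm_num

theorem c2_of (h1 : S_path) (h2 : S_hit2) (h3 : S_revF) (h4 : S_boxW) : S_c2 := by
  classical
  intro m _ hA hc s hs C I _ hI4 hIe
  have hcu : (univ : Finset m.primeFactors).card ≤ 3 := by
    rw [Finset.card_univ, Fintype.card_coe]; exact hc
  have hI : I.card = 2 := by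
    have h5 : I.card ≤ 3 := (Finset.card_le_card (subset_univ I)).trans hcu
    rcases hIe with ⟨k, hk⟩; omega
  obtain ⟨r, hr⟩ : ∃ r, insert r I = univ := by
    by_cases hu : I = univ
    · have hn : I.Nonempty := Finset.card_pos.1 (by omega)
      obtain ⟨r, hr⟩ := hn
      exact ⟨r, by rw [insert_eq_self.2 hr, hu]⟩
    · obtain ⟨r, hr⟩ : ∃ r, r ∉ I := by
        by_contra h; push Not at h; exact hu (eq_univ_iff_forall.2 h)
      exact ⟨r, Finset.eq_of_subset_of_card_le (subset_univ _)
        (by rw [card_insert_of_notMem hr, hI]; exact hcu)⟩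
  let o : m.primeFactors → ℕ := fun q => q.1
  have ho : Function.Injective o := Subtype.val_injective
  choose b hb1 hb2 using fun z : ZMod m => h4 m hA C z
  -- the sum over the entries
  have hT : ∀ {M : Type} [AddCommMonoid M] (f : ZMod m → M),
      ∑ t : s, f (t.1 : ZMod m) = (s.map f).sum := by
    intro M _ f
    rw [← Multiset.map_univ s f]; rfl
  have hcell := h2 m.primeFactors (HH m) C.d o ho I r hr s (fun t => ty t.1) (fun t => b t.1)
  have hlt : (∑ t : s, (if ty t.1 = I then
      ∏ i ∈ I, (2 * ((b t.1 i).card : ℚ) / (Fintype.card (HH m i) : ℚ)) else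
    if ty t.1 = insert r I then 2 * (I.card : ℚ) * (((b t.1 r).card : ℚ) /
      (Fintype.card (HH m r) : ℚ)) *
      ∏ i ∈ I, (2 * ((b t.1 i).card : ℚ) / (Fintype.card (HH m i) : ℚ)) else 0)) < 1 := by
    have e1 : ∀ z : ZMod m, (if ty z = I then
        ∏ i ∈ I, (2 * ((b z i).card : ℚ) / (Fintype.card (HH m i) : ℚ)) else
      if ty z = insert r I then 2 * (I.card : ℚ) * (((b z r).card : ℚ) /
        (Fintype.card (HH m r) : ℚ)) *
        ∏ i ∈ I, (2 * ((b z i).card : ℚ) / (Fintype.card (HH m i) : ℚ)) else 0) = wt2 I z := by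
      intro z
      unfold wt2
      by_cases hz : ty z = I
      · rw [if_pos hz, if_pos hz]
        exact prod_c2 I hI (fun i => (b z i).card)
          (fun i => Nat.totient (i.1 ^ (addOrderOf z).factorization i.1))
          (fun i => Fintype.card (HH m i)) (fun i => Fintype.card_ne_zero)
          (fun i hi => hb1 z i (hz ▸ hi))
      · rw [if_neg hz, if_neg hz, hr]
        by_cases hz' : ty z = univ
        · rw [if_pos hz', if_pos hz']
          have hrI : r ∉ I := by
            intro h
            rw [insert_eq_self.2 h] at hr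
            exact hz (hz'.trans hr.symm)
          rw [prod_c2 I hI (fun i => (b z i).card)
            (fun i => Nat.totient (i.1 ^ (addOrderOf z).factorization i.1))
            (fun i => Fintype.card (HH m i)) (fun i => Fintype.card_ne_zero)
            (fun i hi => hb1 z i (hz' ▸ mem_univ i)),
            ratio_c2 _ _ _ Fintype.card_ne_zero (hb1 z r (hz' ▸ mem_univ r)), hI,
            ← hr, Finset.prod_insert hrI]
          have hne : ∀ q : m.primeFactors,
              (Nat.totient (q.1 ^ (addOrderOf z).factorization q.1) : ℚ) ≠ 0 := by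
            intro q
            have : 0 < Nat.totient (q.1 ^ (addOrderOf z).factorization q.1) :=
              Nat.totient_pos.2 (pow_pos (Nat.prime_of_mem_primeFactors q.2).pos _)
            exact_mod_cast this.ne'
          have hne2 : ∏ q ∈ I, (Nat.totient (q.1 ^ (addOrderOf z).factorization q.1) : ℚ) ≠ 0 :=
            Finset.prod_ne_zero_iff.2 fun q _ => hne q
          have := hne r
          field_simp
          norm_num
        · rw [if_neg hz', if_neg hz']
    have e2 := hT (fun z : ZMod m => wt2 I z)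
    have e3 := hs I hI
    rw [← e2] at e3
    refine lt_of_eq_of_lt (Finset.sum_congr rfl fun t _ => ?_) e3
    exact e1 t.1
  obtain ⟨w, hw⟩ := hcell hlt
  obtain ⟨hF, hO⟩ := h1 m.primeFactors (HH m) C.d o ho I r w (by omega) hr
  obtain ⟨hD, hS⟩ := h3 m hA C (ZMod 2) (ps C.d o I r w) hF hO
  refine ⟨w, ev C (ps C.d o I r w), hD, ?_, ?_, ?_⟩
  · intro A hAI
    rw [hS]
    funext u
    unfold ps
    have hA1 : A ≠ I := by
      rintro rfl; exact hAI subset_rfl
    have hA2 : A ≠ insert r I := by
      rintro rfl; exact hAI (subset_insert _ _)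
    rw [if_neg hA1, if_neg hA2]
    rfl
  · rw [hS]
    funext u
    unfold ps
    rw [if_pos rfl]
  · rw [sum_count s (ev C (ps C.d o I r w)), ← hT]
    refine Finset.sum_eq_zero fun t _ => ?_
    rw [hb2 t.1 (ZMod 2) (ps C.d o I r w)]
    have := hw t
    unfold bs2 at this
    exact this

end Pool.Agent.NH35.HQ
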