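import Pool.Agent.NH35.HQ.Stm2
import Pool.Agent.NH35.HQ.ConcA
import Pool.Agent.NH35.HK.Conc
import Pool.Agent.H916K.Level

/-! The part of a short relation at a large prime, with the support of the coefficients. -/

set_option autoImplicit false
set_option linter.unusedSectionVars false

namespace Pool.Agent.NH35.HQ

open Finset Pool.Agent.H916R2 Pool.Agent.NH35.HG Pool.Agent.NH35.HE Pool.Agent.NH35.HK

/-- the residues which are one modulo `d` -/
private def Kq (n d : ℕ) (h : d ∣ n) : Subgroup (ZMod n)ˣ := (ZMod.unitsMap h).ker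

private theorem mem_Kq (n d : ℕ) [NeZero n] (hd1 : 1 < d) (h : d ∣ n) (g : (ZMod n)ˣ) :
    g ∈ Kq n d h ↔ (g : ZMod n).val % d = 1 := by
  unfold Kq
  rw [MonoidHom.mem_ker, Units.ext_iff, ZMod.unitsMap_val, Units.val_one, ZMod.cast_eq_val,
    ← Nat.cast_one, ZMod.natCast_eq_natCast_iff', Nat.mod_eq_of_lt hd1]

private theorem bq_dvd {m : ℕ} [NeZero m] (hm : Adm m) (q : m.primeFactors) :
    bq q.1 ∣ q.1 ^ m.factorization q.1 := by
  have hm0 : m ≠ 0 := NeZero.ne m
  have hq := Nat.prime_of_mem_primeFactors q.2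
  have hqm := Nat.dvd_of_mem_primeFactors q.2
  unfold bq
  split_ifs with h
  · rw [h] at hqm ⊢
    rcases hm with hm | hm
    · exact absurd (even_iff_two_dvd.2 hqm) (Nat.not_even_iff_odd.2 hm)
    · have h4 : 2 ^ 2 ∣ m := hm
      have hle : 2 ≤ m.factorization 2 := (Nat.prime_two.pow_dvd_iff_le_factorization hm0).1 h4
      exact pow_dvd_pow 2 hle
  · exact dvd_pow_self _ (hq.factorization_pos_of_dvd hm0 hqm).ne'

private theorem one_lt_bq {q : ℕ} (hq : q.Prime) : 1 < bq q := by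
  unfold bq
  split_ifs
  · norm_num
  · exact hq.one_lt

private theorem unit_two (d : ℕ) (hd : d = 3 ∨ d = 4) (x : (ZMod d)ˣ) : x = 1 ↔ ¬ (-1 * x = 1) := by
  rcases hd with rfl | rfl
  · revert x; decide
  · revert x; decide

open Classical in
theorem concB_of (h0 : S_absS) (h1 : S_coA) (h2 : S_syF) (h3 : S_revF) (h4 : S_boxA)
    (h5 : S_brs) : S_concB := by
  intro m ℓ _ hm hℓ hℓm hℓ3 s hgd hs hrel
  obtain ⟨C⟩ := h1 m hm
  have hm0 : m ≠ 0 := NeZero.ne m
  let lq : m.primeFactors := ⟨ℓ, Nat.mem_primeFactors.2 ⟨hℓ, hℓm, hm0⟩⟩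
  have hlq : lq.1 = ℓ := rfl
  let R : ∀ q : m.primeFactors, Finset (HH m q) := fun q => univ.filter fun g =>
    hf q.1 (g : ZMod (q.1 ^ m.factorization q.1)).val
  have hR : ∀ (q : m.primeFactors) (g : HH m q),
      g ∈ R q ↔ hf q.1 (g : ZMod (q.1 ^ m.factorization q.1)).val := by
    intro q g
    simp [R]
  obtain ⟨hHalf, hbr⟩ := h5 m hm C R hR
  let Sp : Finset m.primeFactors := univ.filter fun q => q.1 = 2 ∨ q.1 = 3
  have hSp : ∀ q : m.primeFactors, q ∈ Sp ↔ q.1 = 2 ∨ q.1 = 3 := by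
    intro q
    simp [Sp]
  have hSpc : Sp.card ≤ 2 := by
    have h6 : Sp.card = (Sp.map (Function.Embedding.subtype _)).card := (card_map _).symm
    rw [h6]
    have h7 : Sp.map (Function.Embedding.subtype _) ⊆ ({2, 3} : Finset ℕ) := by
      intro x hx
      rw [mem_map] at hx
      obtain ⟨q, hq, rfl⟩ := hx
      rcases (hSp q).1 hq with h | h
      · simp [h]
      · simp [h]
    have h8 := card_le_card h7
    have h9 : (({2, 3} : Finset ℕ)).card = 2 := by decide
    omega
  let K : ∀ q : m.primeFactors, Subgroup (HH m q) := fun q =>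
    Kq (q.1 ^ m.factorization q.1) (bq q.1) (bq_dvd hm q)
  have hK : ∀ (q : m.primeFactors) (g : HH m q),
      g ∈ K q ↔ (g : ZMod (q.1 ^ m.factorization q.1)).val % bq q.1 = 1 := by
    intro q g
    exact mem_Kq _ _ (one_lt_bq (Nat.prime_of_mem_primeFactors q.2)) _ g
  have hbq2 : ∀ q : m.primeFactors, q.1 = 2 → bq q.1 = 4 := by
    intro q hq
    unfold bq
    rw [if_pos hq]
  have hbq3 : ∀ q : m.primeFactors, q.1 = 3 → bq q.1 = 3 := by
    intro q hq
    unfold bq
    rw [if_neg (by omega), hq]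
  have hKK : ∀ i ∈ Sp, ∀ g, g ∈ K i ↔ C.d.κ i * g ∉ K i := by
    intro i hi g
    have hd : bq i.1 = 3 ∨ bq i.1 = 4 := by
      rcases (hSp i).1 hi with h | h
      · exact Or.inr (hbq2 i h)
      · exact Or.inl (hbq3 i h)
    show g ∈ (ZMod.unitsMap (bq_dvd hm i)).ker ↔ ¬ C.d.κ i * g ∈ (ZMod.unitsMap (bq_dvd hm i)).ker
    rw [MonoidHom.mem_ker, MonoidHom.mem_ker, C.hκ, map_mul]
    have h6 : ZMod.unitsMap (bq_dvd hm i) (-1 : HH m i) = -1 := by
      apply Units.ext
      rw [ZMod.unitsMap_val, Units.val_neg, Units.val_one, Units.val_neg, Units.val_one]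
      rw [ZMod.cast_neg (bq_dvd hm i), ZMod.cast_one (bq_dvd hm i)]
    rw [h6]
    exact unit_two _ hd _
  have hRK : ∀ i ∈ Sp, ∀ g, g ∈ R i ↔ g ∈ K i := by
    intro i hi g
    rw [hR, hK]
    unfold hf
    rcases (hSp i).1 hi with h | h
    · rw [if_pos h, hbq2 i h]
    · rw [if_neg (by omega), hbq3 i h]
      generalize (g : ZMod (i.1 ^ m.factorization i.1)).val = v
      rw [h]
      omega
  obtain ⟨T, hT, β, hβ⟩ := h4 m hm C lq Sp K s hgd hs hℓ3 (fun q hq => (hSp q).2 hq)
    (fun q hq g => by rw [hK, hbq2 q hq]) (fun q hq g => by rw [hK, hbq3 q hq])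
  obtain ⟨e, he, hall⟩ := h0 m.primeFactors (HH m) C.d lq Sp K R T β hSpc hKK hHalf hRK (by
    intro γ hγ1 hγ2 hγ3
    rw [hβ ℤ γ]
    obtain ⟨hg, _⟩ := h3 m hm C ℤ γ (full_of_sys hγ1 hγ3) hγ2
    have h := H916K.rel_int hrel hg
    have h' := sum_count s (fun z : ZMod m => ev C γ z)
    simp only [smul_eq_mul] at h'
    rw [h] at h'
    have h6 : ((s.filter fun z => ¬ ℓ ∣ addOrderOf z).map (ev C γ)).sum = 0 := by
      refine Multiset.sum_eq_zero fun x hx => ?_
      obtain ⟨z, hz, rfl⟩ := Multiset.mem_map.1 hx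
      have hz2 := (Multiset.mem_filter.1 hz).2
      have h7 : lq ∉ ty z := by
        unfold ty
        rw [mem_filter]
        exact fun h => hz2 h.2
      unfold ev
      rw [hγ1.sup _ h7]
      simp
    have h8 := Multiset.filter_add_not (fun z => ℓ ∣ addOrderOf z) s
    have h9 : (s.map (ev C γ)).sum = ((s.filter fun z => ℓ ∣ addOrderOf z).map (ev C γ)).sum +
        ((s.filter fun z => ¬ ℓ ∣ addOrderOf z).map (ev C γ)).sum := by
      conv_lhs => rw [← h8]
      rw [Multiset.map_add, Multiset.sum_add]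
    rw [h6, add_zero] at h9
    exact h9.symm.trans h'.symm)
  refine ⟨fun q => if h : q ∈ m.primeFactors then e ⟨q, h⟩ else 0, ?_, ?_⟩
  · intro q hq2 hq3
    by_cases hq : q ∈ m.primeFactors
    · simp only [dif_pos hq]
      rcases he ⟨q, hq⟩ with h | ⟨h, _⟩
      · exact h
      · exfalso
        rcases (hSp _).1 h with h | h
        · exact hq2 h
        · exact hq3 h
    · simp only [dif_neg hq]
  · intro Q _ c hc
    obtain ⟨_, _, _, hsy⟩ := h2 m hm C Q c hc
    obtain ⟨hs1, hs2, hs3⟩ := hsy lq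
    have h6 := hall Q (sy C lq c) hs1 hs2
    rw [hβ Q (sy C lq c)] at h6
    have h7 : ((s.filter fun z => lq.1 ∣ addOrderOf z).map (ev C (sy C lq c))) =
        ((s.filter fun z => lq.1 ∣ addOrderOf z).map c) :=
      Multiset.map_congr rfl fun z hz => hs3 z (Multiset.mem_filter.1 hz).2
    rw [h7] at h6
    rw [h6]
    have h10 : ∑ q ∈ m.primeFactors.erase ℓ,
        (if h : q ∈ m.primeFactors then e ⟨q, h⟩ else 0) • BQ m ℓ q c =
        ∑ q ∈ m.primeFactors,
        (if q = ℓ then 0 else (if h : q ∈ m.primeFactors then e ⟨q, h⟩ else 0) • BQ m ℓ q c) := by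
      rw [← Finset.sum_erase_add _ _ lq.2]
      rw [if_pos rfl, add_zero]
      refine Finset.sum_congr rfl fun q hq => ?_
      rw [if_neg (Finset.ne_of_mem_erase hq)]
    rw [h10, ← Finset.sum_coe_sort m.primeFactors]
    refine Finset.sum_congr rfl fun i _ => ?_
    by_cases hi : i = lq
    · subst hi
      rw [if_pos rfl]
      have h11 : BR C.d R lq lq = 0 := by
        funext I u
        unfold BR
        rw [if_pos rfl]
        rfl
      rw [h11]
      unfold pair
      simp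
    · have hi' : i.1 ≠ ℓ := fun h => hi (Subtype.ext h)
      rw [if_neg hi', dif_pos i.2, hbr lq i (by omega) hi Q c hc]

end Pool.Agent.NH35.HQ
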