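import Pool.Agent.NH35.HQ.CoreH

/-! The core. Adapted by helper35 from the file of helper78. -/

set_option autoImplicit false
set_option linter.unusedSectionVars false

namespace Pool.Agent.NH35.HQ

open Finset Pool.Agent.H916R2 Pool.Agent.NH35.HG Pool.Agent.NH35.HE Pool.Agent.NH35.HK

namespace Core35

open CoreH78

theorem main (h1 : S_stepC) (h2 : S_killO) (h3 : S_killE) (h4 : S_two) (h5 : S_cxinv) (m : ℕ)
    [NeZero m] (hm : Adm m) : ∀ (n : ℕ) (S : Finset m.primeFactors), S.card = n →
    ∀ x : ZMod m → ℤ, Sup S x → Rel x → CX m x → C4 S x →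
    ∀ (Q : Type) [AddCommGroup Q] (c : ZMod m → Q), OddDist c → ∑ z, x z • c z = 0 := by
  intro n
  induction n with
  | zero =>
    intro S hS x hs _ _ _ Q _ c hc
    rw [card_eq_zero] at hS
    subst hS
    exact base hs hc
  | succ n ih =>
    intro S hS x hs hr hX hC4 Q _ c hc
    have hkill : KillAt m := hm.elim (h2 m) (h3 m)
    by_cases hex : ∃ ℓ ∈ S, ℓ.1 ≠ 2
    · obtain ⟨ℓ, hℓ, hℓ2⟩ := hex
      obtain ⟨e, x', he, hs', hfm⟩ := h1 m hm S ℓ hℓ (fun h => absurd h hℓ2) x hs hr hC4
      have hev : ∀ q : m.primeFactors, q ≠ ℓ → Even (e q.1) := fun q hq =>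
        hkill ℓ.1 (Nat.prime_of_mem_primeFactors ℓ.2) hℓ2 (Nat.dvd_of_mem_primeFactors ℓ.2) e x x'
          (by
            intro z hz hd
            have k5 := (hs' z hz).2
            have k6 : ℓ ∈ ty z := by
              unfold ty
              rw [mem_filter]
              exact ⟨mem_univ _, hd⟩
            exact notMem_erase ℓ S (k5 k6))
          hfm hr hX q.1 (mem_erase.2 ⟨fun h => hq (Subtype.ext h), q.2⟩)
      let x'' : ZMod m → ℤ := fun z =>
        x' z + ∑ q ∈ m.primeFactors.erase ℓ.1, (e q / 2) * TT m ℓ.1 q z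
      have heq : ∀ (Q : Type) [AddCommGroup Q] (c : ZMod m → Q), OddDist c →
          ∑ z, x z • c z = ∑ z, x'' z • c z := by
        intro Q _ c hc
        have k1 : ∀ z, x'' z • c z = x' z • c z +
            ∑ q ∈ m.primeFactors.erase ℓ.1, (e q / 2) • (TT m ℓ.1 q z • c z) := by
          intro z
          change (x' z + ∑ q ∈ m.primeFactors.erase ℓ.1, (e q / 2) * TT m ℓ.1 q z) • c z = _
          rw [add_smul, sum_smul]
          congr 1
          refine sum_congr rfl fun q _ => ?_
          rw [mul_smul]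
        rw [hfm Q c hc, sum_congr rfl fun z _ => k1 z, sum_add_distrib, add_comm]
        congr 1
        rw [sum_comm]
        refine sum_congr rfl fun q hq => ?_
        rw [mem_erase] at hq
        rw [← smul_sum, TT_sum]
        have k2 : (2 : ℤ) • BQ m ℓ.1 q c = ∑ a ∈ range (bq q), if hf q a then
            c (z1 m q a) - c (z2 m ℓ.1 q a) else 0 :=
          h4 m ℓ.1 q hm (Nat.prime_of_mem_primeFactors ℓ.2) hℓ2
            (Nat.prime_of_mem_primeFactors hq.2) hq.1 (Nat.dvd_of_mem_primeFactors ℓ.2)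
            (Nat.dvd_of_mem_primeFactors hq.2) Q c hc
        rw [← k2, smul_smul]
        congr 1
        obtain ⟨t, ht⟩ := hev ⟨q, hq.2⟩ (fun h => hq.1 (congrArg Subtype.val h))
        have ht' : e q = t + t := ht
        omega
      rw [heq Q c hc]
      obtain ⟨hi1, hi2⟩ := h5 m x x'' heq
      refine ih (S.erase ℓ) (by rw [card_erase_of_mem hℓ, hS]; rfl) x'' ?_ (hi1 hr) (hi2 hX) ?_
        Q c hc
      · intro z hz
        by_cases hz1 : x' z = 0
        · have hz2 : ∑ q ∈ m.primeFactors.erase ℓ.1, (e q / 2) * TT m ℓ.1 q z ≠ 0 := by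
            intro h
            apply hz
            change x' z + ∑ q ∈ m.primeFactors.erase ℓ.1, (e q / 2) * TT m ℓ.1 q z = 0
            rw [hz1, h, add_zero]
          obtain ⟨q, hq, hne⟩ := exists_ne_zero_of_sum_ne_zero hz2
          rw [mem_erase] at hq
          have hq' : (⟨q, hq.2⟩ : m.primeFactors) ≠ ℓ := fun h => hq.1 (congrArg Subtype.val h)
          have h6 := sup_TT hm ℓ ⟨q, hq.2⟩ hℓ2 hq' (z := z) (right_ne_zero_of_mul hne)
          refine ⟨h6.1, h6.2.trans ?_⟩
          intro r hr
          rw [mem_singleton] at hr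
          subst hr
          by_contra h7
          have h8 : e q = 0 := he _ h7
          rw [h8] at hne
          apply hne
          norm_num
        · exact hs' z hz1
      · intro C I hI hcard hev'
        obtain ⟨w, c, hc, k1, k2, k3⟩ := hC4 C I (hI.trans (erase_subset _ _)) hcard hev'
        exact ⟨w, c, hc, k1, k2, by rw [← heq _ c hc, k3]⟩
    · push Not at hex
      have hne : S.Nonempty := by
        rw [← card_pos, hS]
        exact Nat.succ_pos n
      obtain ⟨ℓ, hℓ⟩ := hne
      have hSl : S = {ℓ} := by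
        rw [eq_singleton_iff_unique_mem]
        exact ⟨hℓ, fun r hr => Subtype.ext ((hex r hr).trans (hex ℓ hℓ).symm)⟩
      obtain ⟨e, x', he, hs', hfm⟩ := h1 m hm S ℓ hℓ (fun _ => hSl) x hs hr hC4
      have hE : S.erase ℓ = ∅ := by
        rw [hSl]
        exact erase_singleton ℓ
      rw [hfm Q c hc]
      rw [hE] at hs' he
      rw [base hs' hc, add_zero]
      refine sum_eq_zero fun q hq => ?_
      rw [mem_erase] at hq
      have h6 : e q = 0 := he ⟨q, hq.2⟩ (notMem_empty _)
      rw [h6, zero_smul]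

end Core35

theorem coreQ_of (h1 : S_stepC) (h2 : S_killO) (h3 : S_killE) (h4 : S_two) (h5 : S_cxinv) :
    S_coreQ := by
  intro m _ hm x hx hr hX hC Q _ c hc
  exact Core35.main h1 h2 h3 h4 h5 m hm _ univ rfl x (fun z hz => ⟨hx z hz, subset_univ _⟩) hr hX
    hC Q c hc

end Pool.Agent.NH35.HQ
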