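import Pool.Agent.NH35.HQ.Stm
import Pool.Agent.NH35.HG.Dd
import Pool.Agent.NH35.HE.Low
import Pool.Agent.H916R2.Relations

/-! HQ-21: the relations and the number theoretic criterion depend only on the values on the odd
distributions. -/

set_option autoImplicit false
set_option linter.unusedSectionVars false

namespace Pool.Agent.NH35.HQ

open Finset Pool.Agent.H916R2 Pool.Agent.NH35.HG Pool.Agent.NH35.HE Pool.Agent.NH35.HK

namespace Cxinv

/-- the sawtooth and its conjugates are odd distributions -/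
theorem saw_cxi {m : ℕ} [NeZero m] (t : (ZMod m)ˣ) :
    OddDist (fun a : ZMod m => saw ((t : ZMod m) * a)) where
  neg := fun a => by rw [mul_neg, saw_neg]
  half := fun a ha => saw_half (by rw [← mul_add, ha, mul_zero])
  dist := fun p d _ hpd a => saw_dist_unit hpd t a

theorem orderOf_cxi {r n : ℕ} (hn : 1 < n) (hr : r.Prime) (h : ¬ r ∣ n) :
    0 < orderOf (r : ZMod n) := by
  have : NeZero n := ⟨by omega⟩
  have h1 : Nat.Coprime r n := (hr.coprime_iff_not_dvd).2 h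
  have h2 : ((ZMod.unitOfCoprime r h1 : (ZMod n)ˣ) : ZMod n) = (r : ZMod n) :=
    ZMod.coe_unitOfCoprime r h1
  rw [← h2, orderOf_units]
  exact orderOf_pos _

theorem sum_mk_cxi {m r n f : ℕ} [NeZero m] [NeZero n] (x : ZMod m → ℤ) :
    ∑ z : ZMod m, x z • LowE.cH r n f z = QuotientAddGroup.mk' (LowE.H0 n ((r : ℤ) ^ f - 1))
      (∑ z : ZMod m, x z • fun t : (ZMod n)ˣ × (ZMod n)ˣ => dI r n f t.1 t.2 z) := by
  rw [map_sum]
  refine Finset.sum_congr rfl fun z _ => ?_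
  rw [map_zsmul]
  rfl

end Cxinv

open Cxinv

theorem cxinv_ok : S_cxinv := by
  intro m _ x y hxy
  refine ⟨fun hx t => ?_, fun hx => ⟨fun hm => ?_, fun _ => ?_⟩⟩
  · have h := hxy ℤ _ (saw_cxi t)
    simp only [smul_eq_mul] at h
    have h4 := hx t
    exact h.symm.trans h4
  · intro r a n hr ha hrn hrm hn t t'
    obtain ⟨k, hk, hk0⟩ := hx.1 hm r a n hr ha hrn hrm hn t t'
    refine ⟨k, hk, ?_⟩
    have h3 : OddDist (DD r n (orderOf (r : ZMod n)) (m := m) t t') :=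
      dd r a n _ m hr ha hrn hrm hm (orderOf_cxi hn hr hrn) (pow_orderOf_eq_one _) t t'
    rw [← hxy _ _ h3]
    exact hk0
  · intro r a n hr hr2 ha hrn hm
    obtain ⟨f, hf, hrf, N, k1, hN, hdv⟩ := hx.2 ‹_› r a n hr hr2 ha hrn hm
    have hn : NeZero n := ⟨by rintro rfl; exact NeZero.ne m (by rw [← hm, mul_zero])⟩
    have hq := hxy (((ZMod n)ˣ × (ZMod n)ˣ → ℤ) ⧸ LowE.H0 n ((r : ℤ) ^ f - 1)) (LowE.cH r n f)
      (LowE.cH_odd hr ha hrn hm hrf)
    rw [sum_mk_cxi, sum_mk_cxi] at hq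
    have hmem : N • (∑ z : ZMod m, x z • fun t : (ZMod n)ˣ × (ZMod n)ˣ => dI r n f t.1 t.2 z) ∈
        LowE.H0 n ((r : ℤ) ^ f - 1) := by
      refine ⟨k1, fun t => ?_⟩
      have := hdv t.1 t.2
      rw [Pi.smul_apply, Finset.sum_apply]
      simpa [smul_eq_mul] using this
    have hmem2 : N • (∑ z : ZMod m, y z • fun t : (ZMod n)ˣ × (ZMod n)ˣ => dI r n f t.1 t.2 z) ∈
        LowE.H0 n ((r : ℤ) ^ f - 1) := by
      rw [← QuotientAddGroup.eq_zero_iff] at hmem ⊢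
      rw [QuotientAddGroup.mk_zsmul] at hmem ⊢
      have hq' : (QuotientAddGroup.mk (∑ z : ZMod m, x z • fun t : (ZMod n)ˣ × (ZMod n)ˣ =>
          dI r n f t.1 t.2 z) : ((ZMod n)ˣ × (ZMod n)ˣ → ℤ) ⧸ LowE.H0 n ((r : ℤ) ^ f - 1)) =
          QuotientAddGroup.mk (∑ z : ZMod m, y z • fun t : (ZMod n)ˣ × (ZMod n)ˣ =>
            dI r n f t.1 t.2 z) := hq
      rw [← hq']
      exact hmem
    obtain ⟨k2, hk2⟩ := hmem2
    refine ⟨f, hf, hrf, N, k2, hN, fun t t' => ?_⟩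
    have h1 := hk2 (t, t')
    rw [Pi.smul_apply, Finset.sum_apply] at h1
    simpa [smul_eq_mul] using h1

end Pool.Agent.NH35.HQ
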