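import Pool.Agent.NH35.HQ.Stm2
import Pool.Agent.NH35.HQ.Brs
import Pool.Agent.NH35.HQ.Cxinv

/-! HR-1: the core for Hodge classes. -/

set_option autoImplicit false
set_option linter.unusedSectionVars false

namespace Pool.Agent.NH35.HQ

open Finset Pool.Agent.H916R2 Pool.Agent.NH35.HG Pool.Agent.NH35.HE Pool.Agent.NH35.HK

namespace CoreH78

section pos

variable {m : ℕ} [NeZero m]

theorem base {x : ZMod m → ℤ} (hs : Sup (∅ : Finset m.primeFactors) x) {Q : Type}
    [AddCommGroup Q] {c : ZMod m → Q} (hc : OddDist c) : ∑ z, x z • c z = 0 := by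
  refine sum_eq_zero fun z _ => ?_
  by_cases h : x z = 0
  · rw [h, zero_smul]
  · have h1 := (hs z h).2
    have h2 : addOrderOf z = 1 := by
      by_contra h3
      obtain ⟨r, hr, hrd⟩ := Nat.exists_prime_and_dvd h3
      have h4 : addOrderOf z ∣ m := by
        have h7 := addOrderOf_dvd_card (x := z)
        rwa [ZMod.card] at h7
      have h5 : r ∈ m.primeFactors := Nat.mem_primeFactors.2 ⟨hr, hrd.trans h4, NeZero.ne m⟩
      have h6 : (⟨r, h5⟩ : m.primeFactors) ∈ ty z := mem_filter.2 ⟨mem_univ _, hrd⟩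
      exact absurd (h1 h6) (notMem_empty _)
    rw [AddMonoid.addOrderOf_eq_one_iff] at h2
    rw [h2, hc.half 0 (add_zero 0), smul_zero]

/-- the positions -/
def z1 (m q a : ℕ) : ZMod m := ((a * (m / bq q) : ℕ) : ZMod m)

/-- the positions -/
def z2 (m ℓ q a : ℕ) : ZMod m :=
  (((((ℓ : ℕ) : ZMod (bq q))⁻¹ * (a : ZMod (bq q))).val * (m / bq q) : ℕ) : ZMod m)

/-- twice `BQ` as a function -/
def TT (m ℓ q : ℕ) (z : ZMod m) : ℤ :=
  ∑ a ∈ range (bq q), if hf q a then
    (if z = z1 m q a then 1 else 0) - (if z = z2 m ℓ q a then 1 else 0) else 0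

theorem TT_sum (ℓ q : ℕ) {Q : Type} [AddCommGroup Q] (c : ZMod m → Q) :
    ∑ z, TT m ℓ q z • c z =
      ∑ a ∈ range (bq q), if hf q a then c (z1 m q a) - c (z2 m ℓ q a) else 0 := by
  unfold TT
  simp only [sum_smul]
  rw [sum_comm]
  refine sum_congr rfl fun a _ => ?_
  by_cases h : hf q a
  · simp only [if_pos h, sub_smul, sum_sub_distrib, ite_smul, one_smul, zero_smul, sum_ite_eq',
      mem_univ, if_true]
  · simp only [if_neg h, zero_smul, sum_const_zero]

theorem TT_ne {ℓ q : ℕ} {z : ZMod m} (h : TT m ℓ q z ≠ 0) :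
    ∃ a, hf q a ∧ (z = z1 m q a ∨ z = z2 m ℓ q a) := by
  obtain ⟨a, -, h1⟩ := exists_ne_zero_of_sum_ne_zero h
  by_cases h2 : hf q a
  · refine ⟨a, h2, ?_⟩
    rw [if_pos h2] at h1
    by_contra hcon
    rw [not_or] at hcon
    rw [if_neg hcon.1, if_neg hcon.2, sub_zero] at h1
    exact h1 rfl
  · rw [if_neg h2] at h1
    exact absurd rfl h1

theorem bq_dvd_m (hm : Adm m) (q : m.primeFactors) : bq q.1 ∣ m :=
  (Brs92.bq_dvd hm q).trans (Nat.ordProj_dvd m q.1)

theorem order_gen (m' B k v : ℕ) (hk : m' = B * k) (hB : B ≠ 0) (hk0 : k ≠ 0)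
    (hv : v.Coprime B) : addOrderOf ((v * (m' / B) : ℕ) : ZMod m') = B := by
  have hm0 : m' ≠ 0 := by
    rw [hk]
    exact mul_ne_zero hB hk0
  have e1 : m' / B = k := Nat.div_eq_of_eq_mul_right (Nat.pos_of_ne_zero hB) hk
  rw [ZMod.addOrderOf_coe _ hm0, e1]
  have e2 : m'.gcd (v * k) = k := by
    rw [hk, Nat.gcd_mul_right]
    have e3 : B.gcd v = 1 := hv.symm
    rw [e3, one_mul]
  rw [e2, hk]
  exact Nat.mul_div_cancel _ (Nat.pos_of_ne_zero hk0)

theorem order_pos (hm : Adm m) (q : m.primeFactors) {v : ℕ} (hv : v.Coprime (bq q.1)) :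
    addOrderOf ((v * (m / bq q.1) : ℕ) : ZMod m) = bq q.1 := by
  obtain ⟨k, hk⟩ := bq_dvd_m hm q
  have hm0 := NeZero.ne m
  have hB : bq q.1 ≠ 0 := by
    intro h
    rw [h, zero_mul] at hk
    exact hm0 hk
  have hk0 : k ≠ 0 := by
    intro h
    rw [h, mul_zero] at hk
    exact hm0 hk
  exact order_gen m (bq q.1) k v hk hB hk0 hv

theorem pos_ok (hm : Adm m) (q : m.primeFactors) {v : ℕ} (hv : v.Coprime (bq q.1)) :
    Gd (((v * (m / bq q.1) : ℕ) : ZMod m)) ∧ ty (((v * (m / bq q.1) : ℕ) : ZMod m)) ⊆ {q} := by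
  have hqp := Nat.prime_of_mem_primeFactors q.2
  refine ⟨?_, ?_⟩
  · unfold Gd
    rw [order_pos hm q hv]
    unfold bq
    split_ifs with h
    · norm_num
    · have h1 := (hqp.eq_two_or_odd).resolve_left h
      omega
  · intro r hr
    have h1 := (mem_filter.1 hr).2
    rw [order_pos hm q hv, Brs92.dvd_bq (Nat.prime_of_mem_primeFactors r.2) hqp] at h1
    rw [mem_singleton]
    exact Subtype.ext h1

theorem z1_ok (hm : Adm m) (q : m.primeFactors) {a : ℕ} (ha : hf q.1 a) :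
    Gd (z1 m q.1 a) ∧ ty (z1 m q.1 a) ⊆ {q} :=
  pos_ok hm q (Brs92.hf_cop q.1 a (Nat.prime_of_mem_primeFactors q.2) ha)

theorem z2_ok (hm : Adm m) (ℓ q : m.primeFactors) (hℓ2 : ℓ.1 ≠ 2) (hq : q ≠ ℓ) {a : ℕ}
    (ha : hf q.1 a) : Gd (z2 m ℓ.1 q.1 a) ∧ ty (z2 m ℓ.1 q.1 a) ⊆ {q} := by
  have hqp := Nat.prime_of_mem_primeFactors q.2
  have hℓp := Nat.prime_of_mem_primeFactors ℓ.2
  have h1 : ℓ.1.Coprime (bq q.1) := by
    rw [Nat.Prime.coprime_iff_not_dvd hℓp, Brs92.dvd_bq hℓp hqp]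
    intro h
    exact hq (Subtype.ext h.symm)
  have h2 := Brs92.hf_cop q.1 a hqp ha
  have h3 : (((ℓ.1 : ℕ) : ZMod (bq q.1))⁻¹ * (a : ZMod (bq q.1))) =
      (((ZMod.unitOfCoprime ℓ.1 h1)⁻¹ * ZMod.unitOfCoprime a h2 : (ZMod (bq q.1))ˣ) :
        ZMod (bq q.1)) := by
    rw [Units.val_mul, ZMod.coe_unitOfCoprime, ← ZMod.inv_coe_unit, ZMod.coe_unitOfCoprime]
  unfold z2
  rw [h3]
  exact pos_ok hm q (ZMod.val_coe_unit_coprime _)

theorem sup_TT (hm : Adm m) (ℓ q : m.primeFactors) (hℓ2 : ℓ.1 ≠ 2) (hq : q ≠ ℓ) {z : ZMod m}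
    (h : TT m ℓ.1 q.1 z ≠ 0) : Gd z ∧ ty z ⊆ {q} := by
  obtain ⟨a, ha, h1 | h1⟩ := TT_ne h
  · rw [h1]
    exact z1_ok hm q ha
  · rw [h1]
    exact z2_ok hm ℓ q hℓ2 hq ha

end pos

section cell

variable {ι : Type} [Fintype ι] [DecidableEq ι] {H : ι → Type} [∀ i, CommGroup (H i)]
  [∀ i, Fintype (H i)] [∀ i, DecidableEq (H i)]

theorem sum_sg (d : Dat H) (R : ∀ i, Finset (H i)) (hR : Half d R) (i : ι) (a : H i) :
    ∑ s : H i, (if s ∈ R i then sg d i a s else 0) = 1 := by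
  have hne : d.κ i * a ≠ a := fun h => d.hκ1 i (mul_eq_right.1 h)
  by_cases ha : a ∈ R i
  · have h1 := (hR i a).1 ha
    rw [sum_eq_single a]
    · rw [if_pos ha]
      unfold sg
      rw [if_pos (Or.inl rfl)]
    · intro s _ hs
      by_cases h2 : s ∈ R i
      · rw [if_pos h2]
        unfold sg
        rw [if_neg]
        rintro (h3 | h3)
        · exact hs h3
        · rw [h3] at h2
          exact h1 h2
      · rw [if_neg h2]
    · intro h
      exact absurd (mem_univ _) h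
  · have h1 : d.κ i * a ∈ R i := by
      by_contra h2
      exact ha ((hR i a).2 h2)
    rw [sum_eq_single (d.κ i * a)]
    · rw [if_pos h1]
      unfold sg
      rw [if_pos (Or.inr rfl)]
    · intro s _ hs
      by_cases h2 : s ∈ R i
      · rw [if_pos h2]
        unfold sg
        rw [if_neg]
        rintro (h3 | h3)
        · rw [h3] at h2
          exact ha h2
        · exact hs h3
      · rw [if_neg h2]
    · intro h
      exact absurd (mem_univ _) h

open Classical in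
theorem sum_cell (d : Dat H) (R : ∀ i, Finset (H i)) (hR : Half d R) {ℓ q : ι} (hne : q ≠ ℓ)
    (w : ∀ i, H i) : ∑ u : ∀ i, H i,
      (if u ℓ ∈ R ℓ ∧ u q ∈ R q ∧ (∀ i, i ≠ ℓ → i ≠ q → u i = 1) then fI d {ℓ, q} w u else 0) =
      1 := by
  let φ : ∀ i, H i → ZMod 2 := fun i s =>
    if i = ℓ ∨ i = q then (if s ∈ R i then sg d i (w i) s else 0) else (if s = 1 then 1 else 0)
  have h1 : ∀ u : ∀ i, H i,
      (if u ℓ ∈ R ℓ ∧ u q ∈ R q ∧ (∀ i, i ≠ ℓ → i ≠ q → u i = 1) then fI d {ℓ, q} w u else 0) =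
      ∏ i, φ i (u i) := by
    intro u
    by_cases h : u ℓ ∈ R ℓ ∧ u q ∈ R q ∧ (∀ i, i ≠ ℓ → i ≠ q → u i = 1)
    · rw [if_pos h]
      unfold fI
      rw [prod_pair hne.symm]
      rw [prod_eq_mul ℓ q hne.symm]
      · have e1 : φ ℓ (u ℓ) = sg d ℓ (w ℓ) (u ℓ) := by
          change (if ℓ = ℓ ∨ ℓ = q then (if u ℓ ∈ R ℓ then sg d ℓ (w ℓ) (u ℓ) else 0) else _) = _
          rw [if_pos (Or.inl rfl), if_pos h.1]
        have e2 : φ q (u q) = sg d q (w q) (u q) := by
          change (if q = ℓ ∨ q = q then (if u q ∈ R q then sg d q (w q) (u q) else 0) else _) = _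
          rw [if_pos (Or.inr rfl), if_pos h.2.1]
        rw [e1, e2]
      · intro i _ hi
        change (if i = ℓ ∨ i = q then _ else (if u i = 1 then (1 : ZMod 2) else 0)) = 1
        rw [if_neg (fun h2 => h2.elim hi.1 hi.2), if_pos (h.2.2 i hi.1 hi.2)]
      · intro h2
        exact absurd (mem_univ _) h2
      · intro h2
        exact absurd (mem_univ _) h2
    · rw [if_neg h]
      symm
      by_cases h2 : u ℓ ∈ R ℓ
      · by_cases h3 : u q ∈ R q
        · have h4 : ∃ i, i ≠ ℓ ∧ i ≠ q ∧ u i ≠ 1 := by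
            by_contra hcon
            push Not at hcon
            exact h ⟨h2, h3, hcon⟩
          obtain ⟨i, hi1, hi2, hi3⟩ := h4
          apply prod_eq_zero (mem_univ i)
          change (if i = ℓ ∨ i = q then _ else (if u i = 1 then (1 : ZMod 2) else 0)) = 0
          rw [if_neg (fun h5 => h5.elim hi1 hi2), if_neg hi3]
        · apply prod_eq_zero (mem_univ q)
          change (if q = ℓ ∨ q = q then (if u q ∈ R q then sg d q (w q) (u q) else 0) else _) = 0
          rw [if_pos (Or.inr rfl), if_neg h3]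
      · apply prod_eq_zero (mem_univ ℓ)
        change (if ℓ = ℓ ∨ ℓ = q then (if u ℓ ∈ R ℓ then sg d ℓ (w ℓ) (u ℓ) else 0) else _) = 0
        rw [if_pos (Or.inl rfl), if_neg h2]
  rw [sum_congr rfl fun u _ => h1 u]
  have h2 : ∑ u : ∀ i, H i, ∏ i, φ i (u i) = ∏ i, ∑ s : H i, φ i s := by
    rw [prod_univ_sum, Fintype.piFinset_univ]
  rw [h2]
  refine prod_eq_one fun i _ => ?_
  by_cases hi : i = ℓ ∨ i = q
  · have e1 : ∀ s, φ i s = if s ∈ R i then sg d i (w i) s else 0 := fun s => if_pos hi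
    rw [sum_congr rfl fun s _ => e1 s]
    exact sum_sg d R hR i (w i)
  · have e1 : ∀ s, φ i s = if s = 1 then 1 else 0 := fun s => if_neg hi
    rw [sum_congr rfl fun s _ => e1 s, sum_ite_eq', if_pos (mem_univ _)]

end cell

section ev

variable {m : ℕ} [NeZero m]

theorem even_e (h0 : S_coA) (h2 : S_syF) (h5 : S_brs) (hm : Adm m) {S : Finset m.primeFactors}
    {ℓ : m.primeFactors} (hℓ : ℓ ∈ S) (hℓ2 : ℓ.1 ≠ 2) {x x' : ZMod m → ℤ} (hC2 : C2 S x)
    {e : ℕ → ℤ} (he : ∀ q : m.primeFactors, q ∉ S.erase ℓ → e q.1 = 0) (hs' : Sup (S.erase ℓ) x')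
    (hfm : ∀ (Q : Type) [AddCommGroup Q] (c : ZMod m → Q), OddDist c →
      ∑ z, x z • c z = ∑ q ∈ m.primeFactors.erase ℓ.1, e q • BQ m ℓ.1 q c + ∑ z, x' z • c z)
    (q : m.primeFactors) (hq : q ≠ ℓ) : Even (e q.1) := by
  by_cases hqS : q ∈ S.erase ℓ
  swap
  · rw [he q hqS]
    exact ⟨0, by norm_num⟩
  have hqS' : q ∈ S := mem_of_mem_erase hqS
  obtain ⟨C⟩ := h0 m hm
  obtain ⟨w, c, hc, hvan, hI, hx⟩ := hC2 C {ℓ, q}
    (by
      intro r hr
      rw [mem_insert, mem_singleton] at hr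
      rcases hr with rfl | rfl
      · exact hℓ
      · exact hqS')
    (by rw [card_pair hq.symm]) (by rw [card_pair hq.symm]; exact even_two)
  have F := hfm (ZMod 2) c hc
  rw [hx] at F
  -- the sum over the remaining elements
  have e1 : ∑ z, x' z • c z = 0 := by
    refine sum_eq_zero fun z _ => ?_
    by_cases hz : x' z = 0
    · rw [hz, zero_smul]
    · have h3 := (hs' z hz).2
      have h4 : ¬ ({ℓ, q} : Finset m.primeFactors) ⊆ ty z := by
        intro h5
        exact notMem_erase ℓ S (h3 (h5 (mem_insert_self _ _)))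
      have h6 := (h2 m hm C (ZMod 2) c hc).2.2.1 z
      rw [← h6]
      unfold ev
      rw [hvan _ h4]
      simp
  let R : ∀ r : m.primeFactors, Finset (HH m r) := fun r =>
    univ.filter fun g => hf r.1 (g : ZMod (r.1 ^ m.factorization r.1)).val
  obtain ⟨hH, hbr⟩ := h5 m hm C R (fun r g => by
    change g ∈ univ.filter _ ↔ _
    rw [mem_filter]
    exact ⟨fun h => h.2, fun h => ⟨mem_univ _, h⟩⟩)
  have hz1 : ∀ u, c (((C.E u : (ZMod m)ˣ) : ZMod m) * en m (NI m {ℓ})) = 0 := by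
    intro u
    have h3 : ¬ ({ℓ, q} : Finset m.primeFactors) ⊆ {ℓ} := by
      intro h4
      have h6 := h4 (mem_insert_of_mem (mem_singleton_self q))
      exact hq (mem_singleton.1 h6)
    exact congrFun (hvan _ h3) u
  have e2 : ∀ r : m.primeFactors, r ≠ ℓ → r ≠ q → BQ m ℓ.1 r.1 c = 0 := by
    intro r hr hrq
    rw [← hbr ℓ r hℓ2 hr (ZMod 2) c hc, Brs92.hpair C R ℓ r hr c]
    have h3 : ¬ ({ℓ, q} : Finset m.primeFactors) ⊆ {ℓ, r} := by
      intro h4
      have h6 := h4 (mem_insert_of_mem (mem_singleton_self q))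
      rw [mem_insert, mem_singleton] at h6
      rcases h6 with h6 | h6
      · exact hq h6
      · exact hrq h6.symm
    have hz2 : ∀ u, c (((C.E u : (ZMod m)ˣ) : ZMod m) * en m (NI m {ℓ, r})) = 0 := fun u =>
      congrFun (hvan _ h3) u
    simp only [hz1, hz2, ite_self, sum_const_zero, add_zero]
  have e3 : BQ m ℓ.1 q.1 c = 1 := by
    rw [← hbr ℓ q hℓ2 hq (ZMod 2) c hc, Brs92.hpair C R ℓ q hq c]
    have hz2 : ∀ u, c (((C.E u : (ZMod m)ˣ) : ZMod m) * en m (NI m {ℓ, q})) =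
        fI C.d {ℓ, q} w u := fun u => congrFun hI u
    simp only [hz1, hz2, ite_self, sum_const_zero, add_zero]
    exact sum_cell C.d R hH hq w
  rw [e1, add_zero, sum_eq_single q.1, e3] at F
  · rw [← ZMod.intCast_eq_zero_iff_even]
    rw [zsmul_one] at F
    exact F.symm
  · intro r hr hrq
    rw [mem_erase] at hr
    rw [e2 ⟨r, hr.2⟩ (fun h => hr.1 (congrArg Subtype.val h))
      (fun h => hrq (congrArg Subtype.val h)), smul_zero]
  · intro h3
    exact absurd (mem_erase.2 ⟨fun h => hq (Subtype.ext h), q.2⟩) h3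

end ev

theorem main (h0 : S_coA) (h1 : S_stepC) (h2 : S_syF) (h4 : S_two) (h5 : S_brs) (m : ℕ)
    [NeZero m] (hm : Adm m) : ∀ (n : ℕ) (S : Finset m.primeFactors), S.card = n →
    ∀ x : ZMod m → ℤ, Sup S x → Rel x → C2 S x →
    ∀ (Q : Type) [AddCommGroup Q] (c : ZMod m → Q), OddDist c → ∑ z, x z • c z = 0 := by
  intro n
  induction n with
  | zero =>
    intro S hS x hs _ _ Q _ c hc
    rw [card_eq_zero] at hS
    subst hS
    exact base hs hc
  | succ n ih =>
    intro S hS x hs hr hC Q _ c hc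
    have hC4 : C4 S x := fun C I hI hcard hev => hC C I hI (by omega) hev
    by_cases hex : ∃ ℓ ∈ S, ℓ.1 ≠ 2
    · obtain ⟨ℓ, hℓ, hℓ2⟩ := hex
      obtain ⟨e, x', he, hs', hfm⟩ := h1 m hm S ℓ hℓ (fun h => absurd h hℓ2) x hs hr hC4
      have hev : ∀ q : m.primeFactors, q ≠ ℓ → Even (e q.1) := fun q hq =>
        even_e h0 h2 h5 hm hℓ hℓ2 hC he hs' hfm q hq
      let x'' : ZMod m → ℤ := fun z =>
        x' z + ∑ q ∈ m.primeFactors.erase ℓ.1, (e q / 2) * TT m ℓ.1 q z
      have heq : ∀ (Q : Type) [AddCommGroup Q] (c : ZMod m → Q), OddDist c →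
          ∑ z, x z • c z = ∑ z, x'' z • c z := by
        intro Q _ c hc
        have k1 : ∀ z, x'' z • c z = x' z • c z +
            ∑ q ∈ m.primeFactors.erase ℓ.1, (e q / 2) • (TT m ℓ.1 q z • c z) := by
          intro z
          change (x' z + ∑ q ∈ m.primeFactors.erase ℓ.1, (e q / 2) * TT m ℓ.1 q z) • c z = _
          rw [add_smul, sum_smul]
          congr 1
          refine sum_congr rfl fun q _ => ?_
          rw [mul_smul]
        rw [hfm Q c hc, sum_congr rfl fun z _ => k1 z, sum_add_distrib, add_comm]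
        congr 1
        rw [sum_comm]
        refine sum_congr rfl fun q hq => ?_
        rw [mem_erase] at hq
        rw [← smul_sum, TT_sum]
        have k2 : (2 : ℤ) • BQ m ℓ.1 q c = ∑ a ∈ range (bq q), if hf q a then
            c (z1 m q a) - c (z2 m ℓ.1 q a) else 0 :=
          h4 m ℓ.1 q hm (Nat.prime_of_mem_primeFactors ℓ.2) hℓ2
            (Nat.prime_of_mem_primeFactors hq.2) hq.1 (Nat.dvd_of_mem_primeFactors ℓ.2)
            (Nat.dvd_of_mem_primeFactors hq.2) Q c hc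
        rw [← k2, smul_smul]
        congr 1
        obtain ⟨t, ht⟩ := hev ⟨q, hq.2⟩ (fun h => hq.1 (congrArg Subtype.val h))
        have ht' : e q = t + t := ht
        omega
      rw [heq Q c hc]
      refine ih (S.erase ℓ) (by rw [card_erase_of_mem hℓ, hS]; rfl) x'' ?_ ?_ ?_ Q c hc
      · intro z hz
        by_cases hz1 : x' z = 0
        · have hz2 : ∑ q ∈ m.primeFactors.erase ℓ.1, (e q / 2) * TT m ℓ.1 q z ≠ 0 := by
            intro h
            apply hz
            change x' z + ∑ q ∈ m.primeFactors.erase ℓ.1, (e q / 2) * TT m ℓ.1 q z = 0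
            rw [hz1, h, add_zero]
          obtain ⟨q, hq, hne⟩ := exists_ne_zero_of_sum_ne_zero hz2
          rw [mem_erase] at hq
          have hq' : (⟨q, hq.2⟩ : m.primeFactors) ≠ ℓ := fun h => hq.1 (congrArg Subtype.val h)
          have h6 := sup_TT hm ℓ ⟨q, hq.2⟩ hℓ2 hq' (z := z) (right_ne_zero_of_mul hne)
          refine ⟨h6.1, h6.2.trans ?_⟩
          intro r hr
          rw [mem_singleton] at hr
          subst hr
          by_contra h7
          have h8 : e q = 0 := he _ h7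
          rw [h8] at hne
          apply hne
          norm_num
        · exact hs' z hz1
      · intro t
        have h6 := heq ℤ _ (Cxinv.saw_cxi t)
        simp only [smul_eq_mul] at h6
        exact h6.symm.trans (hr t)
      · intro C I hI hcard hev'
        obtain ⟨w, c, hc, k1, k2, k3⟩ := hC C I (hI.trans (erase_subset _ _)) hcard hev'
        exact ⟨w, c, hc, k1, k2, by rw [← heq _ c hc, k3]⟩
    · push Not at hex
      have hne : S.Nonempty := by
        rw [← card_pos, hS]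
        exact Nat.succ_pos n
      obtain ⟨ℓ, hℓ⟩ := hne
      have hSl : S = {ℓ} := by
        rw [eq_singleton_iff_unique_mem]
        exact ⟨hℓ, fun r hr => Subtype.ext ((hex r hr).trans (hex ℓ hℓ).symm)⟩
      obtain ⟨e, x', he, hs', hfm⟩ := h1 m hm S ℓ hℓ (fun _ => hSl) x hs hr hC4
      have hE : S.erase ℓ = ∅ := by
        rw [hSl]
        exact erase_singleton ℓ
      rw [hfm Q c hc]
      rw [hE] at hs' he
      rw [base hs' hc, add_zero]
      refine sum_eq_zero fun q hq => ?_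
      rw [mem_erase] at hq
      have h6 : e q = 0 := he ⟨q, hq.2⟩ (notMem_empty _)
      rw [h6, zero_smul]

end CoreH78

theorem coreH_of (h0 : S_coA) (h1 : S_stepC) (h2 : S_syF) (h4 : S_two) (h5 : S_brs) :
    S_coreH := by
  intro m _ hm x hx hr hC Q _ c hc
  exact CoreH78.main h0 h1 h2 h4 h5 m hm _ univ rfl x (fun z hz => ⟨hx z hz, subset_univ _⟩) hr hC
    Q c hc

end Pool.Agent.NH35.HQ
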