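import Pool.Agent.NH35.HQ.OddQ

/-! The combinatorial theorem for levels divisible by four. -/

set_option autoImplicit false
set_option linter.unusedSectionVars false

namespace Pool.Agent.NH35.HQ

open Finset Pool.Agent.H916R2 Pool.Agent.NH35.HG Pool.Agent.NH35.HE Pool.Agent.NH35.HK

/-- a sum with two kinds of terms -/
lemma sum63 {m : ℕ} (s : Multiset (ZMod m)) (f : ZMod m → ℚ) (x y : ℚ)
    (hf : ∀ z ∈ s, f z ≤ if 4 ∣ addOrderOf z then x else y) :
    (s.map f).sum ≤ Multiset.card (s.filter fun z => 4 ∣ addOrderOf z) * x +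
      Multiset.card (s.filter fun z => ¬ 4 ∣ addOrderOf z) * y := by
  have h2 : s.map f = (s.filter fun z => 4 ∣ addOrderOf z).map f +
      (s.filter fun z => ¬ 4 ∣ addOrderOf z).map f := by
    rw [← Multiset.map_add, Multiset.filter_add_not]
  rw [h2, Multiset.sum_add]
  refine add_le_add ?_ ?_
  · have h5 := Multiset.sum_le_card_nsmul ((s.filter fun z => 4 ∣ addOrderOf z).map f) x (by
      intro a ha
      rw [Multiset.mem_map] at ha
      obtain ⟨z, hz, rfl⟩ := ha
      rw [Multiset.mem_filter] at hz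
      have h := hf z hz.1
      rwa [if_pos hz.2] at h)
    rw [Multiset.card_map, nsmul_eq_mul] at h5
    exact h5
  · have h5 := Multiset.sum_le_card_nsmul ((s.filter fun z => ¬ 4 ∣ addOrderOf z).map f) y (by
      intro a ha
      rw [Multiset.mem_map] at ha
      obtain ⟨z, hz, rfl⟩ := ha
      rw [Multiset.mem_filter] at hz
      have h := hf z hz.1
      rwa [if_neg hz.2] at h)
    rw [Multiset.card_map, nsmul_eq_mul] at h5
    exact h5

lemma dvd4_63 {m : ℕ} {z : ZMod m} (hz : Gd z) (h : 2 ∣ addOrderOf z) : 4 ∣ addOrderOf z := by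
  unfold Gd at hz
  omega

lemma ten63 : ∀ J ∈ ({2, 3, 5, 7, 11} : Finset ℕ).powerset, J.card = 4 →
    (2 ∉ J → 480 ≤ ∏ q ∈ J, lb63 q) ∧ (2 ∈ J → 96 ≤ ∏ q ∈ J, lb63 q) := by
  decide

lemma five63 : ∀ J ∈ ({2, 3, 5, 7, 11} : Finset ℕ).powerset, 5 ≤ J.card →
    960 ≤ ∏ q ∈ J, lb63 q := by
  decide

lemma lb63_pos {q : ℕ} (hq : q.Prime) : 0 < lb63 q := by
  unfold lb63
  split_ifs
  · norm_num
  · exact Nat.sub_pos_of_lt hq.one_lt

/-- the condition modulo two, ten elements -/
lemma c4a63 (h4 : S_c4) (m : ℕ) [NeZero m] (hm : 4 ∣ m)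
    (hP : m.primeFactors ⊆ {2, 3, 5, 7, 11}) (s : Multiset (ZMod m)) (hG : ∀ z ∈ s, Gd z)
    (hs : Multiset.card s ≤ 10)
    (hα : Multiset.card (s.filter fun z => 4 ∣ addOrderOf z) ≤ 2) :
    C4 univ (fun z : ZMod m => (s.count z : ℤ)) := by
  classical
  have hc5 : m.primeFactors.card ≤ 5 := (card_le_card hP).trans (by decide)
  refine h4 m (Or.inr hm) hc5 s fun I hI => ?_
  have hJ1 : I.map (Function.Embedding.subtype _) ∈ ({2, 3, 5, 7, 11} : Finset ℕ).powerset :=
    mem_powerset.2 ((map63 I).trans hP)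
  have hJ2 : (I.map (Function.Embedding.subtype _)).card = 4 := by rw [card_map, hI]
  obtain ⟨t1, t2⟩ := ten63 _ hJ1 hJ2
  have hU : I ≠ univ → 960 ≤ ∏ q ∈ m.primeFactors, lb63 q := by
    intro hne
    have e1 : I.card < (univ : Finset m.primeFactors).card :=
      card_lt_card (ssubset_univ_iff.2 hne)
    have e2 : (univ : Finset m.primeFactors).card = m.primeFactors.card := by
      rw [card_univ, Fintype.card_coe]
    exact five63 _ (mem_powerset.2 hP) (by omega)
  have hg : ∀ z ∈ s, ∀ q : m.primeFactors, q ∈ ty z → 0 < lb63 q.1 ∧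
      lb63 q.1 ≤ Nat.totient (q.1 ^ (addOrderOf z).factorization q.1) := by
    intro z hz q hq
    have hqp := Nat.prime_of_mem_primeFactors q.2
    exact ⟨lb63_pos hqp, tot63 (hG z hz) hqp (mem_ty63.1 hq)⟩
  have h2m : 2 ∈ m.primeFactors :=
    Nat.mem_primeFactors.2 ⟨Nat.prime_two, (by norm_num : 2 ∣ 4).trans hm, NeZero.ne m⟩
  have hq1 : (Multiset.card (s.filter fun z => 4 ∣ addOrderOf z) : ℚ) ≤ 2 := by exact_mod_cast hα
  have hq0 : (0 : ℚ) ≤ Multiset.card (s.filter fun z => 4 ∣ addOrderOf z) := by positivity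
  have hq2 : (Multiset.card (s.filter fun z => ¬ 4 ∣ addOrderOf z) : ℚ) ≤ 10 := by
    have := Multiset.card_le_card (Multiset.filter_le (fun z => ¬ 4 ∣ addOrderOf z) s)
    exact_mod_cast this.trans hs
  by_cases h2 : 2 ∈ I.map (Function.Embedding.subtype _)
  · -- all elements of nonzero weight have order divisible by four
    have hI2 : (⟨2, h2m⟩ : m.primeFactors) ∈ I := by
      rw [mem_map] at h2
      obtain ⟨a, ha, hb⟩ := h2
      have : a = ⟨2, h2m⟩ := Subtype.ext hb
      rwa [this] at ha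
    have hw : ∀ z ∈ s, wt I z ≤ if 4 ∣ addOrderOf z then 1 / 6 else 0 := by
      intro z hz
      have key : ∀ T : Finset m.primeFactors, (⟨2, h2m⟩ : m.primeFactors) ∈ T → ty z = T →
          4 ∣ addOrderOf z := by
        intro T hT he
        rw [← he] at hT
        exact dvd4_63 (hG z hz) (mem_ty63.1 hT)
      split_ifs with hd
      · refine wt63 I z lb63 (1 / 6) (by norm_num) (hg z hz) (fun _ => ?_) fun _ hne => ?_
        · have : (96 : ℚ) ≤ (∏ q ∈ I.map (Function.Embedding.subtype _), lb63 q : ℕ) := by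
            exact_mod_cast t2 h2
          linarith
        · have : (960 : ℚ) ≤ (∏ q ∈ m.primeFactors, lb63 q : ℕ) := by exact_mod_cast hU hne
          linarith
      · refine wt63 I z lb63 0 le_rfl (hg z hz) (fun h => ?_) fun h _ => ?_
        · exact absurd (key I hI2 h) hd
        · exact absurd (key univ (mem_univ _) h) hd
    have h5 := sum63 s (wt I) (1 / 6) 0 hw
    linarith
  · have hw : ∀ z ∈ s, wt I z ≤ if 4 ∣ addOrderOf z then 2 / 15 else 1 / 30 := by
      intro z hz
      have hT : ty z = univ → 4 ∣ addOrderOf z := by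
        intro he
        have : (⟨2, h2m⟩ : m.primeFactors) ∈ ty z := he ▸ mem_univ _
        exact dvd4_63 (hG z hz) (mem_ty63.1 this)
      have h480 : (480 : ℚ) ≤ (∏ q ∈ I.map (Function.Embedding.subtype _), lb63 q : ℕ) := by
        exact_mod_cast t1 h2
      split_ifs with hd
      · refine wt63 I z lb63 (2 / 15) (by norm_num) (hg z hz) (fun _ => ?_) fun _ hne => ?_
        · linarith
        · have : (960 : ℚ) ≤ (∏ q ∈ m.primeFactors, lb63 q : ℕ) := by exact_mod_cast hU hne
          linarith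
      · refine wt63 I z lb63 (1 / 30) (by norm_num) (hg z hz) (fun _ => ?_) fun h _ => ?_
        · linarith
        · exact absurd (hT h) hd
    have h5 := sum63 s (wt I) (2 / 15) (1 / 30) hw
    linarith

lemma four63 : ∀ J ∈ ({2, 3, 5, 7} : Finset ℕ).powerset, 4 ≤ J.card →
    J = {2, 3, 5, 7} := by
  decide

/-- the order of an element of full type whose Euler product is minimal -/
lemma ord420_63 {m : ℕ} [NeZero m] {z : ZMod m} (hP : m.primeFactors = {2, 3, 5, 7}) (hz : Gd z)
    (hd : ∀ q ∈ m.primeFactors, q ∣ addOrderOf z) (hne : addOrderOf z ≠ 420) :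
    192 ≤ ∏ q ∈ m.primeFactors, Nat.totient (q ^ (addOrderOf z).factorization q) := by
  have ho : addOrderOf z ≠ 0 := by
    have : Finite (ZMod m) := inferInstance
    exact (addOrderOf_pos z).ne'
  have hom : addOrderOf z ∣ m := by
    refine addOrderOf_dvd_of_nsmul_eq_zero ?_
    rw [nsmul_eq_mul, ZMod.natCast_self, zero_mul]
  rw [hP] at hd ⊢
  have d2 : 2 ∣ addOrderOf z := hd 2 (by decide)
  have d3 : 3 ∣ addOrderOf z := hd 3 (by decide)
  have d5 : 5 ∣ addOrderOf z := hd 5 (by decide)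
  have d7 : 7 ∣ addOrderOf z := hd 7 (by decide)
  have d4 : 2 ^ 2 ∣ addOrderOf z := dvd4_63 hz d2
  have v2 : 2 ≤ (addOrderOf z).factorization 2 :=
    (Nat.prime_two.pow_dvd_iff_le_factorization ho).1 d4
  have v3 := Nat.prime_three.factorization_pos_of_dvd ho d3
  have v5 := Nat.prime_five.factorization_pos_of_dvd ho d5
  have p7 : Nat.Prime 7 := by norm_num
  have v7 := p7.factorization_pos_of_dvd ho d7
  have hpf : (addOrderOf z).primeFactors ⊆ {2, 3, 5, 7} := by
    rw [← hP]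
    exact Nat.primeFactors_mono hom (NeZero.ne m)
  have hn : addOrderOf z = 2 ^ (addOrderOf z).factorization 2 * 3 ^ (addOrderOf z).factorization 3 *
      5 ^ (addOrderOf z).factorization 5 * 7 ^ (addOrderOf z).factorization 7 := by
    have e1 := Nat.prod_factorization_pow_eq_self ho
    have e2 : ∏ p ∈ ({2, 3, 5, 7} : Finset ℕ), p ^ (addOrderOf z).factorization p =
        (addOrderOf z).factorization.prod (fun p k => p ^ k) := by
      rw [Finsupp.prod]
      refine (prod_subset (by simpa using hpf) ?_).symm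
      intro p _ hp
      rw [Finsupp.notMem_support_iff] at hp
      rw [hp, pow_zero]
    rw [← e2] at e1
    rw [prod_insert (by decide), prod_insert (by decide), prod_insert (by decide),
      prod_singleton] at e1
    rw [← mul_assoc, ← mul_assoc] at e1
    exact e1.symm
  rw [prod_insert (by decide), prod_insert (by decide), prod_insert (by decide),
      prod_singleton, Nat.totient_prime_pow Nat.prime_two (by omega),
      Nat.totient_prime_pow Nat.prime_three v3, Nat.totient_prime_pow Nat.prime_five v5,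
      Nat.totient_prime_pow p7 v7]
  obtain ⟨a, ha⟩ : ∃ a, (addOrderOf z).factorization 2 = a + 2 := ⟨_, (Nat.sub_add_cancel v2).symm⟩
  obtain ⟨b, hb⟩ : ∃ b, (addOrderOf z).factorization 3 = b + 1 := ⟨_, (Nat.sub_add_cancel v3).symm⟩
  obtain ⟨c, hc⟩ : ∃ c, (addOrderOf z).factorization 5 = c + 1 := ⟨_, (Nat.sub_add_cancel v5).symm⟩
  obtain ⟨d, hd'⟩ : ∃ d, (addOrderOf z).factorization 7 = d + 1 := ⟨_, (Nat.sub_add_cancel v7).symm⟩
  rw [ha, hb, hc, hd'] at hn ⊢
  have e1 : a + 2 - 1 = a + 1 := by omega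
  rw [e1, Nat.add_sub_cancel, Nat.add_sub_cancel, Nat.add_sub_cancel]
  have hsome : 0 < a ∨ 0 < b ∨ 0 < c ∨ 0 < d := by
    by_contra hcon
    push Not at hcon
    obtain ⟨h1, h2, h3, h4⟩ := hcon
    have a0 : a = 0 := by omega
    have b0 : b = 0 := by omega
    have c0 : c = 0 := by omega
    have d0 : d = 0 := by omega
    rw [a0, b0, c0, d0] at hn
    exact hne (hn.trans (by norm_num))
  have p2 : 1 ≤ 2 ^ a := Nat.one_le_two_pow
  have p3 : 1 ≤ 3 ^ b := Nat.one_le_pow _ _ (by norm_num)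
  have p5 : 1 ≤ 5 ^ c := Nat.one_le_pow _ _ (by norm_num)
  have p7' : 1 ≤ 7 ^ d := Nat.one_le_pow _ _ (by norm_num)
  have key : 2 ≤ 2 ^ a * (3 ^ b * (5 ^ c * 7 ^ d)) := by
    have q2 : 0 < a → 2 ≤ 2 ^ a := fun h => by
      calc 2 = 2 ^ 1 := by norm_num
        _ ≤ 2 ^ a := Nat.pow_le_pow_right (by norm_num) h
    have q3 : 0 < b → 2 ≤ 3 ^ b := fun h => by
      calc 2 ≤ 3 ^ 1 := by norm_num
        _ ≤ 3 ^ b := Nat.pow_le_pow_right (by norm_num) h
    have q5 : 0 < c → 2 ≤ 5 ^ c := fun h => by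
      calc 2 ≤ 5 ^ 1 := by norm_num
        _ ≤ 5 ^ c := Nat.pow_le_pow_right (by norm_num) h
    have q7 : 0 < d → 2 ≤ 7 ^ d := fun h => by
      calc 2 ≤ 7 ^ 1 := by norm_num
        _ ≤ 7 ^ d := Nat.pow_le_pow_right (by norm_num) h
    have r1 : 1 ≤ 5 ^ c * 7 ^ d := Nat.one_le_iff_ne_zero.2 (by positivity)
    have r2 : 1 ≤ 3 ^ b * (5 ^ c * 7 ^ d) := Nat.one_le_iff_ne_zero.2 (by positivity)
    rcases hsome with h | h | h | h
    · calc 2 = 2 * 1 := by norm_num
        _ ≤ _ := Nat.mul_le_mul (q2 h) r2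
    · calc 2 = 1 * (2 * 1) := by norm_num
        _ ≤ _ := Nat.mul_le_mul p2 (Nat.mul_le_mul (q3 h) r1)
    · calc 2 = 1 * (1 * (2 * 1)) := by norm_num
        _ ≤ _ := Nat.mul_le_mul p2 (Nat.mul_le_mul p3 (Nat.mul_le_mul (q5 h) p7'))
    · calc 2 = 1 * (1 * (1 * 2)) := by norm_num
        _ ≤ _ := Nat.mul_le_mul p2 (Nat.mul_le_mul p3 (Nat.mul_le_mul p5 (q7 h)))
  have e9 : 2 ^ (a + 1) * (2 - 1) * (3 ^ b * (3 - 1) * (5 ^ c * (5 - 1) * (7 ^ d * (7 - 1)))) =
      96 * (2 ^ a * (3 ^ b * (5 ^ c * 7 ^ d))) := by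
    rw [pow_succ]
    norm_num
    ring
  rw [e9]
  omega

/-- the condition modulo two, at most nine elements -/
lemma c4b63 (h4 : S_c4) (h5 : S_exc) (m : ℕ) [NeZero m] (hm : 4 ∣ m)
    (hP : m.primeFactors ⊆ {2, 3, 5, 7}) (s : Multiset (ZMod m)) (hG : ∀ z ∈ s, Gd z)
    (hα : Multiset.card s + Multiset.card (s.filter fun z => 4 ∣ addOrderOf z) ≤ 12)
    (hR : Rel (fun z : ZMod m => (s.count z : ℤ))) :
    C4 univ (fun z : ZMod m => (s.count z : ℤ)) := by
  classical
  have hc5 : m.primeFactors.card ≤ 5 := (card_le_card hP).trans (by decide)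
  by_cases hex : m.primeFactors = {2, 3, 5, 7} ∧ Multiset.card s = 6 ∧ ∀ z ∈ s, addOrderOf z = 420
  · exact h5 m hm hex.1 s hex.2.1 hex.2.2 hR
  refine h4 m (Or.inr hm) hc5 s fun I hI => ?_
  have hcu : (univ : Finset m.primeFactors).card = m.primeFactors.card := by
    rw [card_univ, Fintype.card_coe]
  have hcm : m.primeFactors.card ≤ 4 := (card_le_card hP).trans (by decide)
  have hIU : I = univ := by
    refine eq_univ_of_card I ?_
    have h6 : I.card ≤ (univ : Finset m.primeFactors).card := card_le_univ I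
    rw [card_univ] at hcu h6
    omega
  have hPe : m.primeFactors = {2, 3, 5, 7} :=
    four63 _ (mem_powerset.2 hP) (by rw [← hcu, ← hIU, hI])
  have hmap : I.map (Function.Embedding.subtype _) = m.primeFactors := by
    refine eq_of_subset_of_card_le (map63 I) ?_
    rw [card_map, hI]
    exact hcm
  have hg : ∀ z ∈ s, ∀ q : m.primeFactors, q ∈ ty z → 0 < lb63 q.1 ∧
      lb63 q.1 ≤ Nat.totient (q.1 ^ (addOrderOf z).factorization q.1) := by
    intro z hz q hq
    have hqp := Nat.prime_of_mem_primeFactors q.2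
    exact ⟨lb63_pos hqp, tot63 (hG z hz) hqp (mem_ty63.1 hq)⟩
  have h2m : 2 ∈ m.primeFactors := by rw [hPe]; decide
  have h96 : (96 : ℚ) = ((∏ q ∈ I.map (Function.Embedding.subtype _), lb63 q : ℕ) : ℚ) := by
    rw [hmap, hPe]
    have : ∏ q ∈ ({2, 3, 5, 7} : Finset ℕ), lb63 q = 96 := by decide
    rw [this]
    norm_num
  have hT : ∀ z ∈ s, ty z = I → 4 ∣ addOrderOf z := by
    intro z hz he
    have : (⟨2, h2m⟩ : m.primeFactors) ∈ ty z := by
      rw [he, hIU]
      exact mem_univ _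
    exact dvd4_63 (hG z hz) (mem_ty63.1 this)
  have hw : ∀ z ∈ s, wt I z ≤ if 4 ∣ addOrderOf z then 1 / 6 else 0 := by
    intro z hz
    split_ifs with hd
    · refine wt63 I z lb63 (1 / 6) (by norm_num) (hg z hz) (fun _ => ?_) fun _ hne =>
        absurd hIU hne
      rw [← h96]
      norm_num
    · refine wt63 I z lb63 0 le_rfl (hg z hz) (fun h => ?_) fun _ hne => absurd hIU hne
      exact absurd (hT z hz h) hd
  have hαc := Multiset.card_le_card (Multiset.filter_le (fun z => 4 ∣ addOrderOf z) s)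
  rcases Nat.lt_or_ge (Multiset.card (s.filter fun z => 4 ∣ addOrderOf z)) 6 with hlt | hge
  · have h5 := sum63 s (wt I) (1 / 6) 0 hw
    have h6 : (Multiset.card (s.filter fun z => 4 ∣ addOrderOf z) : ℚ) ≤ 5 := by
      exact_mod_cast (by omega :
        Multiset.card (s.filter fun z => 4 ∣ addOrderOf z) ≤ 5)
    linarith
  · have hs6 : Multiset.card s = 6 := by omega
    have hnot : ¬ ∀ z ∈ s, addOrderOf z = 420 := fun h => hex ⟨hPe, hs6, h⟩
    push Not at hnot
    obtain ⟨z0, hz0, hne0⟩ := hnot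
    obtain ⟨s1, hs1⟩ := Multiset.exists_cons_of_mem hz0
    have hc1 : Multiset.card s1 = 5 := by
      rw [hs1, Multiset.card_cons] at hs6
      omega
    have hw16 : ∀ z ∈ s, wt I z ≤ 1 / 6 := by
      intro z hz
      refine (hw z hz).trans ?_
      split_ifs <;> norm_num
    have hw0 : wt I z0 ≤ 1 / 12 := by
      unfold wt
      split_ifs with h7 h8
      · have h9 : (192 : ℚ) ≤ ∏ q ∈ I,
            (Nat.totient (q.1 ^ (addOrderOf z0).factorization q.1) : ℚ) := by
          have h10 := ord420_63 hPe (hG z0 hz0) (by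
            intro q hq
            have h11 : (⟨q, hq⟩ : m.primeFactors) ∈ ty z0 := by
              rw [h7, hIU]
              exact mem_univ _
            exact mem_ty63.1 h11) hne0
          rw [← produniv63 (m := m) (fun q => Nat.totient (q ^ (addOrderOf z0).factorization q)),
            ← hIU] at h10
          exact_mod_cast h10
        rw [div_le_iff₀ (by linarith)]
        linarith
      · exact absurd (h8.trans hIU.symm) h7
      · norm_num
    rw [hs1, Multiset.map_cons, Multiset.sum_cons]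
    have h5 := Multiset.sum_le_card_nsmul (s1.map (wt I)) (1 / 6) (by
      intro a ha
      rw [Multiset.mem_map] at ha
      obtain ⟨z, hz, rfl⟩ := ha
      exact hw16 z (by rw [hs1]; exact Multiset.mem_cons_of_mem hz))
    rw [Multiset.card_map, hc1, nsmul_eq_mul] at h5
    norm_num at h5 hw0 ⊢
    linarith

theorem evenQ_of (h1 : S_remE) (h2 : S_cxlev) (h3 : S_coreQ) (h4 : S_c4) (h5 : S_exc) :
    S_evenQ := by
  intro m _ hm s hG hs hα hR hC Q _ c hc
  -- the conditions which are inherited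
  have hrem : ∀ (k : ℕ) (L : Finset ℕ), (∀ ℓ ∈ L, ℓ.Prime ∧ ℓ ∣ m ∧ 3 < ℓ ∧ k + 1 < ℓ) →
      ∀ s : Multiset (ZMod m), Multiset.card s ≤ k → ((∀ z ∈ s, Gd z) ∧
        Rel (fun z : ZMod m => (s.count z : ℤ)) ∧ CEall m (fun z : ZMod m => (s.count z : ℤ))) →
      ∃ s' : Multiset (ZMod m), s' ≤ s ∧ (∀ z ∈ s', ∀ ℓ ∈ L, ¬ ℓ ∣ addOrderOf z) ∧
        ((∀ z ∈ s', Gd z) ∧ Rel (fun z : ZMod m => (s'.count z : ℤ)) ∧
          CEall m (fun z : ZMod m => (s'.count z : ℤ))) ∧
        ∀ (Q : Type) [AddCommGroup Q] (c : ZMod m → Q), OddDist c →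
          (s.map c).sum = (s'.map c).sum := by
    intro k L hL s hs hP
    refine rem63 k (fun s' : Multiset (ZMod m) => (∀ z ∈ s', Gd z) ∧
      Rel (fun z : ZMod m => (s'.count z : ℤ)) ∧
        CEall m (fun z : ZMod m => (s'.count z : ℤ))) L ?_ s hs hP
    intro ℓ hℓ s' hs' hP'
    obtain ⟨q1, q2, q3, q4⟩ := hL ℓ hℓ
    obtain ⟨ha, hb, hc⟩ := h1 m ℓ hm q1 q2 q3 s' hP'.1 (by omega) hP'.2.1 hP'.2.2
    exact ⟨⟨fun z hz => hP'.1 z (Multiset.mem_filter.1 hz).1, hb, hc⟩, ha⟩
  -- the end of the proof, from a set of small primes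
  have hend : ∀ (T : ℕ → Prop) [DecidablePred T], T 2 → ∀ s' : Multiset (ZMod m), s' ≤ s →
      (∀ z ∈ s', ∀ ℓ ∈ m.primeFactors.filter fun p => ¬ T p, ¬ ℓ ∣ addOrderOf z) →
      ((∀ z ∈ s', Gd z) ∧ Rel (fun z : ZMod m => (s'.count z : ℤ)) ∧
          CEall m (fun z : ZMod m => (s'.count z : ℤ))) →
      (∀ (m0 : ℕ) [NeZero m0], 4 ∣ m0 → m0.primeFactors = m.primeFactors.filter T →
        ∀ s0 : Multiset (ZMod m0), Multiset.card s0 = Multiset.card s' →
        (∀ z ∈ s0, Gd z) →
        Multiset.card s0 + Multiset.card (s0.filter fun z => 4 ∣ addOrderOf z) ≤ 12 →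
        Rel (fun z : ZMod m0 => (s0.count z : ℤ)) →
        C4 univ (fun z : ZMod m0 => (s0.count z : ℤ))) →
      (s'.map c).sum = 0 := by
    intro T _ hT2 s' hle hord hP hC4
    obtain ⟨m0, kk, hprod, hm00, hcop, hpf, s0, hs0⟩ := lvl63 T s' hord
    have : NeZero m0 := ⟨hm00⟩
    have h4m0 : 4 ∣ m0 := by
      have h20 : 2 ∣ m0 := by
        refine Nat.dvd_of_mem_primeFactors (n := m0) ?_
        rw [hpf, mem_filter]
        exact ⟨Nat.mem_primeFactors.2 ⟨Nat.prime_two, (by norm_num : 2 ∣ 4).trans hm,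
          NeZero.ne m⟩, hT2⟩
      have hck : Nat.Coprime 4 kk := by
        have h8 : Nat.Coprime kk 2 := Nat.Coprime.coprime_dvd_right h20 hcop
        have h9 : Nat.Coprime 2 kk := h8.symm
        have : Nat.Coprime (2 ^ 2) kk := Nat.Coprime.pow_left 2 h9
        simpa using this
      refine hck.dvd_of_dvd_mul_left ?_
      rw [hprod]
      exact hm
    obtain ⟨hl1, hl2⟩ := h2 m m0 kk h4m0 hprod hcop s0
    rw [hs0] at hl1 hl2
    have hR0 := hl1 hP.2.1
    have hC0 := hl2 hP.2.2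
    have hG0 : ∀ z ∈ s0, Gd z := by
      intro z hz
      have h8 : Gd (iota kk z : ZMod m) := hP.1 _ (by
        rw [← hs0]
        exact Multiset.mem_map_of_mem _ hz)
      unfold Gd at h8 ⊢
      rwa [ord63 hprod] at h8
    have hc0 : Multiset.card s0 = Multiset.card s' := by rw [← hs0, Multiset.card_map]
    have hα0 : Multiset.card s0 + Multiset.card (s0.filter fun z => 4 ∣ addOrderOf z) ≤ 12 := by
      have e1 : Multiset.card (s0.filter fun z => 4 ∣ addOrderOf z) =
          Multiset.card (s'.filter fun z => 4 ∣ addOrderOf z) := by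
        rw [← hs0, Multiset.filter_map, Multiset.card_map]
        congr 1
        refine Multiset.filter_congr fun z _ => ?_
        simp only [Function.comp_apply]
        rw [ord63 hprod]
      have e2 := Multiset.card_le_card hle
      have e3 := Multiset.card_le_card
        (Multiset.filter_le_filter (fun z => 4 ∣ addOrderOf z) hle)
      omega
    have hCX : CX m0 (fun z : ZMod m0 => (s0.count z : ℤ)) := by
      refine ⟨fun h => ?_, fun _ => hC0⟩
      obtain ⟨j, hj⟩ := h
      omega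
    have hfin := h3 m0 (Or.inr h4m0) (fun z => (s0.count z : ℤ)) (fun z hz => hG0 z (by
      have hz' : s0.count z ≠ 0 := by exact_mod_cast hz
      exact Multiset.count_ne_zero.1 hz')) hR0 hCX (hC4 m0 h4m0 hpf s0 hc0 hG0 hα0 hR0) Q
      (fun b => c (iota kk b)) (hc.comp_iota hprod)
    have h6 := sum_count s0 (fun b => c (iota kk b))
    rw [← hs0, Multiset.map_map]
    exact h6.symm.trans hfin
  have small : ∀ (q B : ℕ), q.Prime → q ≤ B → B ≤ 11 → q ∈ (Finset.range (B + 1)).filter Nat.Prime :=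
    fun q B hq h _ => mem_filter.2 ⟨mem_range.2 (by omega), hq⟩
  -- first step: the primes larger than eleven
  obtain ⟨s1, hle1, hord1, hP1, hsum1⟩ := hrem 10 (m.primeFactors.filter fun p => ¬ p ≤ 11) (by
    intro ℓ hℓ
    rw [mem_filter] at hℓ
    exact ⟨Nat.prime_of_mem_primeFactors hℓ.1, Nat.dvd_of_mem_primeFactors hℓ.1, by omega,
      by omega⟩) s hs ⟨hG, hR, hC⟩
  rw [hsum1 Q c hc]
  rcases Nat.lt_or_ge (Multiset.card s1) 10 with hlt | hge
  · -- at most nine elements
    obtain ⟨s2, hle2, hord2, hP2, hsum2⟩ := hrem 9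
      (m.primeFactors.filter fun p => ¬ p ≤ 10) (by
      intro ℓ hℓ
      rw [mem_filter] at hℓ
      exact ⟨Nat.prime_of_mem_primeFactors hℓ.1, Nat.dvd_of_mem_primeFactors hℓ.1, by omega,
        by omega⟩) s1 (by omega) hP1
    rw [hsum2 Q c hc]
    refine hend (fun p => p ≤ 10) (by norm_num) s2 (hle2.trans hle1) hord2 hP2 ?_
    intro m0 _ h4m0 hpf s0 hc0 hG0 hα0 hR0
    refine c4b63 h4 h5 m0 h4m0 ?_ s0 hG0 hα0 hR0
    intro q hq
    rw [hpf, mem_filter] at hq
    have h7 := small q 10 (Nat.prime_of_mem_primeFactors hq.1) hq.2 (by norm_num)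
    have h8 : (Finset.range (10 + 1)).filter Nat.Prime = {2, 3, 5, 7} := by decide
    rwa [h8] at h7
  · refine hend (fun p => p ≤ 11) (by norm_num) s1 hle1 hord1 hP1 ?_
    intro m0 _ h4m0 hpf s0 hc0 hG0 hα0 hR0
    refine c4a63 h4 m0 h4m0 ?_ s0 hG0 ?_ ?_
    · intro q hq
      rw [hpf, mem_filter] at hq
      have h7 := small q 11 (Nat.prime_of_mem_primeFactors hq.1) hq.2 (by norm_num)
      have h8 : (Finset.range (11 + 1)).filter Nat.Prime = {2, 3, 5, 7, 11} := by decide
      rwa [h8] at h7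
    · rw [hc0]
      exact (Multiset.card_le_card hle1).trans hs
    · omega

end Pool.Agent.NH35.HQ
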