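import Pool.Agent.NH35.HQ.Stm

/-! A unit with an odd difference (lemma of Gauss): `S_gq`. -/

set_option autoImplicit false

namespace Pool.Agent.NH35.HQ

open Finset Pool.Agent.H916R2 Pool.Agent.NH35.HG Pool.Agent.NH35.HE Pool.Agent.NH35.HK

private theorem natAbs_val31 {q : ℕ} [Fact q.Prime] (h2 : q % 2 = 1) (y : ZMod q) :
    ((y.val : ℕ) : ZMod 2) = ((y.valMinAbs.natAbs : ℕ) : ZMod 2) +
      (if q / 2 < y.val then 1 else 0) := by
  have hlt := ZMod.val_lt y
  have h1 : (q : ZMod 2) = 1 := by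
    rw [← Nat.div_add_mod q 2, h2]
    push_cast
    have : (2 : ZMod 2) = 0 := rfl
    rw [this, zero_mul, zero_add]
  rw [ZMod.valMinAbs_def_pos]
  split_ifs with h3 h4 h4
  · omega
  · rw [Int.natAbs_natCast, add_zero]
  · have h5 : (((y.val : ℕ) : ℤ) - q).natAbs = q - y.val := by omega
    rw [h5, Nat.cast_sub hlt.le, h1]
    have h6 : ∀ z : ZMod 2, z = 1 - z + 1 := by decide
    exact h6 _
  · omega

theorem gq_ok : S_gq := by
  intro q hq hq2
  have _ := Fact.mk hq
  have hodd : q % 2 = 1 := hq.eq_two_or_odd.resolve_left hq2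
  obtain ⟨x, hx⟩ := FiniteField.exists_nonsquare (F := ZMod q) (by rw [ZMod.ringChar_zmod_n]; exact hq2)
  have hx0 : x ≠ 0 := by
    rintro rfl
    exact hx (IsSquare.zero)
  refine ⟨x.val, ?_, ?_⟩
  · exact ZMod.val_coe_unit_coprime (Units.mk0 x hx0)
  have hxv : ((x.val : ℤ) : ZMod q) = x := by
    rw [Int.cast_natCast, ZMod.natCast_zmod_val]
  have hleg : legendreSym q (x.val : ℤ) = -1 := by
    rw [legendreSym.eq_neg_one_iff, hxv]
    exact hx
  have hg := ZMod.gauss_lemma hq2 (a := (x.val : ℤ)) (by rw [hxv]; exact hx0)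
  rw [hleg, hxv] at hg
  have hcard : Odd (((Ico 1 (q / 2).succ).filter fun r : ℕ => q / 2 < (x * (r : ZMod q)).val).card) := by
    rw [← Nat.not_even_iff_odd]
    intro he
    rw [he.neg_one_pow] at hg
    norm_num at hg
  -- the sum
  have hbq : bq q = q := by unfold bq; rw [if_neg hq2]
  have hsum : Gq q x.val 1 = ∑ r ∈ Ico 1 (q / 2).succ, (((x * (r : ZMod q)).val : ℤ) - (r : ℤ)) := by
    unfold Gq
    rw [hbq, ← sum_filter]
    have hset : (range q).filter (fun r => hf q r) = Ico 1 (q / 2).succ := by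
      ext r
      unfold hf
      rw [mem_filter, mem_range, mem_Ico, if_neg hq2]
      constructor
      · rintro ⟨h1, h2, h3⟩
        rw [Nat.mod_eq_of_lt h1] at h2 h3
        omega
      · rintro ⟨h1, h2⟩
        have h3 : r < q := by omega
        rw [Nat.mod_eq_of_lt h3]
        omega
    rw [hset]
    refine sum_congr rfl fun r hr => ?_
    rw [mem_Ico] at hr
    have h3 : r < q := by omega
    rw [one_mul, Nat.mod_eq_of_lt h3, ← ZMod.val_natCast, Nat.cast_mul, ZMod.natCast_zmod_val]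
  have hz : ((Gq q x.val 1 : ℤ) : ZMod 2) = 1 := by
    rw [hsum, Int.cast_sum]
    have h1 : ∀ r ∈ Ico 1 (q / 2).succ, (((((x * (r : ZMod q)).val : ℤ) - (r : ℤ)) : ℤ) : ZMod 2) =
        ((((x * (r : ZMod q)).valMinAbs.natAbs : ℕ) : ZMod 2) - ((r : ℕ) : ZMod 2)) +
          (if q / 2 < (x * (r : ZMod q)).val then 1 else 0) := by
      intro r _
      rw [Int.cast_sub, Int.cast_natCast, Int.cast_natCast, natAbs_val31 hodd]
      ring
    rw [sum_congr rfl h1, sum_add_distrib, sum_sub_distrib]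
    have h2 : ∑ r ∈ Ico 1 (q / 2).succ, (((x * (r : ZMod q)).valMinAbs.natAbs : ℕ) : ZMod 2) =
        ∑ r ∈ Ico 1 (q / 2).succ, ((r : ℕ) : ZMod 2) := by
      have h3 := ZMod.Ico_map_valMinAbs_natAbs_eq_Ico_map_id q x hx0
      have h4 := congrArg (fun s : Multiset ℕ => (s.map (fun n : ℕ => (n : ZMod 2))).sum) h3
      simp only [Multiset.map_map] at h4
      exact h4
    rw [h2, sub_self, zero_add, sum_ite, sum_const_zero, add_zero, sum_const, nsmul_eq_mul, mul_one]
    obtain ⟨k, hk⟩ := hcard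
    rw [hk]
    push_cast
    have : (2 : ZMod 2) = 0 := rfl
    rw [this, zero_mul, zero_add]
  rw [← Int.not_even_iff_odd]
  intro he
  obtain ⟨k, hk⟩ := he
  rw [hk] at hz
  push_cast at hz
  have h6 : ∀ z : ZMod 2, z + z ≠ 1 := by decide
  exact h6 _ hz

end Pool.Agent.NH35.HQ
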