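import Pool.Agent.NH35.HQ.Sys

/-! A cell missed by all boxes, modulo two (job HQ-7, helper48). -/

set_option autoImplicit false
set_option linter.unusedSectionVars false

namespace Pool.Agent.NH35.HQ

open Finset Pool.Agent.NH35.HK

namespace Hit2

variable {ι : Type} [Fintype ι] [DecidableEq ι] {H : ι → Type} [∀ i, CommGroup (H i)]
  [∀ i, Fintype (H i)] [∀ i, DecidableEq (H i)]

/-- one translate -/
def Mq {i : ι} (b : Finset (H i)) (g : H i) : Finset (H i) := univ.filter fun x => g * x ∈ b

/-- two translates -/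
def Nq {i : ι} (b : Finset (H i)) (g h : H i) : Finset (H i) :=
  univ.filter fun x => g * x ∈ b ∨ h * x ∈ b

theorem mem_Mq {i : ι} {b : Finset (H i)} {g x : H i} : x ∈ Mq b g ↔ g * x ∈ b := by
  unfold Mq
  simp

theorem mem_Nq {i : ι} {b : Finset (H i)} {g h x : H i} :
    x ∈ Nq b g h ↔ g * x ∈ b ∨ h * x ∈ b := by
  unfold Nq
  simp

theorem card_Mq {i : ι} (b : Finset (H i)) (g : H i) : (Mq b g).card ≤ b.card := by
  refine card_le_card_of_injOn (fun x => g * x) (fun x hx => ?_) fun x _ y _ hxy => ?_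
  · exact mem_Mq.1 hx
  · exact mul_left_cancel hxy

theorem card_Nq {i : ι} (b : Finset (H i)) (g h : H i) : (Nq b g h).card ≤ 2 * b.card := by
  have h1 : Nq b g h = Mq b g ∪ Mq b h := by
    ext x
    rw [mem_Nq, mem_union, mem_Mq, mem_Mq]
  rw [h1]
  have h2 := card_union_le (Mq b g) (Mq b h)
  have h3 := card_Mq b g
  have h4 := card_Mq b h
  omega

theorem sg_ne {d : Dat H} {i : ι} {a s : H i} (h : sg d i a s ≠ 0) : s = a ∨ s = d.κ i * a := by
  unfold sg at h
  by_contra hn
  rw [if_neg hn] at h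
  exact h rfl

theorem bs2_ne {J : Finset ι} {a : ∀ i, Finset (H i)} {F : (∀ i, H i) → ZMod 2}
    (h : bs2 J a F ≠ 0) : ∃ u : ∀ i, H i, (∀ i ∈ J, u i ∈ a i) ∧ F u ≠ 0 := by
  unfold bs2 at h
  obtain ⟨u, -, hu⟩ := exists_ne_zero_of_sum_ne_zero h
  by_cases hc : (∀ i ∈ J, u i ∈ a i) ∧ (∀ i, i ∉ J → u i = 1)
  · rw [if_pos hc] at hu
    exact ⟨u, hc.1, hu⟩
  · rw [if_neg hc] at hu
    exact absurd rfl hu

theorem sg_N {d : Dat H} {i : ι} {a s : H i} {b : Finset (H i)} (g : H i) (hs : s ∈ b)
    (h : sg d i (g * a) s ≠ 0) : a ∈ Nq b g (d.κ i * g) := by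
  rw [mem_Nq]
  rcases sg_ne h with h | h
  · left
    rw [← h]
    exact hs
  · right
    rw [mul_assoc, ← h]
    exact hs

/-- the first case -/
theorem badA (d : Dat H) (I : Finset ι) (b : ∀ i, Finset (H i)) (w : ∀ i, H i)
    (h : bs2 I b (fI d I w) ≠ 0) :
    w ∈ Fintype.piFinset fun i => if i ∈ I then Nq (b i) 1 (d.κ i * 1) else univ := by
  obtain ⟨u, h1, h2⟩ := bs2_ne h
  rw [Fintype.mem_piFinset]
  intro i
  split_ifs with hi
  · have h3 : sg d i (w i) (u i) ≠ 0 := by
      unfold fI at h2
      exact prod_ne_zero_iff.1 h2 i hi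
    exact sg_N 1 (h1 i hi) (by rw [one_mul]; exact h3)
  · exact mem_univ _

/-- the product sets of the second case -/
def SS (d : Dat H) (o : ι → ℕ) (r i : ι) (b : ∀ i, Finset (H i)) (g : ∀ i, H i) (q : ι) :
    Finset (H q) :=
  if q = r then Mq (b q) (g q) else if q = i then Nq (b q) (g q) (g q * d.τ r q) else
    if o q < o i then Nq (b q) (d.τ r q) (d.κ q * d.τ r q) else Nq (b q) 1 (d.κ q * 1)

theorem badB (d : Dat H) (o : ι → ℕ) (ho : Function.Injective o) (I : Finset ι) (r : ι)
    (hI : insert r I = univ) (hr : r ∉ I) (b : ∀ i, Finset (H i)) (w : ∀ i, H i)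
    (h : bs2 (insert r I) b (pth d o I r w) ≠ 0) :
    ∃ i ∈ I, w ∈ Fintype.piFinset (SS d o r i b 1) ∨ w ∈ Fintype.piFinset (SS d o r i b d.κ) := by
  obtain ⟨u, h1, h2⟩ := bs2_ne h
  have h1' : ∀ q, u q ∈ b q := fun q => h1 q (by rw [hI]; exact mem_univ q)
  unfold pth at h2
  obtain ⟨i, hi, h3⟩ := exists_ne_zero_of_sum_ne_zero h2
  by_cases h4 : d.τ r i = 1 ∨ d.τ r i = d.κ i
  · rw [if_pos h4] at h3
    exact absurd rfl h3
  rw [if_neg h4] at h3
  have h5 := left_ne_zero_of_mul h3
  have h6 := right_ne_zero_of_mul h3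
  have h7 := left_ne_zero_of_mul h5
  have h8 := right_ne_zero_of_mul h5
  rw [prod_ne_zero_iff] at h7 h8
  have hir : i ≠ r := fun h => hr (h ▸ hi)
  have hq : ∀ (g : ∀ i, H i) (q : ι), q ≠ r → q ≠ i → w q ∈ SS d o r i b g q := by
    intro g q hqr hqi
    have hqI : q ∈ I := by
      have : q ∈ insert r I := by rw [hI]; exact mem_univ q
      exact (mem_insert.1 this).resolve_left hqr
    unfold SS
    rw [if_neg hqr, if_neg hqi]
    split_ifs with h9
    · exact sg_N _ (h1' q) (h7 q (mem_filter.2 ⟨hqI, h9⟩))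
    · have h10 : o i < o q := by
        rcases lt_trichotomy (o q) (o i) with h | h | h
        · exact absurd h h9
        · exact absurd (ho h) hqi
        · exact h
      refine sg_N 1 (h1' q) ?_
      rw [one_mul]
      exact h8 q (mem_filter.2 ⟨hqI, h10⟩)
  refine ⟨i, hi, ?_⟩
  by_cases h9 : u r = w r ∧ (u i = w i ∨ u i = d.τ r i * w i)
  · left
    rw [Fintype.mem_piFinset]
    intro q
    by_cases hqr : q = r
    · subst hqr
      unfold SS
      rw [if_pos rfl, mem_Mq, Pi.one_apply, one_mul, ← h9.1]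
      exact h1' q
    · by_cases hqi : q = i
      · subst hqi
        unfold SS
        rw [if_neg hqr, if_pos rfl, mem_Nq, Pi.one_apply, one_mul, one_mul]
        rcases h9.2 with h | h
        · left
          rw [← h]
          exact h1' q
        · right
          rw [← h]
          exact h1' q
      · exact hq 1 q hqr hqi
  · rw [if_neg h9, zero_add] at h6
    by_cases h10 : u r = d.κ r * w r ∧ (u i = d.κ i * w i ∨ u i = d.κ i * d.τ r i * w i)
    · right
      rw [Fintype.mem_piFinset]
      intro q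
      by_cases hqr : q = r
      · subst hqr
        unfold SS
        rw [if_pos rfl, mem_Mq, ← h10.1]
        exact h1' q
      · by_cases hqi : q = i
        · subst hqi
          unfold SS
          rw [if_neg hqr, if_pos rfl, mem_Nq]
          rcases h10.2 with h | h
          · left
            rw [← h]
            exact h1' q
          · right
            rw [← h]
            exact h1' q
        · exact hq d.κ q hqr hqi
    · rw [if_neg h10] at h6
      exact absurd rfl h6

theorem card_SS (d : Dat H) (o : ι → ℕ) (I : Finset ι) (r i : ι) (hI : insert r I = univ)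
    (hr : r ∉ I) (b : ∀ i, Finset (H i)) (g : ∀ i, H i) :
    (Fintype.piFinset (SS d o r i b g)).card ≤ (b r).card * ∏ q ∈ I, (2 * (b q).card) := by
  rw [Fintype.card_piFinset, ← hI, prod_insert hr]
  refine Nat.mul_le_mul ?_ (prod_le_prod' fun q hq => ?_)
  · unfold SS
    rw [if_pos rfl]
    exact card_Mq _ _
  · have hqr : q ≠ r := fun h => hr (h ▸ hq)
    unfold SS
    rw [if_neg hqr]
    split_ifs
    · exact card_Nq _ _ _
    · exact card_Nq _ _ _
    · exact card_Nq _ _ _

theorem cardA (d : Dat H) (I : Finset ι) (b : ∀ i, Finset (H i)) :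
    ((Fintype.piFinset fun i => if i ∈ I then Nq (b i) 1 (d.κ i * 1) else univ).card : ℚ) ≤
      (∏ i ∈ I, (2 * ((b i).card : ℚ) / (Fintype.card (H i) : ℚ))) *
        (Fintype.card (∀ i, H i) : ℚ) := by
  have hH : ∀ i, (Fintype.card (H i) : ℚ) ≠ 0 := fun i => Nat.cast_ne_zero.2 Fintype.card_ne_zero
  rw [Fintype.card_piFinset, Fintype.card_pi, Nat.cast_prod, Nat.cast_prod]
  have h1 : ∏ i ∈ I, (2 * ((b i).card : ℚ) / (Fintype.card (H i) : ℚ)) =
      ∏ i, if i ∈ I then (2 * ((b i).card : ℚ) / (Fintype.card (H i) : ℚ)) else 1 := by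
    rw [prod_ite_mem, univ_inter]
  rw [h1, ← prod_mul_distrib]
  refine prod_le_prod (fun i _ => Nat.cast_nonneg _) fun i _ => ?_
  split_ifs
  · rw [div_mul_cancel₀ _ (hH i)]
    exact_mod_cast card_Nq (b i) 1 (d.κ i * 1)
  · rw [one_mul, card_univ]

end Hit2

open Hit2 in
/-- (A6) -/
theorem hit2_ok : S_hit2 := by
  intro ι _ _ H _ _ _ d o ho I r hI T _ A b hsum
  classical
  have hH : ∀ i, (Fintype.card (H i) : ℚ) ≠ 0 := fun i => Nat.cast_ne_zero.2 Fintype.card_ne_zero
  let Bad : T → Finset (∀ i, H i) := fun t =>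
    univ.filter fun w => bs2 (A t) (b t) (ps d o I r w (A t)) ≠ 0
  have hBad : ∀ t, ((Bad t).card : ℚ) ≤
      (if A t = I then ∏ i ∈ I, (2 * ((b t i).card : ℚ) / (Fintype.card (H i) : ℚ)) else
      if A t = insert r I then 2 * (I.card : ℚ) * (((b t r).card : ℚ) / (Fintype.card (H r) : ℚ)) *
        ∏ i ∈ I, (2 * ((b t i).card : ℚ) / (Fintype.card (H i) : ℚ)) else 0) *
        (Fintype.card (∀ i, H i) : ℚ) := by
    intro t
    by_cases h1 : A t = I
    · rw [if_pos h1]
      refine le_trans (Nat.cast_le.2 (card_le_card ?_)) (cardA d I (b t))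
      intro w hw
      have h2 := (mem_filter.1 hw).2
      apply badA
      have h3 : ps d o I r w (A t) = fI d I w := by
        funext u
        unfold ps
        rw [if_pos h1]
      rw [h3, h1] at h2
      exact h2
    · rw [if_neg h1]
      by_cases h2 : A t = insert r I
      · rw [if_pos h2]
        have hr : r ∉ I := by
          intro hr
          rw [insert_eq_self.2 hr] at h2
          exact h1 h2
        have h3 : Bad t ⊆ I.biUnion fun i => Fintype.piFinset (SS d o r i (b t) 1) ∪
            Fintype.piFinset (SS d o r i (b t) d.κ) := by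
          intro w hw
          have h4 := (mem_filter.1 hw).2
          have h5 : ps d o I r w (A t) = pth d o I r w := by
            funext u
            unfold ps
            rw [if_neg h1, if_pos h2]
          rw [h5, h2] at h4
          obtain ⟨i, hi, h6⟩ := badB d o ho I r hI hr (b t) w h4
          exact mem_biUnion.2 ⟨i, hi, mem_union.2 h6⟩
        have h4 : (Bad t).card ≤ I.card * (2 * ((b t r).card * ∏ q ∈ I, (2 * (b t q).card))) := by
          refine (card_le_card h3).trans (card_biUnion_le.trans ?_)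
          rw [← smul_eq_mul, ← sum_const]
          refine sum_le_sum fun i _ => ?_
          have h5 := card_union_le (Fintype.piFinset (SS d o r i (b t) 1))
            (Fintype.piFinset (SS d o r i (b t) d.κ))
          have h6 := card_SS d o I r i hI hr (b t) 1
          have h7 := card_SS d o I r i hI hr (b t) d.κ
          omega
        have h5 : ((Bad t).card : ℚ) ≤
            (I.card : ℚ) * (2 * (((b t r).card : ℚ) * ∏ q ∈ I, (2 * ((b t q).card : ℚ)))) := by
          exact_mod_cast h4
        refine h5.trans (le_of_eq ?_)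
        rw [Fintype.card_pi, ← hI, prod_insert hr, Nat.cast_mul, Nat.cast_prod, prod_div_distrib]
        have h6 : (∏ i ∈ I, (Fintype.card (H i) : ℚ)) ≠ 0 := prod_ne_zero_iff.2 fun i _ => hH i
        have h7 := hH r
        field_simp
      · rw [if_neg h2, zero_mul]
        have h3 : Bad t = ∅ := by
          rw [eq_empty_iff_forall_notMem]
          intro w hw
          have h4 := (mem_filter.1 hw).2
          apply h4
          have h5 : ps d o I r w (A t) = fun _ => 0 := by
            funext u
            unfold ps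
            rw [if_neg h1, if_neg h2]
          rw [h5]
          unfold bs2
          simp
        rw [h3, card_empty, Nat.cast_zero]
  by_contra hno
  push Not at hno
  have h1 : (univ : Finset (∀ i, H i)) ⊆ univ.biUnion Bad := by
    intro w _
    obtain ⟨t, ht⟩ := hno w
    exact mem_biUnion.2 ⟨t, mem_univ t, mem_filter.2 ⟨mem_univ w, ht⟩⟩
  have h2 := (card_le_card h1).trans card_biUnion_le
  rw [card_univ] at h2
  have h3 : (Fintype.card (∀ i, H i) : ℚ) ≤ ∑ t, ((Bad t).card : ℚ) := by
    exact_mod_cast h2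
  have h4 := h3.trans (sum_le_sum fun t _ => hBad t)
  rw [← sum_mul] at h4
  have h5 : (0 : ℚ) < (Fintype.card (∀ i, H i) : ℚ) := Nat.cast_pos.2 Fintype.card_pos
  nlinarith

end Pool.Agent.NH35.HQ
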