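import Pool.Agent.NH35.HQ.Sys
import Pool.Agent.NH35.HK.Hit

/-! A base point with at most one hit (several special coordinates). -/

set_option autoImplicit false
set_option linter.unusedSectionVars false

namespace Pool.Agent.NH35.HQ

open Finset Pool.Agent.NH35.HK

variable {ι : Type} [Fintype ι] [DecidableEq ι] {H : ι → Type} [∀ i, CommGroup (H i)]
  [∀ i, Fintype (H i)] [∀ i, DecidableEq (H i)]

/-- The pairing with a family of boxes. -/
lemma hitB_pair {d : Dat H} {ℓ : ι} {Sp : Finset ι} {K : ∀ i, Subgroup (H i)} {T : Type} [Fintype T]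
    (β : BxS d ℓ Sp K T) (c : Finset ι → (∀ i, H i) → ℤ) :
    pair β.X c = ∑ t, β.ε t * ∑ u : ∀ i, H i, (open Classical in
      if (∀ i ∈ β.A t, u i ∈ β.b t i) ∧ (∀ i, i ∉ β.A t → u i = 1) then c (β.A t) u else 0) := by
  classical
  unfold pair
  have h1 : ∀ (I : Finset ι) (u : ∀ i, H i), β.X I u • c I u =
      ∑ t, (if β.A t = I ∧ (∀ i ∈ I, u i ∈ β.b t i) ∧ (∀ i, i ∉ I → u i = 1) then
        β.ε t * c I u else 0) := by
    intro I u
    unfold BxS.X
    rw [smul_eq_mul, sum_mul]
    refine sum_congr rfl fun t _ => ?_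
    rw [ite_mul, zero_mul]
  simp only [h1]
  have h2 : ∀ I : Finset ι, ∑ u : ∀ i, H i, ∑ t, (if β.A t = I ∧ (∀ i ∈ I, u i ∈ β.b t i) ∧
      (∀ i, i ∉ I → u i = 1) then β.ε t * c I u else 0) =
      ∑ t, ∑ u : ∀ i, H i, (if β.A t = I ∧ (∀ i ∈ I, u i ∈ β.b t i) ∧
      (∀ i, i ∉ I → u i = 1) then β.ε t * c I u else 0) := fun I => sum_comm
  simp only [h2]
  rw [sum_comm]
  refine sum_congr rfl fun t _ => ?_
  rw [sum_eq_single (β.A t)]
  · rw [mul_sum]
    refine sum_congr rfl fun u _ => ?_
    simp only [true_and]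
    rw [mul_ite, mul_zero]
  · intro I _ hI
    refine sum_eq_zero fun u _ => ?_
    rw [if_neg fun h => hI h.1.symm]
  · intro h
    exact absurd (mem_univ _) h

/-- A triple is hit by `w`. -/
def HitB {d : Dat H} {ℓ : ι} {Sp : Finset ι} {K : ∀ i, Subgroup (H i)} {T : Type} [Fintype T]
    (β : BxS d ℓ Sp K T) (I : Finset ι) (w : ∀ i, H i) (x : T × Finset ι × Bool) : Prop :=
  ∀ q ∈ insert ℓ (β.A x.1 \ I), ((hitg d x.2.1 x.2.2)⁻¹ * w) q ∈ β.b x.1 q

/-- The sign of a triple. -/
def hitsB {d : Dat H} {ℓ : ι} {Sp : Finset ι} {K : ∀ i, Subgroup (H i)} {T : Type} [Fintype T]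
    (β : BxS d ℓ Sp K T) (x : T × Finset ι × Bool) : ℤ :=
  β.ε x.1 * ((-1) ^ x.2.1.card * (if x.2.2 then -1 else 1))

lemma hitsB_eq {d : Dat H} {ℓ : ι} {Sp : Finset ι} {K : ∀ i, Subgroup (H i)} {T : Type} [Fintype T]
    (β : BxS d ℓ Sp K T) (x : T × Finset ι × Bool) : hitsB β x = 1 ∨ hitsB β x = -1 := by
  unfold hitsB
  rcases β.hε x.1 with h | h <;> rcases neg_one_pow_eq_or ℤ x.2.1.card with h2 | h2 <;>
    rw [h, h2] <;> split_ifs <;> norm_num

open Classical in
/-- The relevant triples. -/
noncomputable def hitSB {d : Dat H} {ℓ : ι} {Sp : Finset ι} {K : ∀ i, Subgroup (H i)} {T : Type} [Fintype T]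
    (β : BxS d ℓ Sp K T) (I : Finset ι) : Finset (T × Finset ι × Bool) :=
  univ.filter fun x => I ⊆ β.A x.1 ∧ x.2.1 ⊆ β.A x.1 \ I

open Classical in
/-- Sums over the relevant triples. -/
lemma hitB_sum {d : Dat H} {ℓ : ι} {Sp : Finset ι} {K : ∀ i, Subgroup (H i)} {T : Type} [Fintype T]
    (β : BxS d ℓ Sp K T) (I : Finset ι) {M : Type} [AddCommMonoid M]
    (f : T × Finset ι × Bool → M) :
    ∑ x ∈ hitSB β I, f x = ∑ t, if I ⊆ β.A t then
      ∑ B ∈ (β.A t \ I).powerset, ∑ s : Bool, f (t, B, s) else 0 := by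
  unfold hitSB
  rw [sum_filter, Fintype.sum_prod_type]
  refine sum_congr rfl fun t _ => ?_
  rw [Fintype.sum_prod_type]
  by_cases h : I ⊆ β.A t
  · rw [if_pos h]
    have : (β.A t \ I).powerset = univ.filter fun B => B ⊆ β.A t \ I := by
      ext B
      simp
    rw [this, sum_filter]
    refine sum_congr rfl fun B _ => ?_
    by_cases hB : B ⊆ β.A t \ I
    · rw [if_pos hB]
      refine sum_congr rfl fun s _ => ?_
      rw [if_pos ⟨h, hB⟩]
    · rw [if_neg hB]
      refine sum_eq_zero fun s _ => ?_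
      rw [if_neg fun h' => hB h'.2]
  · rw [if_neg h]
    refine sum_eq_zero fun B _ => sum_eq_zero fun s _ => ?_
    rw [if_neg fun h' => h h'.1]

open Classical in
/-- The value of the pairing as a sum over the hitsB. -/
lemma hitB_val {d : Dat H} {ℓ : ι} {Sp : Finset ι} {K : ∀ i, Subgroup (H i)} {T : Type} [Fintype T]
    (β : BxS d ℓ Sp K T) {I : Finset ι} (hℓ : ℓ ∈ I) (w : ∀ i, H i) (F : (∀ i, H i) → ℤ)
    (hF : Dep (I.erase ℓ) F) :
    pair β.X (Od d (Ext d I w (fun u => if u ℓ = w ℓ then F u else 0))) =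
      ∑ x ∈ hitSB β I, hitsB β x * (if HitB β I w x then bsum (I.erase ℓ)
        (fun i => (β.b x.1 i).map (Equiv.mulLeft (hitg d x.2.1 x.2.2 i)).toEmbedding) F else 0) := by
  rw [hitB_pair, hitB_sum]
  refine sum_congr rfl fun t _ => ?_
  by_cases h : I ⊆ β.A t
  · rw [if_pos h]
    have h1 : ∀ u : ∀ i, H i,
        Od d (Ext d I w (fun u => if u ℓ = w ℓ then F u else 0)) (β.A t) u =
        ∑ B ∈ (β.A t \ I).powerset, ∑ s : Bool, ((-1) ^ B.card * (if s then -1 else 1)) *
          (if ∀ q ∈ insert ℓ (β.A t \ I), (hitg d B s * u) q = w q then F (hitg d B s * u)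
            else 0) := by
      intro u
      unfold Od
      rw [hit_ext d h, hit_ext d h, ← sum_sub_distrib]
      refine sum_congr rfl fun B _ => ?_
      rw [Fintype.sum_bool]
      have e1 : hitg d B true * u = (pr d B)⁻¹ * (d.κ * u) := by
        unfold hitg
        rw [if_pos rfl, mul_assoc]
      have e2 : hitg d B false * u = (pr d B)⁻¹ * u := by
        unfold hitg
        simp
      rw [e1, e2]
      simp only [if_true, Bool.false_eq_true, if_false]
      ring
    simp only [h1]
    have h2 : ∑ u : ∀ i, H i, (if (∀ i ∈ β.A t, u i ∈ β.b t i) ∧ (∀ i, i ∉ β.A t → u i = 1) then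
        ∑ B ∈ (β.A t \ I).powerset, ∑ s : Bool, ((-1) ^ B.card * (if s then -1 else 1)) *
          (if ∀ q ∈ insert ℓ (β.A t \ I), (hitg d B s * u) q = w q then F (hitg d B s * u)
            else 0) else 0) =
        ∑ B ∈ (β.A t \ I).powerset, ∑ s : Bool, ((-1) ^ B.card * (if s then -1 else 1)) *
          ∑ u : ∀ i, H i, (if (∀ i ∈ β.A t, u i ∈ β.b t i) ∧ (∀ i, i ∉ β.A t → u i = 1) then
          (if ∀ q ∈ insert ℓ (β.A t \ I), (hitg d B s * u) q = w q then F (hitg d B s * u)
            else 0) else 0) := by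
      have h3 : ∀ u : ∀ i, H i,
          (if (∀ i ∈ β.A t, u i ∈ β.b t i) ∧ (∀ i, i ∉ β.A t → u i = 1) then
          ∑ B ∈ (β.A t \ I).powerset, ∑ s : Bool, ((-1) ^ B.card * (if s then -1 else 1)) *
          (if ∀ q ∈ insert ℓ (β.A t \ I), (hitg d B s * u) q = w q then F (hitg d B s * u)
            else 0) else 0) =
          ∑ B ∈ (β.A t \ I).powerset, ∑ s : Bool, ((-1) ^ B.card * (if s then -1 else 1)) *
          (if (∀ i ∈ β.A t, u i ∈ β.b t i) ∧ (∀ i, i ∉ β.A t → u i = 1) then
          (if ∀ q ∈ insert ℓ (β.A t \ I), (hitg d B s * u) q = w q then F (hitg d B s * u)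
            else 0) else 0) := by
        intro u
        split_ifs with hu
        · rfl
        · simp
      simp only [h3]
      rw [sum_comm]
      refine sum_congr rfl fun B _ => ?_
      rw [sum_comm]
      refine sum_congr rfl fun s _ => ?_
      rw [mul_sum]
    rw [h2, mul_sum]
    refine sum_congr rfl fun B _ => ?_
    rw [mul_sum]
    refine sum_congr rfl fun s _ => ?_
    rw [hit_box hℓ h (β.b t) w (hitg d B s) F hF]
    unfold hitsB HitB
    simp only [mul_assoc]
    congr!
  · rw [if_neg h]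
    have h1 : ∀ u : ∀ i, H i,
        Od d (Ext d I w (fun u => if u ℓ = w ℓ then F u else 0)) (β.A t) u = 0 := by
      intro u
      unfold Od HK.Ext
      rw [if_neg h, if_neg h, sub_zero]
    simp only [h1, ite_self, sum_const_zero, mul_zero]

open Classical in
/-- The number of base points which hit a given triple. -/
lemma hitB_count {d : Dat H} {ℓ : ι} {Sp : Finset ι} {K : ∀ i, Subgroup (H i)} {T : Type} [Fintype T]
    (β : BxS d ℓ Sp K T) (I : Finset ι) (x : T × Finset ι × Bool) :
    (univ.filter fun w : ∀ i, H i => HitB β I w x).card =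
      ∏ q, (if q ∈ insert ℓ (β.A x.1 \ I) then (β.b x.1 q).card else Fintype.card (H q)) := by
  have h1 : (univ.filter fun w : ∀ i, H i => HitB β I w x).card =
      (Fintype.piFinset fun q => if q ∈ insert ℓ (β.A x.1 \ I) then β.b x.1 q else univ).card := by
    refine card_bij' (fun w _ => (hitg d x.2.1 x.2.2)⁻¹ * w) (fun v _ => hitg d x.2.1 x.2.2 * v)
      ?_ ?_ ?_ ?_
    · intro w hw
      have hw' := (mem_filter.1 hw).2
      rw [Fintype.mem_piFinset]
      intro q
      by_cases hq : q ∈ insert ℓ (β.A x.1 \ I)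
      · rw [if_pos hq]
        exact hw' q hq
      · rw [if_neg hq]
        exact mem_univ _
    · intro v hv
      rw [Fintype.mem_piFinset] at hv
      refine mem_filter.2 ⟨mem_univ _, fun q hq => ?_⟩
      rw [inv_mul_cancel_left]
      have := hv q
      rwa [if_pos hq] at this
    · intro w _
      exact mul_inv_cancel_left _ _
    · intro v _
      exact inv_mul_cancel_left _ _
  rw [h1, Fintype.card_piFinset]
  refine prod_congr rfl fun q _ => ?_
  split_ifs
  · rfl
  · exact card_univ

open Classical in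
/-- The number of all hitsB is less than twice the number of base points. -/
lemma hitB_total {d : Dat H} {ℓ : ι} {Sp : Finset ι} {K : ∀ i, Subgroup (H i)} {T : Type} [Fintype T]
    (β : BxS d ℓ Sp K T) {I : Finset ι} (hℓ : ℓ ∈ I) :
    ∑ w : ∀ i, H i, ((hitSB β I).filter fun x => HitB β I w x).card <
      ∑ _w : ∀ i, H i, 2 := by
  have e1 : ∑ w : ∀ i, H i, ((hitSB β I).filter fun x => HitB β I w x).card =
      ∑ x ∈ hitSB β I, (univ.filter fun w : ∀ i, H i => HitB β I w x).card := by
    simp only [card_filter]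
    rw [sum_comm]
  have hcardG : ∑ _w : ∀ i, H i, 2 = 2 * ∏ q, Fintype.card (H q) := by
    rw [sum_const, card_univ, Fintype.card_pi, smul_eq_mul, mul_comm]
  have hpos : 0 < ∏ q, Fintype.card (H q) := prod_pos fun q _ => Fintype.card_pos
  have e2 : ∀ t : T, Fintype.card T * (if I ⊆ β.A t then
      ∑ B ∈ (β.A t \ I).powerset, ∑ s : Bool,
        (univ.filter fun w : ∀ i, H i => HitB β I w (t, B, s)).card else 0) <
      2 * ∏ q, Fintype.card (H q) := by
    intro t
    by_cases h : I ⊆ β.A t
    · rw [if_pos h]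
      simp only [hitB_count]
      rw [sum_const, Fintype.sum_bool, card_powerset]
      set N := ∏ q, (if q ∈ insert ℓ (β.A t \ I) then (β.b t q).card else Fintype.card (H q))
        with hN
      have hℓJ : ℓ ∉ β.A t \ I := fun h' => (mem_sdiff.1 h').2 hℓ
      have h1 : 2 ^ (β.A t \ I).card * N ≤
          ∏ q, (if q = ℓ then (β.b t ℓ).card else Fintype.card (H q)) := by
        have h2 : (2:ℕ) ^ (β.A t \ I).card = ∏ q, (if q ∈ β.A t \ I then 2 else 1) := by
          rw [prod_ite_mem, univ_inter, prod_const]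
        rw [h2, hN, ← prod_mul_distrib]
        refine prod_le_prod' fun q _ => ?_
        by_cases hq : q = ℓ
        · subst hq
          rw [if_neg hℓJ, if_pos (mem_insert_self _ _), if_pos rfl, one_mul]
        · rw [if_neg hq]
          by_cases hqA : q ∈ β.A t \ I
          · rw [if_pos hqA, if_pos (mem_insert_of_mem hqA)]
            have hdis := β.hdis t q (mem_sdiff.1 hqA).1
            have h3 : Disjoint (β.b t q) ((β.b t q).map (Equiv.mulLeft (d.κ q)).toEmbedding) := by
              rw [disjoint_left]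
              intro s hs hs'
              rw [mem_map] at hs'
              obtain ⟨r, hr, hrs⟩ := hs'
              have hrs' : d.κ q * r = s := hrs
              exact hdis r hr (hrs' ▸ hs)
            have h4 := card_le_univ ((β.b t q).disjUnion _ h3)
            rw [card_disjUnion, card_map] at h4
            omega
          · rw [if_neg hqA, if_neg (by
              rw [mem_insert]
              rintro (h' | h')
              · exact hq h'
              · exact hqA h'), one_mul]
      have h5 : ∏ q, (if q = ℓ then (β.b t ℓ).card else Fintype.card (H q)) =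
          (β.b t ℓ).card * ∏ q ∈ univ.erase ℓ, Fintype.card (H q) := by
        rw [← mul_prod_erase univ _ (mem_univ ℓ), if_pos rfl]
        congr 1
        refine prod_congr rfl fun q hq => ?_
        rw [if_neg (ne_of_mem_erase hq)]
      have h6 : ∏ q, Fintype.card (H q) =
          Fintype.card (H ℓ) * ∏ q ∈ univ.erase ℓ, Fintype.card (H q) :=
        (mul_prod_erase univ _ (mem_univ ℓ)).symm
      have h7 : 0 < ∏ q ∈ univ.erase ℓ, Fintype.card (H q) := prod_pos fun q _ => Fintype.card_pos
      have h8 := β.hsmall t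
      rw [h5] at h1
      rw [h6]
      calc Fintype.card T * (2 ^ (β.A t \ I).card • (N + N))
          = 2 * (Fintype.card T * (2 ^ (β.A t \ I).card * N)) := by rw [smul_eq_mul]; ring
        _ ≤ 2 * (Fintype.card T * ((β.b t ℓ).card * ∏ q ∈ univ.erase ℓ, Fintype.card (H q))) := by
            gcongr
        _ = 2 * ((Fintype.card T * (β.b t ℓ).card) * ∏ q ∈ univ.erase ℓ, Fintype.card (H q)) := by
            ring
        _ < 2 * (Fintype.card (H ℓ) * ∏ q ∈ univ.erase ℓ, Fintype.card (H q)) := by
            have := Nat.mul_lt_mul_of_pos_right h8 h7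
            omega
    · rw [if_neg h, mul_zero]
      omega
  rw [e1, hitB_sum, hcardG]
  rcases isEmpty_or_nonempty T with hT | hT
  · rw [univ_eq_empty, sum_empty]
    omega
  · have hT0 : 0 < Fintype.card T := Fintype.card_pos
    have h3 : Fintype.card T * ∑ t, (if I ⊆ β.A t then
        ∑ B ∈ (β.A t \ I).powerset, ∑ s : Bool,
        (univ.filter fun w : ∀ i, H i => HitB β I w (t, B, s)).card else 0) <
        Fintype.card T * (2 * ∏ q, Fintype.card (H q)) := by
      rw [mul_sum]
      calc _ < ∑ _t : T, (2 * ∏ q, Fintype.card (H q)) :=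
            sum_lt_sum_of_nonempty univ_nonempty fun t _ => e2 t
        _ = _ := by rw [sum_const, card_univ, smul_eq_mul]
    exact Nat.lt_of_mul_lt_mul_left h3

/-- There is a base point for which at most one box contributes. -/
theorem hitS_ok : S_hitS := by
  classical
  intro ι _ _ H _ _ _ d ℓ Sp K T _ β I hℓ
  obtain ⟨w, -, hw⟩ := exists_lt_of_sum_lt (hitB_total β hℓ)
  refine ⟨w, ?_⟩
  have hle : ((hitSB β I).filter fun x => HitB β I w x).card ≤ 1 := by omega
  have key : ∀ F : (∀ i, H i) → ℤ, Dep (I.erase ℓ) F →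
      pair β.X (Od d (Ext d I w (fun u => if u ℓ = w ℓ then F u else 0))) =
      ∑ x ∈ (hitSB β I).filter (fun x => HitB β I w x), hitsB β x * bsum (I.erase ℓ)
        (fun i => (β.b x.1 i).map (Equiv.mulLeft (hitg d x.2.1 x.2.2 i)).toEmbedding) F := by
    intro F hF
    rw [hitB_val β hℓ w F hF, sum_filter]
    refine sum_congr rfl fun x _ => ?_
    rw [mul_ite, mul_zero]
  rcases Nat.le_one_iff_eq_zero_or_eq_one.1 hle with h0 | h1
  · left
    intro F hF
    rw [key F hF, card_eq_zero.1 h0, sum_empty]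
  · right
    obtain ⟨x, hx⟩ := card_eq_one.1 h1
    have hxm : x ∈ (hitSB β I).filter fun x => HitB β I w x := by
      rw [hx]
      exact mem_singleton_self x
    have hxS := (mem_filter.1 (mem_filter.1 hxm).1).2
    refine ⟨hitsB β x, x.1, hitg d x.2.1 x.2.2, hitsB_eq β x, hxS.1, ?_⟩
    intro F hF
    rw [key F hF, hx, sum_singleton]

end Pool.Agent.NH35.HQ
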