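import Pool.Agent.NH35.HQ.Stm
import Pool.Agent.NH35.HE.Low
import Pool.Agent.NH35.HE.Cf

/-! (HQ-25) the arithmetic condition implies that the coefficients are even, levels divisible by
four. -/

set_option autoImplicit false
set_option linter.unusedSectionVars false

namespace Pool.Agent.NH35.HQ

open Finset Pool.Agent.H916R2 Pool.Agent.NH35.HG Pool.Agent.NH35.HE Pool.Agent.NH35.HK

namespace KillA

lemma unit_ex {n P n' a : ℕ} [NeZero n] (h : P * n' = n) (hc : P.Coprime n')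
    (ha : a.Coprime P) :
    ∃ t : (ZMod n)ˣ, (t : ZMod n).val ≡ a [MOD P] ∧ (t : ZMod n).val ≡ 1 [MOD n'] := by
  obtain ⟨y, hy1, hy2⟩ := Nat.chineseRemainder hc a 1
  have h1 : y.Coprime P := by
    have := hy1.gcd_eq
    unfold Nat.Coprime
    rw [this]
    exact ha
  have h2 : y.Coprime n' := by
    have := hy2.gcd_eq
    unfold Nat.Coprime
    rw [this]
    exact Nat.gcd_one_left _
  have h3 : y.Coprime n := by
    rw [← h]
    exact Nat.Coprime.mul_right h1 h2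
  refine ⟨ZMod.unitOfCoprime y h3, ?_, ?_⟩
  · rw [ZMod.coe_unitOfCoprime, ZMod.val_natCast]
    exact ((Nat.mod_modEq y n).of_dvd ⟨n', h.symm⟩).trans hy1
  · rw [ZMod.coe_unitOfCoprime, ZMod.val_natCast]
    exact ((Nat.mod_modEq y n).of_dvd ⟨P, by rw [mul_comm]; exact h.symm⟩).trans hy2

lemma Gq_congr {q a a' : ℕ} (b : ℕ) (h : a ≡ a' [MOD bq q]) : Gq q a b = Gq q a' b := by
  unfold Gq
  refine Finset.sum_congr rfl fun r _ => ?_
  have : (a * r) % bq q = (a' * r) % bq q := h.mul_right r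
  rw [this]

lemma Gq_self (q a : ℕ) : Gq q a a = 0 := by
  unfold Gq
  refine Finset.sum_eq_zero fun r _ => ?_
  split_ifs <;> simp

lemma Gq_two (a : ℕ) : Gq 2 a 1 = ((a % 4 : ℕ) : ℤ) - 1 := by
  have h4 : bq 2 = 4 := rfl
  unfold Gq
  rw [h4]
  have hr : range 4 = {0, 1, 2, 3} := by decide
  rw [hr]
  simp [hf]

/-- the sum at a unit with prescribed residues -/
lemma sum_one {m ℓ n q a : ℕ} {t : ℕ} (e : ℕ → ℤ) (hq : q ∈ m.primeFactors.erase ℓ)
    (h1 : t ≡ a [MOD bq q]) (h2 : ∀ q' ∈ m.primeFactors.erase ℓ, q' ≠ q → t ≡ 1 [MOD bq q']) :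
    ∑ q ∈ m.primeFactors.erase ℓ, e q * ((n / bq q : ℕ) : ℤ) * Gq q t 1 =
      e q * ((n / bq q : ℕ) : ℤ) * Gq q a 1 := by
  rw [Finset.sum_eq_single q]
  · rw [Gq_congr 1 h1]
  · intro q' hq' hne
    rw [Gq_congr 1 (h2 q' hq' hne), Gq_self, mul_zero]
  · intro h; exact absurd hq h

end KillA

open KillA

theorem killE_of (h1 : S_kx) (h2 : S_gq) : S_killE := by
  intro m _ h4m ℓ hℓ hℓ2 hℓm e x x' hx' hx hrel hcx
  have hmne : m ≠ 0 := NeZero.ne m
  -- the levels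
  obtain ⟨b, n, hℓn, hmn⟩ := Nat.exists_eq_pow_mul_and_not_dvd hmne ℓ hℓ.ne_one
  have hn0 : n ≠ 0 := by rintro rfl; exact hmne (by rw [hmn, mul_zero])
  have hb : 0 < b := by
    rcases Nat.eq_zero_or_pos b with hb | hb
    · exfalso
      apply hℓn
      rw [hmn, hb, pow_zero, one_mul] at hℓm
      exact hℓm
    · exact hb
  have hcop2 : Nat.Coprime 4 (ℓ ^ b) := by
    have : Nat.Coprime (2 ^ 2) (ℓ ^ b) :=
      Nat.Coprime.pow 2 b ((Nat.coprime_primes Nat.prime_two hℓ).mpr (Ne.symm hℓ2))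
    exact this
  have h4n : 4 ∣ n := by
    rw [hmn] at h4m
    exact hcop2.dvd_of_dvd_mul_left h4m
  have hn1 : 1 < n := by
    have := Nat.le_of_dvd (Nat.pos_of_ne_zero hn0) h4n
    omega
  have : NeZero n := ⟨hn0⟩
  have : NeZero (ℓ * n) := ⟨Nat.mul_ne_zero hℓ.ne_zero hn0⟩
  have hpf : ∀ q, q ∈ m.primeFactors.erase ℓ → q.Prime ∧ q ≠ ℓ ∧ q ∣ n := by
    intro q hq
    rw [Finset.mem_erase, Nat.mem_primeFactors] at hq
    refine ⟨hq.2.1, hq.1, ?_⟩
    have h5 := hq.2.2.1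
    rw [hmn] at h5
    rcases (Nat.Prime.dvd_mul hq.2.1).mp h5 with h6 | h6
    · exact absurd ((Nat.prime_dvd_prime_iff_eq hq.2.1 hℓ).mp (hq.2.1.dvd_of_dvd_pow h6)) hq.1
    · exact h6
  obtain ⟨x0, hrel0, hx0, hFH⟩ := h1 m ℓ b n (Or.inr h4m) hℓ hℓ2 hb hℓn hmn.symm e x x' hx' hx hrel
  have hce : CE ℓ n x := hcx.2 h4m ℓ b n hℓ hℓ2 hb hℓn hmn.symm
  have hk0 : ℓ ^ (b - 1) * (ℓ * n) = m := by
    rw [hmn]
    obtain ⟨b', rfl⟩ : ∃ b', b = b' + 1 := ⟨b - 1, by omega⟩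
    rw [Nat.add_sub_cancel]
    ring
  have hce0 : CE ℓ n x0 := low ℓ b n n (ℓ ^ (b - 1)) m (ℓ * n) hℓ hℓ2 hb hℓn hmn.symm rfl hk0
    (dvd_refl n) (fun l _ hl => hl) x x0 hx0 hce
  obtain ⟨N, k, hN, hdiv⟩ := cf ℓ n (ℓ * n) hℓ hℓ2 hℓn hn1 rfl x0 hrel0 hce0
  have hval1 : (((1 : (ZMod n)ˣ) : ZMod n)).val = 1 := by
    rw [Units.val_one]
    have : Fact (1 < n) := ⟨hn1⟩
    exact ZMod.val_one n
  have hℓ1 : ((ℓ : ℤ) - 1) ≠ 0 := by
    have := hℓ.one_lt
    omega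
  -- the basic divisibility
  have key : ∀ t : (ZMod n)ˣ, (2 * (n : ℤ)) ∣
      N * (∑ q ∈ m.primeFactors.erase ℓ, e q * ((n / bq q : ℕ) : ℤ) * Gq q (t : ZMod n).val 1) -
      2 * k * (((t : ZMod n).val : ℤ) - 1) := by
    intro t
    have h5 := hdiv t 1
    have h6 := hFH t 1
    rw [hval1] at h5 h6
    obtain ⟨w, hw⟩ := h5
    refine ⟨w, ?_⟩
    apply mul_left_cancel₀ hℓ1
    push_cast at hw
    linear_combination 2 * hw - N * h6
  -- the part at two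
  obtain ⟨α, n1, hn1o, hnα⟩ := Nat.exists_eq_pow_mul_and_not_dvd hn0 2 (by norm_num)
  have hα : 2 ≤ α := by
    by_contra hα
    have h5 : α = 0 ∨ α = 1 := by omega
    rcases h5 with h5 | h5
    · rw [hnα, h5, pow_zero, one_mul] at h4n
      exact hn1o (dvd_trans (by norm_num) h4n)
    · rw [hnα, h5, pow_one] at h4n
      obtain ⟨w, hw⟩ := h4n
      exact hn1o ⟨w, by omega⟩
  have h2pf : 2 ∈ m.primeFactors.erase ℓ := by
    rw [Finset.mem_erase, Nat.mem_primeFactors]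
    exact ⟨Ne.symm hℓ2, Nat.prime_two, dvd_trans (by norm_num) h4m, hmne⟩
  intro q hq
  obtain ⟨hqp, hqℓ, hqn⟩ := hpf q hq
  by_cases hq2 : q = 2
  · -- the prime two
    subst hq2
    have hcop : Nat.Coprime (2 ^ α) n1 :=
      Nat.Coprime.pow_left α ((Nat.Prime.coprime_iff_not_dvd Nat.prime_two).mpr hn1o)
    have h4α : 4 ∣ 2 ^ α := by
      have : 2 ^ 2 ∣ 2 ^ α := pow_dvd_pow 2 hα
      exact this
    have hpos : 0 < 2 ^ α := by positivity
    have hbq2 : bq 2 = 4 := rfl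
    have hres : ∀ a : ℕ, a % 4 = 3 → a.Coprime (2 ^ α) → ∃ t : (ZMod n)ˣ,
        (t : ZMod n).val ≡ a [MOD 2 ^ α] ∧
        ∑ q ∈ m.primeFactors.erase ℓ, e q * ((n / bq q : ℕ) : ℤ) * Gq q (t : ZMod n).val 1 =
          e 2 * ((n / 4 : ℕ) : ℤ) * 2 := by
      intro a ha hac
      obtain ⟨t, ht1, ht2⟩ := unit_ex hnα.symm hcop hac
      refine ⟨t, ht1, ?_⟩
      rw [sum_one (a := a) e h2pf (by rw [hbq2]; exact ht1.of_dvd h4α) ?_, Gq_two, hbq2, ha]
      · norm_num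
      · intro q' hq' hne
        obtain ⟨hq'p, _, hq'n⟩ := hpf q' hq'
        have hb' : bq q' = q' := if_neg hne
        rw [hb']
        apply ht2.of_dvd
        rw [hnα] at hq'n
        exact (((Nat.coprime_primes hq'p Nat.prime_two).mpr hne).pow_right α).dvd_of_dvd_mul_left
          hq'n
    have hc3 : Nat.Coprime 3 (2 ^ α) := Nat.Coprime.pow_right α (by norm_num)
    have hc1 : Nat.Coprime (2 ^ α - 1) (2 ^ α) := by
      have h5 : 2 ^ α - 1 + 1 = 2 ^ α := by omega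
      rw [← h5]
      simp
    have hm1 : (2 ^ α - 1) % 4 = 3 := by
      obtain ⟨w, hw⟩ := h4α
      omega
    obtain ⟨t1, ht1, hs1⟩ := hres (2 ^ α - 1) hm1 hc1
    obtain ⟨t2, ht2, hs2⟩ := hres 3 (by norm_num) hc3
    have k1 := key t1
    have k2 := key t2
    rw [hs1] at k1
    rw [hs2] at k2
    have hd1 : ((2 : ℤ) ^ α) ∣ (((t1 : ZMod n).val : ℤ) + 1) := by
      have h5 := (Nat.modEq_iff_dvd.mp ht1.symm)
      have h6 : ((2 ^ α - 1 : ℕ) : ℤ) = (2 : ℤ) ^ α - 1 := by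
        rw [Nat.cast_sub (by omega)]
        push_cast
        ring
      rw [h6] at h5
      push_cast at h5
      have h7 : (((t1 : ZMod n).val : ℤ) + 1) =
          (((t1 : ZMod n).val : ℤ) - ((2 : ℤ) ^ α - 1)) + (2 : ℤ) ^ α := by ring
      rw [h7]
      exact dvd_add h5 (dvd_refl _)
    have hd2 : ((2 : ℤ) ^ α) ∣ (((t2 : ZMod n).val : ℤ) - 3) := by
      have h5 := (Nat.modEq_iff_dvd.mp ht2.symm)
      push_cast at h5
      exact h5
    have hn4 : 4 * ((n / 4 : ℕ) : ℤ) = (2 : ℤ) ^ α * n1 := by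
      have h5 : 4 * (n / 4) = 2 ^ α * n1 := by
        rw [← hnα]
        exact Nat.mul_div_cancel' h4n
      exact_mod_cast h5
    have hnz : (n : ℤ) = (2 : ℤ) ^ α * n1 := by
      rw [hnα]
      push_cast
      ring
    have hbig : (2 * (2 : ℤ) ^ α) ∣ N * e 2 * ((2 : ℤ) ^ α * n1) := by
      have e1 : N * e 2 * ((2 : ℤ) ^ α * n1) =
          (N * (e 2 * ((n / 4 : ℕ) : ℤ) * 2) - 2 * k * (((t1 : ZMod n).val : ℤ) - 1)) +
          (N * (e 2 * ((n / 4 : ℕ) : ℤ) * 2) - 2 * k * (((t2 : ZMod n).val : ℤ) - 1)) +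
          2 * (k * (((t1 : ZMod n).val : ℤ) + 1)) + 2 * (k * (((t2 : ZMod n).val : ℤ) - 3)) := by
        rw [← hn4]
        ring
      rw [e1]
      have hdn : (2 * (2 : ℤ) ^ α) ∣ 2 * (n : ℤ) := by
        rw [hnz]
        exact mul_dvd_mul_left 2 (dvd_mul_right _ _)
      refine dvd_add (dvd_add (dvd_add (hdn.trans k1) (hdn.trans k2)) ?_) ?_
      · exact mul_dvd_mul_left 2 (hd1.mul_left k)
      · exact mul_dvd_mul_left 2 (hd2.mul_left k)
    have h2 : (2 : ℤ) ∣ N * e 2 * n1 := by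
      have h5 : ((2 : ℤ) ^ α) ≠ 0 := by positivity
      have h6 : (2 : ℤ) ^ α * 2 ∣ (2 : ℤ) ^ α * (N * e 2 * n1) := by
        have e2 : (2 : ℤ) ^ α * (N * e 2 * n1) = N * e 2 * ((2 : ℤ) ^ α * n1) := by ring
        rw [e2, mul_comm ((2 : ℤ) ^ α) 2]
        exact hbig
      exact (mul_dvd_mul_iff_left h5).mp h6
    have hp2 : Prime (2 : ℤ) := Int.prime_two
    have hNo : ¬ (2 : ℤ) ∣ N := by
      rw [← even_iff_two_dvd]
      exact Int.not_even_iff_odd.mpr hN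
    have hn1o' : ¬ (2 : ℤ) ∣ (n1 : ℤ) := by
      intro h
      exact hn1o (by exact_mod_cast h)
    rcases hp2.dvd_or_dvd h2 with h5 | h5
    · rcases hp2.dvd_or_dvd h5 with h6 | h6
      · exact absurd h6 hNo
      · exact even_iff_two_dvd.mpr h6
    · exact absurd h5 hn1o'
  · -- odd primes
    obtain ⟨a, ha, hodd⟩ := h2 q hqp hq2
    obtain ⟨c, n', hqn', hnc⟩ := Nat.exists_eq_pow_mul_and_not_dvd hn0 q hqp.ne_one
    have hcc : c ≠ 0 := by
      rintro rfl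
      rw [hnc, pow_zero, one_mul] at hqn
      exact hqn' hqn
    have hcop : Nat.Coprime (q ^ c) n' :=
      Nat.Coprime.pow_left c ((Nat.Prime.coprime_iff_not_dvd hqp).mpr hqn')
    obtain ⟨t, ht1, ht2⟩ := unit_ex hnc.symm hcop (ha.pow_right c)
    have hbq : bq q = q := if_neg hq2
    have h2α : 2 ^ α ∣ n' := by
      have h5 : 2 ^ α ∣ q ^ c * n' := by
        rw [← hnc, hnα]
        exact dvd_mul_right _ _
      exact (Nat.Coprime.pow α c ((Nat.coprime_primes Nat.prime_two hqp).mpr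
        (Ne.symm hq2))).dvd_of_dvd_mul_left h5
    have hsum : ∑ q ∈ m.primeFactors.erase ℓ, e q * ((n / bq q : ℕ) : ℤ) *
        Gq q (t : ZMod n).val 1 = e q * ((n / q : ℕ) : ℤ) * Gq q a 1 := by
      rw [sum_one (a := a) e hq (by rw [hbq]; exact ht1.of_dvd (dvd_pow_self q hcc)) ?_, hbq]
      intro q' hq' hne
      obtain ⟨hq'p, _, hq'n⟩ := hpf q' hq'
      apply ht2.of_dvd
      by_cases h5 : q' = 2
      · subst h5
        have : bq 2 = 4 := rfl
        rw [this]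
        have h6 : 2 ^ 2 ∣ 2 ^ α := pow_dvd_pow 2 hα
        exact (show (4 : ℕ) ∣ 2 ^ α from h6).trans h2α
      · have hb' : bq q' = q' := if_neg h5
        rw [hb']
        rw [hnc] at hq'n
        exact (((Nat.coprime_primes hq'p hqp).mpr hne).pow_right c).dvd_of_dvd_mul_left hq'n
    have k1 := key t
    rw [hsum] at k1
    have hd : ((2 : ℤ) ^ α) ∣ (((t : ZMod n).val : ℤ) - 1) := by
      have h5 := Nat.modEq_iff_dvd.mp (ht2.of_dvd h2α).symm
      push_cast at h5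
      exact h5
    have hnz : (n : ℤ) = (2 : ℤ) ^ α * n1 := by
      rw [hnα]
      push_cast
      ring
    -- the quotient
    have hqn1 : q ∣ n1 := by
      rw [hnα] at hqn
      exact (((Nat.coprime_primes hqp Nat.prime_two).mpr hq2).pow_right α).dvd_of_dvd_mul_left hqn
    have hnq : ((n / q : ℕ) : ℤ) = (2 : ℤ) ^ α * ((n1 / q : ℕ) : ℤ) := by
      have h5 : n / q = 2 ^ α * (n1 / q) := by
        rw [hnα, Nat.mul_div_assoc _ hqn1]
      rw [h5]
      push_cast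
      ring
    have hbig : (2 * (2 : ℤ) ^ α) ∣ N * (e q * ((n / q : ℕ) : ℤ) * Gq q a 1) := by
      have e1 : N * (e q * ((n / q : ℕ) : ℤ) * Gq q a 1) =
          (N * (e q * ((n / q : ℕ) : ℤ) * Gq q a 1) - 2 * k * (((t : ZMod n).val : ℤ) - 1)) +
          2 * (k * (((t : ZMod n).val : ℤ) - 1)) := by ring
      rw [e1]
      have hdn : (2 * (2 : ℤ) ^ α) ∣ 2 * (n : ℤ) := by
        rw [hnz]
        exact mul_dvd_mul_left 2 (dvd_mul_right _ _)
      exact dvd_add (hdn.trans k1) (mul_dvd_mul_left 2 (hd.mul_left k))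
    rw [hnq] at hbig
    have h2' : (2 : ℤ) ∣ N * (e q * ((n1 / q : ℕ) : ℤ) * Gq q a 1) := by
      have h5 : ((2 : ℤ) ^ α) ≠ 0 := by positivity
      have h6 : (2 : ℤ) ^ α * 2 ∣ (2 : ℤ) ^ α * (N * (e q * ((n1 / q : ℕ) : ℤ) * Gq q a 1)) := by
        have e2 : (2 : ℤ) ^ α * (N * (e q * ((n1 / q : ℕ) : ℤ) * Gq q a 1)) =
            N * (e q * ((2 : ℤ) ^ α * ((n1 / q : ℕ) : ℤ)) * Gq q a 1) := by ring
        rw [e2, mul_comm ((2 : ℤ) ^ α) 2]
        exact hbig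
      exact (mul_dvd_mul_iff_left h5).mp h6
    have hp2 : Prime (2 : ℤ) := Int.prime_two
    have hNo : ¬ (2 : ℤ) ∣ N := by
      rw [← even_iff_two_dvd]
      exact Int.not_even_iff_odd.mpr hN
    have hGo : ¬ (2 : ℤ) ∣ Gq q a 1 := by
      rw [← even_iff_two_dvd]
      exact Int.not_even_iff_odd.mpr hodd
    have hn1o' : ¬ (2 : ℤ) ∣ ((n1 / q : ℕ) : ℤ) := by
      intro h
      have h5 : 2 ∣ n1 / q := by exact_mod_cast h
      exact hn1o (h5.trans (Nat.div_dvd_of_dvd hqn1))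
    rcases hp2.dvd_or_dvd h2' with h5 | h5
    · exact absurd h5 hNo
    · rcases hp2.dvd_or_dvd h5 with h6 | h6
      · rcases hp2.dvd_or_dvd h6 with h7 | h7
        · exact even_iff_two_dvd.mpr h7
        · exact absurd h7 hn1o'
      · exact absurd h6 hGo

end Pool.Agent.NH35.HQ
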