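import Pool.Agent.NH35.HQ.Stm
import Pool.Agent.NH35.HG.Dd
import Pool.Agent.NH35.HG.Fh
import Pool.Agent.NH35.HK.Rem

/-! HQ-24: the arithmetic condition implies that the coefficients are even, odd levels. -/

set_option autoImplicit false
set_option linter.unusedSectionVars false

namespace Pool.Agent.NH35.HQ

open Finset Pool.Agent.H916R2 Pool.Agent.NH35.HG Pool.Agent.NH35.HE Pool.Agent.NH35.HK

private theorem gq_congr_kO {q a a' b b' : ℕ} (ha : a % bq q = a' % bq q)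
    (hb : b % bq q = b' % bq q) : Gq q a b = Gq q a' b' := by
  unfold Gq
  refine Finset.sum_congr rfl fun r _ => ?_
  have h1 : a * r % bq q = a' * r % bq q := by rw [Nat.mul_mod, ha, ← Nat.mul_mod]
  have h2 : b * r % bq q = b' * r % bq q := by rw [Nat.mul_mod, hb, ← Nat.mul_mod]
  rw [h1, h2]

private theorem gq_self_kO (q a : ℕ) : Gq q a a = 0 := by
  unfold Gq
  refine Finset.sum_eq_zero fun r _ => ?_
  rw [sub_self]
  split_ifs <;> rfl

private theorem exists_unit_kO {n q v a : ℕ} (hn : 0 < n) (_ : q.Prime) (hv : q ^ v ∣ n)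
    (hcop : Nat.Coprime (q ^ v) (n / q ^ v)) (ha : a.Coprime q) :
    ∃ t : (ZMod n)ˣ, (t : ZMod n).val % q ^ v = a % q ^ v ∧
      (t : ZMod n).val % (n / q ^ v) = 1 % (n / q ^ v) := by
  obtain ⟨c, hc1, hc2⟩ := Nat.chineseRemainder hcop a 1
  have hmul : q ^ v * (n / q ^ v) = n := Nat.mul_div_cancel' hv
  have hcn : Nat.Coprime c n := by
    rw [← hmul]
    refine Nat.Coprime.mul_right ?_ ?_
    · rw [Nat.coprime_iff_gcd_eq_one, hc1.gcd_eq]
      exact Nat.Coprime.pow_right v ha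
    · rw [Nat.coprime_iff_gcd_eq_one, hc2.gcd_eq]
      exact Nat.gcd_one_left _
  have : NeZero n := ⟨hn.ne'⟩
  refine ⟨ZMod.unitOfCoprime c hcn, ?_, ?_⟩
  · rw [ZMod.coe_unitOfCoprime, ZMod.val_natCast, Nat.mod_mod_of_dvd _ hv]
    exact hc1
  · rw [ZMod.coe_unitOfCoprime, ZMod.val_natCast,
      Nat.mod_mod_of_dvd _ (Dvd.intro_left _ hmul)]
    exact hc2

theorem killO_of (h1 : S_kx) (h2 : S_gq) : S_killO := by
  intro m _ hodd ℓ hℓ hℓ2 hℓm e x x' hx' heq hrel hcx q hq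
  rw [mem_erase, Nat.mem_primeFactors] at hq
  obtain ⟨hqℓ, hqp, hqm, hm0⟩ := hq
  obtain ⟨b, hbdef⟩ : ∃ b, b = m.factorization ℓ := ⟨_, rfl⟩
  obtain ⟨n, hndef⟩ : ∃ n, n = m / ℓ ^ b := ⟨_, rfl⟩
  have hb : 0 < b := hbdef ▸ hℓ.factorization_pos_of_dvd hm0 hℓm
  have hn : ℓ ^ b * n = m := by
    rw [hndef, hbdef]
    exact Nat.ordProj_mul_ordCompl_eq_self m ℓ
  have hℓn : ¬ ℓ ∣ n := by
    rw [hndef, hbdef]
    exact Nat.not_dvd_ordCompl hℓ hm0
  have hqn : q ∣ n := by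
    rw [← hn] at hqm
    rcases hqp.dvd_mul.1 hqm with h | h
    · exact absurd ((Nat.prime_dvd_prime_iff_eq hqp hℓ).1 (hqp.dvd_of_dvd_pow h)) hqℓ
    · exact h
  have hn0 : n ≠ 0 := by
    rintro rfl
    exact hm0 (by rw [← hn, mul_zero])
  have h1n : 1 < n := lt_of_lt_of_le hqp.one_lt (Nat.le_of_dvd (Nat.pos_of_ne_zero hn0) hqn)
  have hnodd : Odd n := by
    rw [← hn] at hodd
    exact (Nat.odd_mul.1 hodd).2
  have hNn : NeZero n := ⟨hn0⟩
  have hNℓn : NeZero (ℓ * n) := ⟨mul_ne_zero hℓ.ne_zero hn0⟩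
  obtain ⟨x0, hx0, he0, hFH⟩ := h1 m ℓ b n (Or.inl hodd) hℓ hℓ2 hb hℓn hn e x x' hx' heq hrel
  have hk : ℓ ^ (b - 1) * (ℓ * n) = m := by
    rw [← mul_assoc, ← pow_succ, Nat.sub_add_cancel hb, hn]
  have hf : 0 < orderOf (ℓ : ZMod n) := orderOf_pos_rem h1n hℓ hℓn
  have hf1 : (ℓ : ZMod n) ^ orderOf (ℓ : ZMod n) = 1 := pow_orderOf_eq_one _
  have hℓodd : Odd (ℓ : ℤ) := by exact_mod_cast hℓ.odd_of_ne_two hℓ2
  have hℓ1 : (ℓ : ℤ) - 1 ≠ 0 := by
    have := hℓ.one_lt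
    omega
  -- the sums are even
  have key : ∀ t t' : (ZMod n)ˣ, Even (∑ q' ∈ m.primeFactors.erase ℓ,
      e q' * ((n / bq q' : ℕ) : ℤ) * Gq q' (t : ZMod n).val (t' : ZMod n).val) := by
    intro t t'
    obtain ⟨k, hk1, hk2⟩ := (hcx.1 hodd) ℓ b n hℓ hb hℓn hn h1n t t'
    obtain ⟨k', hk', u, hu⟩ := iota_dd ℓ b n n (orderOf (ℓ : ZMod n)) (ℓ ^ (b - 1)) m (ℓ * n) hℓ hb
      hℓn hnodd hf hf1 hn rfl hk dvd_rfl t t'
    have hum : ∀ s : (ZMod n)ˣ, ZMod.unitsMap (dvd_refl n) s = s := by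
      intro s
      rw [ZMod.unitsMap_self]
      rfl
    rw [hum, hum] at hu
    have h3 : OddDist (DD ℓ n (orderOf (ℓ : ZMod n)) (m := m) t t') :=
      dd ℓ b n _ m hℓ hb hℓn hn hodd hf hf1 t t'
    rw [he0 _ _ h3, Finset.sum_congr rfl fun b _ => by rw [hu b]] at hk2
    have h6 : (u : ZMod (ℓ ^ orderOf (ℓ : ZMod n) - 1)) * ((k * k') • ∑ b : ZMod (ℓ * n),
        x0 b • DD ℓ n (orderOf (ℓ : ZMod n)) t t' b) = 0 := by
      rw [← hk2, Finset.smul_sum, Finset.smul_sum, Finset.mul_sum]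
      refine Finset.sum_congr rfl fun b _ => ?_
      simp only [zsmul_eq_mul]
      push_cast
      ring
    have h7 := congrArg (fun w => ((u⁻¹ : (ZMod (ℓ ^ orderOf (ℓ : ZMod n) - 1))ˣ) :
      ZMod (ℓ ^ orderOf (ℓ : ZMod n) - 1)) * w) h6
    have h8 : (k * k') • ∑ b : ZMod (ℓ * n),
        x0 b • DD ℓ n (orderOf (ℓ : ZMod n)) t t' b = 0 := by
      simpa only [← mul_assoc, Units.inv_mul, one_mul, mul_zero] using h7
    obtain ⟨w, hw⟩ := fh ℓ n (orderOf (ℓ : ZMod n)) (ℓ * n) hℓ hℓn hℓ2 hnodd h1n hf hf1 rfl x0 hx0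
      t t' (k * k') h8
    have h9 := hFH t t'
    obtain ⟨Sg, hSg⟩ : ∃ s : ℤ, s = ∑ q' ∈ m.primeFactors.erase ℓ,
      e q' * ((n / bq q' : ℕ) : ℤ) * Gq q' (t : ZMod n).val (t' : ZMod n).val := ⟨_, rfl⟩
    rw [← hSg] at h9 ⊢
    have h10 : ((ℓ : ℤ) - 1) * (k * k' * ℓ * Sg) = ((ℓ : ℤ) - 1) * (2 * w) := by
      linear_combination (-(k * k' * ℓ)) * h9 + 2 * hw
    have h11 : k * k' * ℓ * Sg = 2 * w := mul_left_cancel₀ hℓ1 h10
    have h12 : Even (k * k' * ℓ * Sg) := by rw [h11]; exact even_two_mul w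
    rcases Int.even_mul.1 h12 with h | h
    · exact absurd ((hk1.mul hk').mul hℓodd) (Int.not_odd_iff_even.2 h)
    · exact h
  -- a suitable unit
  have hq2 : q ≠ 2 := by
    rintro rfl
    exact (Nat.not_odd_iff_even.2 (even_iff_two_dvd.2 hqm)) hodd
  obtain ⟨a, ha, hGa⟩ := h2 q hqp hq2
  obtain ⟨v, hvdef⟩ : ∃ v, v = n.factorization q := ⟨_, rfl⟩
  have hv0 : 0 < v := hvdef ▸ hqp.factorization_pos_of_dvd hn0 hqn
  have hqv : q ^ v ∣ n := hvdef ▸ Nat.ordProj_dvd n q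
  have hcop : Nat.Coprime (q ^ v) (n / q ^ v) := by
    rw [hvdef]
    exact Nat.Coprime.pow_left _ ((hqp.coprime_iff_not_dvd).2 (Nat.not_dvd_ordCompl hqp hn0))
  obtain ⟨t, ht1, ht2⟩ := exists_unit_kO (Nat.pos_of_ne_zero hn0) hqp hqv hcop ha
  have hval1 : ((1 : (ZMod n)ˣ) : ZMod n).val = 1 := by
    rw [Units.val_one]
    have : Fact (1 < n) := ⟨h1n⟩
    exact ZMod.val_one n
  have h3 := key t 1
  rw [hval1] at h3
  have hbq : bq q = q := by unfold bq; rw [if_neg hq2]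
  have hqmem : q ∈ m.primeFactors.erase ℓ :=
    mem_erase.2 ⟨hqℓ, Nat.mem_primeFactors.2 ⟨hqp, hqm, hm0⟩⟩
  rw [Finset.sum_eq_single q ?_ (fun h => absurd hqmem h)] at h3
  · have h4 : Gq q (t : ZMod n).val 1 = Gq q a 1 := by
      refine gq_congr_kO ?_ rfl
      rw [hbq]
      have h5 : q ∣ q ^ v := dvd_pow_self q hv0.ne'
      rw [← Nat.mod_mod_of_dvd _ h5, ht1, Nat.mod_mod_of_dvd _ h5]
    rw [h4, hbq] at h3
    rcases Int.even_mul.1 h3 with h | h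
    · rcases Int.even_mul.1 h with h | h
      · exact h
      · exfalso
        have h5 : Odd (n / q) := by
          rw [← Nat.mul_div_cancel' hqn] at hnodd
          exact (Nat.odd_mul.1 hnodd).2
        have h6 : Even (n / q) := by exact_mod_cast h
        exact (Nat.not_odd_iff_even.2 h6) h5
    · exact absurd hGa (Int.not_odd_iff_even.2 h)
  · intro q' hq' hne
    rw [mem_erase, Nat.mem_primeFactors] at hq'
    obtain ⟨hq'ℓ, hq'p, hq'm, -⟩ := hq'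
    have hq'2 : q' ≠ 2 := by
      rintro rfl
      exact (Nat.not_odd_iff_even.2 (even_iff_two_dvd.2 hq'm)) hodd
    have hbq' : bq q' = q' := by unfold bq; rw [if_neg hq'2]
    have hq'n : q' ∣ n := by
      rw [← hn] at hq'm
      rcases hq'p.dvd_mul.1 hq'm with h | h
      · exact absurd ((Nat.prime_dvd_prime_iff_eq hq'p hℓ).1 (hq'p.dvd_of_dvd_pow h)) hq'ℓ
      · exact h
    have hq'd : q' ∣ n / q ^ v := by
      rw [← Nat.mul_div_cancel' hqv] at hq'n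
      rcases hq'p.dvd_mul.1 hq'n with h | h
      · exact absurd ((Nat.prime_dvd_prime_iff_eq hq'p hqp).1 (hq'p.dvd_of_dvd_pow h)) hne
      · exact h
    have h4 : Gq q' (t : ZMod n).val 1 = Gq q' 1 1 := by
      refine gq_congr_kO ?_ rfl
      rw [hbq', ← Nat.mod_mod_of_dvd _ hq'd, ht2, Nat.mod_mod_of_dvd _ hq'd]
    rw [h4, gq_self_kO, mul_zero]

end Pool.Agent.NH35.HQ
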