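import Pool.Agent.NH35.HQ.Stm

/-! The function `FH` of `BQ` (`S_kx`). -/

set_option autoImplicit false
set_option linter.unusedSectionVars false

namespace Pool.Agent.NH35.HQ

open Finset Pool.Agent.H916R2 Pool.Agent.NH35.HG Pool.Agent.NH35.HE Pool.Agent.NH35.HK

namespace Kx31

theorem saw_dd {m : ℕ} [NeZero m] (t : (ZMod m)ˣ) :
    OddDist (fun a : ZMod m => saw ((t : ZMod m) * a)) where
  neg := fun a => by rw [mul_neg, saw_neg]
  half := fun a ha => saw_half (by rw [← mul_add, ha, mul_zero])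
  dist := fun p d _ hpd a => saw_dist_unit hpd t a

/-- `BQ` is linear -/
theorem bq_lin {M : ℕ} [NeZero M] (ℓ q : ℕ) {Q : Type} [AddCommGroup Q] (c : ZMod M → Q) :
    ∑ z : ZMod M, BQ M ℓ q (fun w => if w = z then (1 : ℤ) else 0) • c z = BQ M ℓ q c := by
  have key : ∀ (P : Prop) [Decidable P] (w : ZMod M),
      ∑ z : ZMod M, (if P then (if w = z then (1 : ℤ) else 0) else 0) • c z =
        if P then c w else 0 := by
    intro P _ w
    split_ifs with h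
    · rw [Finset.sum_eq_single w]
      · rw [if_pos rfl, one_smul]
      · intro z _ hz
        rw [if_neg (Ne.symm hz), zero_smul]
      · intro h
        exact absurd (mem_univ _) h
    · simp
  unfold BQ
  simp only [add_smul, sum_add_distrib, sum_smul]
  congr 1
  · rw [sum_comm]
    exact sum_congr rfl fun a _ => key _ _
  · rw [sum_comm]
    exact sum_congr rfl fun a _ => key _ _

theorem bq_iota {m ℓ n k q : ℕ} [NeZero (ℓ * n)] (hk : k * (ℓ * n) = m) (hq : bq q ∣ n)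
    {Q : Type} [AddCommGroup Q] (c : ZMod m → Q) :
    BQ (ℓ * n) ℓ q (fun w : ZMod (ℓ * n) => c (iota k w)) = BQ m ℓ q c := by
  unfold BQ
  have h1 : ∀ a : ℕ, (iota k ((a * (ℓ * n / (ℓ * bq q)) : ℕ) : ZMod (ℓ * n)) : ZMod m) =
      ((a * (m / (ℓ * bq q)) : ℕ) : ZMod m) := by
    intro a
    rw [iota_natCast hk, ← hk, Nat.mul_div_assoc k (Nat.mul_dvd_mul_left ℓ hq)]
    congr 1
    ring
  have h2 : ∀ a : ℕ, (iota k ((a * (ℓ * n / ℓ) : ℕ) : ZMod (ℓ * n)) : ZMod m) =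
      ((a * (m / ℓ) : ℕ) : ZMod m) := by
    intro a
    rw [iota_natCast hk, ← hk, Nat.mul_div_assoc k (Nat.dvd_mul_right ℓ n)]
    congr 1
    ring
  simp only [h1, h2]

theorem iota_val {k m0 m : ℕ} [NeZero m0] (hk0 : 0 < k) (hk : k * m0 = m) (w : ZMod m0) :
    (iota k w : ZMod m).val = k * w.val := by
  have hb := ZMod.val_lt w
  unfold iota
  refine ZMod.val_cast_of_lt ?_
  rw [← hk]
  exact Nat.mul_lt_mul_of_pos_left hb hk0

theorem iota_inj {k m0 m : ℕ} [NeZero m0] (hk0 : 0 < k) (hk : k * m0 = m) :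
    Function.Injective (iota k : ZMod m0 → ZMod m) := by
  intro u v huv
  have h1 := congrArg ZMod.val huv
  rw [iota_val hk0 hk, iota_val hk0 hk] at h1
  exact ZMod.val_injective _ (Nat.eq_of_mul_eq_mul_left hk0 h1)

theorem dvd_val {m ℓ b n : ℕ} [NeZero m] (hℓ : ℓ.Prime) (hm : ℓ ^ b * n = m) (z : ZMod m)
    (hz : ¬ ℓ ∣ addOrderOf z) : ℓ ^ b ∣ z.val := by
  have h1 : addOrderOf z = m / Nat.gcd m z.val := by
    conv_lhs => rw [← ZMod.natCast_zmod_val z]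
    exact ZMod.addOrderOf_coe _ (NeZero.ne m)
  have h2 : Nat.gcd m z.val * addOrderOf z = m := by
    rw [h1]
    exact Nat.mul_div_cancel' (Nat.gcd_dvd_left m z.val)
  have h3 : ℓ ^ b ∣ Nat.gcd m z.val * addOrderOf z := by
    rw [h2, ← hm]
    exact Nat.dvd_mul_right _ _
  have h4 : Nat.Coprime (ℓ ^ b) (addOrderOf z) :=
    Nat.Coprime.pow_left _ ((hℓ.coprime_iff_not_dvd).2 hz)
  exact (h4.dvd_of_dvd_mul_right h3).trans (Nat.gcd_dvd_right m z.val)

theorem sum_iota {m ℓ b n : ℕ} [NeZero m] [NeZero (ℓ * n)] (hℓ : ℓ.Prime) (hb : 0 < b)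
    (hm : ℓ ^ b * n = m) (x' : ZMod m → ℤ) (hx' : ∀ z, x' z ≠ 0 → ¬ ℓ ∣ addOrderOf z)
    {Q : Type} [AddCommGroup Q] (c : ZMod m → Q) :
    ∑ z, x' z • c z =
      ∑ w : ZMod (ℓ * n), x' (iota (ℓ ^ (b - 1)) w) • c (iota (ℓ ^ (b - 1)) w) := by
  have hk : ℓ ^ (b - 1) * (ℓ * n) = m := by
    rw [← hm, ← mul_assoc, ← pow_succ, Nat.sub_add_cancel hb]
  have hk0 : 0 < ℓ ^ (b - 1) := pow_pos hℓ.pos _
  symm
  refine Fintype.sum_of_injective (iota (ℓ ^ (b - 1)) : ZMod (ℓ * n) → ZMod m) (iota_inj hk0 hk)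
    _ _ ?_ (fun _ => rfl)
  intro z hz
  by_contra hne
  apply hz
  have h1 : x' z ≠ 0 := by
    intro h
    apply hne
    rw [h, zero_smul]
  obtain ⟨k', hk'⟩ := dvd_val hℓ hm z (hx' z h1)
  refine ⟨((ℓ * k' : ℕ) : ZMod (ℓ * n)), ?_⟩
  rw [iota_natCast hk, ← mul_assoc, ← pow_succ, Nat.sub_add_cancel hb, ← hk',
    ZMod.natCast_zmod_val]

theorem crt_sum {A B : ℕ} (hc : A.Coprime B) (hA : 0 < A) (hB : 0 < B) (F G : ℕ → ℤ) :
    ∑ a ∈ range (A * B), F (a % A) * G (a % B) = (∑ i ∈ range A, F i) * ∑ j ∈ range B, G j := by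
  rw [sum_mul_sum, ← sum_product']
  refine sum_nbij' (fun a => (a % A, a % B)) (fun p => (Nat.chineseRemainder hc p.1 p.2 : ℕ))
    ?_ ?_ ?_ ?_ ?_
  · intro a _
    rw [mem_product, mem_range, mem_range]
    exact ⟨Nat.mod_lt _ hA, Nat.mod_lt _ hB⟩
  · intro p _
    rw [mem_range]
    exact Nat.chineseRemainder_lt_mul hc _ _ hA.ne' hB.ne'
  · intro a ha
    rw [mem_range] at ha
    have h1 : a ≡ a % A [MOD A] := (Nat.mod_modEq a A).symm
    have h2 : a ≡ a % B [MOD B] := (Nat.mod_modEq a B).symm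
    exact (Nat.ModEq.eq_of_lt_of_lt (Nat.chineseRemainder_modEq_unique hc h1 h2) ha
      (Nat.chineseRemainder_lt_mul hc _ _ hA.ne' hB.ne')).symm
  · intro p hp
    rw [mem_product, mem_range, mem_range] at hp
    obtain ⟨h1, h2⟩ := (Nat.chineseRemainder hc p.1 p.2).2
    have h3 : (Nat.chineseRemainder hc p.1 p.2 : ℕ) % A = p.1 := by
      rw [show (Nat.chineseRemainder hc p.1 p.2 : ℕ) % A = p.1 % A from h1,
        Nat.mod_eq_of_lt hp.1]
    have h4 : (Nat.chineseRemainder hc p.1 p.2 : ℕ) % B = p.2 := by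
      rw [show (Nat.chineseRemainder hc p.1 p.2 : ℕ) % B = p.2 % B from h2,
        Nat.mod_eq_of_lt hp.2]
    exact Prod.ext h3 h4
  · intro a _
    rfl

/-- the number of residues in the lower half -/
theorem half_sum {ℓ : ℕ} (hℓ : ℓ % 2 = 1) :
    2 * ∑ i ∈ range ℓ, (if i ≠ 0 ∧ 2 * i < ℓ then (1 : ℤ) else 0) = (ℓ : ℤ) - 1 := by
  rw [← sum_filter, sum_const, nsmul_eq_mul, mul_one]
  have h1 : (range ℓ).filter (fun i => i ≠ 0 ∧ 2 * i < ℓ) = Ico 1 (ℓ / 2 + 1) := by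
    ext i
    rw [mem_filter, mem_range, mem_Ico]
    omega
  rw [h1, Nat.card_Ico]
  push_cast
  omega

theorem hf_mod (q a : ℕ) : hf q a ↔ hf q (a % bq q) := by
  unfold hf bq
  split_ifs with h
  · rw [Nat.mod_mod]
  · rw [Nat.mod_mod]

theorem hf_odd {ℓ : ℕ} (h : ℓ ≠ 2) (a : ℕ) : hf ℓ a ↔ a % ℓ ≠ 0 ∧ 2 * (a % ℓ) < ℓ := by
  unfold hf
  rw [if_neg h]

/-- the function `FH` as a linear form -/
def phi (ℓ n : ℕ) (t t' : (ZMod n)ˣ) (z : ZMod (ℓ * n)) : ℤ :=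
  if (z.val : ZMod ℓ) = 0 then 0 else
    (((t : ZMod n) * (z.val : ZMod n)).val : ℤ) - (((t' : ZMod n) * (z.val : ZMod n)).val : ℤ)

theorem val_mul {n B k : ℕ} [NeZero n] (h : n = B * k) (t : ZMod n) (a : ℕ) :
    (t * ((a * k : ℕ) : ZMod n)).val = k * ((t.val * (a % B)) % B) := by
  have h1 : t * ((a * k : ℕ) : ZMod n) = ((t.val * a * k : ℕ) : ZMod n) := by
    conv_lhs => rw [← ZMod.natCast_zmod_val t]
    push_cast
    ring
  rw [h1, ZMod.val_natCast]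
  have h2 : t.val * a * k % n = t.val * a * k % (B * k) := by rw [← h]
  rw [h2, Nat.mul_mod_mul_right, mul_comm, Nat.mul_mod t.val (a % B) B, Nat.mod_mod,
    ← Nat.mul_mod]

theorem bq_phi {ℓ n q : ℕ} [NeZero (ℓ * n)] (hℓ : ℓ.Prime) (hℓ2 : ℓ ≠ 2) (hn : ¬ ℓ ∣ n)
    (hq : bq q ∣ n) (t t' : (ZMod n)ˣ) :
    2 * BQ (ℓ * n) ℓ q (phi ℓ n t t') =
      ((ℓ : ℤ) - 1) * (((n / bq q : ℕ) : ℤ) * Gq q (t : ZMod n).val (t' : ZMod n).val) := by
  have hn0 : n ≠ 0 := by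
    rintro rfl
    exact hn (dvd_zero _)
  have : NeZero n := ⟨hn0⟩
  have hB0 : 0 < bq q := Nat.pos_of_dvd_of_pos hq (Nat.pos_of_ne_zero hn0)
  have hodd : ℓ % 2 = 1 := hℓ.eq_two_or_odd.resolve_left hℓ2
  have hcop : ℓ.Coprime (bq q) := (hℓ.coprime_iff_not_dvd).2 fun h => hn (h.trans hq)
  obtain ⟨k, hk⟩ := hq
  have hdiv : n / bq q = k := by
    rw [hk]
    exact Nat.mul_div_cancel_left k hB0
  have hdiv2 : ℓ * n / (ℓ * bq q) = k := by
    rw [Nat.mul_div_mul_left _ _ hℓ.pos, hdiv]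
  have hdiv3 : ℓ * n / ℓ = n := Nat.mul_div_cancel_left n hℓ.pos
  unfold BQ
  rw [hdiv2, hdiv3, hdiv]
  have hsecond : ∑ a ∈ range ℓ, (if hf ℓ (ℓ - a) ∧ ¬ hf ℓ (q * (ℓ - a)) then
      phi ℓ n t t' ((a * n : ℕ) : ZMod (ℓ * n)) else 0) = 0 := by
    refine sum_eq_zero fun a _ => ?_
    have h1 : phi ℓ n t t' ((a * n : ℕ) : ZMod (ℓ * n)) = 0 := by
      unfold phi
      have h2 : (((((a * n : ℕ) : ZMod (ℓ * n))).val : ℕ) : ZMod n) = 0 := by
        rw [ZMod.val_natCast, Nat.mul_mod_mul_right]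
        push_cast
        rw [ZMod.natCast_self, mul_zero]
      rw [h2, mul_zero, mul_zero, sub_self, ite_self]
    rw [h1, ite_self]
  rw [hsecond, add_zero]
  obtain ⟨F, hF⟩ : ∃ F : ℕ → ℤ, F = fun i => if i ≠ 0 ∧ 2 * i < ℓ then (1 : ℤ) else 0 := ⟨_, rfl⟩
  obtain ⟨G, hG⟩ : ∃ G : ℕ → ℤ, G = fun j => (k : ℤ) * (if hf q j then
    ((((t : ZMod n).val * j) % bq q : ℕ) : ℤ) - ((((t' : ZMod n).val * j) % bq q : ℕ) : ℤ)
      else 0) := ⟨_, rfl⟩
  have hfirst : ∀ a ∈ range (ℓ * bq q), (if hf ℓ a ∧ hf q a then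
      phi ℓ n t t' ((a * k : ℕ) : ZMod (ℓ * n)) else 0) = F (a % ℓ) * G (a % bq q) := by
    intro a ha
    rw [mem_range] at ha
    rw [hF, hG]
    simp only
    by_cases h1 : hf ℓ a
    · have h1' := (hf_odd hℓ2 a).1 h1
      rw [if_pos h1', one_mul]
      by_cases h2 : hf q a
      · have h2' := (hf_mod q a).1 h2
        rw [if_pos ⟨h1, h2⟩, if_pos h2']
        have hval : ((a * k : ℕ) : ZMod (ℓ * n)).val = a * k := by
          refine ZMod.val_cast_of_lt ?_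
          have h3 : 0 < k := Nat.pos_of_ne_zero (by
            rintro rfl
            exact hn0 (by rw [hk, mul_zero]))
          calc a * k < ℓ * bq q * k := Nat.mul_lt_mul_of_pos_right ha h3
            _ = ℓ * n := by rw [hk, mul_assoc]
        unfold phi
        rw [hval, if_neg, val_mul hk, val_mul hk]
        · push_cast
          ring
        · rw [ZMod.natCast_eq_zero_iff]
          intro h3
          rcases hℓ.dvd_mul.1 h3 with h4 | h4
          · exact h1'.1 (Nat.mod_eq_zero_of_dvd h4)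
          · exact hn (h4.trans (Dvd.intro_left (bq q) hk.symm))
      · rw [if_neg (fun h => h2 h.2), if_neg (fun h => h2 ((hf_mod q a).2 h)), mul_zero]
    · rw [if_neg (fun h => h1 h.1), if_neg (fun h => h1 ((hf_odd hℓ2 a).2 h)), zero_mul]
  rw [sum_congr rfl hfirst, crt_sum hcop hℓ.pos hB0, ← mul_assoc]
  have e1 : 2 * ∑ i ∈ range ℓ, F i = (ℓ : ℤ) - 1 := by
    rw [hF]
    exact half_sum hodd
  have e2 : ∑ j ∈ range (bq q), G j = (k : ℤ) * Gq q (t : ZMod n).val (t' : ZMod n).val := by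
    rw [hG]
    simp only
    rw [← mul_sum]
    rfl
  rw [e1, e2]

end Kx31

open Kx31

theorem kx_ok : S_kx := by
  intro m ℓ b n _ _ hAdm hℓ hℓ2 hb hn hm e x x' hx' hrel hR
  have hn0 : n ≠ 0 := by
    rintro rfl
    exact hn (dvd_zero _)
  have hk : ℓ ^ (b - 1) * (ℓ * n) = m := by
    rw [← hm, ← mul_assoc, ← pow_succ, Nat.sub_add_cancel hb]
  have hk0 : 0 < ℓ ^ (b - 1) := pow_pos hℓ.pos _
  -- the moduli
  have hbq : ∀ q ∈ m.primeFactors.erase ℓ, bq q ∣ n := by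
    intro q hq
    rw [mem_erase, Nat.mem_primeFactors] at hq
    obtain ⟨hqℓ, hqp, hqm, -⟩ := hq
    unfold bq
    split_ifs with h2
    · subst h2
      have h4 : 4 ∣ m := by
        rcases hAdm with h | h
        · exact absurd hqm (by
            intro h5
            exact (Nat.not_even_iff_odd.2 h) (even_iff_two_dvd.2 h5))
        · exact h
      have h5 : Nat.Coprime 4 (ℓ ^ b) := by
        have h6 : Nat.Coprime 2 ℓ := (Nat.coprime_primes Nat.prime_two hℓ).2 hqℓ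
        exact Nat.Coprime.pow_right _ (Nat.Coprime.pow_left 2 h6)
      rw [← hm] at h4
      exact h5.dvd_of_dvd_mul_left h4
    · have h5 : Nat.Coprime q (ℓ ^ b) :=
        Nat.Coprime.pow_right _ ((Nat.coprime_primes hqp hℓ).2 hqℓ)
      rw [← hm] at hqm
      exact h5.dvd_of_dvd_mul_left hqm
  -- the relation of the lower level
  obtain ⟨x0, hx0⟩ : ∃ x0 : ZMod (ℓ * n) → ℤ, x0 = fun z =>
      ∑ q ∈ m.primeFactors.erase ℓ, e q * BQ (ℓ * n) ℓ q (fun w => if w = z then (1 : ℤ) else 0) +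
        x' (iota (ℓ ^ (b - 1)) z) := ⟨_, rfl⟩
  have hlin : ∀ (Q : Type) [AddCommGroup Q] (c : ZMod (ℓ * n) → Q),
      ∑ z : ZMod (ℓ * n), x0 z • c z = ∑ q ∈ m.primeFactors.erase ℓ, e q • BQ (ℓ * n) ℓ q c +
        ∑ z : ZMod (ℓ * n), x' (iota (ℓ ^ (b - 1)) z) • c z := by
    intro Q _ c
    rw [hx0]
    simp only [add_smul, sum_add_distrib, sum_smul]
    congr 1
    rw [sum_comm]
    refine sum_congr rfl fun q _ => ?_
    rw [← bq_lin ℓ q c, smul_sum]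
    exact sum_congr rfl fun z _ => by rw [mul_smul]
  have hmain : ∀ (Q : Type) [AddCommGroup Q] (c : ZMod m → Q), OddDist c →
      ∑ z, x z • c z = ∑ z : ZMod (ℓ * n), x0 z • c (iota (ℓ ^ (b - 1)) z) := by
    intro Q _ c hc
    rw [hrel Q c hc, hlin Q (fun z => c (iota (ℓ ^ (b - 1)) z)), sum_iota hℓ hb hm x' hx' c]
    congr 1
    refine sum_congr rfl fun q hq => ?_
    rw [bq_iota hk (hbq q hq)]
  refine ⟨x0, ?_, hmain, ?_⟩
  · intro t0
    obtain ⟨t, ht⟩ := ZMod.unitsMap_surjective (Dvd.intro_left _ hk : ℓ * n ∣ m) t0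
    have h1 := hR t
    have h2 := hmain ℤ _ (saw_dd t)
    simp only [smul_eq_mul] at h2
    rw [h1] at h2
    have h3 : ∀ w : ZMod (ℓ * n), saw ((t : ZMod m) * iota (ℓ ^ (b - 1)) w) =
        ((ℓ ^ (b - 1) : ℕ) : ℤ) * saw ((t0 : ZMod (ℓ * n)) * w) := by
      intro w
      rw [← saw_iota hk]
      congr 1
      have ht' : (t0 : ZMod (ℓ * n)) = (((t : ZMod m).val : ℕ) : ZMod (ℓ * n)) := by
        rw [← ht, ZMod.unitsMap_val, ZMod.natCast_val]
      rw [ht', iota_natMul hk, ZMod.natCast_zmod_val]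
    simp only [h3] at h2
    have h4 : ∑ w : ZMod (ℓ * n), x0 w * (((ℓ ^ (b - 1) : ℕ) : ℤ) * saw ((t0 : ZMod (ℓ * n)) * w)) =
        ((ℓ ^ (b - 1) : ℕ) : ℤ) * ∑ w : ZMod (ℓ * n), x0 w * saw ((t0 : ZMod (ℓ * n)) * w) := by
      rw [mul_sum]
      exact sum_congr rfl fun w _ => by ring
    rw [h4] at h2
    exact (mul_eq_zero.1 h2.symm).resolve_left (by exact_mod_cast hk0.ne')
  · intro t t'
    have h1 : FH ℓ n x0 t t' = ∑ z : ZMod (ℓ * n), x0 z • phi ℓ n t t' z := by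
      unfold FH phi
      refine sum_congr rfl fun z _ => ?_
      split_ifs with h
      · rw [smul_zero]
      · rw [smul_eq_mul]
    have h2 : ∑ z : ZMod (ℓ * n), x' (iota (ℓ ^ (b - 1)) z) • phi ℓ n t t' z = 0 := by
      refine sum_eq_zero fun z _ => ?_
      by_cases h3 : x' (iota (ℓ ^ (b - 1)) z) = 0
      · rw [h3, zero_smul]
      · have h4 := dvd_val hℓ hm _ (hx' _ h3)
        rw [iota_val hk0 hk] at h4
        have h5 : ℓ ^ (b - 1) * ℓ ∣ ℓ ^ (b - 1) * z.val := by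
          rwa [← pow_succ, Nat.sub_add_cancel hb]
        have h6 := Nat.dvd_of_mul_dvd_mul_left hk0 h5
        unfold phi
        rw [if_pos ((ZMod.natCast_eq_zero_iff _ _).2 h6), smul_zero]
    rw [h1, hlin, h2, add_zero, mul_sum, mul_sum]
    refine sum_congr rfl fun q hq => ?_
    rw [smul_eq_mul]
    have h7 := bq_phi hℓ hℓ2 hn (hbq q hq) t t'
    linear_combination (e q) * h7

end Pool.Agent.NH35.HQ
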