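import Pool.Agent.NH35.HQ.Stm
import Pool.Agent.NH35.HK.Nrel

/-! The relation of a distribution at a prime, in coordinates, for every admissible level (port of
HK/Nrel.lean). -/

set_option autoImplicit false
set_option linter.unusedSectionVars false

namespace Pool.Agent.NH35.HQ

open Finset Pool.Agent.H916R2 Pool.Agent.NH35.HG Pool.Agent.NH35.HE Pool.Agent.NH35.HK

open Nrel in
/-- (B2) the relation of a distribution at a prime `q`, in coordinates -/
theorem nrelA_ok : S_nrelA := by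
  intro m _ _ C Q _ D hD I q hqI u
  have hq := Nat.prime_of_mem_primeFactors q.2
  have hm0 : m ≠ 0 := NeZero.ne m
  obtain ⟨A, hA⟩ : ∃ A, m.factorization q.1 = A + 1 := by
    have h1 : 0 < m.factorization q.1 := hq.factorization_pos_of_dvd hm0
      (Nat.dvd_of_mem_primeFactors q.2)
    exact ⟨m.factorization q.1 - 1, by omega⟩
  obtain ⟨N', hN'⟩ : ∃ N', N' = NI m (I.erase q) := ⟨_, rfl⟩
  have hN : NI m I = q.1 ^ m.factorization q.1 * N' := by
    rw [hN']
    exact (Finset.mul_prod_erase I (fun q => q.1 ^ m.factorization q.1) hqI).symm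
  have hNm : NI m I ∣ m := by
    have h1 : (NI m I : ℤ) ∣ (m : ℤ) - 0 := NI_dvd fun r _ => by
      have h2 : r.1 ^ m.factorization r.1 ∣ m := Nat.ordProj_dvd m r.1
      push_cast
      exact (ZMod.natCast_eq_zero_iff _ _).2 h2
    rw [sub_zero] at h1
    exact_mod_cast h1
  obtain ⟨k, hk⟩ := hNm
  have hNpos : 0 < NI m I := Nat.pos_of_ne_zero fun h => hm0 (by rw [hk, h, zero_mul])
  have hN'pos : 0 < N' := Nat.pos_of_ne_zero fun h => hNpos.ne' (by rw [hN, h, mul_zero])
  have hen : en m (NI m I) = (k : ZMod m) := by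
    unfold en
    rw [Nat.div_eq_of_eq_mul_right hNpos hk]
  have hmN' : m = N' * (q.1 ^ m.factorization q.1 * k) := hk.trans (by
    rw [hN]; ring)
  have hen' : en m (NI m (I.erase q)) = ((q.1 ^ m.factorization q.1 * k : ℕ) : ZMod m) := by
    unfold en
    rw [← hN', Nat.div_eq_of_eq_mul_right hN'pos hmN']
  -- the inverse of N'
  have hcop : N'.Coprime q.1 := by
    rw [hN']
    unfold NI
    refine Nat.Coprime.prod_left fun r hr => ?_
    have hr' := Nat.prime_of_mem_primeFactors r.2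
    have h1 : r.1 ≠ q.1 := fun h => (Finset.mem_erase.1 hr).1 (Subtype.ext h)
    exact Nat.Coprime.pow_left _ ((Nat.coprime_primes hr' hq).2 h1)
  obtain ⟨c, hc1, hc2⟩ : ∃ c : ℕ, c.Coprime q.1 ∧
      ((q.1 ^ m.factorization q.1 : ℕ) : ℤ) ∣ 1 - N' * c := by
    let w : (ZMod (q.1 ^ m.factorization q.1))ˣ :=
      (ZMod.unitOfCoprime N' (hcop.pow_right _))⁻¹
    refine ⟨(w : ZMod (q.1 ^ m.factorization q.1)).val, ?_, ?_⟩
    · have h1 := ZMod.val_coe_unit_coprime w
      have h2 : q.1 ∣ q.1 ^ m.factorization q.1 := by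
        rw [hA]
        exact dvd_pow_self q.1 (Nat.succ_ne_zero A)
      exact Nat.Coprime.coprime_dvd_right h2 h1
    · refine (ZMod.intCast_eq_intCast_iff_dvd_sub _ _ _).1 ?_
      push_cast
      rw [ZMod.natCast_val, ZMod.cast_id]
      have h1 : ((ZMod.unitOfCoprime N' (hcop.pow_right (m.factorization q.1)) :
          (ZMod (q.1 ^ m.factorization q.1))ˣ) : ZMod (q.1 ^ m.factorization q.1)) = (N' : ZMod _) :=
        ZMod.coe_unitOfCoprime _ _
      rw [← h1]
      exact Units.mul_inv _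
  obtain ⟨V, hV⟩ : ∃ V : ℤ, V = (((C.E u : (ZMod m)ˣ) : ZMod m).val : ℤ) := ⟨_, rfl⟩
  obtain ⟨V', hV'⟩ : ∃ V' : ℤ, V' = (((C.E ((C.d.τ q)⁻¹ * u) : (ZMod m)ˣ) : ZMod m).val : ℤ) :=
    ⟨_, rfl⟩
  obtain ⟨a, ha⟩ : ∃ a : ZMod m, a = ((V * (1 - N' * c) * k : ℤ) : ZMod m) := ⟨_, rfl⟩
  have hcopZ : IsCoprime ((q.1 ^ m.factorization q.1 : ℕ) : ℤ) (N' : ℤ) :=
    (Nat.Coprime.pow_left _ hcop.symm).isCoprime
  have hmZ : (m : ℤ) = ((q.1 ^ m.factorization q.1 : ℕ) : ℤ) * N' * k := by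
    have h1 : m = q.1 ^ m.factorization q.1 * N' * k := hk.trans (by rw [hN])
    have h2 := congrArg (fun n : ℕ => (n : ℤ)) h1
    beta_reduce at h2
    rw [Nat.cast_mul, Nat.cast_mul] at h2
    exact h2
  have hval : ∀ x : ZMod m, x = ((x.val : ℤ) : ZMod m) := by
    intro x
    rw [Int.cast_natCast, ZMod.natCast_zmod_val]
  -- the units
  have hs : ∀ s : HH m q, ((C.E (Function.update u q s) : (ZMod m)ˣ) : ZMod m) * en m (NI m I) =
      a + (((s : ZMod (q.1 ^ m.factorization q.1)).val * c : ℕ) : ZMod m) *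
        ((N' * k : ℕ) : ZMod m) := by
    intro s
    rw [hen, ha]
    obtain ⟨Vs, hVs⟩ : ∃ Vs : ℤ,
      Vs = (((C.E (Function.update u q s) : (ZMod m)ˣ) : ZMod m).val : ℤ) := ⟨_, rfl⟩
    have h1 : ((C.E (Function.update u q s) : (ZMod m)ˣ) : ZMod m) = (Vs : ZMod m) := by
      rw [hVs]
      exact hval _
    rw [h1]
    have h2 : ((q.1 ^ m.factorization q.1 : ℕ) : ℤ) ∣
        Vs - ((s : ZMod (q.1 ^ m.factorization q.1)).val : ℤ) := by
      refine (ZMod.intCast_eq_intCast_iff_dvd_sub _ _ _).1 ?_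
      rw [hVs, cast_E, Function.update_self, Int.cast_natCast, ZMod.natCast_zmod_val]
    have h3 : (N' : ℤ) ∣ Vs - V := by
      rw [hN']
      refine NI_dvd fun r hr => ?_
      rw [hVs, hV, cast_E, cast_E, Function.update_of_ne (Finset.mem_erase.1 hr).1]
    have h4 : (m : ℤ) ∣ (V * (1 - N' * c) * k +
        ((s : ZMod (q.1 ^ m.factorization q.1)).val * c) * (N' * k)) - Vs * k := by
      have h5 : ((q.1 ^ m.factorization q.1 : ℕ) : ℤ) * N' ∣ V * (1 - N' * c) +
          ((s : ZMod (q.1 ^ m.factorization q.1)).val : ℤ) * c * N' - Vs := by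
        refine hcopZ.mul_dvd ?_ ?_
        · have h6 : V * (1 - N' * c) + ((s : ZMod (q.1 ^ m.factorization q.1)).val : ℤ) * c * N' -
              Vs = (1 - N' * c) * (V - ((s : ZMod (q.1 ^ m.factorization q.1)).val : ℤ)) -
              (Vs - ((s : ZMod (q.1 ^ m.factorization q.1)).val : ℤ)) := by ring
          rw [h6]
          exact dvd_sub (hc2.mul_right _) h2
        · have h6 : V * (1 - N' * c) + ((s : ZMod (q.1 ^ m.factorization q.1)).val : ℤ) * c * N' -
              Vs = N' * (((s : ZMod (q.1 ^ m.factorization q.1)).val : ℤ) * c - V * c) -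
              (Vs - V) := by ring
          rw [h6]
          exact dvd_sub (dvd_mul_right _ _) h3
      have h6 : (V * (1 - N' * c) * k +
          ((s : ZMod (q.1 ^ m.factorization q.1)).val * c) * (N' * k)) - Vs * k =
          (V * (1 - N' * c) + ((s : ZMod (q.1 ^ m.factorization q.1)).val : ℤ) * c * N' - Vs) *
            k := by ring
      rw [h6, hmZ]
      exact mul_dvd_mul_right h5 _
    have h7 := (ZMod.intCast_eq_intCast_iff_dvd_sub _ _ m).2 h4
    push_cast at h7 ⊢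
    exact h7
  -- the two special elements
  have e1 : (q.1 : ZMod m) ^ (m.factorization q.1) * a =
      ((C.E u : (ZMod m)ˣ) : ZMod m) * en m (NI m (I.erase q)) := by
    rw [hen', ha]
    have h1 : ((C.E u : (ZMod m)ˣ) : ZMod m) = (V : ZMod m) := by
      rw [hV]
      exact hval _
    rw [h1]
    have h4 : (m : ℤ) ∣ (V * ((q.1 ^ m.factorization q.1 : ℕ) * k)) -
        ((q.1 ^ m.factorization q.1 : ℕ) * (V * (1 - N' * c) * k)) := by
      rw [hmZ]
      exact ⟨V * c, by ring⟩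
    have h7 := (ZMod.intCast_eq_intCast_iff_dvd_sub _ _ m).2 h4
    push_cast at h7 ⊢
    exact h7
  have e2 : (q.1 : ZMod m) ^ A * a =
      ((C.E ((C.d.τ q)⁻¹ * u) : (ZMod m)ˣ) : ZMod m) * en m (NI m (I.erase q)) := by
    rw [hen', ha]
    have h1 : ((C.E ((C.d.τ q)⁻¹ * u) : (ZMod m)ˣ) : ZMod m) = (V' : ZMod m) := by
      rw [hV']
      exact hval _
    rw [h1]
    have h3 : (N' : ℤ) ∣ q.1 * V' - V := by
      rw [hN']
      refine NI_dvd fun r hr => ?_
      push_cast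
      rw [hV', hV]
      have h5 := cast_E C ((C.d.τ q)⁻¹ * u) r
      have h6 := cast_E C u r
      rw [h5, h6, ← C.hτ q r (Finset.mem_erase.1 hr).1, Pi.mul_apply, Pi.inv_apply, Units.val_mul,
        ← mul_assoc, Units.mul_inv, one_mul]
    have hqz : (q.1 : ℤ) ∣ 1 - N' * c := by
      refine Dvd.dvd.trans ?_ hc2
      rw [hA]
      push_cast
      exact dvd_pow_self _ (Nat.succ_ne_zero A)
    have hcopq : IsCoprime (q.1 : ℤ) (N' : ℤ) := hcop.symm.isCoprime
    have h5 : (q.1 : ℤ) * N' ∣ q.1 * V' - V * (1 - N' * c) := by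
      refine hcopq.mul_dvd ?_ ?_
      · exact dvd_sub (dvd_mul_right _ _) (hqz.mul_left _)
      · have h6 : (q.1 : ℤ) * V' - V * (1 - N' * c) = (q.1 * V' - V) + N' * (V * c) := by ring
        rw [h6]
        exact dvd_add h3 (dvd_mul_right _ _)
    have h4 : (m : ℤ) ∣ (V' * ((q.1 ^ m.factorization q.1 : ℕ) * k)) -
        ((q.1 ^ A : ℕ) * (V * (1 - N' * c) * k)) := by
      obtain ⟨x, hx⟩ := h5
      rw [hmZ, hA]
      refine ⟨x, ?_⟩
      push_cast
      have h8 : (V' * ((q.1 : ℤ) ^ (A + 1) * k)) - ((q.1 : ℤ) ^ A * (V * (1 - N' * c) * k)) =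
          (q.1 : ℤ) ^ A * k * (q.1 * V' - V * (1 - N' * c)) := by ring
      rw [h8, hx]
      ring
    have h7 := (ZMod.intCast_eq_intCast_iff_dvd_sub _ _ m).2 h4
    push_cast at h7 ⊢
    exact h7
  unfold NN
  beta_reduce
  have g1 : ∑ s : HH m q, D (((C.E (Function.update u q s) : (ZMod m)ˣ) : ZMod m) *
      en m (NI m I)) = ∑ s : HH m q,
      D (a + (((s : ZMod (q.1 ^ m.factorization q.1)).val * c : ℕ) : ZMod m) *
        ((N' * k : ℕ) : ZMod m)) := sum_congr rfl fun s _ => by rw [hs s]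
  rw [g1, ← e1, ← e2]
  have hd1 : q.1 ^ (A + 1) * (N' * k) = m := by
    refine Eq.trans ?_ hk.symm
    rw [hN, hA]; ring
  have hd2 : q.1 ^ A * (q.1 * (N' * k)) = m := by
    refine Eq.trans ?_ hd1
    ring
  have key : ∀ (B : ℕ), B = A + 1 → ∀ [NeZero (q.1 ^ B)], ∑ s : (ZMod (q.1 ^ B))ˣ,
      D (a + (((s : ZMod (q.1 ^ B)).val * c : ℕ) : ZMod m) * ((N' * k : ℕ) : ZMod m)) =
      D ((q.1 : ZMod m) ^ B * a) - D ((q.1 : ZMod m) ^ A * a) := by
    rintro B rfl _
    have h1 := sum_units hq (A := A)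
      (fun i => D (a + ((i * c : ℕ) : ZMod m) * ((N' * k : ℕ) : ZMod m)))
    beta_reduce at h1
    rw [h1, dist_mulc hD hq (A + 1) (N' * k) c hd1 hc1 a,
      ← dist_mulc hD hq A (q.1 * (N' * k)) c hd2 hc1 a]
    congr 1
    refine sum_congr rfl fun y _ => ?_
    congr 2
    push_cast
    ring
  exact key _ hA

end Pool.Agent.NH35.HQ
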