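import Pool.Agent.NH35.HQ.LvG

/-! The combinatorial theorem for odd levels. -/

set_option autoImplicit false
set_option linter.unusedSectionVars false

namespace Pool.Agent.NH35.HQ

open Finset Pool.Agent.H916R2 Pool.Agent.NH35.HG Pool.Agent.NH35.HE Pool.Agent.NH35.HK

/-- products over the types -/
lemma prodty63 {m : ℕ} (I : Finset m.primeFactors) (f : ℕ → ℕ) :
    ∏ q ∈ I, f q.1 = ∏ q ∈ I.map (Function.Embedding.subtype _), f q := by
  rw [prod_map]
  rfl

lemma produniv63 {m : ℕ} (f : ℕ → ℕ) : ∏ q : m.primeFactors, f q.1 = ∏ q ∈ m.primeFactors, f q :=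
  prod_coe_sort m.primeFactors f

lemma map63 {m : ℕ} (I : Finset m.primeFactors) :
    I.map (Function.Embedding.subtype _) ⊆ m.primeFactors := by
  intro q hq
  rw [mem_map] at hq
  obtain ⟨a, _, rfl⟩ := hq
  exact a.2

lemma mem_ty63 {m : ℕ} {z : ZMod m} {q : m.primeFactors} : q ∈ ty z ↔ q.1 ∣ addOrderOf z := by
  unfold ty
  simp

/-- bound of the weight by bounds for the products -/
lemma wt63 {m : ℕ} (I : Finset m.primeFactors) (z : ZMod m) (g : ℕ → ℕ) (w : ℚ) (hw : 0 ≤ w)
    (hg : ∀ q : m.primeFactors, q ∈ ty z → 0 < g q.1 ∧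
      g q.1 ≤ Nat.totient (q.1 ^ (addOrderOf z).factorization q.1))
    (h1 : ty z = I → 16 ≤ w * (∏ q ∈ I.map (Function.Embedding.subtype _), g q : ℕ))
    (h2 : ty z = univ → I ≠ univ → 128 ≤ w * (∏ q ∈ m.primeFactors, g q : ℕ)) : wt I z ≤ w := by
  classical
  unfold wt
  split_ifs with h3 h4
  · have h5 : (∏ q ∈ I.map (Function.Embedding.subtype _), g q) ≤
        ∏ q ∈ I, Nat.totient (q.1 ^ (addOrderOf z).factorization q.1) := by
      rw [← prodty63]
      exact prod_le_prod' fun q hq => (hg q (h3 ▸ hq)).2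
    have h6 : 0 < ∏ q ∈ I, Nat.totient (q.1 ^ (addOrderOf z).factorization q.1) :=
      prod_pos fun q hq => (hg q (h3 ▸ hq)).1.trans_le (hg q (h3 ▸ hq)).2
    have h7 : (0 : ℚ) < ∏ q ∈ I, (Nat.totient (q.1 ^ (addOrderOf z).factorization q.1) : ℚ) := by
      exact_mod_cast h6
    rw [div_le_iff₀ h7]
    have h8 : ((∏ q ∈ I.map (Function.Embedding.subtype _), g q : ℕ) : ℚ) ≤
        ∏ q ∈ I, (Nat.totient (q.1 ^ (addOrderOf z).factorization q.1) : ℚ) := by
      exact_mod_cast h5
    exact (h1 h3).trans (mul_le_mul_of_nonneg_left h8 hw)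
  · have h3' : I ≠ univ := fun h => h3 (h4.trans h.symm)
    have h5 : (∏ q ∈ m.primeFactors, g q) ≤
        ∏ q : m.primeFactors, Nat.totient (q.1 ^ (addOrderOf z).factorization q.1) := by
      rw [← produniv63]
      exact prod_le_prod' fun q _ => (hg q (h4 ▸ mem_univ q)).2
    have h6 : 0 < ∏ q : m.primeFactors, Nat.totient (q.1 ^ (addOrderOf z).factorization q.1) :=
      prod_pos fun q _ => (hg q (h4 ▸ mem_univ q)).1.trans_le (hg q (h4 ▸ mem_univ q)).2
    have h7 : (0 : ℚ) < ∏ q : m.primeFactors,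
        (Nat.totient (q.1 ^ (addOrderOf z).factorization q.1) : ℚ) := by
      exact_mod_cast h6
    rw [div_le_iff₀ h7]
    have h8 : ((∏ q ∈ m.primeFactors, g q : ℕ) : ℚ) ≤
        ∏ q : m.primeFactors, (Nat.totient (q.1 ^ (addOrderOf z).factorization q.1) : ℚ) := by
      exact_mod_cast h5
    exact (h2 h4 h3').trans (mul_le_mul_of_nonneg_left h8 hw)
  · exact hw

theorem oddQ_of (h1 : Pool.Agent.NH35.HK.S_rem) (h2 : S_lev) (h3 : S_coreQ) (h4 : S_c4) :
    S_oddQ := by
  intro m k _ hm hcard5 hI5 hU5 s hs hR hC Q _ c hc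
  rcases Nat.lt_or_ge (Multiset.card s) 2 with hlt | hge
  · rcases Nat.lt_or_ge (Multiset.card s) 1 with h0 | h0
    · have hs0 : s = 0 := Multiset.card_eq_zero.1 (by omega)
      rw [hs0]
      simp
    · have hs1 : Multiset.card s = 1 := by omega
      obtain ⟨z, rfl⟩ := Multiset.card_eq_one.1 hs1
      have h4 := hR 1
      have h5 := sum_count ({z} : Multiset (ZMod m)) (fun a => saw (((1 : (ZMod m)ˣ) : ZMod m) * a))
      simp only [smul_eq_mul] at h5
      rw [h4] at h5
      rw [Multiset.map_singleton, Multiset.sum_singleton, Units.val_one, one_mul] at h5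
      have hz : z = 0 := by
        by_contra hz
        unfold saw at h5
        rw [if_neg hz] at h5
        obtain ⟨j, hj⟩ := hm
        omega
      rw [Multiset.map_singleton, Multiset.sum_singleton, hz]
      exact hc.half 0 (by simp)
  · have hk : 2 ≤ k := hge.trans hs
    obtain ⟨s', hle, hord, ⟨hR', hC'⟩, hsum⟩ := rem63 k
      (fun s' : Multiset (ZMod m) => Rel (fun z : ZMod m => (s'.count z : ℤ)) ∧
        CD m (fun z : ZMod m => (s'.count z : ℤ)))
      (m.primeFactors.filter fun p => ¬ p ≤ k + 1) (by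
        intro ℓ hℓ s' hs' hP
        rw [mem_filter] at hℓ
        obtain ⟨ha, hb, hc⟩ := h1 m ℓ hm (Nat.prime_of_mem_primeFactors hℓ.1)
          (Nat.dvd_of_mem_primeFactors hℓ.1) (by omega) s' (by omega) hP.1 hP.2
        exact ⟨⟨hb, hc⟩, ha⟩) s hs ⟨hR, hC⟩
    rw [hsum Q c hc]
    obtain ⟨m0, kk, hprod, hm00, hcop, hpf, s0, hs0⟩ := lvl63 (fun p => p ≤ k + 1) s' hord
    have : NeZero m0 := ⟨hm00⟩
    have hodd0 : Odd m0 := Odd.of_dvd_nat hm (Dvd.intro_left _ hprod)
    have hcard0 : Multiset.card s0 ≤ k := by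
      have e1 : Multiset.card s' = Multiset.card s0 := by rw [← hs0, Multiset.card_map]
      have e2 := Multiset.card_le_card hle
      omega
    obtain ⟨hl1, hl2⟩ := h2 m m0 kk hm hprod hcop s0
    rw [hs0] at hl1 hl2
    have hR0 := hl1 hR'
    have hC0 := hl2 hC'
    -- orders are odd
    have hoo : ∀ z : ZMod m0, Odd (addOrderOf z) := by
      intro z
      have hom : addOrderOf z ∣ m0 := by
        refine addOrderOf_dvd_of_nsmul_eq_zero ?_
        rw [nsmul_eq_mul, ZMod.natCast_self, zero_mul]
      exact Odd.of_dvd_nat hodd0 hom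
    have hGd : ∀ z : ZMod m0, Gd z := by
      intro z
      unfold Gd
      obtain ⟨j, hj⟩ := hoo z
      omega
    have hCX : CX m0 (fun z : ZMod m0 => (s0.count z : ℤ)) := by
      refine ⟨fun _ => hC0, fun h => ?_⟩
      obtain ⟨j, hj⟩ := hodd0
      omega
    have hkQ : (0 : ℚ) < k := by exact_mod_cast (by omega : 0 < k)
    have hC4 : C4 univ (fun z : ZMod m0 => (s0.count z : ℤ)) := by
      refine h4 m0 (Or.inl hodd0) (by rw [hpf]; exact hcard5) s0 fun I hI => ?_
      -- the two products
      obtain ⟨PI, hPI⟩ : ∃ PI, PI = ∏ q ∈ I.map (Function.Embedding.subtype _), (q - 1) := ⟨_, rfl⟩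
      obtain ⟨PU, hPU⟩ : ∃ PU, PU = ∏ q ∈ m0.primeFactors, (q - 1) := ⟨_, rfl⟩
      have hIP : 16 * k < PI := by
        rw [hPI]
        refine hI5 _ ?_ (by rw [card_map, hI])
        rw [← hpf]
        exact map63 I
      have hUP : I ≠ univ → 128 * k < PU := by
        intro hne
        rw [hPU, hpf]
        refine hU5 ?_
        have e1 : I.card < (univ : Finset m0.primeFactors).card :=
          card_lt_card (ssubset_univ_iff.2 hne)
        have e2 : (univ : Finset m0.primeFactors).card = m0.primeFactors.card := by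
          rw [card_univ, Fintype.card_coe]
        have e3 : m0.primeFactors.card = (m.primeFactors.filter fun p => p ≤ k + 1).card := by
          rw [hpf]
        omega
      -- the bound of the weights
      have hPI0 : (0 : ℚ) < PI := by exact_mod_cast (by omega : 0 < PI)
      obtain ⟨w, hw0, hwI, hwU, hwk⟩ : ∃ w : ℚ, 0 ≤ w ∧ 16 ≤ w * PI ∧ (I ≠ univ → 128 ≤ w * PU) ∧
          k * w < 1 := by
        by_cases hne : I = univ
        · refine ⟨16 / PI, by positivity, ?_, fun h => absurd hne h, ?_⟩
          · rw [div_mul_cancel₀ _ hPI0.ne']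
          · rw [← mul_div_assoc, div_lt_one hPI0]
            have : (16 * k : ℚ) < PI := by exact_mod_cast hIP
            linarith
        · have hPU0 : (0 : ℚ) < PU := by
            have := hUP hne
            exact_mod_cast (by omega : 0 < PU)
          refine ⟨max (16 / PI) (128 / PU), le_max_of_le_left (by positivity), ?_, fun _ => ?_, ?_⟩
          · refine le_trans ?_ (mul_le_mul_of_nonneg_right (le_max_left _ _) hPI0.le)
            rw [div_mul_cancel₀ _ hPI0.ne']
          · refine le_trans ?_ (mul_le_mul_of_nonneg_right (le_max_right _ _) hPU0.le)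
            rw [div_mul_cancel₀ _ hPU0.ne']
          · rcases max_choice (16 / (PI : ℚ)) (128 / PU) with e | e <;> rw [e, ← mul_div_assoc]
            · rw [div_lt_one hPI0]
              have : (16 * k : ℚ) < PI := by exact_mod_cast hIP
              linarith
            · rw [div_lt_one hPU0]
              have : (128 * k : ℚ) < PU := by exact_mod_cast hUP hne
              linarith
      have hwt : ∀ z ∈ s0, wt I z ≤ w := by
        intro z _
        refine wt63 I z (fun q => q - 1) w hw0 ?_ ?_ ?_
        · intro q hq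
          have hqp := Nat.prime_of_mem_primeFactors q.2
          have hd : q.1 ∣ addOrderOf z := mem_ty63.1 hq
          exact ⟨Nat.sub_pos_of_lt hqp.one_lt, totodd63 hqp hd⟩
        · intro _
          rw [← hPI]
          exact hwI
        · intro _ hne
          rw [← hPU]
          exact hwU hne
      have h5 := Multiset.sum_le_card_nsmul (s0.map (wt I)) w (by
        intro x hx
        rw [Multiset.mem_map] at hx
        obtain ⟨z, hz, rfl⟩ := hx
        exact hwt z hz)
      rw [Multiset.card_map, nsmul_eq_mul] at h5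
      have h6 : (Multiset.card s0 : ℚ) * w ≤ k * w :=
        mul_le_mul_of_nonneg_right (by exact_mod_cast hcard0) hw0
      linarith
    have hfin := h3 m0 (Or.inl hodd0) (fun z => (s0.count z : ℤ)) (fun z _ => hGd z) hR0 hCX hC4 Q
      (fun b => c (iota kk b)) (hc.comp_iota hprod)
    have h6 := sum_count s0 (fun b => c (iota kk b))
    rw [← hs0, Multiset.map_map]
    exact h6.symm.trans hfin

end Pool.Agent.NH35.HQ
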