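import Pool.Agent.NH35.HQ.Sys

/-! Systems of functions: an explicit system modulo two. -/

set_option autoImplicit false
set_option linter.unusedSectionVars false

namespace Pool.Agent.NH35.HQ

open Finset Pool.Agent.NH35.HK

namespace Path

variable {ι : Type} [Fintype ι] [DecidableEq ι] {H : ι → Type} [∀ i, CommGroup (H i)]
  [∀ i, Fintype (H i)] [∀ i, DecidableEq (H i)]

theorem or2 (P Q : Prop) [Decidable P] [Decidable Q] (h : ¬ (P ∧ Q)) :
    (if P ∨ Q then (1 : ZMod 2) else 0) = (if P then 1 else 0) + (if Q then 1 else 0) := by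
  by_cases hP : P <;> by_cases hQ : Q
  · exact absurd ⟨hP, hQ⟩ h
  all_goals simp [hP, hQ]

theorem sum_two {α : Type} [Fintype α] [DecidableEq α] {x y : α} (h : x ≠ y) :
    ∑ s : α, (if s = x ∨ s = y then (1 : ZMod 2) else 0) = 0 := by
  have h1 : ∀ s, (if s = x ∨ s = y then (1 : ZMod 2) else 0) =
      (if s = x then 1 else 0) + (if s = y then 1 else 0) := fun s =>
    or2 _ _ (by rintro ⟨rfl, h2⟩; exact h h2)
  rw [Finset.sum_congr rfl fun s _ => h1 s, Finset.sum_add_distrib]
  simp only [Finset.sum_ite_eq', Finset.mem_univ, if_true]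
  decide

theorem kk (d : Dat H) (i : ι) : d.κ i * d.κ i = 1 := congrFun d.hκ i

theorem kk_mul (d : Dat H) (i : ι) (s : H i) : d.κ i * (d.κ i * s) = s := by
  rw [← mul_assoc, kk, one_mul]

theorem k_eq (d : Dat H) (i : ι) (s t : H i) : d.κ i * s = t ↔ s = d.κ i * t := by
  constructor
  · rintro rfl
    rw [kk_mul]
  · rintro rfl
    rw [kk_mul]

theorem k_ne (d : Dat H) (i : ι) (s : H i) : s ≠ d.κ i * s := by
  intro h
  exact d.hκ1 i (right_eq_mul.1 h)

theorem sg_k (d : Dat H) (i : ι) (a s : H i) : sg d i a (d.κ i * s) = sg d i a s := by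
  unfold sg
  refine if_congr ?_ rfl rfl
  rw [k_eq, k_eq, kk_mul]
  exact or_comm

theorem sum_sg (d : Dat H) (i : ι) (a : H i) : ∑ s, sg d i a s = 0 := sum_two (k_ne d i a)

/-- the last factor -/
def lf (d : Dat H) (r : ι) (w u : ∀ i, H i) (i : ι) : ZMod 2 :=
  (if u r = w r ∧ (u i = w i ∨ u i = d.τ r i * w i) then 1 else 0) +
     (if u r = d.κ r * w r ∧ (u i = d.κ i * w i ∨ u i = d.κ i * d.τ r i * w i) then 1 else 0)

/-- one summand -/
def tm (d : Dat H) (o : ι → ℕ) (I : Finset ι) (r : ι) (w u : ∀ i, H i) (i : ι) : ZMod 2 :=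
  (∏ q ∈ I.filter fun q => o q < o i, sg d q (d.τ r q * w q) (u q)) *
    (∏ q ∈ I.filter fun q => o i < o q, sg d q (w q) (u q)) * lf d r w u i

theorem pth_eq (d : Dat H) (o : ι → ℕ) (I : Finset ι) (r : ι) (w u : ∀ i, H i) :
    pth d o I r w u = ∑ i ∈ I, if d.τ r i = 1 ∨ d.τ r i = d.κ i then 0 else tm d o I r w u i := rfl

/-- summation over a coordinate of a product with a factor `sg` -/
theorem sum_prod_sg (d : Dat H) (J : Finset ι) (q : ι) (hq : q ∈ J) (a : ∀ i, H i)
    (u : ∀ i, H i) : ∑ s : H q, ∏ j ∈ J, sg d j (a j) (Function.update u q s j) = 0 := by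
  have h1 : ∀ s : H q, ∏ j ∈ J, sg d j (a j) (Function.update u q s j) =
      sg d q (a q) s * ∏ j ∈ J.erase q, sg d j (a j) (u j) := by
    intro s
    rw [← Finset.mul_prod_erase J _ hq, Function.update_self]
    congr 1
    refine Finset.prod_congr rfl fun j hj => ?_
    rw [Function.update_of_ne (ne_of_mem_erase hj)]
  rw [Finset.sum_congr rfl fun s _ => h1 s, ← Finset.sum_mul, sum_sg, zero_mul]

theorem prod_update (d : Dat H) (J : Finset ι) (q : ι) (hq : q ∉ J) (a : ∀ i, H i)
    (u : ∀ i, H i) (s : H q) : ∏ j ∈ J, sg d j (a j) (Function.update u q s j) =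
      ∏ j ∈ J, sg d j (a j) (u j) := by
  refine Finset.prod_congr rfl fun j hj => ?_
  rw [Function.update_of_ne]
  rintro rfl
  exact hq hj

theorem lf_update (d : Dat H) (r : ι) (w u : ∀ i, H i) (i q : ι) (h1 : q ≠ r) (h2 : q ≠ i)
    (s : H q) : lf d r w (Function.update u q s) i = lf d r w u i := by
  unfold lf
  rw [Function.update_of_ne h1.symm, Function.update_of_ne h2.symm]

/-- sum over `u i` of the last factor -/
theorem sum_lf (d : Dat H) (r : ι) (w u : ∀ i, H i) (i : ι) (hir : i ≠ r)
    (ht : ¬ (d.τ r i = 1 ∨ d.τ r i = d.κ i)) :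
    ∑ s : H i, lf d r w (Function.update u i s) i = 0 := by
  unfold lf
  simp only [Function.update_of_ne hir.symm, Function.update_self, ite_and]
  rw [Finset.sum_add_distrib]
  have h1 : w i ≠ d.τ r i * w i := by
    intro h
    exact ht (Or.inl (right_eq_mul.1 h))
  have h2 : d.κ i * w i ≠ d.κ i * d.τ r i * w i := by
    intro h
    rw [mul_assoc] at h
    exact h1 (mul_left_cancel h)
  have h3 := sum_two h1
  have h4 := sum_two h2
  by_cases h5 : u r = w r <;> by_cases h6 : u r = d.κ r * w r <;>
    simp only [h5, h6, if_true, if_false, Finset.sum_const_zero] <;> simp_all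

theorem NN_tm_zero (d : Dat H) (o : ι → ℕ) (ho : Function.Injective o) (I : Finset ι) (r : ι)
    (w u : ∀ i, H i) (i : ι) (hi : i ∈ I) (hr : r ∉ I) (q : ι) (hq : q ∈ I)
    (ht : ¬ (d.τ r i = 1 ∨ d.τ r i = d.κ i)) :
    ∑ s : H q, tm d o I r w (Function.update u q s) i = 0 := by
  have hqr : q ≠ r := fun h => hr (h ▸ hq)
  unfold tm
  by_cases hqi : q = i
  · subst hqi
    have h1 : q ∉ I.filter fun j => o j < o q := by simp
    have h2 : q ∉ I.filter fun j => o q < o j := by simp
    simp only [prod_update d _ q h1, prod_update d _ q h2]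
    rw [← Finset.mul_sum, sum_lf d r w u q hqr ht, mul_zero]
  · simp only [lf_update d r w u i q hqr hqi]
    rw [← Finset.sum_mul]
    rcases lt_or_gt_of_ne (fun h => hqi (ho h) : o q ≠ o i) with h3 | h3
    · have h1 : q ∈ I.filter fun j => o j < o i := mem_filter.2 ⟨hq, h3⟩
      have h2 : q ∉ I.filter fun j => o i < o j := by simp [h3.le]
      simp only [prod_update d _ q h2]
      rw [← Finset.sum_mul, sum_prod_sg d _ q h1, zero_mul, zero_mul]
    · have h1 : q ∉ I.filter fun j => o j < o i := by
        simp only [mem_filter, not_and, not_lt]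
        exact fun _ => h3.le
      have h2 : q ∈ I.filter fun j => o i < o j := mem_filter.2 ⟨hq, h3⟩
      simp only [prod_update d _ q h1]
      rw [← Finset.mul_sum, sum_prod_sg d _ q h2, mul_zero, zero_mul]

/-- the sum over the coordinate `r` of the last factor -/
theorem sum_lf_r (d : Dat H) (r : ι) (w u : ∀ i, H i) (i : ι) (hir : i ≠ r) :
    ∑ s : H r, lf d r w (Function.update u r s) i =
      (if u i = w i ∨ u i = d.τ r i * w i then 1 else 0) +
        (if u i = d.κ i * w i ∨ u i = d.κ i * d.τ r i * w i then 1 else 0) := by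
  unfold lf
  simp only [Function.update_of_ne hir, Function.update_self, ite_and]
  rw [Finset.sum_add_distrib]
  simp only [Finset.sum_ite_eq', Finset.mem_univ, if_true]

theorem lf_val (d : Dat H) (r : ι) (w u : ∀ i, H i) (i : ι) :
    (if d.τ r i = 1 ∨ d.τ r i = d.κ i then 0 else
      (if u i = w i ∨ u i = d.τ r i * w i then (1 : ZMod 2) else 0) +
        (if u i = d.κ i * w i ∨ u i = d.κ i * d.τ r i * w i then 1 else 0)) =
      sg d i (d.τ r i * w i) (u i) + sg d i (w i) (u i) := by
  have h2 : ∀ x : ZMod 2, x + x = 0 := by decide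
  by_cases ht : d.τ r i = 1 ∨ d.τ r i = d.κ i
  · rw [if_pos ht]
    rcases ht with h | h
    · rw [h, one_mul, h2]
    · have h3 : sg d i (d.κ i * w i) (u i) = sg d i (w i) (u i) := by
        unfold sg
        refine if_congr ?_ rfl rfl
        rw [kk_mul]
        exact or_comm
      rw [h, h3, h2]
  · have h3 : w i ≠ d.τ r i * w i := fun h => ht (Or.inl (right_eq_mul.1 h))
    rw [if_neg ht, or2 _ _ (fun h => h3 (h.1.symm.trans h.2)),
      or2 _ _ (fun h => h3 (mul_left_cancel ((h.1.symm.trans h.2).trans (mul_assoc _ _ _))))]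
    unfold sg
    rw [or2 _ _ (fun h => k_ne d i _ (h.1.symm.trans h.2)),
      or2 _ _ (fun h => k_ne d i _ (h.1.symm.trans h.2)), mul_assoc]
    ring

/-- telescoping -/
theorem tele {α : Type} [DecidableEq α] (o : α → ℕ) (ho : Function.Injective o) (I : Finset α)
    (a b : α → ZMod 2) :
    ∑ i ∈ I, (∏ q ∈ I.filter fun q => o q < o i, a q) * (∏ q ∈ I.filter fun q => o i < o q, b q) *
      (a i + b i) = ∏ i ∈ I, b i + ∏ i ∈ I, a i := by
  letI : LinearOrder α := LinearOrder.lift' o ho
  have h1 := Finset.prod_add_ordered I b (fun i => a i - b i)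
  simp only [add_sub_cancel] at h1
  have h2 : ∀ x y : ZMod 2, x - y = x + y := by decide
  have h3 : ∀ x y z : ZMod 2, x = y + z → z = y + x := by decide
  rw [← h3 _ _ _ h1]
  refine Finset.sum_congr rfl fun i _ => ?_
  rw [h2]
  have h4 : (I.filter fun q => o q < o i) = I.filter fun q => q < i := by
    ext q
    simp only [mem_filter]
    exact Iff.rfl
  have h5 : (I.filter fun q => o i < o q) = I.filter fun q => i < q := by
    ext q
    simp only [mem_filter]
    exact Iff.rfl
  rw [h4, h5]
  ring

theorem fI_k (d : Dat H) (I : Finset ι) (w u : ∀ i, H i) : fI d I w (d.κ * u) = fI d I w u :=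
  Finset.prod_congr rfl fun i _ => sg_k d i (w i) (u i)

theorem lf_k (d : Dat H) (r : ι) (w u : ∀ i, H i) (i : ι) :
    lf d r w (d.κ * u) i = lf d r w u i := by
  unfold lf
  rw [add_comm]
  simp only [Pi.mul_apply]
  congr 1
  · refine if_congr ?_ rfl rfl
    rw [k_eq, k_eq, k_eq, kk_mul, kk_mul, mul_assoc, kk_mul]
  · refine if_congr ?_ rfl rfl
    rw [k_eq, k_eq, k_eq, mul_assoc]

theorem pth_k (d : Dat H) (o : ι → ℕ) (I : Finset ι) (r : ι) (w u : ∀ i, H i) :
    pth d o I r w (d.κ * u) = pth d o I r w u := by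
  rw [pth_eq, pth_eq]
  refine Finset.sum_congr rfl fun i _ => ?_
  unfold tm
  rw [lf_k]
  simp only [Pi.mul_apply, sg_k]

/-- the sum over the coordinate `r` -/
theorem NN_r (d : Dat H) (o : ι → ℕ) (ho : Function.Injective o) (I : Finset ι) (r : ι)
    (w u : ∀ i, H i) (hr : r ∉ I) :
    NN r (pth d o I r w) u = fI d I w u - fI d I w ((d.τ r)⁻¹ * u) := by
  have h2 : ∀ x y : ZMod 2, x - y = x + y := by decide
  have h3 : fI d I w ((d.τ r)⁻¹ * u) = ∏ i ∈ I, sg d i (d.τ r i * w i) (u i) := by
    unfold fI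
    refine Finset.prod_congr rfl fun i _ => ?_
    unfold sg
    refine if_congr ?_ rfl rfl
    rw [Pi.mul_apply, Pi.inv_apply, inv_mul_eq_iff_eq_mul, inv_mul_eq_iff_eq_mul,
      mul_left_comm]
  rw [h2, h3]
  unfold fI
  rw [← tele o ho I (fun i => sg d i (d.τ r i * w i) (u i)) (fun i => sg d i (w i) (u i))]
  unfold NN
  simp only [pth_eq]
  rw [Finset.sum_comm]
  refine Finset.sum_congr rfl fun i hi => ?_
  have hir : i ≠ r := fun h => hr (h ▸ hi)
  have h4 : ∀ s : H r, tm d o I r w (Function.update u r s) i =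
      (∏ q ∈ I.filter fun q => o q < o i, sg d q (d.τ r q * w q) (u q)) *
        (∏ q ∈ I.filter fun q => o i < o q, sg d q (w q) (u q)) *
        lf d r w (Function.update u r s) i := by
    intro s
    unfold tm
    rw [prod_update d _ r (fun h => hr (mem_filter.1 h).1) (fun q => d.τ r q * w q),
      prod_update d _ r (fun h => hr (mem_filter.1 h).1) w]
  rw [← lf_val]
  by_cases ht : d.τ r i = 1 ∨ d.τ r i = d.κ i
  · simp only [if_pos ht, Finset.sum_const_zero, mul_zero]
  · simp only [if_neg ht]
    rw [Finset.sum_congr rfl fun s _ => h4 s, ← Finset.mul_sum, sum_lf_r d r w u i hir]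

theorem NN_q (d : Dat H) (o : ι → ℕ) (ho : Function.Injective o) (I : Finset ι) (r : ι)
    (w u : ∀ i, H i) (hr : r ∉ I) (q : ι) (hq : q ∈ I) : NN q (pth d o I r w) u = 0 := by
  unfold NN
  simp only [pth_eq]
  rw [Finset.sum_comm]
  refine Finset.sum_eq_zero fun i hi => ?_
  by_cases ht : d.τ r i = 1 ∨ d.τ r i = d.κ i
  · simp only [if_pos ht, Finset.sum_const_zero]
  · simp only [if_neg ht]
    exact NN_tm_zero d o ho I r w u i hi hr q hq ht

theorem dep_fI (d : Dat H) (I : Finset ι) (w : ∀ i, H i) : Dep I (fI d I w) := by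
  intro u v h
  exact Finset.prod_congr rfl fun i hi => by rw [h i hi]

theorem dep_pth (d : Dat H) (o : ι → ℕ) (I : Finset ι) (r : ι) (w : ∀ i, H i) :
    Dep (insert r I) (pth d o I r w) := by
  intro u v h
  rw [pth_eq, pth_eq]
  refine Finset.sum_congr rfl fun i hi => ?_
  have h1 : tm d o I r w u i = tm d o I r w v i := by
    unfold tm lf
    rw [h r (mem_insert_self r I), h i (mem_insert_of_mem hi)]
    congr 1
    congr 1
    · exact Finset.prod_congr rfl fun q hq => by
        rw [h q (mem_insert_of_mem (mem_filter.1 hq).1)]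
    · exact Finset.prod_congr rfl fun q hq => by
        rw [h q (mem_insert_of_mem (mem_filter.1 hq).1)]
  rw [h1]

end Path

open Path in
/-- (A5) -/
theorem path_ok : S_path := by
  intro ι _ _ H _ _ _ d o ho I r w hI hr
  have hp1 : ps d o I r w I = fI d I w := by
    funext u
    rw [ps, if_pos rfl]
  have hp2 : insert r I ≠ I → ps d o I r w (insert r I) = pth d o I r w := by
    intro h
    funext u
    rw [ps, if_neg h, if_pos rfl]
  have hp3 : ∀ A, A ≠ I → A ≠ insert r I → ps d o I r w A = 0 := by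
    intro A h1 h2
    funext u
    rw [ps, if_neg h1, if_neg h2]
    rfl
  have hle : I.card ≤ (insert r I).card := card_le_card (subset_insert r I)
  refine ⟨⟨?_, ?_, ?_⟩, ?_⟩
  · intro A
    by_cases h1 : A = I
    · rw [h1, hp1]
      exact dep_fI d I w
    · by_cases h2 : A = insert r I
      · rw [h2, hp2 (fun h => h1 (h2.trans h))]
        exact dep_pth d o I r w
      · rw [hp3 A h1 h2]
        intro u v _
        rfl
  · apply hp3
    · rintro rfl
      simp at hI
    · exact (insert_ne_empty r I).symm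
  · intro A q hq u
    have hz : ∀ B, B ≠ I → B ≠ insert r I → 0 = ps d o I r w B u -
        ps d o I r w B ((d.τ q)⁻¹ * u) := by
      intro B h1 h2
      rw [hp3 B h1 h2]
      simp
    by_cases h1 : A = I
    · subst h1
      have h3 : (A.erase q).card < A.card := card_erase_lt_of_mem hq
      rw [← hz (A.erase q) (fun h => by rw [h] at h3; exact lt_irrefl _ h3)
        (fun h => by rw [h] at h3; omega), hp1]
      exact sum_prod_sg d A q hq w u
    · by_cases h2 : A = insert r I
      · have hrI : r ∉ I := fun h => h1 (h2.trans (insert_eq_of_mem h))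
        rw [h2, hp2 (fun h => h1 (h2.trans h))]
        rw [h2, mem_insert] at hq
        rcases hq with rfl | hq
        · rw [erase_insert hrI, hp1]
          exact NN_r d o ho I q w u hrI
        · rw [NN_q d o ho I r w u hrI q hq]
          refine hz _ (fun h => ?_) (fun h => ?_)
          · have h3 : r ∈ (insert r I).erase q :=
              mem_erase.2 ⟨fun h4 => hrI (h4 ▸ hq), mem_insert_self r I⟩
            rw [h] at h3
            exact hrI h3
          · have h3 : q ∉ (insert r I).erase q := notMem_erase q _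
            rw [h] at h3
            exact h3 (mem_insert_of_mem hq)
      · rw [← hz (A.erase q) (fun h => ?_) (fun h => ?_), hp3 A h1 h2]
        · exact Finset.sum_eq_zero fun s _ => rfl
        · have h3 : A = insert q I := by rw [← h, insert_erase hq]
          have h4 : q ∉ I := by rw [← h]; exact notMem_erase q A
          have h5 : q ∈ insert r I := by rw [hr]; exact mem_univ q
          rw [mem_insert] at h5
          rcases h5 with rfl | h5
          · exact h2 h3
          · exact h4 h5
        · have h3 : q ∈ A.erase q := by rw [h, hr]; exact mem_univ q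
          exact notMem_erase q A h3
  · intro A u
    have h2 : ∀ x : ZMod 2, -x = x := by decide
    rw [h2]
    by_cases h1 : A = I
    · rw [h1, hp1, fI_k]
    · by_cases h3 : A = insert r I
      · rw [h3, hp2 (fun h => h1 (h3.trans h)), pth_k]
      · rw [hp3 A h1 h3]
        rfl

end Pool.Agent.NH35.HQ
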