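import Pool.Agent.NH35.HQ.Sys
import Pool.Agent.NH35.HK.Abs

/-! (HQ-5) one coordinate is removed: the induction. -/

set_option autoImplicit false
set_option linter.unusedSectionVars false

namespace Pool.Agent.NH35.HQ

open Finset Pool.Agent.NH35.HK

namespace StepH87

open Pool.Agent.NH35.HK.AbsH

section gen

variable {ι : Type} [Fintype ι] [DecidableEq ι] {H : ι → Type} [∀ i, CommGroup (H i)]
  [∀ i, Fintype (H i)] [∀ i, DecidableEq (H i)]

/-- the sum over all elements, by the coordinate `ℓ` -/
theorem sum_split {Q : Type} [AddCommGroup Q] (ℓ : ι) (g : (∀ i, H i) → ℤ)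
    (f : (∀ i, H i) → Q) :
    ∑ u : ∀ i, H i, g (Function.update u ℓ 1) • f u =
      ∑ v : ∀ i, H i, (if v ℓ = 1 then g v • NN ℓ f v else 0) := by
  have e1 : ∀ v : ∀ i, H i, (if v ℓ = 1 then g v • NN ℓ f v else 0) =
      ∑ s : H ℓ, if v ℓ = 1 then g v • f (Function.update v ℓ s) else 0 := by
    intro v
    unfold NN
    split_ifs
    · rw [Finset.smul_sum]
    · simp
  rw [sum_congr rfl fun v _ => e1 v, ← Finset.sum_product', ← Finset.sum_filter]
  symm
  refine Finset.sum_nbij' (fun x => Function.update x.1 ℓ x.2)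
    (fun u => (Function.update u ℓ 1, u ℓ)) ?_ ?_ ?_ ?_ ?_
  · intro x _
    exact Finset.mem_univ _
  · intro x _
    simp
  · intro x hx
    have h : x.1 ℓ = 1 := (Finset.mem_filter.mp hx).2
    ext i
    · by_cases hi : i = ℓ
      · subst hi; simp [h]
      · simp [Function.update_of_ne hi]
    · simp
  · intro u _
    simp
  · intro x hx
    have h : x.1 ℓ = 1 := (Finset.mem_filter.mp hx).2
    have h2 : Function.update (Function.update x.1 ℓ x.2) ℓ 1 = x.1 := by
      rw [Function.update_idem, ← h, Function.update_eq_self]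
    rw [h2]

theorem pair_NS {Q : Type} [AddCommGroup Q] (ℓ : ι) (Z : Finset ι → (∀ i, H i) → ℤ)
    (c : Finset ι → (∀ i, H i) → Q) :
    pair (NS ℓ Z) c = ∑ A : Finset ι, if ℓ ∈ A then ∑ v : ∀ i, H i,
      (if v ℓ = 1 then Z (A.erase ℓ) v • NN ℓ (c A) v else 0) else 0 := by
  unfold pair
  refine sum_congr rfl fun A _ => ?_
  unfold NS
  by_cases h : ℓ ∈ A
  · simp only [if_pos h]
    exact sum_split ℓ (Z (A.erase ℓ)) (c A)
  · simp [h]

theorem kill_NS {Q : Type} [AddCommGroup Q] (ℓ : ι) (Z : Finset ι → (∀ i, H i) → ℤ)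
    (c : Finset ι → (∀ i, H i) → Q) (hN : ∀ A u, NN ℓ (c A) u = 0) :
    pair (NS ℓ Z) c = 0 := by
  rw [pair_NS]
  refine Finset.sum_eq_zero fun A _ => ?_
  split_ifs with h
  · refine Finset.sum_eq_zero fun v _ => ?_
    rw [hN A v, smul_zero]
    split_ifs <;> rfl
  · rfl

theorem pair_BR_zero {Q : Type} [AddCommGroup Q] (d : Dat H) (R : ∀ i, Finset (H i)) (ℓ q : ι)
    (c : Finset ι → (∀ i, H i) → Q) (h1 : c {ℓ, q} = 0) (h2 : c {ℓ} = 0) :
    pair (BR d R ℓ q) c = 0 := by
  classical
  unfold pair
  refine Finset.sum_eq_zero fun A _ => Finset.sum_eq_zero fun u _ => ?_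
  by_cases hA : A = {ℓ, q}
  · rw [hA, h1]; simp
  by_cases hA' : A = {ℓ}
  · rw [hA', h2]; simp
  unfold BR
  simp [hA, hA']

theorem kill_BR (h4 : S_br) (d : Dat H) (R : ∀ i, Finset (H i)) (hR : Half d R) (ℓ q : ι)
    (c : Finset ι → (∀ i, H i) → ℤ) (hs : Sys d ℓ c) (ho : Odd1 d c)
    (hN : ∀ A u, NN ℓ (c A) u = 0) : pair (BR d R ℓ q) c = 0 := by
  classical
  by_cases h : q = ℓ
  · unfold pair BR
    simp [h]
  have e1 := h4 ι H d R hR ℓ q h ℤ c hs
  have e2 : Od d c = c + c := by
    funext A u
    unfold Od
    rw [ho A u]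
    simp
  rw [e2, pair_add, sum_zero_of_NN ℓ] at e1
  · omega
  · intro u
    have hu : ∀ s : H ℓ, (Function.update u ℓ s q ∈ R q ∧ ∀ i, i ≠ ℓ → i ≠ q →
        Function.update u ℓ s i = 1) ↔ (u q ∈ R q ∧ ∀ i, i ≠ ℓ → i ≠ q → u i = 1) := by
      intro s
      rw [Function.update_of_ne h]
      constructor
      · rintro ⟨a, b⟩
        refine ⟨a, fun i h5 h6 => ?_⟩
        have := b i h5 h6
        rwa [Function.update_of_ne h5] at this
      · rintro ⟨a, b⟩
        refine ⟨a, fun i h5 h6 => ?_⟩
        rw [Function.update_of_ne h5]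
        exact b i h5 h6
    unfold NN
    by_cases hc : (u q ∈ R q ∧ ∀ i, i ≠ ℓ → i ≠ q → u i = 1)
    · rw [← hN {ℓ, q} u]
      unfold NN
      exact Finset.sum_congr rfl fun s _ => if_pos ((hu s).mpr hc)
    · exact Finset.sum_eq_zero fun s _ => if_neg (fun h5 => hc ((hu s).mp h5))

/-- the modification -/
noncomputable def MM (d : Dat H) (R : ∀ i, Finset (H i)) (ℓ : ι) (e : ι → ℤ)
    (Z : Finset ι → (∀ i, H i) → ℤ) (A : Finset ι) (u : ∀ i, H i) : ℤ :=
  (∑ q, e q * BR d R ℓ q A u) + NS ℓ Z A u

theorem pair_MM {Q : Type} [AddCommGroup Q] (d : Dat H) (R : ∀ i, Finset (H i)) (ℓ : ι)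
    (e : ι → ℤ) (Z : Finset ι → (∀ i, H i) → ℤ) (c : Finset ι → (∀ i, H i) → Q) :
    pair (MM d R ℓ e Z) c = (∑ q, e q • pair (BR d R ℓ q) c) + pair (NS ℓ Z) c := by
  unfold pair MM
  simp only [add_smul, Finset.sum_smul, mul_smul, Finset.sum_add_distrib, Finset.smul_sum]
  congr 1
  symm
  rw [Finset.sum_comm]
  refine Finset.sum_congr rfl fun A _ => ?_
  rw [Finset.sum_comm]

theorem pair_subY {Q : Type} [AddCommGroup Q] (X Y : Finset ι → (∀ i, H i) → ℤ)
    (c : Finset ι → (∀ i, H i) → Q) :
    pair (fun I u => X I u - Y I u) c = pair X c - pair Y c := by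
  unfold pair
  simp only [sub_smul, Finset.sum_sub_distrib]

theorem pair_MM_add {Q : Type} [AddCommGroup Q] (d : Dat H) (R : ∀ i, Finset (H i)) (ℓ : ι)
    (e e' : ι → ℤ) (Z Z' : Finset ι → (∀ i, H i) → ℤ) (c : Finset ι → (∀ i, H i) → Q) :
    pair (MM d R ℓ (e + e') (Z + Z')) c = pair (MM d R ℓ e Z) c + pair (MM d R ℓ e' Z') c := by
  have h : pair (NS ℓ (Z + Z')) c = pair (NS ℓ Z) c + pair (NS ℓ Z') c := by
    unfold pair
    rw [← Finset.sum_add_distrib]
    refine Finset.sum_congr rfl fun A _ => ?_
    rw [← Finset.sum_add_distrib]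
    refine Finset.sum_congr rfl fun u _ => ?_
    rw [← add_smul]
    congr 1
    unfold NS
    split_ifs <;> simp
  rw [pair_MM, pair_MM, pair_MM, h]
  simp only [Pi.add_apply, add_smul, Finset.sum_add_distrib]
  abel

theorem NN_kappa {Q : Type} [AddCommGroup Q] (d : Dat H) (ℓ : ι) (F : (∀ i, H i) → Q)
    (v : ∀ i, H i) : NN ℓ (fun u => F (d.κ * u)) v = NN ℓ F (d.κ * v) := by
  unfold NN
  refine Finset.sum_nbij' (fun s => d.κ ℓ * s) (fun s => d.κ ℓ * s) ?_ ?_ ?_ ?_ ?_
  · intro s _; exact Finset.mem_univ _
  · intro s _; exact Finset.mem_univ _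
  · intro s _
    rw [← mul_assoc, ← Pi.mul_apply, d.hκ, Pi.one_apply, one_mul]
  · intro s _
    rw [← mul_assoc, ← Pi.mul_apply, d.hκ, Pi.one_apply, one_mul]
  · intro s _
    have h : d.κ * Function.update v ℓ s = Function.update (d.κ * v) ℓ (d.κ ℓ * s) := by
      funext i
      by_cases hi : i = ℓ
      · subst hi; simp
      · simp [Function.update_of_ne hi]
    change F (d.κ * Function.update v ℓ s) = _
    rw [h]

theorem Ext_self (d : Dat H) (I : Finset ι) (w : ∀ i, H i) {Q : Type} [AddCommGroup Q]
    (F : (∀ i, H i) → Q) (u : ∀ i, H i) : HK.Ext d I w F I u = F u := by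
  unfold HK.Ext pr
  simp

theorem Ext_zero (d : Dat H) (I A : Finset ι) (h : ¬ I ⊆ A) (w : ∀ i, H i) {Q : Type}
    [AddCommGroup Q] (F : (∀ i, H i) → Q) (u : ∀ i, H i) : HK.Ext d I w F A u = 0 := by
  unfold HK.Ext
  rw [if_neg h]

end gen

end StepH87

open StepH87 Pool.Agent.NH35.HK.AbsH in
theorem step_of (h1 : S_ext) (h2 : S_dec) (h3 : S_a1k) (h4 : S_br) (h5 : S_stp1) : S_step := by
  classical
  intro ι _ _ H _ _ _ d R hR ℓ S X hℓS hXS hXN hX2
  have claim : ∀ n k : ℕ, k + n = Fintype.card ι →
      ∃ (e : ι → ℤ) (Z : Finset ι → (∀ i, H i) → ℤ), (∀ q, q ∉ S → e q = 0) ∧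
      (∀ A, ¬ A ⊆ S.erase ℓ → Z A = 0) ∧
      ∀ γ : Finset ι → (∀ i, H i) → ℤ, Sys d ℓ γ → Odd1 d γ → (∀ A, A.card ≤ k → γ A = 0) →
        pair X γ = pair (MM d R ℓ e Z) γ := by
    intro n
    induction n with
    | zero =>
      intro k hk
      refine ⟨0, 0, fun _ _ => rfl, fun _ _ => rfl, fun γ _ _ hv => ?_⟩
      have h0 : γ = 0 := by
        funext A
        exact hv A (by have := Finset.card_le_univ A; omega)
      rw [h0, pair_zero, pair_zero]
    | succ n ih =>
      intro k hk
      obtain ⟨e, Z, he, hZ, hγ⟩ := ih (k + 1) (by omega)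
      obtain ⟨Y, hYd⟩ : ∃ Y : Finset ι → (∀ i, H i) → ℤ,
          ∀ A u, Y A u = X A u - MM d R ℓ e Z A u := ⟨_, fun _ _ => rfl⟩
      have hY : ∀ (Q : Type) [AddCommGroup Q] (c : Finset ι → (∀ i, H i) → Q),
          pair Y c = pair X c - pair (MM d R ℓ e Z) c := by
        intro Q _ c
        rw [← pair_subY]
        congr 1
        funext A u
        exact hYd A u
      have hYS : ∀ A, ¬ A ⊆ S → ∀ u, Y A u = 0 := by
        intro A hA u
        rw [hYd, hXS A hA]
        have e1 : MM d R ℓ e Z A u = 0 := by
          unfold MM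
          rw [Finset.sum_eq_zero, zero_add]
          · unfold NS
            split_ifs with hl
            · rw [hZ (A.erase ℓ)]
              · rfl
              · intro h6
                apply hA
                rw [← Finset.insert_erase hl]
                exact Finset.insert_subset hℓS (h6.trans (Finset.erase_subset _ _))
            · rfl
          · intro q _
            by_cases hq : q ∈ S
            · have e2 : A ≠ {ℓ, q} := by
                rintro rfl
                exact hA (Finset.insert_subset hℓS (Finset.singleton_subset_iff.mpr hq))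
              have e3 : A ≠ {ℓ} := by
                rintro rfl
                exact hA (Finset.singleton_subset_iff.mpr hℓS)
              unfold BR
              simp [e2, e3]
            · rw [he q hq, zero_mul]
        rw [e1]
        simp
      have hYN : ∀ γ : Finset ι → (∀ i, H i) → ℤ, Sys d ℓ γ → Odd1 d γ →
          (∀ A u, NN ℓ (γ A) u = 0) → pair Y γ = 0 := by
        intro γ hs ho hN
        rw [hY, hXN γ hs ho hN, pair_MM, kill_NS ℓ Z γ hN, Finset.sum_eq_zero]
        · simp
        · intro q _
          rw [kill_BR h4 d R hR ℓ q γ hs ho hN, smul_zero]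
      have hYk : ∀ γ : Finset ι → (∀ i, H i) → ℤ, Sys d ℓ γ → Odd1 d γ →
          (∀ A, A.card ≤ k + 1 → γ A = 0) → pair Y γ = 0 := by
        intro γ hs ho hv
        rw [hY, hγ γ hs ho hv, sub_self]
      have key : ∀ I : Finset ι, ∃ (z : (∀ i, H i) → ℤ) (a : ℤ),
          (¬ (ℓ ∈ I ∧ I.card = k + 1 ∧ I ⊆ S) → z = 0 ∧ a = 0) ∧ (I.card ≠ 2 → a = 0) ∧
          (∀ u, (∃ i, i ∉ I.erase ℓ ∧ u i ≠ 1) → z u = 0) ∧
          (ℓ ∈ I → I.card = k + 1 → ∀ F : (∀ i, H i) → ℤ, Tst ℓ I F →
            pair Y (Od d (HK.Ext d I 1 F)) =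
              (∑ u : ∀ i, H i, z u * (NN ℓ F u - NN ℓ F (d.κ * u))) +
              a * ∑ u : ∀ i, H i, (
                if (∀ i ∈ I, i ≠ ℓ → u i ∈ R i) ∧ (∀ i, i ∉ I → u i = 1) then F u else 0)) := by
        intro I
        by_cases hI : ℓ ∈ I ∧ I.card = k + 1 ∧ I ⊆ S
        · obtain ⟨hl, hc, hS⟩ := hI
          obtain ⟨z, a, ha, hz, hF⟩ := h5 ι H d R hR ℓ Y I hl hYN
            (fun γ hs ho hv => hYk γ hs ho (fun A hA => hv A (by rw [hc]; exact hA)))
            (by
              intro h6 h7
              obtain ⟨w, c, hs, ho, hN, hsup, hcI, hp⟩ := hX2 I hl hS h6 h7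
              refine ⟨w, c, hs, ho, hN, hsup, hcI, ?_⟩
              rw [hY, hp, pair_MM, kill_NS ℓ Z c hN, Finset.sum_eq_zero]
              · simp
              · intro q _
                rw [pair_BR_zero, smul_zero]
                · apply hsup
                  intro h8
                  have h9 := Finset.card_le_card h8
                  have h10 := Finset.card_le_two (a := ℓ) (b := q)
                  omega
                · apply hsup
                  intro h8
                  have h9 := Finset.card_le_card h8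
                  rw [Finset.card_singleton] at h9
                  omega)
          refine ⟨z, a, fun h => absurd ⟨hl, hc, hS⟩ h, ha, hz, fun _ _ F hT => ?_⟩
          rw [hF 1 F hT]
        · refine ⟨0, 0, fun _ => ⟨rfl, rfl⟩, fun _ => rfl, fun _ _ => rfl, fun hl hc F hT => ?_⟩
          have hS : ¬ I ⊆ S := fun h => hI ⟨hl, hc, h⟩
          obtain ⟨_, _, _, _, z1, _, _⟩ := h1 ι H d ℓ I hl 1 ℤ F hT
          have e1 : pair Y (Od d (HK.Ext d I 1 F)) = 0 := by
            unfold pair
            refine Finset.sum_eq_zero fun A _ => Finset.sum_eq_zero fun u _ => ?_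
            by_cases hA : I ⊆ A
            · rw [hYS A (fun h => hS (hA.trans h)) u, zero_smul]
            · rw [z1 A hA]; simp
          rw [e1]
          simp
      choose zz aa hz1 hz2 hz3 hz4 using key
      obtain ⟨e', he'⟩ : ∃ e' : ι → ℤ, ∀ q, e' q = if q = ℓ then 0 else aa {ℓ, q} :=
        ⟨_, fun _ => rfl⟩
      obtain ⟨Z', hZ'⟩ : ∃ Z' : Finset ι → (∀ i, H i) → ℤ,
          ∀ J, Z' J = if ℓ ∈ J then 0 else zz (insert ℓ J) := ⟨_, fun _ => rfl⟩
      have hZe : ∀ A, ℓ ∈ A → Z' (A.erase ℓ) = zz A := by
        intro A hA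
        rw [hZ', if_neg (Finset.notMem_erase ℓ A), Finset.insert_erase hA]
      refine ⟨e + e', Z + Z', ?_, ?_, ?_⟩
      · intro q hq
        rw [Pi.add_apply, he q hq, he', zero_add]
        split_ifs with h
        · rfl
        · refine (hz1 {ℓ, q} ?_).2
          rintro ⟨_, _, h8⟩
          exact hq (h8 (by simp))
      · intro A hA
        rw [Pi.add_apply, hZ A hA, hZ', zero_add]
        split_ifs with h
        · rfl
        · refine (hz1 _ ?_).1
          rintro ⟨_, _, h8⟩
          apply hA
          intro i hi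
          exact Finset.mem_erase.mpr ⟨fun h9 => h (h9 ▸ hi), h8 (Finset.mem_insert_of_mem hi)⟩
      · intro γ hs ho hv
        rw [pair_MM_add, ← sub_eq_iff_eq_add', ← hY]
        obtain ⟨ht, γ', hs', ho', hv', hdec⟩ := h2 ι H d ℓ (R ℓ) (hR ℓ) ℤ γ hs ho (k + 1)
          (fun A hA => hv A (by omega))
        have e1 : γ = (∑ I ∈ (univ.powersetCard (k + 1)).filter (fun I => ℓ ∈ I),
            Od d (HK.Ext d I 1 (fun u => if u ℓ ∈ R ℓ then γ I u else 0))) + γ' := by
          funext A u
          rw [hdec A u]
          simp [Finset.sum_apply]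
        have e2 : pair (MM d R ℓ e' Z') γ' = 0 := by
          rw [pair_MM, pair_NS, Finset.sum_eq_zero, Finset.sum_eq_zero, add_zero]
          · intro A _
            split_ifs with hA
            · refine Finset.sum_eq_zero fun v _ => ?_
              rw [hZe A hA]
              by_cases hAk : A.card = k + 1
              · rw [hv' A hAk.le]
                unfold NN
                simp
              · rw [(hz1 A (fun h => hAk h.2.1)).1]
                simp
            · rfl
          · intro q _
            rw [he']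
            split_ifs with hq
            · rw [zero_smul]
            · by_cases hAk : ({ℓ, q} : Finset ι).card = k + 1
              · rw [pair_BR_zero, smul_zero]
                · exact hv' _ hAk.le
                · apply hv'
                  rw [Finset.card_singleton]
                  omega
              · rw [(hz1 _ (fun h => hAk h.2.1)).2, zero_smul]
        rw [e1, pair_add, pair_add, pair_sum, pair_sum, e2, hYk γ' hs' ho' hv']
        congr 1
        refine Finset.sum_congr rfl fun I hI => ?_
        rw [Finset.mem_filter, Finset.mem_powersetCard] at hI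
        obtain ⟨⟨_, hIc⟩, hIl⟩ := hI
        have hT := ht I hIc
        generalize (fun u => if u ℓ ∈ R ℓ then γ I u else 0) = F at hT ⊢
        rw [hz4 I hIl hIc F hT, pair_MM, add_comm]
        obtain ⟨s0, s1, o1, v1, z1, n1, _⟩ := h1 ι H d ℓ I hIl 1 ℤ F hT
        congr 1
        · -- the part with `BR`
          by_cases hk2 : k + 1 = 2
          · have hIc2 : I.card = 2 := hIc.trans hk2
            obtain ⟨q0, hq0, hq0l⟩ : ∃ q0 ∈ I, q0 ≠ ℓ :=
              Finset.exists_mem_ne (by omega) ℓ
            have hIeq : I = {ℓ, q0} := by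
              symm
              refine Finset.eq_of_subset_of_card_le ?_ ?_
              · exact Finset.insert_subset hIl (Finset.singleton_subset_iff.mpr hq0)
              · rw [hIc2, Finset.card_pair (Ne.symm hq0l)]
            rw [Finset.sum_eq_single q0]
            · rw [he', if_neg hq0l, ← hIeq, smul_eq_mul, h4 ι H d R hR ℓ q0 hq0l ℤ _ s0]
              congr 1
              refine Finset.sum_congr rfl fun u _ => ?_
              rw [← hIeq, Ext_self]
              refine if_congr ?_ rfl rfl
              constructor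
              · rintro ⟨a1, a2⟩
                refine ⟨a1 q0 hq0 hq0l, fun i h8 h9 => a2 i ?_⟩
                rw [hIeq]
                simp [h8, h9]
              · rintro ⟨a1, a2⟩
                refine ⟨fun i h8 h9 => ?_, fun i h8 => ?_⟩
                · rw [hIeq, Finset.mem_insert, Finset.mem_singleton] at h8
                  rcases h8 with h8 | h8
                  · exact absurd h8 h9
                  · rw [h8]; exact a1
                · rw [hIeq, Finset.mem_insert, Finset.mem_singleton, not_or] at h8
                  exact a2 i h8.1 h8.2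
            · intro q _ hq
              rw [he']
              split_ifs with hql
              · rw [zero_smul]
              · rw [h4 ι H d R hR ℓ q hql ℤ _ s0, Finset.sum_eq_zero, smul_zero]
                intro u _
                rw [Ext_zero]
                · simp
                · rw [hIeq]
                  intro h8
                  have := h8 (Finset.mem_insert_of_mem (Finset.mem_singleton_self q0))
                  rw [Finset.mem_insert, Finset.mem_singleton] at this
                  rcases this with h9 | h9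
                  · exact hq0l h9
                  · exact hq h9.symm
            · intro h; exact absurd (Finset.mem_univ _) h
          · rw [hz2 I (by omega), zero_mul, Finset.sum_eq_zero]
            intro q _
            rw [he']
            split_ifs with hql
            · rw [zero_smul]
            · rw [(hz1 _ ?_).2, zero_smul]
              rintro ⟨_, h8, _⟩
              rw [Finset.card_pair (Ne.symm hql)] at h8
              exact hk2 h8.symm
        · -- the part with `NS`
          rw [pair_NS, Finset.sum_eq_single I]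
          · rw [if_pos hIl, hZe I hIl]
            refine Finset.sum_congr rfl fun v _ => ?_
            by_cases hv1 : v ℓ = 1
            · rw [if_pos hv1, smul_eq_mul]
              congr 1
              have e3 : Od d (HK.Ext d I 1 F) I = F - fun u => F (d.κ * u) := by
                funext u
                rw [v1 u]; rfl
              rw [e3, NN_sub, NN_kappa]
            · rw [if_neg hv1, hz3 I v ⟨ℓ, Finset.notMem_erase ℓ I, hv1⟩, zero_mul]
          · intro A _ hAI
            split_ifs with hA
            · refine Finset.sum_eq_zero fun v _ => ?_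
              rw [hZe A hA]
              by_cases hAk : A.card = k + 1
              · have h8 : ¬ I ⊆ A := fun h9 =>
                  hAI (Finset.eq_of_subset_of_card_le h9 (by omega)).symm
                rw [z1 A h8]
                unfold NN
                simp
              · rw [(hz1 A (fun h => hAk h.2.1)).1]
                simp
            · rfl
          · intro h; exact absurd (Finset.mem_univ _) h
  obtain ⟨e, Z, he, hZ, hγ⟩ := claim (Fintype.card ι) 0 (by omega)
  refine ⟨e, Z, he, hZ, fun Q _ c hs ho => ?_⟩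
  obtain ⟨Y, hYd⟩ : ∃ Y : Finset ι → (∀ i, H i) → ℤ,
      ∀ A u, Y A u = X A u - MM d R ℓ e Z A u := ⟨_, fun _ _ => rfl⟩
  have hY : ∀ (Q : Type) [AddCommGroup Q] (c : Finset ι → (∀ i, H i) → Q),
      pair Y c = pair X c - pair (MM d R ℓ e Z) c := by
    intro Q _ c
    rw [← pair_subY]
    congr 1
    funext A u
    exact hYd A u
  have h6 := h3 ι H d ℓ Y 0 (fun γ hs ho hv => by rw [hY, hγ γ hs ho hv, sub_self]) Q c hs ho
    (fun A hA => hs.sup A (by
      rw [Nat.le_zero, Finset.card_eq_zero] at hA
      rw [hA]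
      exact Finset.notMem_empty _))
  rw [hY, pair_MM] at h6
  exact sub_eq_zero.mp h6

end Pool.Agent.NH35.HQ
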