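import Pool.Agent.NH35.HQ.Stm
import Pool.Agent.NH35.HQ.Step
import Pool.Agent.NH35.HK.Rev
import Pool.Agent.NH35.HK.Sy
import Pool.Agent.H916K.Level

/-! (HQ-20) one prime is removed, in terms of residues. -/

set_option autoImplicit false
set_option linter.unusedSectionVars false

namespace Pool.Agent.NH35.HQ

open Finset Pool.Agent.H916R2 Pool.Agent.NH35.HG Pool.Agent.NH35.HE Pool.Agent.NH35.HK

namespace StepC87

section

variable {m : ℕ} [NeZero m]

/-- the element attached to `x` and the coordinate `ℓ` -/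
noncomputable def XL (C : Co m) (ℓ : m.primeFactors) (x : ZMod m → ℤ)
    (I : Finset m.primeFactors) (u : ∀ q : m.primeFactors, HH m q) : ℤ := by
  classical
  exact ∑ z, if ℓ.1 ∣ addOrderOf z ∧ ty z = I ∧ InBox C z u then x z else 0

theorem pair_XL (C : Co m) (ℓ : m.primeFactors) (x : ZMod m → ℤ) {Q : Type} [AddCommGroup Q]
    (c : Finset m.primeFactors → (∀ q : m.primeFactors, HH m q) → Q) :
    pair (XL C ℓ x) c = ∑ z, if ℓ.1 ∣ addOrderOf z then x z • ev C c z else 0 := by
  classical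
  unfold pair XL ev
  simp only [Finset.sum_smul]
  rw [Finset.sum_congr rfl fun I _ => Finset.sum_comm, Finset.sum_comm]
  refine Finset.sum_congr rfl fun z _ => ?_
  by_cases hz : ℓ.1 ∣ addOrderOf z
  · rw [if_pos hz, Finset.sum_eq_single (ty z), Finset.smul_sum]
    · refine Finset.sum_congr rfl fun u _ => ?_
      by_cases hu : InBox C z u
      · rw [if_pos ⟨hz, rfl, hu⟩, if_pos hu]
      · rw [if_neg (fun h => hu h.2.2), if_neg hu, zero_smul, smul_zero]
    · intro I _ hI
      refine Finset.sum_eq_zero fun u _ => ?_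
      rw [if_neg (fun h => hI h.2.1.symm), zero_smul]
    · intro h; exact absurd (Finset.mem_univ _) h
  · rw [if_neg hz]
    refine Finset.sum_eq_zero fun I _ => Finset.sum_eq_zero fun u _ => ?_
    rw [if_neg (fun h => hz h.1), zero_smul]

theorem dvd_NI_iff (B : Finset m.primeFactors) (q : m.primeFactors) :
    q.1 ∣ NI m B ↔ q ∈ B := by
  have hq : q.1.Prime := Nat.prime_of_mem_primeFactors q.2
  constructor
  · intro h
    unfold NI at h
    obtain ⟨r, hr, h1⟩ := (hq.prime.dvd_finsetProd_iff _).1 h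
    have h2 := hq.dvd_of_dvd_pow h1
    rw [Nat.prime_dvd_prime_iff_eq hq (Nat.prime_of_mem_primeFactors r.2)] at h2
    have h3 : q = r := Subtype.ext h2
    rw [h3]; exact hr
  · intro h
    have h1 : m.factorization q.1 ≠ 0 :=
      (hq.factorization_pos_of_dvd (NeZero.ne m) (Nat.dvd_of_mem_primeFactors q.2)).ne'
    exact (dvd_pow_self _ h1).trans (SyAux.dvd_NI B q h)

theorem ty_en (C : Co m) (B : Finset m.primeFactors) (u : ∀ q : m.primeFactors, HH m q) :
    ty (((C.E u : (ZMod m)ˣ) : ZMod m) * en m (NI m B)) = B := by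
  ext q
  rw [HL4.mem_ty, HL4.addOrderOf_unit_mul, HL4.addOrderOf_en (SyAux.NI_dvd_m B), dvd_NI_iff]

theorem gd_en (hm : Adm m) (C : Co m) (B : Finset m.primeFactors)
    (u : ∀ q : m.primeFactors, HH m q) :
    Gd (((C.E u : (ZMod m)ˣ) : ZMod m) * en m (NI m B)) := by
  unfold Gd
  rw [HL4.addOrderOf_unit_mul, HL4.addOrderOf_en (SyAux.NI_dvd_m B)]
  intro h
  have h2 : 2 ∣ NI m B := by omega
  have h2m : 2 ∣ m := h2.trans (SyAux.NI_dvd_m B)
  rcases hm with hm | hm
  · rw [← Nat.not_even_iff_odd] at hm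
    exact hm (even_iff_two_dvd.mpr h2m)
  · obtain ⟨q, hq⟩ : ∃ q : m.primeFactors, q.1 = 2 :=
      ⟨⟨2, Nat.mem_primeFactors.2 ⟨Nat.prime_two, h2m, NeZero.ne m⟩⟩, rfl⟩
    have h3 : q ∈ B := (dvd_NI_iff B q).1 (by rw [hq]; exact h2)
    have h4 := SyAux.dvd_NI B q h3
    rw [hq] at h4
    have h5 : 2 ^ 2 ∣ 2 ^ m.factorization 2 :=
      (Nat.prime_two.pow_dvd_iff_dvd_ordProj (NeZero.ne m)).1 hm
    have h6 := h5.trans h4
    omega

end

end StepC87

open StepC87 in
theorem stepC_of (h0 : S_step) (h1 : S_coA) (h2 : S_syF) (h3 : S_revF) (h5 : S_brs) :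
    S_stepC := by
  classical
  intro m _ hm S ℓ hℓS hℓ2 x hSup hRel hC4
  obtain ⟨C⟩ := h1 m hm
  obtain ⟨R, hR⟩ : ∃ R : ∀ q : m.primeFactors, Finset (HH m q), ∀ (q : m.primeFactors)
      (g : HH m q), g ∈ R q ↔ hf q.1 (g : ZMod (q.1 ^ m.factorization q.1)).val :=
    ⟨fun q => univ.filter fun g => hf q.1 (g : ZMod (q.1 ^ m.factorization q.1)).val,
      fun q g => by simp⟩
  obtain ⟨hHalf, hBR⟩ := h5 m hm C R hR
  -- the element `X`
  have hXS : ∀ A, ¬ A ⊆ S → XL C ℓ x A = 0 := by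
    intro A hA
    funext u
    unfold XL
    refine Finset.sum_eq_zero fun z _ => ?_
    split_ifs with h
    · by_contra h6
      exact hA (h.2.1 ▸ (hSup z h6).2)
    · rfl
  have hnl : ∀ (Q : Type) [AddCommGroup Q]
      (c : Finset m.primeFactors → (∀ q : m.primeFactors, HH m q) → Q) (z : ZMod m),
      c (ty z) = 0 → ev C c z = 0 := by
    intro Q _ c z h
    unfold ev
    refine Finset.sum_eq_zero fun u _ => ?_
    rw [h]
    simp
  have hXN : ∀ γ : Finset m.primeFactors → (∀ q : m.primeFactors, HH m q) → ℤ,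
      Sys C.d ℓ γ → Odd1 C.d γ → (∀ A u, NN ℓ (γ A) u = 0) → pair (XL C ℓ x) γ = 0 := by
    intro γ hs ho hN
    have hF : Full C.d γ := by
      refine ⟨hs.dep, hs.sup ∅ (Finset.notMem_empty _), fun I q hq u => ?_⟩
      by_cases h : q = ℓ
      · subst h
        rw [hN, hs.sup (I.erase q) (Finset.notMem_erase q I)]
        simp
      · exact hs.rel I q hq h u
    have h6 := H916K.rel_int hRel (h3 m hm C ℤ γ hF ho).1
    rw [pair_XL]
    refine Eq.trans (Finset.sum_congr rfl fun z _ => ?_) h6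
    split_ifs with h
    · rw [smul_eq_mul]
    · rw [hnl ℤ γ z (hs.sup _ (fun h7 => h (HL4.mem_ty.1 h7))), mul_zero]
  have hX2 : ∀ I : Finset m.primeFactors, ℓ ∈ I → I ⊆ S → 4 ≤ I.card → Even I.card →
      ∃ (w : ∀ q : m.primeFactors, HH m q)
        (c : Finset m.primeFactors → (∀ q : m.primeFactors, HH m q) → ZMod 2),
        Sys C.d ℓ c ∧ Odd1 C.d c ∧ (∀ A u, NN ℓ (c A) u = 0) ∧ (∀ A, ¬ I ⊆ A → c A = 0) ∧
        c I = fI C.d I w ∧ pair (XL C ℓ x) c = 0 := by
    intro I hl hIS h4 hev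
    obtain ⟨w, c0, hc0, hA, hI, hsum⟩ := hC4 C I hIS h4 hev
    obtain ⟨hF, ho, hev0, _⟩ := h2 m hm C (ZMod 2) c0 hc0
    have hsup : ∀ A, ℓ ∉ A → syF C c0 A = 0 := fun A h => hA A (fun h6 => h (h6 hl))
    refine ⟨w, syF C c0, ⟨hF.dep, hsup, fun J q hq _ u => hF.rel J q hq u⟩, ho, ?_, hA, hI, ?_⟩
    · intro A u
      by_cases h : ℓ ∈ A
      · rw [hF.rel A ℓ h u, hsup _ (Finset.notMem_erase ℓ A)]
        simp
      · rw [hsup A h]
        unfold NN
        simp
    · rw [pair_XL]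
      refine Eq.trans (Finset.sum_congr rfl fun z _ => ?_) hsum
      split_ifs with h
      · rw [hev0 z]
      · have h7 : c0 z = 0 := by
          rw [← hev0 z]
          exact hnl _ _ z (hsup _ (fun h7 => h (HL4.mem_ty.1 h7)))
        rw [h7, smul_zero]
  obtain ⟨e, Z, he, hZ, hF⟩ := h0 m.primeFactors (HH m) C.d R hHalf ℓ S (XL C ℓ x) hℓS hXS hXN hX2
  -- the new elements
  obtain ⟨e', he'⟩ : ∃ e' : ℕ → ℤ, ∀ q : m.primeFactors,
      e' q.1 = if q ∈ S.erase ℓ then e q else 0 := by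
    refine ⟨fun n => if h : n ∈ m.primeFactors then
      (if (⟨n, h⟩ : m.primeFactors) ∈ S.erase ℓ then e ⟨n, h⟩ else 0) else 0, fun q => ?_⟩
    simp only [q.2, dif_pos]
  obtain ⟨k, hk⟩ : ∃ k : Finset m.primeFactors → (∀ q : m.primeFactors, HH m q) → ℤ,
      ∀ A v, k A v = if ℓ ∈ A ∧ v ℓ = 1 then Z (A.erase ℓ) v else 0 := ⟨_, fun _ _ => rfl⟩
  obtain ⟨x', hx'⟩ : ∃ x' : ZMod m → ℤ, ∀ z, x' z = (if ℓ.1 ∣ addOrderOf z then 0 else x z) +
      ∑ A : Finset m.primeFactors, ∑ v : ∀ q : m.primeFactors, HH m q, k A v *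
        ((if ((C.E v : (ZMod m)ˣ) : ZMod m) * en m (NI m (A.erase ℓ)) = z then 1 else 0) -
          (if ((C.E ((C.d.τ ℓ)⁻¹ * v) : (ZMod m)ˣ) : ZMod m) * en m (NI m (A.erase ℓ)) = z
            then 1 else 0)) := ⟨_, fun _ => rfl⟩
  refine ⟨e', x', ?_, ?_, ?_⟩
  · intro q hq
    rw [he', if_neg hq]
  · intro z hz
    by_cases hz1 : ∃ B : Finset m.primeFactors, B ⊆ S.erase ℓ ∧
        ∃ u : ∀ q : m.primeFactors, HH m q,
          ((C.E u : (ZMod m)ˣ) : ZMod m) * en m (NI m B) = z
    · obtain ⟨B, hB, u, rfl⟩ := hz1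
      exact ⟨gd_en hm C B u, by rw [ty_en]; exact hB⟩
    · rw [hx', Finset.sum_eq_zero, add_zero] at hz
      · by_cases hl : ℓ.1 ∣ addOrderOf z
        · rw [if_pos hl] at hz
          exact absurd rfl hz
        · rw [if_neg hl] at hz
          obtain ⟨a1, a2⟩ := hSup z hz
          refine ⟨a1, fun q hq => Finset.mem_erase.2 ⟨?_, a2 hq⟩⟩
          rintro rfl
          exact hl (HL4.mem_ty.1 hq)
      · intro A _
        refine Finset.sum_eq_zero fun v _ => ?_
        by_cases hkA : k A v = 0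
        · rw [hkA, zero_mul]
        · have hA : A.erase ℓ ⊆ S.erase ℓ := by
            by_contra h6
            apply hkA
            rw [hk, hZ _ h6]
            simp
          rw [if_neg (fun h => hz1 ⟨_, hA, _, h⟩), if_neg (fun h => hz1 ⟨_, hA, _, h⟩)]
          simp
  · intro Q _ D hD
    obtain ⟨hFu, _, _, hsy⟩ := h2 m hm C Q D hD
    obtain ⟨hs, ho, hev⟩ := hsy ℓ
    have h6 := hF Q (sy C ℓ D) hs ho
    have h7 : ∑ z, x z • D z = pair (XL C ℓ x) (sy C ℓ D) +
        ∑ z, (if ℓ.1 ∣ addOrderOf z then 0 else x z) • D z := by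
      rw [pair_XL, ← Finset.sum_add_distrib]
      refine Finset.sum_congr rfl fun z _ => ?_
      split_ifs with h
      · rw [hev z h, zero_smul, add_zero]
      · rw [zero_add]
    have h8 : ∑ q, e q • pair (BR C.d R ℓ q) (sy C ℓ D) =
        ∑ q ∈ m.primeFactors.erase ℓ.1, e' q • BQ m ℓ.1 q D := by
      rw [Finset.sum_erase, ← Finset.sum_coe_sort m.primeFactors (fun q => e' q • BQ m ℓ.1 q D)]
      · refine Finset.sum_congr rfl fun q _ => ?_
        rw [he']
        by_cases hq : q = ℓ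
        · subst hq
          have h9 : pair (BR C.d R q q) (sy C q D) = 0 := by
            unfold pair BR
            simp
          rw [h9, smul_zero, if_neg (Finset.notMem_erase q S), zero_smul]
        · by_cases hqS : q ∈ S
          · rw [if_pos (Finset.mem_erase.2 ⟨hq, hqS⟩)]
            rw [hBR ℓ q (fun h => hq (by
              have h9 := hℓ2 h
              rw [h9] at hqS
              exact Finset.mem_singleton.1 hqS)) hq Q D hD]
          · rw [if_neg (fun h => hqS (Finset.mem_of_mem_erase h)), he q hqS, zero_smul,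
              zero_smul]
      · rw [he' ℓ, if_neg (Finset.notMem_erase ℓ S), zero_smul]
    have h9 : pair (NS ℓ Z) (sy C ℓ D) = ∑ z, (∑ A : Finset m.primeFactors,
        ∑ v : ∀ q : m.primeFactors, HH m q, k A v *
        ((if ((C.E v : (ZMod m)ˣ) : ZMod m) * en m (NI m (A.erase ℓ)) = z then 1 else 0) -
          (if ((C.E ((C.d.τ ℓ)⁻¹ * v) : (ZMod m)ˣ) : ZMod m) * en m (NI m (A.erase ℓ)) = z
            then 1 else 0))) • D z := by
      have h10 : ∀ (A : Finset m.primeFactors) (v : ∀ q : m.primeFactors, HH m q),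
          ∑ z, (k A v *
          ((if ((C.E v : (ZMod m)ˣ) : ZMod m) * en m (NI m (A.erase ℓ)) = z then 1 else 0) -
          (if ((C.E ((C.d.τ ℓ)⁻¹ * v) : (ZMod m)ˣ) : ZMod m) * en m (NI m (A.erase ℓ)) = z
            then 1 else 0))) • D z = k A v • (syF C D (A.erase ℓ) v -
              syF C D (A.erase ℓ) ((C.d.τ ℓ)⁻¹ * v)) := by
        intro A v
        simp only [mul_smul, sub_smul, ite_smul, one_smul, zero_smul]
        rw [← Finset.smul_sum, Finset.sum_sub_distrib, Finset.sum_ite_eq, Finset.sum_ite_eq,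
          if_pos (Finset.mem_univ _), if_pos (Finset.mem_univ _)]
        rfl
      simp only [Finset.sum_smul]
      rw [Finset.sum_comm, StepH87.pair_NS]
      refine Finset.sum_congr rfl fun A _ => ?_
      rw [Finset.sum_comm, Finset.sum_congr rfl fun v _ => h10 A v]
      by_cases hA : ℓ ∈ A
      · rw [if_pos hA]
        refine Finset.sum_congr rfl fun v _ => ?_
        rw [hk]
        have h11 : sy C ℓ D A = syF C D A := by
          funext u
          unfold sy syF
          rw [if_pos hA]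
        by_cases hv : v ℓ = 1
        · rw [if_pos hv, if_pos ⟨hA, hv⟩, h11, hFu.rel A ℓ hA v]
        · rw [if_neg hv, if_neg (fun h => hv h.2), zero_smul]
      · rw [if_neg hA]
        refine (Finset.sum_eq_zero fun v _ => ?_).symm
        rw [hk, if_neg (fun h => hA h.1), zero_smul]
    rw [h7, h6, h8, h9]
    simp only [hx', add_smul, Finset.sum_add_distrib]
    abel

end Pool.Agent.NH35.HQ
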