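import Pool.Agent.NH35.HQ.Sys
import Pool.Agent.NH35.HK.Abs

/-! (HQ-4) the leading term at one set. -/

set_option autoImplicit false
set_option linter.unusedSectionVars false

namespace Pool.Agent.NH35.HQ

open Finset Pool.Agent.NH35.HK Pool.Agent.NH35.HK.AbsH

namespace St1

section gen

variable {ι : Type} [Fintype ι] [DecidableEq ι] {H : ι → Type} [∀ i, CommGroup (H i)]
  [∀ i, Fintype (H i)] [∀ i, DecidableEq (H i)]

/-- the function supported at `u ℓ = 1` -/
def Fl (ℓ : ι) (G : (∀ i, H i) → ℤ) (u : ∀ i, H i) : ℤ := if u ℓ = 1 then G u else 0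

lemma Fl_tst {ℓ : ι} {I : Finset ι} (hℓ : ℓ ∈ I) {G : (∀ i, H i) → ℤ} (hG : ZS (I.erase ℓ) G) :
    Tst ℓ I (Fl ℓ G) where
  dep := by
    intro u v huv
    unfold Fl
    rw [huv ℓ hℓ, hG.dep u v (fun i hi => huv i (Finset.mem_of_mem_erase hi))]
  nul := by
    intro q hq hqℓ u
    have h := hG.nul q (Finset.mem_erase.mpr ⟨hqℓ, hq⟩) u
    unfold NN Fl at *
    have h1 : ∀ s, Function.update u q s ℓ = u ℓ := fun s => Function.update_of_ne (Ne.symm hqℓ) _ _
    simp only [h1]
    by_cases h2 : u ℓ = 1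
    · simp only [if_pos h2]; exact h
    · simp only [if_neg h2, Finset.sum_const_zero]

lemma NN_Fl {ℓ : ι} {J : Finset ι} (hℓ : ℓ ∉ J) {G : (∀ i, H i) → ℤ} (hG : Dep J G)
    (u : ∀ i, H i) : NN ℓ (Fl ℓ G) u = G u := by
  unfold NN Fl
  simp only [Function.update_self]
  rw [Finset.sum_ite_eq', if_pos (Finset.mem_univ _)]
  apply hG
  intro i hi
  exact Function.update_of_ne (by rintro rfl; exact hℓ hi) _ _

lemma NN_zs {ℓ : ι} {I : Finset ι} {F : (∀ i, H i) → ℤ} (hF : Tst ℓ I F) :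
    ZS (I.erase ℓ) (NN ℓ F) where
  dep := by
    intro u v huv
    unfold NN
    refine Finset.sum_congr rfl fun s _ => hF.dep _ _ fun i hi => ?_
    by_cases h : i = ℓ
    · subst h
      rw [Function.update_self, Function.update_self]
    · rw [Function.update_of_ne h, Function.update_of_ne h]
      exact huv i (Finset.mem_erase.mpr ⟨h, hi⟩)
  nul := by
    intro q hq u
    obtain ⟨hqℓ, hqI⟩ := Finset.mem_erase.mp hq
    unfold NN
    rw [Finset.sum_comm]
    refine Finset.sum_eq_zero fun t _ => ?_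
    have h := hF.nul q hqI hqℓ (Function.update u ℓ t)
    unfold NN at h
    rw [← h]
    refine Finset.sum_congr rfl fun s _ => ?_
    rw [Function.update_comm hqℓ]

lemma NN_mulk (q : ι) {Q : Type} [AddCommGroup Q] (f : (∀ i, H i) → Q) (g u : ∀ i, H i) :
    NN q (fun u => f (g * u)) u = NN q f (g * u) := by
  unfold NN
  refine Fintype.sum_equiv (Equiv.mulLeft (g q)) _ _ fun s => ?_
  show f (g * Function.update u q s) = _
  congr 1
  funext i
  by_cases h : i = q
  · subst h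
    simp
  · simp [Function.update_of_ne h]

lemma zs_kap (d : Dat H) {J : Finset ι} {G : (∀ i, H i) → ℤ} (hG : ZS J G) :
    ZS J (fun u => G (d.κ * u)) where
  dep := by
    intro u v huv
    apply hG.dep
    intro i hi
    simp only [Pi.mul_apply, huv i hi]
  nul := by
    intro q hq u
    rw [NN_mulk]
    exact hG.nul q hq _

lemma tst_kap (d : Dat H) {ℓ : ι} {I : Finset ι} {F : (∀ i, H i) → ℤ} (hF : Tst ℓ I F) :
    Tst ℓ I (fun u => F (d.κ * u)) where
  dep := by
    intro u v huv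
    apply hF.dep
    intro i hi
    simp only [Pi.mul_apply, huv i hi]
  nul := by
    intro q hq hq' u
    rw [NN_mulk]
    exact hF.nul q hq hq' _

lemma tst_sub {ℓ : ι} {I : Finset ι} {F G : (∀ i, H i) → ℤ} (hF : Tst ℓ I F) (hG : Tst ℓ I G) :
    Tst ℓ I (F - G) where
  dep := Dep.sub hF.dep hG.dep
  nul := by
    intro q hq hq' u
    rw [NN_sub, hF.nul q hq hq', hG.nul q hq hq', sub_zero]

/-- summation over one coordinate -/
lemma sum_fix (ℓ : ι) (G : (∀ i, H i) → ℤ) :
    ∑ u : ∀ i, H i, (if u ℓ = 1 then NN ℓ G u else 0) = ∑ u : ∀ i, H i, G u := by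
  have h1 : ∀ u : ∀ i, H i, (if u ℓ = 1 then NN ℓ G u else 0) =
      ∑ s : H ℓ, if u ℓ = 1 then G (Function.update u ℓ s) else 0 := by
    intro u
    unfold NN
    by_cases h : u ℓ = 1
    · simp only [if_pos h]
    · simp only [if_neg h, Finset.sum_const_zero]
  have h2 : ∀ u : ∀ i, H i, G u = ∑ s : H ℓ, if s = 1 then G u else 0 := by
    intro u
    rw [Finset.sum_ite_eq', if_pos (Finset.mem_univ _)]
  simp only [h1]
  conv_rhs => enter [2, u]; rw [h2 u]
  rw [← Finset.sum_product', ← Finset.sum_product']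
  refine Finset.sum_nbij' (fun x => (Function.update x.1 ℓ x.2, x.1 ℓ))
    (fun x => (Function.update x.1 ℓ x.2, x.1 ℓ)) ?_ ?_ ?_ ?_ ?_
  · intro x _; simp
  · intro x _; simp
  · intro x _; simp
  · intro x _; simp
  · intro x _; simp

variable (d : Dat H)

lemma kap_inv (u : ∀ i, H i) : d.κ * (d.κ * u) = u := by
  rw [← mul_assoc, d.hκ, one_mul]

lemma kap_i (i : ι) (s : H i) : d.κ i * (d.κ i * s) = s := by
  rw [← mul_assoc, ← Pi.mul_apply, d.hκ, Pi.one_apply, one_mul]

/-- the sum over the signs -/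
noncomputable def AS (R : ∀ i, Finset (H i)) (J S : Finset ι) (G : (∀ i, H i) → ℤ) : ℤ := by
  classical
  exact ∑ u : ∀ i, H i, if (∀ i ∈ J, (u i ∈ R i ↔ i ∉ S)) ∧ (∀ i, i ∉ J → u i = 1) then G u else 0

lemma AS_step (R : ∀ i, Finset (H i)) (J S : Finset ι) (G : (∀ i, H i) → ℤ) (hG : ZS J G)
    {q : ι} (hq : q ∈ J) (hqS : q ∉ S) : AS R J (insert q S) G = - AS R J S G := by
  classical
  rw [eq_neg_iff_add_eq_zero]
  unfold AS
  rw [← Finset.sum_add_distrib]
  have h1 : ∀ u : ∀ i, H i, ((if (∀ i ∈ J, (u i ∈ R i ↔ i ∉ insert q S)) ∧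
      (∀ i, i ∉ J → u i = 1) then G u else 0) +
      if (∀ i ∈ J, (u i ∈ R i ↔ i ∉ S)) ∧ (∀ i, i ∉ J → u i = 1) then G u else 0) =
      if (∀ i ∈ J, i ≠ q → (u i ∈ R i ↔ i ∉ S)) ∧ (∀ i, i ∉ J → u i = 1) then G u else 0 := by
    intro u
    by_cases h : (∀ i ∈ J, i ≠ q → (u i ∈ R i ↔ i ∉ S)) ∧ (∀ i, i ∉ J → u i = 1)
    · rw [if_pos h]
      by_cases hu : u q ∈ R q
      · rw [if_neg, if_pos, zero_add]
        · refine ⟨fun i hi => ?_, h.2⟩
          by_cases hiq : i = q
          · subst hiq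
            exact ⟨fun _ => hqS, fun _ => hu⟩
          · exact h.1 i hi hiq
        · intro h2
          have := (h2.1 q hq).mp hu
          exact this (Finset.mem_insert_self _ _)
      · rw [if_pos, if_neg, add_zero]
        · intro h2
          exact hu ((h2.1 q hq).mpr hqS)
        · refine ⟨fun i hi => ?_, h.2⟩
          by_cases hiq : i = q
          · subst hiq
            exact ⟨fun h3 => absurd h3 hu, fun h3 => absurd (Finset.mem_insert_self _ _) h3⟩
          · rw [h.1 i hi hiq, Finset.mem_insert]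
            constructor
            · intro h3 h4
              rcases h4 with h4 | h4
              · exact hiq h4
              · exact h3 h4
            · intro h3 h4
              exact h3 (Or.inr h4)
    · rw [if_neg h, if_neg, if_neg, add_zero]
      · intro h2
        exact h ⟨fun i hi _ => h2.1 i hi, h2.2⟩
      · intro h2
        refine h ⟨fun i hi hiq => ?_, h2.2⟩
        rw [h2.1 i hi, Finset.mem_insert]
        constructor
        · intro h3 h4
          exact h3 (Or.inr h4)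
        · intro h3 h4
          rcases h4 with h4 | h4
          · exact hiq h4
          · exact h3 h4
  simp only [h1]
  apply sum_zero_of_NN q
  intro u
  have h2 : ∀ s : H q, ((∀ i ∈ J, i ≠ q → (Function.update u q s i ∈ R i ↔ i ∉ S)) ∧
      (∀ i, i ∉ J → Function.update u q s i = 1)) ↔
      ((∀ i ∈ J, i ≠ q → (u i ∈ R i ↔ i ∉ S)) ∧ (∀ i, i ∉ J → u i = 1)) := by
    intro s
    constructor
    · rintro ⟨a, b⟩
      refine ⟨fun i hi hiq => ?_, fun i hi => ?_⟩
      · have := a i hi hiq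
        rwa [Function.update_of_ne hiq] at this
      · have := b i hi
        rwa [Function.update_of_ne (by rintro rfl; exact hi hq)] at this
    · rintro ⟨a, b⟩
      refine ⟨fun i hi hiq => ?_, fun i hi => ?_⟩
      · rw [Function.update_of_ne hiq]
        exact a i hi hiq
      · rw [Function.update_of_ne (by rintro rfl; exact hi hq)]
        exact b i hi
  unfold NN
  by_cases hc : ((∀ i ∈ J, i ≠ q → (u i ∈ R i ↔ i ∉ S)) ∧ (∀ i, i ∉ J → u i = 1))
  · rw [← hG.nul q hq u]
    unfold NN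
    refine Finset.sum_congr rfl fun s _ => ?_
    exact if_pos ((h2 s).mpr hc)
  · refine Finset.sum_eq_zero fun s _ => ?_
    exact if_neg (fun h5 => hc ((h2 s).mp h5))

lemma AS_card (R : ∀ i, Finset (H i)) (J : Finset ι) (G : (∀ i, H i) → ℤ) (hG : ZS J G)
    (S : Finset ι) (hS : S ⊆ J) : AS R J S G = (-1) ^ S.card * AS R J ∅ G := by
  classical
  induction S using Finset.induction_on with
  | empty => simp
  | insert q S hq ih =>
    rw [AS_step R J S G hG (hS (Finset.mem_insert_self _ _)) hq,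
      ih (fun i hi => hS (Finset.mem_insert_of_mem hi)), Finset.card_insert_of_notMem hq, pow_succ]
    ring

/-- the indicator of the product of the `R i` -/
noncomputable def zR (R : ∀ i, Finset (H i)) (J : Finset ι) (u : ∀ i, H i) : ℤ := by
  classical
  exact if (∀ i ∈ J, u i ∈ R i) ∧ (∀ i, i ∉ J → u i = 1) then 1 else 0

lemma AS_empty (R : ∀ i, Finset (H i)) (J : Finset ι) (G : (∀ i, H i) → ℤ) :
    AS R J ∅ G = ∑ u : ∀ i, H i, zR R J u * G u := by
  classical
  unfold AS zR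
  refine Finset.sum_congr rfl fun u _ => ?_
  simp

lemma AS_full (R : ∀ i, Finset (H i)) (hR : Half d R) (J : Finset ι) (G : (∀ i, H i) → ℤ)
    (hG : Dep J G) : AS R J J G = ∑ u : ∀ i, H i, zR R J u * G (d.κ * u) := by
  classical
  unfold AS zR
  -- the map `u ↦ κ u` on the coordinates in `J`
  let f : (∀ i, H i) → (∀ i, H i) := fun u i => if i ∈ J then d.κ i * u i else u i
  have hff : ∀ u, f (f u) = u := by
    intro u
    funext i
    by_cases h : i ∈ J
    · simp only [f, if_pos h, kap_i]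
    · simp only [f, if_neg h]
  refine Finset.sum_nbij' f f ?_ ?_ ?_ ?_ ?_
  · intro x _; simp
  · intro x _; simp
  · intro x _; exact hff x
  · intro x _; exact hff x
  · intro u _
    have h1 : ((∀ i ∈ J, (u i ∈ R i ↔ i ∉ J)) ∧ (∀ i, i ∉ J → u i = 1)) ↔
        ((∀ i ∈ J, f u i ∈ R i) ∧ (∀ i, i ∉ J → f u i = 1)) := by
      constructor
      · rintro ⟨a, b⟩
        refine ⟨fun i hi => ?_, fun i hi => ?_⟩
        · simp only [f, if_pos hi]
          by_contra h2
          have h3 := a i hi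
          exact (h3.mp ((hR i (u i)).mpr h2)) hi
        · simp only [f, if_neg hi]
          exact b i hi
      · rintro ⟨a, b⟩
        refine ⟨fun i hi => ?_, fun i hi => ?_⟩
        · have h2 := a i hi
          simp only [f, if_pos hi] at h2
          constructor
          · intro h3
            exact absurd h2 ((hR i (u i)).mp h3)
          · intro h3
            exact absurd hi h3
        · have h2 := b i hi
          simpa only [f, if_neg hi] using h2
    have h2 : G u = G (d.κ * f u) := by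
      apply hG
      intro i hi
      simp only [f, Pi.mul_apply, if_pos hi, kap_i]
    by_cases h : (∀ i ∈ J, f u i ∈ R i) ∧ (∀ i, i ∉ J → f u i = 1)
    · rw [if_pos h, if_pos (h1.mpr h), one_mul, h2]
    · rw [if_neg h, if_neg (fun h3 => h (h1.mp h3)), zero_mul]

/-- twice the sum over the product of the `R i` -/
lemma two_sum (R : ∀ i, Finset (H i)) (hR : Half d R) (J : Finset ι) (hJ : ¬ Even J.card)
    (G : (∀ i, H i) → ℤ) (hG : ZS J G) :
    2 * ∑ u : ∀ i, H i, zR R J u * G u = ∑ u : ∀ i, H i, zR R J u * (G u - G (d.κ * u)) := by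
  have h1 := AS_card R J G hG J (Finset.Subset.refl _)
  rw [(Nat.not_even_iff_odd.mp hJ).neg_one_pow, AS_full d R hR J G hG.dep, AS_empty] at h1
  simp only [mul_sub, Finset.sum_sub_distrib]
  rw [h1]
  ring

lemma dl_sum (i : ι) (a : H i) : ∑ s : H i, dl d i a s = 0 := by
  unfold dl
  rw [Finset.sum_sub_distrib, Finset.sum_ite_eq', Finset.sum_ite_eq', if_pos (Finset.mem_univ _),
    if_pos (Finset.mem_univ _), sub_self]

lemma dl_kap (i : ι) (a s : H i) : dl d i a (d.κ i * s) = - dl d i a s := by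
  unfold dl
  have h1 : (d.κ i * s = a) ↔ (s = d.κ i * a) := by
    constructor
    · rintro rfl
      rw [kap_i]
    · rintro rfl
      rw [kap_i]
  have h2 : (d.κ i * s = d.κ i * a) ↔ (s = a) := mul_right_inj _
  simp only [h1, h2]
  ring

lemma ne_kap (i : ι) (a : H i) : a ≠ d.κ i * a := by
  intro h
  have : 1 * a = d.κ i * a := by rw [one_mul]; exact h
  exact d.hκ1 i (mul_right_cancel this).symm

lemma dl_mod (i : ι) (a s : H i) : ((dl d i a s : ℤ) : ZMod 2) = sg d i a s := by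
  unfold dl sg
  by_cases h1 : s = a
  · have h2 : ¬ s = d.κ i * a := by
      rw [h1]
      exact ne_kap d i a
    simp [h1, ne_kap d i a]
  · by_cases h2 : s = d.κ i * a
    · rw [if_neg h1, if_pos h2, if_pos (Or.inr h2)]
      decide
    · simp [h1, h2]

lemma sg_split (i : ι) (a s : H i) : sg d i a s =
    (if s = a then 1 else 0) + (if d.κ i * s = a then 1 else 0) := by
  unfold sg
  have h1 : (d.κ i * s = a) ↔ (s = d.κ i * a) := by
    constructor
    · rintro rfl
      rw [kap_i]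
    · rintro rfl
      rw [kap_i]
  simp only [h1]
  by_cases h2 : s = a
  · have h3 : ¬ s = d.κ i * a := by
      rw [h2]
      exact ne_kap d i a
    simp [h2, ne_kap d i a]
  · simp [h2]

/-- the product of the differences, at the coordinate `ℓ` a point -/
def F0 (ℓ : ι) (J : Finset ι) (w u : ∀ i, H i) : ℤ :=
  (if u ℓ = w ℓ then 1 else 0) * ∏ i ∈ J, dl d i (w i) (u i)

lemma F0_tst {ℓ : ι} {I : Finset ι} (hℓ : ℓ ∈ I) (w : ∀ i, H i) :
    Tst ℓ I (F0 d ℓ (I.erase ℓ) w) where
  dep := by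
    intro u v huv
    unfold F0
    rw [huv ℓ hℓ, Finset.prod_congr rfl (fun i hi => by
      rw [huv i (Finset.mem_of_mem_erase hi)])]
  nul := by
    intro q hq hqℓ u
    unfold NN F0
    have h1 : ∀ s, Function.update u q s ℓ = u ℓ := fun s => Function.update_of_ne (Ne.symm hqℓ) _ _
    simp only [h1]
    rw [← Finset.mul_sum]
    have hqJ : q ∈ I.erase ℓ := Finset.mem_erase.mpr ⟨hqℓ, hq⟩
    have h2 : ∀ s : H q, ∏ i ∈ I.erase ℓ, dl d i (w i) (Function.update u q s i) =
        dl d q (w q) s * ∏ i ∈ (I.erase ℓ).erase q, dl d i (w i) (u i) := by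
      intro s
      rw [← Finset.mul_prod_erase _ _ hqJ, Function.update_self]
      congr 1
      refine Finset.prod_congr rfl fun i hi => ?_
      rw [Function.update_of_ne (Finset.mem_erase.mp hi).1]
    simp only [h2]
    rw [← Finset.sum_mul, dl_sum, zero_mul, mul_zero]

lemma NN_F0 {ℓ : ι} {I : Finset ι} (w u : ∀ i, H i) :
    NN ℓ (F0 d ℓ (I.erase ℓ) w) u = ∏ i ∈ I.erase ℓ, dl d i (w i) (u i) := by
  unfold NN F0
  have h1 : ∀ s, ∏ i ∈ I.erase ℓ, dl d i (w i) (Function.update u ℓ s i) =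
      ∏ i ∈ I.erase ℓ, dl d i (w i) (u i) := by
    intro s
    refine Finset.prod_congr rfl fun i hi => ?_
    rw [Function.update_of_ne (Finset.mem_erase.mp hi).1]
  simp only [h1, Function.update_self]
  rw [← Finset.sum_mul, Finset.sum_ite_eq', if_pos (Finset.mem_univ _), one_mul]

lemma F0_mod {ℓ : ι} {I : Finset ι} (hℓ : ℓ ∈ I) (w u : ∀ i, H i) :
    ((F0 d ℓ (I.erase ℓ) w u - F0 d ℓ (I.erase ℓ) w (d.κ * u) : ℤ) : ZMod 2) = fI d I w u := by
  unfold F0 fI
  rw [← Finset.mul_prod_erase _ _ hℓ, sg_split]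
  have h1 : ((∏ i ∈ I.erase ℓ, dl d i (w i) (u i) : ℤ) : ZMod 2) =
      ∏ i ∈ I.erase ℓ, sg d i (w i) (u i) := by
    rw [Int.cast_prod]
    exact Finset.prod_congr rfl fun i _ => dl_mod d i _ _
  have h2 : ((∏ i ∈ I.erase ℓ, dl d i (w i) ((d.κ * u) i) : ℤ) : ZMod 2) =
      ∏ i ∈ I.erase ℓ, sg d i (w i) (u i) := by
    rw [Int.cast_prod]
    refine Finset.prod_congr rfl fun i _ => ?_
    rw [Pi.mul_apply, dl_kap, Int.cast_neg, dl_mod, ZMod.neg_eq_self_mod_two]
  rw [Int.cast_sub, Int.cast_mul, Int.cast_mul, h1, h2, sub_eq_add_neg, ZMod.neg_eq_self_mod_two,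
    ← add_mul]
  congr 2
  · split_ifs <;> simp
  · rw [Pi.mul_apply]
    split_ifs <;> simp

/-- reduction modulo two -/
def rd (c : Finset ι → (∀ i, H i) → ℤ) (A : Finset ι) (u : ∀ i, H i) : ZMod 2 :=
  ((c A u : ℤ) : ZMod 2)

lemma rd_sys {ℓ : ι} {c : Finset ι → (∀ i, H i) → ℤ} (h : Sys d ℓ c) : Sys d ℓ (rd c) where
  dep := by
    intro I u v huv
    unfold rd
    rw [h.dep I u v huv]
  sup := by
    intro I hI
    funext u
    unfold rd
    rw [h.sup I hI]
    simp
  rel := by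
    intro I q hq hqℓ u
    have := h.rel I q hq hqℓ u
    unfold rd
    rw [← Int.cast_sub, ← this]
    unfold NN
    rw [Int.cast_sum]

lemma rd_odd {c : Finset ι → (∀ i, H i) → ℤ} (h : Odd1 d c) : Odd1 d (rd c) := by
  intro I u
  unfold rd
  rw [h I u, Int.cast_neg]

lemma pair_rd (X c : Finset ι → (∀ i, H i) → ℤ) :
    pair X (rd c) = ((pair X c : ℤ) : ZMod 2) := by
  unfold pair rd
  rw [Int.cast_sum]
  refine Finset.sum_congr rfl fun I _ => ?_
  rw [Int.cast_sum]
  refine Finset.sum_congr rfl fun u _ => ?_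
  rw [zsmul_eq_mul, smul_eq_mul, Int.cast_mul]

end gen

end St1

open St1 in
theorem stp1_of (h1 : S_ext) (h2 : S_a1k) (h3 : S_alg) : S_stp1 := by
  classical
  intro ι _ _ H _ _ _ d R hR ℓ X I hℓ hN hV h4
  obtain ⟨J, hJ⟩ : ∃ J : Finset ι, J = I.erase ℓ := ⟨_, rfl⟩
  have hℓJ : ℓ ∉ J := by rw [hJ]; exact Finset.notMem_erase _ _
  -- (1)
  have hw : ∀ (w w' : ∀ i, H i) (F : (∀ i, H i) → ℤ), Tst ℓ I F →
      pair X (Od d (Ext d I w F)) = pair X (Od d (Ext d I w' F)) := by
    intro w w' F hT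
    obtain ⟨_, s1, o1, v1, z1, _, _⟩ := h1 ι H d ℓ I hℓ w ℤ F hT
    obtain ⟨_, s2, o2, v2, z2, _, _⟩ := h1 ι H d ℓ I hℓ w' ℤ F hT
    rw [← sub_eq_zero, ← pair_sub]
    apply hV _ (Sys.sub s1 s2) (Odd1.sub o1 o2)
    intro A hA
    by_cases hlA : I ⊆ A
    · have : A = I := (Finset.eq_of_subset_of_card_le hlA hA).symm
      subst this
      funext u
      rw [Pi.sub_apply, Pi.sub_apply, v1, v2, sub_self]; rfl
    · rw [Pi.sub_apply, z1 A hlA, z2 A hlA, sub_zero]
  -- (2)
  have hNz : ∀ (w : ∀ i, H i) (F : (∀ i, H i) → ℤ), Tst ℓ I F → (∀ u, NN ℓ F u = 0) →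
      pair X (Od d (Ext d I w F)) = 0 := by
    intro w F hT hF
    obtain ⟨_, s1, o1, _, _, n1, _⟩ := h1 ι H d ℓ I hℓ w ℤ F hT
    exact hN _ s1 o1 (fun A u => (n1 hF A u).2)
  obtain ⟨Ψ, hΨ⟩ : ∃ Ψ : ((∀ i, H i) → ℤ) → ℤ, Ψ = fun G => pair X (Od d (Ext d I 1 (Fl ℓ G))) :=
    ⟨_, rfl⟩
  have hpsi : ∀ (w : ∀ i, H i) (F : (∀ i, H i) → ℤ), Tst ℓ I F →
      pair X (Od d (Ext d I w F)) = Ψ (NN ℓ F) := by
    intro w F hT
    have hz := NN_zs hT
    have ht := Fl_tst hℓ hz
    have h5 := hNz w _ (tst_sub hT ht) (fun u => by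
      rw [NN_sub, NN_Fl (Finset.notMem_erase _ _) hz.dep, sub_self])
    rw [Ext_sub, Od_sub, pair_sub, sub_eq_zero] at h5
    rw [h5, hw w 1 _ ht, hΨ]
  have hadd : ∀ F G, ZS J F → ZS J G → Ψ (F + G) = Ψ F + Ψ G := by
    intro F G _ _
    have h5 : Fl ℓ F = Fl ℓ (F + G) - Fl ℓ G := by
      funext u
      simp only [Pi.sub_apply, Fl, Pi.add_apply]
      split_ifs <;> ring
    rw [hΨ]
    simp only
    rw [h5, Ext_sub, Od_sub, pair_sub]
    ring
  have hodd : ∀ F, ZS J F → Ψ (fun u => F (d.κ * u)) = - Ψ F := by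
    intro G hG
    rw [hJ] at hG
    have ht := Fl_tst hℓ hG
    have h5 := hpsi 1 _ (tst_kap d ht)
    have h6 : NN ℓ (fun u => Fl ℓ G (d.κ * u)) = fun u => G (d.κ * u) := by
      funext u
      rw [NN_mulk, NN_Fl (Finset.notMem_erase _ _) hG.dep]
    rw [h6] at h5
    obtain ⟨_, _, _, _, _, _, r1⟩ := h1 ι H d ℓ I hℓ 1 ℤ _ ht
    rw [← h5, r1, pair_neg, hw (d.κ * 1) 1 _ ht, hΨ]
  obtain ⟨z0, e, he1, he2, he3⟩ := h3 ι H d R hR J Ψ hadd hodd
  -- reformulation
  obtain ⟨z1, hz1, hz1s, hz1e⟩ : ∃ z1 : (∀ i, H i) → ℤ,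
      (∀ G, ZS J G → Ψ G = ∑ u : ∀ i, H i, z1 u * (G u - G (d.κ * u)) +
        e * ∑ u : ∀ i, H i, zR R J u * G u) ∧ (∀ u, (∃ i, i ∉ J ∧ u i ≠ 1) → z1 u = 0) ∧ True := by
    refine ⟨fun u => if (∀ i, i ∉ J → u i = 1) then z0 u else 0, fun G hG => ?_, ?_, trivial⟩
    · rw [he3 G hG]
      congr 1
      · refine Finset.sum_congr rfl fun u _ => ?_
        by_cases h : (∀ i, i ∉ J → u i = 1)
        · simp [h]
        · simp [h]
      · congr 1
        refine Finset.sum_congr rfl fun u _ => ?_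
        unfold zR
        by_cases h : (∀ i ∈ J, u i ∈ R i) ∧ (∀ i, i ∉ J → u i = 1)
        · simp [h]
        · simp [h]
    · rintro u ⟨i, hi, hu⟩
      exact if_neg (fun h => hu (h i hi))
  obtain ⟨z2, e2, he2', hz2, hz2s⟩ : ∃ (z2 : (∀ i, H i) → ℤ) (e2 : ℤ), (I.card ≠ 2 → e2 = 0) ∧
      (∀ G, ZS J G → Ψ G = ∑ u : ∀ i, H i, z2 u * (G u - G (d.κ * u)) +
        e2 * ∑ u : ∀ i, H i, zR R J u * G u) ∧ (∀ u, (∃ i, i ∉ J ∧ u i ≠ 1) → z2 u = 0) := by
    by_cases hc2 : I.card = 2
    · exact ⟨z1, e, fun h => absurd hc2 h, hz1, hz1s⟩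
    have hJc : J.card + 1 = I.card := by
      rw [hJ, Finset.card_erase_add_one hℓ]
    by_cases hev : Even I.card
    · have hge : 4 ≤ I.card := by
        obtain ⟨k, hk⟩ := hev
        omega
      have hJo : ¬ Even J.card := by
        rw [← hJc, Nat.even_add_one] at hev
        exact hev
      obtain ⟨w, c, cs, co, cn, cz, ci, cp⟩ := h4 hge hev
      have ht := F0_tst d hℓ w
      obtain ⟨_, s1, o1, v1, z1', n1, _⟩ := h1 ι H d ℓ I hℓ w ℤ _ ht
      have h5 : pair X (c - rd (Od d (Ext d I w (F0 d ℓ (I.erase ℓ) w)))) = 0 := by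
        apply h2 ι H d ℓ X I.card hV (ZMod 2) _ (Sys.sub cs (rd_sys d s1))
          (Odd1.sub co (rd_odd d o1))
        intro A hA
        by_cases hlA : I ⊆ A
        · have : A = I := (Finset.eq_of_subset_of_card_le hlA hA).symm
          subst this
          funext u
          rw [Pi.sub_apply, Pi.sub_apply, ci]
          unfold rd
          rw [v1, F0_mod d hℓ, sub_self]
          rfl
        · funext u
          rw [Pi.sub_apply, cz A hlA]
          unfold rd
          rw [Pi.sub_apply, z1' A hlA]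
          simp
      rw [pair_sub, cp, zero_sub, neg_eq_zero, pair_rd, hpsi w _ ht] at h5
      have h6 : NN ℓ (F0 d ℓ (I.erase ℓ) w) = fun u => ∏ i ∈ J, dl d i (w i) (u i) := by
        funext u
        rw [NN_F0, hJ]
      rw [h6] at h5
      have h7 : Even e := by
        apply he2 w
        rw [ZMod.intCast_zmod_eq_zero_iff_dvd] at h5
        exact even_iff_two_dvd.mpr (by exact_mod_cast h5)
      obtain ⟨e', he'⟩ := h7
      refine ⟨fun u => z1 u + e' * zR R J u, 0, fun _ => rfl, fun G hG => ?_, ?_⟩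
      · have h8 := two_sum d R hR J hJo G hG
        have h9 : ∑ u : ∀ i, H i, (z1 u + e' * zR R J u) * (G u - G (d.κ * u)) =
            ∑ u : ∀ i, H i, z1 u * (G u - G (d.κ * u)) +
            e' * ∑ u : ∀ i, H i, zR R J u * (G u - G (d.κ * u)) := by
          rw [Finset.mul_sum, ← Finset.sum_add_distrib]
          refine Finset.sum_congr rfl fun u _ => ?_
          ring
        rw [h9, ← h8, hz1 G hG, he']
        ring
      · rintro u ⟨i, hi, hu⟩
        have h8 : zR R J u = 0 := by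
          unfold zR
          exact if_neg (fun h => hu (h.2 i hi))
        simp only
        rw [hz1s u ⟨i, hi, hu⟩, h8, mul_zero, add_zero]
    · have h5 : e = 0 := by
        apply he1
        rw [← hJc, Nat.even_add_one, not_not] at hev
        exact hev
      exact ⟨z1, e, fun _ => h5, hz1, hz1s⟩
  refine ⟨z2, e2, he2', ?_, ?_⟩
  · rintro u ⟨i, hi, hu⟩
    exact hz2s u ⟨i, by rw [hJ]; exact hi, hu⟩
  · intro w F hT
    have hz := NN_zs hT
    rw [← hJ] at hz
    rw [hpsi w F hT, hz2 _ hz]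
    congr 2
    rw [← sum_fix ℓ (fun u => (if (∀ i ∈ I, i ≠ ℓ → u i ∈ R i) ∧ (∀ i, i ∉ I → u i = 1) then
      F u else 0))]
    refine Finset.sum_congr rfl fun u _ => ?_
    have h5 : ∀ s : H ℓ, ((∀ i ∈ I, i ≠ ℓ → Function.update u ℓ s i ∈ R i) ∧
        (∀ i, i ∉ I → Function.update u ℓ s i = 1)) ↔
        ((∀ i ∈ I, i ≠ ℓ → u i ∈ R i) ∧ (∀ i, i ∉ I → u i = 1)) := by
      intro s
      constructor
      · rintro ⟨a, b⟩
        refine ⟨fun i hi hiq => ?_, fun i hi => ?_⟩
        · have := a i hi hiq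
          rwa [Function.update_of_ne hiq] at this
        · have := b i hi
          rwa [Function.update_of_ne (by rintro rfl; exact hi hℓ)] at this
      · rintro ⟨a, b⟩
        refine ⟨fun i hi hiq => ?_, fun i hi => ?_⟩
        · rw [Function.update_of_ne hiq]
          exact a i hi hiq
        · rw [Function.update_of_ne (by rintro rfl; exact hi hℓ)]
          exact b i hi
    have h6 : ((∀ i ∈ J, u i ∈ R i) ∧ (∀ i, i ∉ J → u i = 1)) ↔ (u ℓ = 1 ∧
        ((∀ i ∈ I, i ≠ ℓ → u i ∈ R i) ∧ (∀ i, i ∉ I → u i = 1))) := by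
      rw [hJ]
      constructor
      · rintro ⟨a, b⟩
        refine ⟨b ℓ (Finset.notMem_erase _ _), fun i hi hiq => a i (Finset.mem_erase.mpr ⟨hiq, hi⟩),
          fun i hi => b i (fun h => hi (Finset.mem_of_mem_erase h))⟩
      · rintro ⟨a, b, c⟩
        refine ⟨fun i hi => b i (Finset.mem_of_mem_erase hi) (Finset.mem_erase.mp hi).1,
          fun i hi => ?_⟩
        by_cases h : i = ℓ
        · rw [h]; exact a
        · exact c i (fun h' => hi (Finset.mem_erase.mpr ⟨h, h'⟩))
    unfold zR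
    by_cases h7 : u ℓ = 1
    · rw [if_pos h7]
      by_cases h8 : ((∀ i ∈ I, i ≠ ℓ → u i ∈ R i) ∧ (∀ i, i ∉ I → u i = 1))
      · rw [if_pos (h6.mpr ⟨h7, h8⟩), one_mul]
        unfold NN
        refine Finset.sum_congr rfl fun s _ => ?_
        exact (if_pos ((h5 s).mpr h8)).symm
      · rw [if_neg (fun h => h8 (h6.mp h).2), zero_mul]
        unfold NN
        symm
        refine Finset.sum_eq_zero fun s _ => ?_
        exact if_neg (fun h => h8 ((h5 s).mp h))
    · rw [if_neg h7, if_neg (fun h => h7 (h6.mp h).1), zero_mul]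

end Pool.Agent.NH35.HQ
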