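import Pool.Agent.NH35.HQ.Stm
import Pool.Agent.NH35.HK.Sy

/-!
Project HQ (helper35), part HQ-13: from distributions to systems.  Written by helper28; the facts on
one distribution are those of `Pool/Agent/NH35/HK/Sy.lean` (helper81).
-/

set_option autoImplicit false

namespace Pool.Agent.NH35.HQ

open Finset Pool.Agent.H916R2 Pool.Agent.NH35.HG Pool.Agent.NH35.HE Pool.Agent.NH35.HK
open Pool.Agent.NH35.HK.SyAux

namespace SyFAux

variable {m : ℕ} [NeZero m]

/-- if the order of `z` is divisible by some prime, the full system and the system at that prime have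
the same value at `z`; otherwise `z = 0` -/
theorem ev_syF (C : Co m) {Q : Type} [AddCommGroup Q] {D : ZMod m → Q}
    (hD : OddDist D) (z : ZMod m) : ev C (syF C D) z = D z := by
  classical
  by_cases h : ∃ ℓ : m.primeFactors, ℓ ∈ ty z
  · obtain ⟨ℓ, hl⟩ := h
    have hz : ℓ.1 ∣ addOrderOf z := by
      unfold ty at hl
      rw [mem_filter] at hl
      exact hl.2
    rw [← ev_sy C ℓ hD z hz]
    unfold ev
    refine sum_congr rfl fun u _ => ?_
    have h1 : sy C ℓ D (ty z) u = syF C D (ty z) u := by
      unfold sy syF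
      rw [if_pos hl]
    rw [h1]
  · have hty : ty z = ∅ := by
      rw [Finset.eq_empty_iff_forall_notMem]
      intro q hq
      exact h ⟨q, hq⟩
    have hord : addOrderOf z ∣ 1 := by
      have h1 := order_dvd z
      rw [hty] at h1
      simpa [NI] using h1
    have hz : z = 0 := by
      rw [← AddMonoid.addOrderOf_eq_one_iff]
      exact Nat.dvd_one.1 hord
    have h0 : D 0 = 0 := hD.half 0 (add_zero 0)
    have h1 : ∀ u, syF C D (ty z) u = 0 := by
      intro u
      unfold syF
      have h2 : en m (NI m (ty z)) = 0 := by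
        rw [hty]
        simp [NI, en]
      rw [h2, mul_zero, h0]
    unfold ev
    rw [hz] at h1 ⊢
    rw [h0]
    apply sum_eq_zero
    intro u _
    rw [h1, ite_self]

end SyFAux

open SyFAux in
/-- (B3) from distributions to systems -/
theorem syF_of (h : S_nrelA) : S_syF := by
  intro m _ hm C Q _ D hD
  have hrel := h m hm C Q D hD
  have hdep : ∀ (I : Finset m.primeFactors) (u v : ∀ q : m.primeFactors, HH m q),
      (∀ i ∈ I, u i = v i) → ((C.E u : (ZMod m)ˣ) : ZMod m) * en m (NI m I) =
        ((C.E v : (ZMod m)ˣ) : ZMod m) * en m (NI m I) := by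
    intro I u v huv
    apply agree
    intro q hq
    rw [cast_E, huv q hq]
  have hodd : ∀ (I : Finset m.primeFactors) (u : ∀ q : m.primeFactors, HH m q),
      D (((C.E (C.d.κ * u) : (ZMod m)ˣ) : ZMod m) * en m (NI m I)) =
        - D (((C.E u : (ZMod m)ˣ) : ZMod m) * en m (NI m I)) := by
    intro I u
    rw [map_mul, E_kappa, ← hD.neg]
    congr 1
    push_cast
    ring
  refine ⟨⟨?_, ?_, ?_⟩, ?_, fun z => ev_syF C hD z, fun ℓ => ⟨⟨?_, ?_, ?_⟩, ?_,
    fun z hz => ev_sy C ℓ hD z hz⟩⟩
  · intro I u v huv
    unfold syF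
    rw [hdep I u v huv]
  · funext u
    unfold syF
    have h2 : en m (NI m ∅) = 0 := by
      simp [NI, en]
    rw [h2, mul_zero]
    exact hD.half 0 (add_zero 0)
  · intro I q hq u
    exact hrel I q hq u
  · intro I u
    unfold syF
    exact hodd I u
  · intro I u v huv
    unfold sy
    by_cases hl : ℓ ∈ I
    · rw [if_pos hl, if_pos hl, hdep I u v huv]
    · rw [if_neg hl, if_neg hl]
  · intro I hl
    funext u
    unfold sy
    rw [if_neg hl]
    rfl
  · intro I q hq hql u
    by_cases hl : ℓ ∈ I
    · have hl' : ℓ ∈ I.erase q := mem_erase.2 ⟨fun h => hql h.symm, hl⟩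
      have h1 := hrel I q hq u
      unfold sy NN
      unfold NN at h1
      simp only [if_pos hl, if_pos hl']
      exact h1
    · have hl' : ℓ ∉ I.erase q := fun h => hl (mem_of_mem_erase h)
      unfold sy NN
      simp only [if_neg hl, if_neg hl']
      rw [sum_const_zero, sub_zero]
  · intro I u
    unfold sy
    by_cases hl : ℓ ∈ I
    · rw [if_pos hl, if_pos hl]
      exact hodd I u
    · rw [if_neg hl, if_neg hl, neg_zero]

end Pool.Agent.NH35.HQ
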