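import Pool.Agent.NH35.HQ.Sys
import Pool.Agent.NH35.HK.Top

/-! HQ-9 (project of helper35): the leading terms with several special coordinates, `topS_of`.
By helper89, after `Pool.Agent.NH35.HK.Top`. -/

set_option autoImplicit false
set_option linter.unusedSectionVars false

namespace Pool.Agent.NH35.HQ

open Finset Pool.Agent.NH35.HK

namespace TopSH89

variable {ι : Type} [Fintype ι] [DecidableEq ι] {H : ι → Type} [∀ i, CommGroup (H i)]
  [∀ i, Fintype (H i)] [∀ i, DecidableEq (H i)]

lemma kk (d : Dat H) (i : ι) : d.κ i * d.κ i = 1 := by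
  have := congrFun d.hκ i
  rwa [Pi.mul_apply, Pi.one_apply] at this

lemma dl_kappa (d : Dat H) (i : ι) (s : H i) : dl d i 1 (d.κ i * s) = - dl d i 1 s := by
  unfold dl
  rw [mul_one]
  have h1 : (d.κ i * s = 1) ↔ s = d.κ i := by
    constructor
    · intro h
      have := congrArg (fun x => d.κ i * x) h
      simpa [← mul_assoc, kk] using this
    · intro h
      rw [h, kk]
  have h2 : (d.κ i * s = d.κ i) ↔ s = 1 := by
    constructor
    · intro h
      exact mul_eq_left.1 h
    · intro h
      rw [h, mul_one]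
  simp only [h1, h2]
  ring

lemma sum_dl (d : Dat H) (i : ι) : ∑ s : H i, dl d i 1 s = 0 := by
  unfold dl
  rw [Finset.sum_sub_distrib, Finset.sum_ite_eq', Finset.sum_ite_eq']
  simp

/-- the product of the differences -/
def pd (d : Dat H) (J : Finset ι) (u : ∀ i, H i) : ℤ := ∏ i ∈ J, dl d i 1 (u i)

lemma dep_pd (d : Dat H) (J : Finset ι) : Dep J (pd d J) := by
  intro u v h
  unfold pd
  exact Finset.prod_congr rfl (fun i hi => by rw [h i hi])

lemma nn_pd (d : Dat H) (J : Finset ι) (q : ι) (hq : q ∈ J) (u : ∀ i, H i) :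
    NN q (pd d J) u = 0 := by
  unfold NN pd
  have h : ∀ s : H q, ∏ i ∈ J, dl d i 1 (Function.update u q s i) =
      dl d q 1 s * ∏ i ∈ J.erase q, dl d i 1 (u i) := by
    intro s
    rw [← Finset.mul_prod_erase J _ hq, Function.update_self]
    congr 1
    refine Finset.prod_congr rfl (fun i hi => ?_)
    rw [Function.update_of_ne (Finset.ne_of_mem_erase hi)]
  simp only [h]
  rw [← Finset.sum_mul, sum_dl, zero_mul]

lemma pd_kappa (d : Dat H) (J : Finset ι) (hJ : Even J.card) (u : ∀ i, H i) :
    pd d J (d.κ * u) = pd d J u := by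
  unfold pd
  have h : ∀ i ∈ J, dl d i 1 ((d.κ * u) i) = (-1) * dl d i 1 (u i) := by
    intro i _
    rw [Pi.mul_apply, dl_kappa]; ring
  rw [Finset.prod_congr rfl h, Finset.prod_mul_distrib, Finset.prod_const, hJ.neg_one_pow, one_mul]

lemma bsum_pd (d : Dat H) (J : Finset ι) (a : ∀ i, Finset (H i))
    (ha : ∀ i ∈ J, ∀ s, s ∈ a i ↔ d.κ i * s ∉ a i) : bsum J a (pd d J) ≠ 0 := by
  classical
  -- the point
  let u0 : ∀ i, H i := fun i => if i ∈ J then (if (1 : H i) ∈ a i then 1 else d.κ i) else 1
  have hu0 : ∀ i ∈ J, u0 i ∈ a i := by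
    intro i hi
    simp only [u0, if_pos hi]
    split_ifs with h
    · exact h
    · have := ha i hi (d.κ i)
      rw [this, kk]
      exact h
  have hdl : ∀ i ∈ J, ∀ s ∈ a i, dl d i 1 s ≠ 0 → s = u0 i := by
    intro i hi s hs hd
    have h1 : s = 1 ∨ s = d.κ i := by
      by_contra hc
      rw [not_or] at hc
      apply hd
      unfold dl
      rw [mul_one, if_neg hc.1, if_neg hc.2, sub_zero]
    rcases h1 with h1 | h1
    · subst h1
      simp only [u0, if_pos hi, if_pos hs]
    · subst h1
      have h2 : (1 : H i) ∉ a i := by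
        intro hc
        have := (ha i hi 1).1 hc
        rw [mul_one] at this
        exact this hs
      simp only [u0, if_pos hi, if_neg h2]
  have hd0 : ∀ i ∈ J, dl d i 1 (u0 i) ≠ 0 := by
    intro i hi
    have hk := d.hκ1 i
    by_cases h : (1 : H i) ∈ a i
    · simp only [u0, if_pos hi, if_pos h]
      unfold dl
      rw [mul_one, if_pos rfl, if_neg (Ne.symm hk)]
      norm_num
    · simp only [u0, if_pos hi, if_neg h]
      unfold dl
      rw [mul_one, if_neg hk, if_pos rfl]
      norm_num
  have e1 : bsum J a (pd d J) = pd d J u0 := by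
    unfold bsum
    rw [Finset.sum_eq_single u0]
    · rw [if_pos]
      refine ⟨hu0, fun i hi => ?_⟩
      simp only [u0, if_neg hi]
    · intro u _ hu
      by_contra hc
      rw [ite_eq_right_iff, not_forall] at hc
      obtain ⟨h1, h2⟩ := hc
      apply hu
      funext i
      by_cases hi : i ∈ J
      · apply hdl i hi (u i) (h1.1 i hi)
        intro h3
        apply h2
        unfold pd
        exact Finset.prod_eq_zero hi h3
      · rw [h1.2 i hi]
        simp only [u0, if_neg hi]
    · intro h; exact absurd (Finset.mem_univ _) h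
  rw [e1]
  unfold pd
  exact Finset.prod_ne_zero_iff.2 hd0

end TopSH89

open Pool.Agent.NH35.HK.TopH49 TopSH89 in
theorem topS_of (h1 : S_ext) (h4 : S_hitS) (h5 : S_sep) : S_topS := by
  intro ι _ _ H _ _ _ d l Sp K T _ β I hSp hK2 hl hKK hR
  -- (i)
  have hi : ∀ (w w' : ∀ i, H i) (F : (∀ i, H i) → ℤ), Tst l I F →
      pair β.X (Od d (Ext d I w F)) = pair β.X (Od d (Ext d I w' F)) := by
    intro w w' F hF
    obtain ⟨_, s1, s2, s3, s4, _, _⟩ := h1 ι H d l I hl w ℤ F hF
    obtain ⟨_, t1, t2, t3, t4, _, _⟩ := h1 ι H d l I hl w' ℤ F hF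
    have := hKK (fun A u => Od d (Ext d I w F) A u - Od d (Ext d I w' F) A u)
      (sys_sub d l _ _ s1 t1) (odd_sub d _ _ s2 t2) (fun A hA => by
        funext u
        by_cases h : I ⊆ A
        · have hAI : I = A := Finset.eq_of_subset_of_card_le h hA
          subst hAI
          rw [s3, t3]; simp
        · rw [s4 A h, t4 A h]; simp)
    rw [pair_sub] at this
    linarith
  -- (ii)
  have hii : ∀ (w : ∀ i, H i) (F : (∀ i, H i) → ℤ), Tst l I F → (∀ u, NN l F u = 0) →
      pair β.X (Od d (Ext d I w F)) = 0 := by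
    intro w F hF h0
    obtain ⟨_, s1, s2, _, _, s5, _⟩ := h1 ι H d l I hl w ℤ F hF
    exact hR _ s1 s2 (fun A u => (s5 h0 A u).2)
  -- (iii)
  have hiii : ∀ (w : ∀ i, H i) (F : (∀ i, H i) → ℤ), Tst l I F →
      pair β.X (Od d (Ext d I w (fun u => F (d.κ * u)))) = - pair β.X (Od d (Ext d I w F)) := by
    intro w F hF
    obtain ⟨_, _, _, _, _, _, s6⟩ := h1 ι H d l I hl w ℤ F hF
    rw [s6, pair_neg, hi (d.κ * w) w F hF]
  have hadd : ∀ (w : ∀ i, H i) (F F' : (∀ i, H i) → ℤ),
      pair β.X (Od d (Ext d I w (fun u => F u - F' u))) =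
        pair β.X (Od d (Ext d I w F)) - pair β.X (Od d (Ext d I w F')) := by
    intro w F F'
    rw [ext_sub, od_sub, pair_sub]
  -- (iv)
  have hiv : ∀ (w : ∀ i, H i) (F : (∀ i, H i) → ℤ), Tst l I F →
      pair β.X (Od d (Ext d I w F)) = pair β.X (Od d (Ext d I w (sl l (w l) (NN l F)))) := by
    intro w F hF
    have hD := dep_nn l I F hF.dep
    have hT : Tst l I (sl l (w l) (NN l F)) := tst_sl l I hl (w l) (NN l F) hD (fun q hq u =>
      nn_nn l q (Finset.ne_of_mem_erase hq) F (hF.nul q (Finset.mem_of_mem_erase hq)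
        (Finset.ne_of_mem_erase hq)) u)
    have h := hii w _ (tst_sub l I _ _ hF hT) (fun u => by
      rw [nn_sub, nn_sl l I (w l) (NN l F) hD u, sub_self])
    rw [hadd] at h
    linarith
  obtain ⟨w, hw⟩ := h4 ι H d l Sp K T β I hl
  rcases hw with hw | ⟨e, t, g, he, hIt, hw⟩
  · refine ⟨0, Or.inl rfl, fun w' F hF => ?_⟩
    rw [zero_mul, hi w' w F hF, hiv w F hF]
    exact hw (NN l F) (dep_nn l I F hF.dep)
  · set a : ∀ i, Finset (H i) := fun i => (β.b t i).map (Equiv.mulLeft (g i)).toEmbedding with ha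
    have hmem : ∀ i (s : H i), s ∈ a i ↔ (g i)⁻¹ * s ∈ β.b t i := by
      intro i s
      rw [ha]
      simp only [Finset.mem_map, Equiv.coe_toEmbedding, Equiv.coe_mulLeft]
      constructor
      · rintro ⟨x, hx, rfl⟩
        rwa [inv_mul_cancel_left]
      · intro h
        exact ⟨_, h, by rw [mul_inv_cancel_left]⟩
    have hY : ∀ (w' : ∀ i, H i) (F : (∀ i, H i) → ℤ), Tst l I F →
        pair β.X (Od d (Ext d I w' F)) = e * bsum (I.erase l) a (NN l F) := by
      intro w' F hF
      rw [hi w' w F hF, hiv w F hF]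
      exact hw (NN l F) (dep_nn l I F hF.dep)
    -- the relation
    have hrel : ∀ F' : (∀ i, H i) → ℤ, Dep (I.erase l) F' → (∀ q ∈ I.erase l, ∀ u, NN q F' u = 0) →
        bsum (I.erase l) a (fun u => F' (d.κ * u)) = - bsum (I.erase l) a F' := by
      intro F' hD hN
      have hT := tst_sl l I hl (w l) F' hD hN
      have h2 := hiii w _ hT
      rw [hY w _ (tst_k d l I _ hT), hY w _ hT] at h2
      have e1 : NN l (sl l (w l) F') = F' := funext (nn_sl l I (w l) F' hD)
      have e2 : NN l (fun u => sl l (w l) F' (d.κ * u)) = fun u => F' (d.κ * u) := by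
        funext u
        have h3 := nn_sl l I (w l) F' hD (d.κ * u)
        rw [← h3]
        unfold NN
        refine Fintype.sum_equiv (Equiv.mulLeft (d.κ l)) _ _ (fun s => ?_)
        change sl l (w l) F' (d.κ * Function.update u l s) =
          sl l (w l) F' (Function.update (d.κ * u) l (d.κ l * s))
        congr 1
        funext i
        by_cases hi : i = l
        · subst hi; simp
        · rw [Pi.mul_apply, Function.update_of_ne hi, Function.update_of_ne hi, Pi.mul_apply]
      rw [e1, e2] at h2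
      rcases he with he | he
      · rw [he] at h2; linarith
      · rw [he] at h2; linarith
    have hane : ∀ i ∈ I.erase l, (a i).Nonempty := by
      intro i hi
      obtain ⟨s, hs⟩ := β.hne t i (hIt (Finset.mem_of_mem_erase hi))
      exact ⟨g i * s, by rw [hmem, inv_mul_cancel_left]; exact hs⟩
    have hadis : ∀ i ∈ I.erase l, ∀ s ∈ a i, d.κ i * s ∉ a i := by
      intro i hi s hs hc
      rw [hmem] at hs hc
      have := β.hdis t i (hIt (Finset.mem_of_mem_erase hi)) _ hs
      apply this
      rwa [mul_left_comm] at hc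
    -- every `i` is special
    have hcos : ∀ i ∈ I.erase l, i ∈ Sp ∧ ∃ g' : H i, ∀ s, s ∈ β.b t i ↔ g' * s ∈ K i := by
      intro i hi
      rcases β.hcov t i (hIt (Finset.mem_of_mem_erase hi)) (Finset.ne_of_mem_erase hi) with
        ⟨s, hs1, hs2⟩ | h
      · exfalso
        obtain ⟨F', f1, f2, f3, f4⟩ := h5 ι H d (I.erase l) a hane hadis i hi
          ⟨g i * s, by rw [hmem, inv_mul_cancel_left]; exact hs1, by
            rw [hmem, mul_left_comm, inv_mul_cancel_left]; exact hs2⟩
        have := hrel F' f1 f2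
        rw [f3, f4] at this
        norm_num at this
      · exact h
    -- `I.erase l` is not empty
    have hnem : (I.erase l).Nonempty := by
      by_contra hc
      rw [Finset.not_nonempty_iff_eq_empty] at hc
      have h2 := hrel (fun _ => 1) (fun _ _ _ => rfl) (fun q hq => by
        rw [hc] at hq; exact absurd hq (Finset.notMem_empty q))
      have h3 : bsum (I.erase l) a (fun _ => (1:ℤ)) = 1 := by
        classical
        rw [hc]
        unfold bsum
        rw [Finset.sum_eq_single (1 : ∀ i, H i)]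
        · rw [if_pos]
          exact ⟨fun i hi => absurd hi (Finset.notMem_empty i), fun i _ => rfl⟩
        · intro u _ hu
          rw [if_neg]
          intro h
          exact hu (funext (fun i => h.2 i (Finset.notMem_empty i)))
        · intro h; exact absurd (Finset.mem_univ _) h
      rw [h3] at h2
      norm_num at h2
    -- the boxes are cosets
    have hcase : ∀ i ∈ I.erase l, (∀ s, s ∈ a i ↔ s ∈ K i) ∨ (∀ s, s ∈ a i ↔ s ∉ K i) := by
      intro i hi
      obtain ⟨hiS, g', hg'⟩ := hcos i hi
      have hK3 := hK2 i hiS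
      have hg2 : ∀ s, s ∈ a i ↔ (g' * (g i)⁻¹) * s ∈ K i := by
        intro s
        rw [hmem, hg', mul_assoc]
      by_cases hgk : g' * (g i)⁻¹ ∈ K i
      · left
        intro s
        rw [hg2]
        exact Subgroup.mul_mem_cancel_left (K i) hgk
      · right
        intro s
        have hgk' : d.κ i * (g' * (g i)⁻¹) ∈ K i := by
          by_contra hc
          exact hgk ((hK3 _).2 hc)
        rw [hg2]
        have e1 : (g' * (g i)⁻¹) * s = (d.κ i * (g' * (g i)⁻¹)) * (d.κ i * s) := by
          rw [mul_mul_mul_comm, TopSH89.kk, one_mul]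
        rw [e1, Subgroup.mul_mem_cancel_left (K i) hgk', hK3 (d.κ i * s), ← mul_assoc,
          TopSH89.kk, one_mul]
    have hhalf : ∀ i ∈ I.erase l, ∀ s, s ∈ a i ↔ d.κ i * s ∉ a i := by
      intro i hi s
      have hK3 := hK2 i (hcos i hi).1
      rcases hcase i hi with hc | hc
      · rw [hc, hc]; exact hK3 s
      · rw [hc, hc, hK3 s]
    -- the cardinality is odd
    have hodd : ¬ Even (I.erase l).card := by
      intro hev
      have h2 := hrel (pd d (I.erase l)) (dep_pd d _) (fun q hq u => nn_pd d _ q hq u)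
      have h3 : (fun u => pd d (I.erase l) (d.κ * u)) = pd d (I.erase l) :=
        funext (fun u => pd_kappa d _ hev u)
      rw [h3] at h2
      have h4 := bsum_pd d (I.erase l) a hhalf
      apply h4
      linarith
    have hcard : (I.erase l).card ≤ 2 :=
      le_trans (Finset.card_le_card (fun i hi => (hcos i hi).1)) hSp
    have hcard1 : (I.erase l).card = 1 := by
      have h0 := Finset.card_pos.2 hnem
      rcases (show (I.erase l).card = 1 ∨ (I.erase l).card = 2 by omega) with h | h
      · exact h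
      · exfalso; apply hodd; rw [h]; exact even_two
    obtain ⟨i0, hIe⟩ := Finset.card_eq_one.1 hcard1
    have hi0 : i0 ∈ I.erase l := by rw [hIe]; exact Finset.mem_singleton_self _
    have hne : i0 ≠ l := Finset.ne_of_mem_erase hi0
    have hI : I = {l, i0} := by
      rw [← Finset.insert_erase hl, hIe]
    have hi0I : i0 ∈ I := Finset.mem_of_mem_erase hi0
    have hcon : ∀ u : ∀ i, H i, ((∀ i ∈ I, i ≠ l → u i ∈ K i) ∧ (∀ i, i ∉ I → u i = 1)) ↔
        (u i0 ∈ K i0 ∧ (∀ i, i ≠ l → i ≠ i0 → u i = 1)) := by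
      intro u
      constructor
      · rintro ⟨h1, h2⟩
        refine ⟨h1 i0 hi0I hne, fun i h3 h4 => h2 i ?_⟩
        rw [hI]; simp [h3, h4]
      · rintro ⟨h1, h2⟩
        refine ⟨fun i h3 h4 => ?_, fun i h3 => ?_⟩
        · rw [hI] at h3
          simp only [Finset.mem_insert, Finset.mem_singleton] at h3
          rcases h3 with h3 | h3
          · exact absurd h3 h4
          · subst h3; exact h1
        · rw [hI] at h3
          simp only [Finset.mem_insert, Finset.mem_singleton, not_or] at h3
          exact h2 i h3.1 h3.2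
    have hsum : ∀ F : (∀ i, H i) → ℤ, (∑ u : ∀ i, H i, (open Classical in
        if (∀ i ∈ I, i ≠ l → u i ∈ K i) ∧ (∀ i, i ∉ I → u i = 1) then F u else 0)) =
        SS l i0 (fun s => s ∈ K i0) F := by
      intro F
      unfold SS
      refine Finset.sum_congr rfl (fun u _ => ?_)
      by_cases h : u i0 ∈ K i0 ∧ (∀ i, i ≠ l → i ≠ i0 → u i = 1)
      · rw [if_pos h, if_pos ((hcon u).2 h)]
      · rw [if_neg h, if_neg (fun hc => h ((hcon u).1 hc))]
    rcases hcase i0 hi0 with hc | hc
    · refine ⟨e, Or.inr ⟨i0, (hcos i0 hi0).1, hne, hI, he⟩, fun w' F hF => ?_⟩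
      rw [hY w' F hF, hsum F, hIe, SS_nn l i0 hne (fun s => s ∈ K i0) F a (fun s => (hc s).symm)]
    · refine ⟨-e, Or.inr ⟨i0, (hcos i0 hi0).1, hne, hI, ?_⟩, fun w' F hF => ?_⟩
      · rcases he with he | he
        · right; rw [he]
        · left; rw [he]; norm_num
      · rw [hY w' F hF, hsum F, hIe, SS_nn l i0 hne (fun s => ¬ s ∈ K i0) F a
          (fun s => (hc s).symm), SS_compl l i0 hne (fun s => s ∈ K i0) F (hF.nul i0 hi0I hne)]
        ring

end Pool.Agent.NH35.HQ
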