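import Pool.Agent.NH35.HQ.Stm

/-! (B8) twice `BQ`. -/

set_option autoImplicit false
set_option linter.unusedSectionVars false
set_option linter.unusedVariables false

namespace Pool.Agent.NH35.HQ

open Finset Pool.Agent.H916R2 Pool.Agent.NH35.HG Pool.Agent.NH35.HE Pool.Agent.NH35.HK

private lemma tw_sum {Q : Type} [AddCommGroup Q] (n : ℕ) [NeZero n] (f : ℕ → Q) :
    ∑ a ∈ range n, f a = ∑ x : ZMod n, f x.val := by
  refine Finset.sum_nbij' (fun a => (a : ZMod n)) ZMod.val ?_ ?_ ?_ ?_ ?_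
  · intro a _
    exact mem_univ _
  · intro x _
    exact mem_range.2 (ZMod.val_lt x)
  · intro a ha
    exact ZMod.val_natCast_of_lt (mem_range.1 ha)
  · intro x _
    exact ZMod.natCast_zmod_val x
  · intro a ha
    rw [ZMod.val_natCast_of_lt (mem_range.1 ha)]

/-- the abstract computation -/
private lemma tw_core {Q : Type} [AddCommGroup Q] {X Y : Type} [Fintype X] [Fintype Y]
    [DecidableEq X] [CommRing X] [AddCommGroup Y] (g : X → Y → Q) (h : X → Q) (w w' : X)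
    (HL : X → Prop) (HQ : Y → Prop) [DecidablePred HL] [DecidablePred HQ] (hw : w * w' = 1)
    (hg : ∀ x y, g (-x) (-y) = - g x y) (hh : ∀ x, h (-x) = - h x)
    (hL : ∀ x, x ≠ 0 → (HL (-x) ↔ ¬ HL x)) (hL0 : ¬ HL 0)
    (hQ : ∀ y, ¬ (HQ y ∧ HQ (-y)))
    (hs : ∀ x, ∑ y, (if HQ y ∨ HQ (-y) then g x y else 0) = h x - h (w' * x)) :
    (2 : ℤ) • ((∑ x, ∑ y, if HL x ∧ HQ y then g x y else 0) +
      ∑ x, if HL (-x) ∧ ¬ HL (-(w * x)) then h x else 0) =
    ∑ y, if HQ y then ∑ x, (if x ≠ 0 then g x y else 0) else 0 := by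
  -- oddness
  have hT2 : (∑ x, ∑ y, if HL (-x) ∧ HQ (-y) then g x y else 0) =
      - ∑ x, ∑ y, if HL x ∧ HQ y then g x y else 0 := by
    rw [← Equiv.sum_comp (Equiv.neg X), ← sum_neg_distrib]
    refine sum_congr rfl fun x _ => ?_
    rw [← Equiv.sum_comp (Equiv.neg Y), ← sum_neg_distrib]
    refine sum_congr rfl fun y _ => ?_
    simp only [Equiv.neg_apply, neg_neg, hg]
    split_ifs <;> simp
  have hT23 : (∑ x, ∑ y, if HL (-x) ∧ HQ (-y) then g x y else 0) +
      (∑ x, ∑ y, if HL (-x) ∧ HQ y then g x y else 0) =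
      ∑ x, if HL (-x) then h x - h (w' * x) else 0 := by
    rw [← sum_add_distrib]
    refine sum_congr rfl fun x _ => ?_
    rw [← sum_add_distrib, ← hs x]
    split_ifs with h1
    · refine sum_congr rfl fun y _ => ?_
      have := hQ y
      by_cases a : HQ y <;> by_cases b : HQ (-y)
      · exact absurd ⟨a, b⟩ this
      all_goals simp [a, b, h1]
    · refine sum_eq_zero fun y _ => ?_
      simp [h1]
  have hR : (∑ y, if HQ y then ∑ x, (if x ≠ 0 then g x y else 0) else 0) =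
      (∑ x, ∑ y, if HL x ∧ HQ y then g x y else 0) +
      ∑ x, ∑ y, if HL (-x) ∧ HQ y then g x y else 0 := by
    rw [← sum_add_distrib]
    simp_rw [← sum_add_distrib]
    rw [sum_comm]
    refine sum_congr rfl fun y _ => ?_
    split_ifs with h1
    · refine sum_congr rfl fun x _ => ?_
      by_cases hx : x = 0
      · subst hx
        simp [hL0]
      · have := hL x hx
        by_cases a : HL x
        · have b : ¬ HL (-x) := fun hb => this.1 hb a
          simp [a, b, h1, hx]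
        · have b : HL (-x) := this.2 a
          simp [a, b, h1, hx]
    · symm
      refine sum_eq_zero fun x _ => ?_
      simp [h1]
  have hU : Function.Bijective fun x : X => w * x :=
    ⟨fun a b hab => by
      have h1 : w' * (w * a) = w' * (w * b) := congrArg (w' * ·) hab
      rwa [← mul_assoc, ← mul_assoc, mul_comm w' w, hw, one_mul, one_mul] at h1,
    fun b => ⟨w' * b, by show w * (w' * b) = b; rw [← mul_assoc, hw, one_mul]⟩⟩
  have hre : (∑ x, if HL (-x) then h (w' * x) else 0) = ∑ x, if HL (-(w * x)) then h x else 0 := by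
    rw [← (Equiv.ofBijective _ hU).sum_comp]
    refine sum_congr rfl fun x _ => ?_
    simp only [Equiv.ofBijective_apply]
    rw [← mul_assoc, mul_comm w' w, hw, one_mul]
  have hodd : (∑ x, if ¬ HL (-x) ∧ HL (-(w * x)) then h x else 0) =
      - ∑ x, if HL (-x) ∧ ¬ HL (-(w * x)) then h x else 0 := by
    rw [← Equiv.sum_comp (Equiv.neg X), ← sum_neg_distrib]
    refine sum_congr rfl fun x _ => ?_
    simp only [Equiv.neg_apply, neg_neg, hh, mul_neg]
    by_cases hx : x = 0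
    · subst hx
      simp [hL0]
    · have hwx : w * x ≠ 0 := by
        intro h0
        apply hx
        have h1 : w' * (w * x) = 0 := by rw [h0, mul_zero]
        rwa [← mul_assoc, mul_comm w' w, hw, one_mul] at h1
      have h1 := hL x hx
      have h2 := hL _ hwx
      by_cases a : HL x <;> by_cases b : HL (w * x)
      · simp [a, b, h1]
      · have b' := h2.2 b
        simp [a, b, h1]
      · have b' : ¬ HL (-(w * x)) := fun hb => h2.1 hb b
        simp [a, b, b', h1.2 a]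
      · have b' := h2.2 b
        simp [a, b, b', h1.2 a]
  have hS2 : (∑ x, if HL (-x) then h x else 0) - (∑ x, if HL (-(w * x)) then h x else 0) =
      (2 : ℤ) • ∑ x, if HL (-x) ∧ ¬ HL (-(w * x)) then h x else 0 := by
    have e : (∑ x, if HL (-x) then h x else 0) - (∑ x, if HL (-(w * x)) then h x else 0) =
        (∑ x, if HL (-x) ∧ ¬ HL (-(w * x)) then h x else 0) -
        ∑ x, if ¬ HL (-x) ∧ HL (-(w * x)) then h x else 0 := by
      rw [← sum_sub_distrib, ← sum_sub_distrib]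
      refine sum_congr rfl fun x _ => ?_
      by_cases a : HL (-x) <;> by_cases b : HL (-(w * x)) <;> simp [a, b]
    rw [e, hodd, sub_neg_eq_add, two_smul]
  rw [smul_add, ← hS2, hR]
  have e2 : (∑ x, if HL (-x) then h x - h (w' * x) else 0) =
      (∑ x, if HL (-x) then h x else 0) - ∑ x, if HL (-x) then h (w' * x) else 0 := by
    rw [← sum_sub_distrib]
    refine sum_congr rfl fun x _ => ?_
    split_ifs <;> simp
  rw [e2, hre, hT2] at hT23
  rw [← hT23, two_smul]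
  abel

private lemma tw_bqpos {q : ℕ} (hq : q.Prime) : bq q ≠ 0 := by
  unfold bq
  split_ifs
  · norm_num
  · exact hq.ne_zero

private lemma tw_hf_mod {q a : ℕ} : hf q (a % bq q) ↔ hf q a := by
  unfold hf bq
  split_ifs with h
  · rw [Nat.mod_mod]
  · rw [Nat.mod_mod]

/-- `hf` of a natural number in terms of its class -/
private lemma tw_hf {q : ℕ} (a : ℕ) : hf q ((a : ZMod (bq q)).val) ↔ hf q a := by
  rw [ZMod.val_natCast, tw_hf_mod]

private lemma tw_hf_neg {ℓ : ℕ} (hℓ : ℓ.Prime) (hℓ2 : ℓ ≠ 2) [NeZero ℓ] (x : ZMod ℓ) (hx : x ≠ 0) :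
    hf ℓ (-x).val ↔ ¬ hf ℓ x.val := by
  have h1 : 0 < x.val := Nat.pos_of_ne_zero fun h => hx ((ZMod.val_eq_zero x).1 h)
  have h2 := ZMod.val_lt x
  have hodd : ℓ % 2 = 1 := by
    rcases hℓ.eq_two_or_odd with h | h
    · exact absurd h hℓ2
    · exact h
  unfold hf
  rw [if_neg hℓ2, if_neg hℓ2, ZMod.neg_val, if_neg hx, Nat.mod_eq_of_lt h2,
    Nat.mod_eq_of_lt (by omega)]
  omega

/-- sums over the fibres of the reduction modulo the second factor -/
private lemma tw_fib {Q : Type} [AddCommGroup Q] {p : ℕ} (hp : p.Prime) [NeZero p]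
    (f : ZMod p → Q) (u v : ZMod p) (hv : v ≠ 0) :
    ∑ i ∈ range p, f (u + (i : ZMod p) * v) = ∑ x, f x := by
  have : Fact p.Prime := ⟨hp⟩
  rw [tw_sum p fun i => f (u + (i : ZMod p) * v)]
  simp_rw [ZMod.natCast_zmod_val]
  have hb : Function.Bijective fun x : ZMod p => u + x * v :=
    ⟨fun a b hab => mul_right_cancel₀ hv (add_left_cancel hab),
    fun b => ⟨(b - u) * v⁻¹, by
      show u + (b - u) * v⁻¹ * v = b
      rw [inv_mul_cancel_right₀ hv]
      abel⟩⟩
  exact (Equiv.ofBijective _ hb).sum_comp f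

private lemma tw_h0 {q : ℕ} (h2 : q ≠ 2) : ¬ hf q 0 := by
  unfold hf
  rw [if_neg h2]
  simp

private lemma tw_hQ {q B : ℕ} (hq : q.Prime) (hB : B = bq q) [NeZero B] (y : ZMod B) :
    ¬ (hf q y.val ∧ hf q (-y).val) := by
  by_cases h2 : q = 2
  · subst h2
    have h4 : B = 4 := hB
    subst h4
    revert y
    decide
  · have h4 : B = q := by rw [hB]; unfold bq; rw [if_neg h2]
    subst h4
    by_cases hy : y = 0
    · subst hy
      rw [ZMod.val_zero]
      exact fun h => tw_h0 h2 h.1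
    · rw [tw_hf_neg hq h2 y hy]
      tauto

private lemma tw_hs2 {Q : Type} [AddCommGroup Q] {ℓ : ℕ} [Fact ℓ.Prime] (h2 : (2 : ZMod ℓ) ≠ 0)
    (g : ZMod ℓ → ZMod 4 → Q) (hg2 : ∀ x y, g x y + g x (y + 2) = g (2 * x) (2 * y))
    (x : ZMod ℓ) : ∑ y : ZMod 4, (if hf 2 y.val ∨ hf 2 (-y).val then g x y else 0) =
      g (4 * x) 0 - g (4 * (2⁻¹ * x)) 0 := by
  have hu : (univ : Finset (ZMod 4)) = {0, 1, 2, 3} := by decide
  have e0 : ¬ (hf 2 (0 : ZMod 4).val ∨ hf 2 (-(0 : ZMod 4)).val) := by decide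
  have e1 : (hf 2 (1 : ZMod 4).val ∨ hf 2 (-(1 : ZMod 4)).val) := by decide
  have e2 : ¬ (hf 2 (2 : ZMod 4).val ∨ hf 2 (-(2 : ZMod 4)).val) := by decide
  have e3 : (hf 2 (3 : ZMod 4).val ∨ hf 2 (-(3 : ZMod 4)).val) := by decide
  rw [hu, sum_insert (by decide), sum_insert (by decide), sum_insert (by decide), sum_singleton,
    if_neg e0, if_pos e1, if_neg e2, if_pos e3, zero_add, zero_add]
  have h3 := hg2 x 1
  have h4 := hg2 (2 * x) 0
  have c1 : (1 : ZMod 4) + 2 = 3 := by decide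
  have c2 : (2 : ZMod 4) * 1 = 2 := by decide
  have c3 : (0 : ZMod 4) + 2 = 2 := by decide
  have c4 : (2 : ZMod 4) * 0 = 0 := by decide
  rw [c1, c2] at h3
  rw [c3, c4] at h4
  have c5 : (2 : ZMod ℓ) * (2 * x) = 4 * x := by ring
  have c6 : (4 : ZMod ℓ) * (2⁻¹ * x) = 2 * x := by
    have : (4 : ZMod ℓ) = 2 * 2 := by norm_num
    rw [this, mul_assoc, ← mul_assoc (2 : ZMod ℓ) 2⁻¹ x, mul_inv_cancel₀ h2, one_mul]
  rw [c5] at h4
  rw [c6, h3, ← h4]
  abel

private lemma tw_hsq {Q : Type} [AddCommGroup Q] {ℓ q : ℕ} [Fact ℓ.Prime] (hq : q.Prime)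
    (h2 : q ≠ 2) [NeZero q] (hw : (q : ZMod ℓ) ≠ 0)
    (g : ZMod ℓ → ZMod q → Q) (hg2 : ∀ x, ∑ y, g x y = g ((q : ZMod ℓ) * x) 0)
    (x : ZMod ℓ) : ∑ y : ZMod q, (if hf q y.val ∨ hf q (-y).val then g x y else 0) =
      g ((q : ZMod ℓ) * x) 0 - g ((q : ZMod ℓ) * ((q : ZMod ℓ)⁻¹ * x)) 0 := by
  classical
  rw [← mul_assoc, mul_inv_cancel₀ hw, one_mul, ← hg2 x]
  have h3 : ∀ y : ZMod q, (if hf q y.val ∨ hf q (-y).val then g x y else 0) =
      g x y - if y = 0 then g x y else 0 := by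
    intro y
    by_cases hy : y = 0
    · subst hy
      rw [if_pos rfl, sub_self, neg_zero, ZMod.val_zero, if_neg]
      rintro (h | h) <;> exact tw_h0 h2 h
    · rw [if_neg hy, sub_zero, if_pos]
      rw [tw_hf_neg hq h2 y hy]
      tauto
  simp_rw [h3]
  rw [sum_sub_distrib, sum_ite_eq']
  simp

theorem two_ok : S_two := by
  classical
  intro m ℓ q _ hm hℓ hℓ2 hq hqℓ hℓm hqm Q _ c hc
  have hm0 : m ≠ 0 := NeZero.ne m
  have hbl : bq ℓ = ℓ := by unfold bq; rw [if_neg hℓ2]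
  have hcop' : Nat.Coprime ℓ (bq q) := by
    unfold bq
    split_ifs with h
    · have : Nat.Coprime ℓ (2 ^ 2) := by
        apply Nat.Coprime.pow_right
        exact (Nat.coprime_primes hℓ Nat.prime_two).2 hℓ2
      exact this
    · exact (Nat.coprime_primes hℓ hq).2 (Ne.symm hqℓ)
  have hBm' : bq q ∣ m := by
    unfold bq
    split_ifs with h
    · rcases hm with hm | hm
      · subst h
        exact absurd (hm) (Nat.not_odd_iff_even.2 (even_iff_two_dvd.2 hqm))
      · exact hm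
    · exact hqm
  have hB0' := tw_bqpos hq
  unfold BQ
  obtain ⟨B, hB⟩ : ∃ B, B = bq q := ⟨_, rfl⟩
  rw [← hB] at hcop' hBm' hB0' ⊢
  have hcop := hcop'
  have hBm := hBm'
  have : NeZero ℓ := ⟨hℓ.ne_zero⟩
  have : NeZero B := ⟨hB0'⟩
  have : NeZero (ℓ * B) := ⟨mul_ne_zero hℓ.ne_zero hB0'⟩
  have : Fact ℓ.Prime := ⟨hℓ⟩
  have : Fact q.Prime := ⟨hq⟩
  have hPm : ℓ * B ∣ m := hcop.mul_dvd_of_dvd_of_dvd hℓm hBm
  obtain ⟨k, hk⟩ := hPm
  have hkP : k * (ℓ * B) = m := by rw [hk]; ring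
  have hPpos : 0 < ℓ * B := Nat.pos_of_ne_zero (NeZero.ne _)
  have hdP : m / (ℓ * B) = k := by
    rw [← hkP]; exact Nat.mul_div_cancel _ hPpos
  have hdl : m / ℓ = B * k := by
    rw [← hkP, show k * (ℓ * B) = (B * k) * ℓ by ring]
    exact Nat.mul_div_cancel _ hℓ.pos
  have hdB : m / B = ℓ * k := by
    rw [← hkP, show k * (ℓ * B) = (ℓ * k) * B by ring]
    exact Nat.mul_div_cancel _ (Nat.pos_of_ne_zero hB0')
  -- the distribution of level `ℓ * B`
  obtain ⟨D, hD⟩ : ∃ D : ZMod (ℓ * B) → Q, D = fun b => c (iota k b) := ⟨_, rfl⟩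
  have hDd : OddDist D := by rw [hD]; exact hc.comp_iota hkP
  have hDn : ∀ a : ℕ, c ((a * k : ℕ) : ZMod m) = D ((a : ℕ) : ZMod (ℓ * B)) := by
    intro a
    rw [hD]
    show _ = c (iota k ((a : ℕ) : ZMod (ℓ * B)))
    rw [iota_natCast hkP, mul_comm]
  let E := ZMod.chineseRemainder hcop
  obtain ⟨g, hgd⟩ : ∃ g : ZMod ℓ → ZMod B → Q, g = fun x y => D (E.symm (x, y)) := ⟨_, rfl⟩
  have hgE : ∀ z : ZMod (ℓ * B), D z = g (E z).1 (E z).2 := by
    intro z
    rw [hgd]
    show D z = D (E.symm ((E z).1, (E z).2))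
    rw [Prod.mk.eta, E.symm_apply_apply]
  have hEn : ∀ a : ℕ, E (a : ZMod (ℓ * B)) = ((a : ZMod ℓ), (a : ZMod B)) := by
    intro a
    rw [map_natCast]
    rfl
  have hgn : ∀ a : ℕ, D ((a : ℕ) : ZMod (ℓ * B)) = g (a : ZMod ℓ) (a : ZMod B) := by
    intro a
    rw [hgE, hEn]
  have hgneg : ∀ x y, g (-x) (-y) = - g x y := by
    intro x y
    rw [hgd]
    show D (E.symm (-x, -y)) = - D (E.symm (x, y))
    rw [← hDd.neg, ← map_neg]
    rfl
  -- the relation at `ℓ`
  have hBl : ((B : ℕ) : ZMod ℓ) ≠ 0 := by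
    intro h
    rw [ZMod.natCast_eq_zero_iff] at h
    have h1 := Nat.Coprime.eq_one_of_dvd hcop h
    exact hℓ.one_lt.ne' h1
  have hDl : ∀ y : ZMod B, ∑ x, g x y = g 0 ((ℓ : ZMod B) * y) := by
    intro y
    have h1 := hDd.dist ℓ B hℓ rfl (E.symm (0, y))
    have h2 : ∀ i : ℕ, D (E.symm (0, y) + (i : ZMod (ℓ * B)) * ((B : ℕ) : ZMod (ℓ * B))) =
        g (0 + (i : ZMod ℓ) * ((B : ℕ) : ZMod ℓ)) y := by
      intro i
      rw [hgE, map_add, map_mul, E.apply_symm_apply, hEn, hEn]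
      simp
    simp_rw [h2] at h1
    rw [tw_fib hℓ (fun x => g x y) 0 _ hBl] at h1
    rw [h1, hgE, map_mul, E.apply_symm_apply, hEn]
    simp
  -- the relation at `q`
  obtain ⟨w, hw⟩ : ∃ w : ZMod ℓ, w = ((q : ℕ) : ZMod ℓ) := ⟨_, rfl⟩
  have hw0 : w ≠ 0 := by
    rw [hw]
    intro h
    rw [ZMod.natCast_eq_zero_iff] at h
    exact hqℓ ((Nat.prime_dvd_prime_iff_eq hℓ hq).1 h).symm
  obtain ⟨h, hh⟩ : ∃ h : ZMod ℓ → Q, h = fun x => g (((B : ℕ) : ZMod ℓ) * x) 0 := ⟨_, rfl⟩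
  have hhneg : ∀ x, h (-x) = - h x := by
    intro x
    rw [hh]
    show g (_ * -x) 0 = - g (_ * x) 0
    rw [← hgneg, neg_zero, mul_neg]
  have hQ := tw_hQ hq hB
  have hs : ∀ x, ∑ y, (if hf q y.val ∨ hf q (-y).val then g x y else 0) = h x - h (w⁻¹ * x) := by
    intro x
    clear hDn hkP hdP hdl hdB hBm hBm' hD hDl
    by_cases h2 : q = 2
    · subst h2
      have h4 : B = 4 := hB
      subst h4
      have hg2 : ∀ (x : ZMod ℓ) (y : ZMod 4), g x y + g x (y + 2) = g (2 * x) (2 * y) := by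
        intro x y
        have h1 := hDd.dist 2 (2 * ℓ) Nat.prime_two (by ring) (E.symm (x, y))
        rw [sum_range_succ, sum_range_one] at h1
        rw [hgE, hgE (_ + _), hgE (_ * _), map_add, map_add, map_mul, map_mul, map_mul,
          E.apply_symm_apply, hEn, hEn, hEn, hEn] at h1
        have e1 : (2 : ZMod 4) * (ℓ : ZMod 4) = 2 := by
          have hodd : ℓ % 2 = 1 := by
            rcases hℓ.eq_two_or_odd with h | h
            · exact absurd h hℓ2
            · exact h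
          have : ((2 * ℓ : ℕ) : ZMod 4) = ((2 : ℕ) : ZMod 4) := by
            rw [ZMod.natCast_eq_natCast_iff']
            omega
          push_cast at this
          exact this
        simpa [e1] using h1
      have h5 := tw_hs2 (by rw [hw] at hw0; exact_mod_cast hw0) g hg2 x
      rw [hh, hw]
      push_cast
      exact h5
    · have h4 : B = q := by rw [hB]; unfold bq; rw [if_neg h2]
      subst h4
      have hlB : ((ℓ : ℕ) : ZMod B) ≠ 0 := by
        intro h
        rw [ZMod.natCast_eq_zero_iff] at h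
        exact hqℓ ((Nat.prime_dvd_prime_iff_eq hq hℓ).1 h)
      have hg2 : ∀ x, ∑ y, g x y = g ((B : ZMod ℓ) * x) 0 := by
        intro x
        have h1 := hDd.dist B ℓ hq (by ring) (E.symm (x, 0))
        have h2 : ∀ i : ℕ, D (E.symm (x, 0) + (i : ZMod (ℓ * B)) * ((ℓ : ℕ) : ZMod (ℓ * B))) =
            g x (0 + (i : ZMod B) * ((ℓ : ℕ) : ZMod B)) := by
          intro i
          rw [hgE, map_add, map_mul, E.apply_symm_apply, hEn, hEn]
          simp
        simp_rw [h2] at h1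
        rw [tw_fib hq (fun y => g x y) 0 _ hlB] at h1
        rw [h1, hgE, map_mul, E.apply_symm_apply, hEn]
        simp
      have h5 := tw_hsq hq h2 (by rw [← hw]; exact hw0) g hg2 x
      rw [hh, hw]
      exact h5
  have hcore := tw_core g h w w⁻¹ (fun x => hf ℓ x.val) (fun y => hf q y.val)
    (mul_inv_cancel₀ hw0) hgneg hhneg (fun x hx => tw_hf_neg hℓ hℓ2 x hx) (by
      rw [ZMod.val_zero]
      exact tw_h0 hℓ2) hQ hs
  -- translation
  have hcl : ∀ a : ℕ, hf ℓ ((a : ZMod ℓ).val) ↔ hf ℓ a := by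
    intro a
    rw [ZMod.val_natCast]
    have := tw_hf_mod (q := ℓ) (a := a)
    rwa [hbl] at this
  have hcq : ∀ a : ℕ, hf q ((a : ZMod B).val) ↔ hf q a := by
    intro a
    rw [ZMod.val_natCast, hB]
    exact tw_hf_mod
  have e1 : (∑ a ∈ range (ℓ * B), if hf ℓ a ∧ hf q a then
      c ((a * (m / (ℓ * B)) : ℕ) : ZMod m) else 0) =
      ∑ x : ZMod ℓ, ∑ y : ZMod B, if hf ℓ x.val ∧ hf q y.val then g x y else 0 := by
    rw [tw_sum (ℓ * B) fun a => if hf ℓ a ∧ hf q a then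
      c ((a * (m / (ℓ * B)) : ℕ) : ZMod m) else 0, hdP,
      ← Fintype.sum_prod_type' (f := fun (x : ZMod ℓ) (y : ZMod B) =>
        if hf ℓ x.val ∧ hf q y.val then g x y else 0), ← Equiv.sum_comp E.toEquiv]
    refine sum_congr rfl fun z _ => ?_
    rw [hDn, ZMod.natCast_zmod_val, hgE z]
    have h1 : E z = (((z.val : ℕ) : ZMod ℓ), ((z.val : ℕ) : ZMod B)) := by
      rw [← hEn, ZMod.natCast_zmod_val]
    have h2 : hf ℓ (E z).1.val ↔ hf ℓ z.val := by rw [h1]; exact hcl _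
    have h3 : hf q (E z).2.val ↔ hf q z.val := by rw [h1]; exact hcq _
    show _ = if hf ℓ (E z).1.val ∧ hf q (E z).2.val then g (E z).1 (E z).2 else 0
    simp only [h2, h3]
  have e2 : (∑ a ∈ range ℓ, if hf ℓ (ℓ - a) ∧ ¬ hf ℓ (q * (ℓ - a)) then
      c ((a * (m / ℓ) : ℕ) : ZMod m) else 0) =
      ∑ x : ZMod ℓ, if hf ℓ (-x).val ∧ ¬ hf ℓ (-(w * x)).val then h x else 0 := by
    rw [tw_sum ℓ fun a => if hf ℓ (ℓ - a) ∧ ¬ hf ℓ (q * (ℓ - a)) then
      c ((a * (m / ℓ) : ℕ) : ZMod m) else 0, hdl]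
    refine sum_congr rfl fun x _ => ?_
    have h1 : ((ℓ - x.val : ℕ) : ZMod ℓ) = -x := by
      rw [Nat.cast_sub (ZMod.val_lt x).le, ZMod.natCast_zmod_val, ZMod.natCast_self, zero_sub]
    have h2 : hf ℓ (ℓ - x.val) ↔ hf ℓ (-x).val := by rw [← h1]; exact (hcl _).symm
    have h3 : hf ℓ (q * (ℓ - x.val)) ↔ hf ℓ (-(w * x)).val := by
      rw [← hcl (q * (ℓ - x.val)), Nat.cast_mul, h1, hw, mul_neg]
    have h4 : c ((x.val * (B * k) : ℕ) : ZMod m) = h x := by
      rw [← mul_assoc, hDn, hgn, hh]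
      show _ = g ((B : ZMod ℓ) * x) 0
      push_cast
      rw [ZMod.natCast_zmod_val, ZMod.natCast_self, mul_zero, mul_comm]
    simp only [h2, h3, h4]
  have e3 : (∑ a ∈ range B, if hf q a then
      c ((a * (m / B) : ℕ) : ZMod m) -
      c (((((ℓ : ℕ) : ZMod B)⁻¹ * (a : ZMod B)).val * (m / B) : ℕ) : ZMod m) else 0) =
      ∑ y : ZMod B, if hf q y.val then ∑ x, (if x ≠ 0 then g x y else 0) else 0 := by
    rw [tw_sum B fun a => if hf q a then
      c ((a * (m / B) : ℕ) : ZMod m) -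
      c (((((ℓ : ℕ) : ZMod B)⁻¹ * (a : ZMod B)).val * (m / B) : ℕ) : ZMod m) else 0, hdB]
    refine sum_congr rfl fun y _ => ?_
    have h1 : ∑ x, (if x ≠ 0 then g x y else 0) = g 0 ((ℓ : ZMod B) * y) - g 0 y := by
      rw [← hDl y]
      have : ∀ x : ZMod ℓ, (if x ≠ 0 then g x y else 0) = g x y - if x = 0 then g x y else 0 := by
        intro x
        by_cases hx : x = 0 <;> simp [hx]
      simp_rw [this]
      rw [sum_sub_distrib, sum_ite_eq']
      simp
    have hin : (ℓ : ZMod B) * (ℓ : ZMod B)⁻¹ = 1 := ZMod.coe_mul_inv_eq_one ℓ hcop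
    have h2 : c ((y.val * (ℓ * k) : ℕ) : ZMod m) = g 0 ((ℓ : ZMod B) * y) := by
      rw [← mul_assoc, hDn, hgn]
      push_cast
      rw [ZMod.natCast_zmod_val, ZMod.natCast_self, mul_zero, mul_comm]
    have h3 : c (((((ℓ : ℕ) : ZMod B)⁻¹ * y).val * (ℓ * k) : ℕ) : ZMod m) = g 0 y := by
      rw [← mul_assoc, hDn, hgn]
      push_cast
      rw [ZMod.natCast_zmod_val, ZMod.natCast_self, mul_zero, mul_comm, ← mul_assoc, hin, one_mul]
    rw [ZMod.natCast_zmod_val, h1, h2, h3]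
  rw [e1, e2, e3]
  exact hcore

end Pool.Agent.NH35.HQ
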