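import Pool.Agent.NH35.HQ.Stm2
import Pool.Agent.NH35.HK.Nrel
import Pool.Agent.H916R2.Relations

/-! Six units modulo `35`, and the exceptional case of the condition modulo two. -/

set_option autoImplicit false
set_option linter.unusedSectionVars false
set_option linter.unusedVariables false
set_option linter.style.haveILetI false

namespace Pool.Agent.NH35.HQ

open Finset Pool.Agent.H916R2 Pool.Agent.NH35.HG Pool.Agent.NH35.HE Pool.Agent.NH35.HK

namespace FinH6

/-- the coefficients -/
def kl : List (ℕ × ℤ) := [(1, -1), (4, 1), (6, -1), (8, -1), (11, -1), (13, -1)]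

/-- the class of a number modulo five and seven, up to sign -/
def cl (i j n : ℕ) : Bool :=
  (n % 5 == i || n % 5 == 5 - i) && (n % 7 == j || n % 7 == 7 - j)

/-- the combination of the relations -/
def gN (n : ℕ) : ℤ := (kl.map fun p => p.2 * (2 * ((p.1 * n % 35 : ℕ) : ℤ) - 35)).sum

theorem gN_spec : ∀ n < 35, Nat.gcd n 35 = 1 →
    gN n % 140 = if cl 1 1 n then 70 else 0 := by decide +kernel

theorem cl_spec : ∀ n < 35, Nat.gcd n 35 = 1 →
    (if cl 1 1 n then 1 else 0) + ((if cl 1 2 n then 1 else 0) + ((if cl 1 3 n then 1 else 0) +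
      ((if cl 2 1 n then 1 else 0) + ((if cl 2 2 n then 1 else 0) +
        (if cl 2 3 n then 1 else 0))))) = 1 := by decide +kernel

theorem kl_cop : ∀ p ∈ kl, Nat.Coprime p.1 35 := by decide +kernel

theorem saw_val (t : ℕ) (ht : Nat.Coprime t 35) (z : ZMod 35) (hz : IsUnit z) :
    saw ((t : ZMod 35) * z) = 2 * ((t * z.val % 35 : ℕ) : ℤ) - 35 := by
  haveI : Fact (1 < 35) := ⟨by norm_num⟩
  have hu : IsUnit ((t : ZMod 35) * z) := ((ZMod.isUnit_iff_coprime t 35).2 ht).mul hz
  have h0 : (t : ZMod 35) * z ≠ 0 := hu.ne_zero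
  unfold saw
  rw [if_neg h0, ZMod.val_mul, ZMod.val_natCast, Nat.mod_mul_mod]
  norm_num

theorem cop (z : ZMod 35) (hz : IsUnit z) : Nat.gcd z.val 35 = 1 := by
  have h1 : ((z.val : ℕ) : ZMod 35) = z := ZMod.natCast_zmod_val z
  rw [← h1] at hz
  exact (ZMod.isUnit_iff_coprime z.val 35).1 hz

theorem rel_t {s : Multiset (ZMod 35)} (hs : ∀ z ∈ s, IsUnit z)
    (hr : Rel (fun z : ZMod 35 => (s.count z : ℤ))) (t : ℕ) (ht : Nat.Coprime t 35) :
    (s.map fun z => 2 * ((t * z.val % 35 : ℕ) : ℤ) - 35).sum = 0 := by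
  have h1 := hr (ZMod.unitOfCoprime t ht)
  rw [ZMod.coe_unitOfCoprime] at h1
  have h2 := sum_count s (fun z => saw ((t : ZMod 35) * z))
  simp only [smul_eq_mul] at h2
  rw [h1] at h2
  rw [h2]
  exact congrArg Multiset.sum (Multiset.map_congr rfl fun z hz => (saw_val t ht z (hs z hz)).symm)

theorem rel_L {s : Multiset (ZMod 35)} (hs : ∀ z ∈ s, IsUnit z)
    (hr : Rel (fun z : ZMod 35 => (s.count z : ℤ))) (L : List (ℕ × ℤ))
    (hL : ∀ p ∈ L, Nat.Coprime p.1 35) :
    (s.map fun z => (L.map fun p => p.2 * (2 * ((p.1 * z.val % 35 : ℕ) : ℤ) - 35)).sum).sum =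
      0 := by
  induction L with
  | nil => simp
  | cons p L ih =>
    simp only [List.map_cons, List.sum_cons]
    rw [Multiset.sum_map_add, Multiset.sum_map_mul_left,
      rel_t hs hr p.1 (hL p List.mem_cons_self), mul_zero, zero_add]
    exact ih fun q hq => hL q (List.mem_cons_of_mem _ hq)

end FinH6

open FinH6 in
/-- (H4) -/
theorem finH_ok : S_finH := by
  intro s hs hu hr
  by_contra hcon
  push Not at hcon
  have hhit : ∀ i j : ℕ, (i = 1 ∨ i = 2) → (j = 1 ∨ j = 2 ∨ j = 3) →
      1 ≤ (s.map fun z => if cl i j z.val then 1 else 0).sum := by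
    intro i j hi hj
    obtain ⟨z, hz, h1, h2⟩ := hcon i j hi hj
    have h3 : cl i j z.val = true := by
      unfold cl
      simp only [Bool.and_eq_true, Bool.or_eq_true, beq_iff_eq]
      exact ⟨h1, h2⟩
    refine Multiset.single_le_sum (fun x _ => Nat.zero_le x) _ ?_
    rw [Multiset.mem_map]
    exact ⟨z, hz, if_pos h3⟩
  have h11 := hhit 1 1 (Or.inl rfl) (Or.inl rfl)
  have h12 := hhit 1 2 (Or.inl rfl) (Or.inr (Or.inl rfl))
  have h13 := hhit 1 3 (Or.inl rfl) (Or.inr (Or.inr rfl))
  have h21 := hhit 2 1 (Or.inr rfl) (Or.inl rfl)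
  have h22 := hhit 2 2 (Or.inr rfl) (Or.inr (Or.inl rfl))
  have h23 := hhit 2 3 (Or.inr rfl) (Or.inr (Or.inr rfl))
  -- the number of the elements
  have hcard : (s.map fun z => (1 : ℕ)).sum = 6 := by
    rw [Multiset.map_const', Multiset.sum_replicate, hs]
    rfl
  have hsum : (s.map fun z => (1 : ℕ)).sum =
      (s.map fun z => if cl 1 1 z.val then 1 else 0).sum +
      ((s.map fun z => if cl 1 2 z.val then 1 else 0).sum +
      ((s.map fun z => if cl 1 3 z.val then 1 else 0).sum +
      ((s.map fun z => if cl 2 1 z.val then 1 else 0).sum +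
      ((s.map fun z => if cl 2 2 z.val then 1 else 0).sum +
      (s.map fun z => if cl 2 3 z.val then 1 else 0).sum)))) := by
    simp only [← Multiset.sum_map_add]
    exact congrArg Multiset.sum (Multiset.map_congr rfl fun z hz =>
      (cl_spec z.val (ZMod.val_lt z) (cop z (hu z hz))).symm)
  -- parity
  have hg := rel_L hu hr kl kl_cop
  have hq : (s.map fun z => (140 * (gN z.val / 140) +
      70 * (if cl 1 1 z.val then (1 : ℤ) else 0))).sum = 0 := by
    refine Eq.trans ?_ hg
    refine congrArg Multiset.sum (Multiset.map_congr rfl fun z hz => ?_)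
    have h1 := gN_spec z.val (ZMod.val_lt z) (cop z (hu z hz))
    have h2 := Int.mul_ediv_add_emod (gN z.val) 140
    rw [h1] at h2
    have h3 : (70 * (if cl 1 1 z.val then (1 : ℤ) else 0)) =
        if cl 1 1 z.val then 70 else 0 := by split_ifs <;> norm_num
    rw [h3]
    exact h2
  rw [Multiset.sum_map_add, Multiset.sum_map_mul_left, Multiset.sum_map_mul_left] at hq
  have hcast : (s.map fun z => (if cl 1 1 z.val then (1 : ℤ) else 0)).sum =
      (((s.map fun z => if cl 1 1 z.val then 1 else 0).sum : ℕ) : ℤ) := by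
    rw [← Nat.coe_castAddMonoidHom, map_multiset_sum, Multiset.map_map]
    refine congrArg Multiset.sum (Multiset.map_congr rfl fun z _ => ?_)
    simp
  rw [hcast] at hq
  omega

namespace ExcH6

variable {m : ℕ} [NeZero m]

theorem hE_val (C : Co m) (u : ∀ q : m.primeFactors, HH m q) (q : m.primeFactors) :
    ((u q : HH m q) : ZMod (q.1 ^ m.factorization q.1)).val % q.1 =
      ((C.E u : (ZMod m)ˣ) : ZMod m).val % q.1 := by
  have hq := Nat.prime_of_mem_primeFactors q.2
  have h1 := Pool.Agent.NH35.HK.Nrel.cast_E C u q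
  rw [Int.cast_natCast] at h1
  rw [← h1, ZMod.val_natCast]
  apply Nat.mod_mod_of_dvd
  have h2 : 0 < m.factorization q.1 := hq.factorization_pos_of_dvd (NeZero.ne m)
    (Nat.dvd_of_mem_primeFactors q.2)
  exact dvd_pow_self q.1 h2.ne'

theorem ord_val {z : ZMod m} {k : ℕ} (hk : k * 35 = m) (h : addOrderOf z = 35) :
    ∃ v : ℕ, z.val = k * v ∧ v < 35 ∧ v.Coprime 35 := by
  have hm : m ≠ 0 := NeZero.ne m
  have hord : addOrderOf z = m / m.gcd z.val := by
    conv_lhs => rw [← ZMod.natCast_zmod_val z]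
    exact ZMod.addOrderOf_coe _ hm
  obtain ⟨g, hg⟩ : ∃ g, g = m.gcd z.val := ⟨_, rfl⟩
  rw [← hg] at hord
  have hdm : g ∣ m := hg ▸ Nat.gcd_dvd_left _ _
  have hgk : g = k := by
    have h1 : m / g = 35 := by rw [← hord, h]
    have h2 : m = 35 * g := by
      rw [← h1]; exact (Nat.div_mul_cancel hdm).symm
    omega
  have hk0 : 0 < k := by
    rcases Nat.eq_zero_or_pos k with h0 | h0
    · rw [h0, zero_mul] at hk
      exact absurd hk.symm hm
    · exact h0
  obtain ⟨v, hv⟩ : k ∣ z.val := by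
    rw [← hgk, hg]
    exact Nat.gcd_dvd_right _ _
  refine ⟨v, hv, ?_, ?_⟩
  · have h1 := ZMod.val_lt z
    rw [hv, ← hk] at h1
    exact lt_of_mul_lt_mul_left h1 (Nat.zero_le k)
  · have h1 : k * Nat.gcd 35 v = k * 1 := by
      rw [← Nat.gcd_mul_left, hk, ← hv, ← hg, hgk, mul_one]
    have h2 := Nat.eq_of_mul_eq_mul_left hk0 h1
    exact Nat.Coprime.symm h2

theorem saw_lift {k : ℕ} (hk : k * 35 = m) (t : (ZMod m)ˣ) (t0 : (ZMod 35)ˣ)
    (ht : ZMod.unitsMap (Dvd.intro_left k hk) t = t0) {z : ZMod m} {v : ℕ} (hv : z.val = k * v)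
    (hv1 : v.Coprime 35) :
    saw ((t : ZMod m) * z) = k * saw ((t0 : ZMod 35) * (v : ZMod 35)) := by
  have hm : m ≠ 0 := NeZero.ne m
  have hk0 : k ≠ 0 := fun h => hm (by rw [← hk, h, zero_mul])
  have ht' : (t0 : ZMod 35) = (((t : ZMod m).val : ℕ) : ZMod 35) := by
    rw [← ht, ZMod.unitsMap_val, ZMod.natCast_val]
  have h1 : (t0 : ZMod 35) * (v : ZMod 35) = (((t : ZMod m).val * v : ℕ) : ZMod 35) := by
    rw [ht']; push_cast; rfl
  have h2 : (t : ZMod m) * z = ((k * ((t : ZMod m).val * v) : ℕ) : ZMod m) := by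
    conv_lhs => rw [← ZMod.natCast_zmod_val z, hv]
    push_cast
    rw [ZMod.natCast_zmod_val]
    ring
  have h3 : ((t : ZMod m) * z).val = k * ((t0 : ZMod 35) * (v : ZMod 35)).val := by
    have g : ∀ a : ℕ, k * a % m = k * (a % 35) := fun a => by rw [← hk, Nat.mul_mod_mul_left]
    rw [h1, h2, ZMod.val_natCast, ZMod.val_natCast, g]
  have hne : (t0 : ZMod 35) * (v : ZMod 35) ≠ 0 := by
    have hun : IsUnit ((t0 : ZMod 35) * (v : ZMod 35)) :=
      t0.isUnit.mul ((ZMod.isUnit_iff_coprime v 35).2 hv1)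
    haveI : Fact (1 < 35) := ⟨by norm_num⟩
    exact hun.ne_zero
  have hne' : (t : ZMod m) * z ≠ 0 := by
    intro h0
    rw [h0, ZMod.val_zero] at h3
    rcases Nat.mul_eq_zero.1 h3.symm with h4 | h4
    · exact hk0 h4
    · exact hne ((ZMod.val_eq_zero _).1 h4)
  unfold saw
  rw [if_neg hne, if_neg hne', h3]
  have hm' : (m : ℤ) = k * 35 := by rw [← hk]; push_cast; rfl
  rw [hm']
  push_cast
  ring

end ExcH6

open ExcH6 in
/-- (H5) -/
theorem excH_of (h1 : S_finH) (h2 : S_path) (h3 : S_revF) : S_excH := by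
  classical
  intro m _ hpf s hs hord hrel C I _ hI2 hIe
  have hm0 : m ≠ 0 := NeZero.ne m
  have p5 : 5 ∈ m.primeFactors := by rw [hpf]; decide
  have p7 : 7 ∈ m.primeFactors := by rw [hpf]; decide
  have h35 : 35 ∣ m := by
    have e5 := Nat.dvd_of_mem_primeFactors p5
    have e7 := Nat.dvd_of_mem_primeFactors p7
    exact Nat.Coprime.mul_dvd_of_dvd_of_dvd (by norm_num) e5 e7
  obtain ⟨k, hk'⟩ := h35
  have hk : k * 35 = m := by rw [hk', mul_comm]
  have hk0 : 0 < k := Nat.pos_of_ne_zero fun h => hm0 (by rw [← hk, h, zero_mul])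
  -- `I` is everything
  have hcu : (univ : Finset m.primeFactors).card = 2 := by
    rw [Finset.card_univ, Fintype.card_coe, hpf]; rfl
  have hIu : I = univ := Finset.eq_of_subset_of_card_le (subset_univ _) (by rw [hcu]; exact hI2)
  subst hIu
  -- the entries
  have hA : Adm m := by
    left
    have h2m : ¬ 2 ∣ m := by
      intro h
      have : 2 ∈ m.primeFactors := Nat.mem_primeFactors.2 ⟨Nat.prime_two, h, hm0⟩
      rw [hpf] at this
      revert this
      decide
    exact Nat.not_even_iff_odd.1 fun h => h2m h.two_dvd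
  obtain ⟨s0, hs0⟩ : ∃ s0 : Multiset (ZMod 35), s0 = s.map fun z => ((z.val / k : ℕ) : ZMod 35) :=
    ⟨_, rfl⟩
  have hval : ∀ z ∈ s, ∃ v : ℕ, z.val = k * v ∧ v < 35 ∧ v.Coprime 35 ∧ z.val / k = v := by
    intro z hz
    obtain ⟨v, e1, e2, e3⟩ := ord_val hk (hord z hz)
    exact ⟨v, e1, e2, e3, by rw [e1, Nat.mul_div_cancel_left _ hk0]⟩
  have hrel0 : Rel (fun z : ZMod 35 => (s0.count z : ℤ)) := by
    intro t0
    obtain ⟨t, ht⟩ := ZMod.unitsMap_surjective (Dvd.intro_left k hk) t0
    have e1 := hrel t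
    have e2 := sum_count s (fun z => saw ((t : ZMod m) * z))
    have e3 := sum_count s0 (fun z => saw ((t0 : ZMod 35) * z))
    simp only [smul_eq_mul] at e2 e3
    rw [e1] at e2
    rw [e3, hs0, Multiset.map_map]
    have e4 : (s.map fun z => saw ((t : ZMod m) * z)).sum = k * (s.map
        ((fun z => saw ((t0 : ZMod 35) * z)) ∘ fun z => ((z.val / k : ℕ) : ZMod 35))).sum := by
      rw [← Multiset.sum_map_mul_left]
      refine congrArg Multiset.sum (Multiset.map_congr rfl fun z hz => ?_)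
      obtain ⟨v, f1, f2, f3, f4⟩ := hval z hz
      rw [Function.comp_apply, f4]
      exact saw_lift hk t t0 ht f1 f3
    rw [← e2] at e4
    have hkZ : (k : ℤ) ≠ 0 := by exact_mod_cast hk0.ne'
    exact (mul_eq_zero.1 e4.symm).resolve_left hkZ
  obtain ⟨i, j, hi, hj, hij⟩ := h1 s0 (by rw [hs0, Multiset.card_map, hs]) (by
    intro z hz
    rw [hs0, Multiset.mem_map] at hz
    obtain ⟨x, hx, rfl⟩ := hz
    obtain ⟨v, f1, f2, f3, f4⟩ := hval x hx
    rw [f4]
    exact (ZMod.isUnit_iff_coprime v 35).2 f3) hrel0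
  -- the cell
  have hcop : ∀ q : m.primeFactors, (if q.1 = 5 then i else if q.1 = 7 then j else 1).Coprime
      (q.1 ^ m.factorization q.1) := by
    intro q
    apply Nat.Coprime.pow_right
    by_cases h5 : q.1 = 5
    · rw [if_pos h5, h5]
      rcases hi with rfl | rfl <;> decide
    · rw [if_neg h5]
      by_cases h7 : q.1 = 7
      · rw [if_pos h7, h7]
        rcases hj with rfl | rfl | rfl <;> decide
      · rw [if_neg h7]
        exact Nat.coprime_one_left _
  obtain ⟨w, hw⟩ : ∃ w : ∀ q : m.primeFactors, HH m q, ∀ q, w q =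
      ZMod.unitOfCoprime (if q.1 = 5 then i else if q.1 = 7 then j else 1) (hcop q) :=
    ⟨fun q => ZMod.unitOfCoprime _ (hcop q), fun q => rfl⟩
  obtain ⟨hF, hO⟩ := h2 m.primeFactors (HH m) C.d (fun q => q.1) Subtype.val_injective univ
    ⟨5, p5⟩ w hI2 (insert_eq_self.2 (mem_univ _))
  obtain ⟨hD, hS⟩ := h3 m hA C (ZMod 2) (ps C.d (fun q => q.1) univ ⟨5, p5⟩ w) hF hO
  refine ⟨w, ev C (ps C.d (fun q => q.1) univ ⟨5, p5⟩ w), hD, ?_, ?_, ?_⟩
  · intro A hAI
    rw [hS]
    funext u
    unfold ps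
    have hA1 : A ≠ univ := by
      rintro rfl; exact hAI subset_rfl
    rw [if_neg hA1, if_neg (by rw [insert_eq_self.2 (mem_univ _)]; exact hA1)]
    rfl
  · rw [hS]
    funext u
    unfold ps
    rw [if_pos rfl]
  · rw [sum_count s (ev C (ps C.d (fun q => q.1) univ ⟨5, p5⟩ w))]
    apply Multiset.sum_eq_zero
    intro y hy
    rw [Multiset.mem_map] at hy
    obtain ⟨z, hz, rfl⟩ := hy
    obtain ⟨v, f1, f2, f3, f4⟩ := hval z hz
    have hty : ty z = univ := by
      rw [eq_univ_iff_forall]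
      intro q
      unfold ty
      rw [mem_filter, hord z hz]
      refine ⟨mem_univ _, ?_⟩
      have hq' := (Finset.ext_iff.1 hpf q.1).1 q.2
      rw [mem_insert, mem_singleton] at hq'
      rcases hq' with e | e <;> rw [e] <;> decide
    unfold ev
    refine sum_eq_zero fun u _ => ?_
    by_cases hb : InBox C z u
    · rw [if_pos hb, hty]
      unfold ps
      rw [if_pos rfl]
      by_contra hne
      unfold fI at hne
      replace hne := prod_ne_zero_iff.1 hne
      have hU : v = ((C.E u : (ZMod m)ˣ) : ZMod m).val % 35 := by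
        have g1 := hb.1
        rw [hord z hz] at g1
        unfold en at g1
        have g2 : m / 35 = k := by rw [← hk]; exact Nat.mul_div_cancel _ (by norm_num)
        rw [g2] at g1
        have g3 : z = ((((C.E u : (ZMod m)ˣ) : ZMod m).val * k : ℕ) : ZMod m) := by
          rw [← g1]
          push_cast
          rw [ZMod.natCast_zmod_val]
        have g4 := congrArg ZMod.val g3
        rw [ZMod.val_natCast, f1, mul_comm _ k] at g4
        have g5 : ∀ a : ℕ, k * a % m = k * (a % 35) := fun a => by rw [← hk, Nat.mul_mod_mul_left]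
        rw [g5] at g4
        exact Nat.eq_of_mul_eq_mul_left hk0 g4
      have hco : ∀ q : m.primeFactors, ∀ a : ℕ, 0 < a → a < q.1 →
          (if q.1 = 5 then i else if q.1 = 7 then j else 1) = a →
          (((C.E u : (ZMod m)ˣ) : ZMod m).val % q.1 = a ∨
            ((C.E u : (ZMod m)ˣ) : ZMod m).val % q.1 = q.1 - a) := by
        intro q a ha0 haq ha
        have hq := Nat.prime_of_mem_primeFactors q.2
        have g0 : 0 < m.factorization q.1 := hq.factorization_pos_of_dvd hm0
          (Nat.dvd_of_mem_primeFactors q.2)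
        obtain ⟨N', hN'⟩ : q.1 ∣ q.1 ^ m.factorization q.1 := dvd_pow_self q.1 g0.ne'
        have hN0 : 0 < N' := by
          rcases Nat.eq_zero_or_pos N' with h0 | h0
          · rw [h0, mul_zero] at hN'
            exact absurd hN' (pow_ne_zero _ hq.ne_zero)
          · exact h0
        have haN : a < q.1 ^ m.factorization q.1 := by
          rw [hN']
          exact haq.trans_le (Nat.le_mul_of_pos_right _ hN0)
        rw [← hE_val C u q]
        have g1 := hne q (mem_univ _)
        unfold sg at g1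
        have g2 : u q = w q ∨ u q = C.d.κ q * w q := by
          by_contra h0
          rw [if_neg h0] at g1
          exact g1 rfl
        have hwv : ((w q : HH m q) : ZMod (q.1 ^ m.factorization q.1)) = (a : ZMod _) := by
          rw [hw q, ZMod.coe_unitOfCoprime, ha]
        rcases g2 with g2 | g2
        · left
          rw [g2, hwv, ZMod.val_cast_of_lt haN, Nat.mod_eq_of_lt haq]
        · right
          rw [g2, C.hκ q, Units.val_mul, Units.val_neg, Units.val_one, neg_one_mul, hwv]
          have g3 : (-(a : ZMod (q.1 ^ m.factorization q.1))) =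
              ((q.1 ^ m.factorization q.1 - a : ℕ) : ZMod (q.1 ^ m.factorization q.1)) := by
            rw [Nat.cast_sub haN.le, ZMod.natCast_self, zero_sub]
          rw [g3, ZMod.val_cast_of_lt (Nat.sub_lt (lt_trans ha0 haN) ha0), hN']
          obtain ⟨N'', rfl⟩ : ∃ N'', N' = N'' + 1 := ⟨N' - 1, by omega⟩
          have g4 : q.1 * (N'' + 1) - a = (q.1 - a) + q.1 * N'' := by
            rw [mul_add, mul_one]
            omega
          rw [g4, Nat.add_mul_mod_self_left, Nat.mod_eq_of_lt (by omega)]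
      have c5 := hco ⟨5, p5⟩ i (by omega) (by show i < 5; omega) (if_pos rfl)
      have c7 := hco ⟨7, p7⟩ j (by omega) (by show j < 7; omega) (by
        show (if (7 : ℕ) = 5 then i else if (7 : ℕ) = 7 then j else 1) = j
        rw [if_neg (by norm_num), if_pos rfl])
      have hz0 : ((v : ℕ) : ZMod 35) ∈ s0 := by
        rw [hs0, Multiset.mem_map]
        exact ⟨z, hz, by rw [f4]⟩
      apply hij _ hz0
      rw [ZMod.val_cast_of_lt f2, hU]
      have m5 : ((C.E u : (ZMod m)ˣ) : ZMod m).val % 35 % 5 =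
          ((C.E u : (ZMod m)ˣ) : ZMod m).val % 5 := Nat.mod_mod_of_dvd _ (by norm_num)
      have m7 : ((C.E u : (ZMod m)ˣ) : ZMod m).val % 35 % 7 =
          ((C.E u : (ZMod m)ˣ) : ZMod m).val % 7 := Nat.mod_mod_of_dvd _ (by norm_num)
      rw [m5, m7]
      exact ⟨c5, c7⟩
    · rw [if_neg hb]

end Pool.Agent.NH35.HQ
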