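import Pool.Agent.NH35.HQ.Stm2
import Pool.Agent.NH35.HG.Main

/-! Hodge classes on diagonal hypersurfaces of small dimension: the main theorem from its parts. -/

set_option autoImplicit false
set_option linter.unusedSectionVars false

namespace Pool.Agent.NH35.HQ

open Finset Pool.Agent.H916R2 Pool.Agent.H916K

/-- **The main theorem for Hodge classes.** -/
theorem main_hodge (hC : S_hodgeH) {m : ℕ} (h6 : m.Coprime 6) {s : Multiset (ZMod m)} (hs : s ≠ 0)
    (hH : IsHodge m s)
    (h3 : (m.primeFactors.filter fun p => p ≤ Multiset.card s + 1).card ≤ 3)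
    (h4 : Multiset.card s ≤ 6 ∨ ∀ p ∈ m.primeFactors.filter (fun p => p ≤ Multiset.card s + 1),
      ∀ q ∈ m.primeFactors.filter (fun p => p ≤ Multiset.card s + 1), p ≠ q →
        4 * Multiset.card s < (p - 1) * (q - 1)) :
    Generated m (fun _ => False) s := by
  classical
  have hmz : NeZero m := by
    refine ⟨?_⟩
    rintro rfl
    norm_num at h6
  have key := hC m (Multiset.card s) h6 h3 h4 s le_rfl hH.rel _ (cQ m (fun _ => False)) cQ_oddDist
  rw [cQ_sum, QuotientAddGroup.eq_zero_iff] at key
  exact generated_of_mem_LL (fun _ h => h.elim) (fun _ h => h.elim) hH.1 hH.2.1 hs key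

end Pool.Agent.NH35.HQ
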