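import Pool.Agent.NH35.HQ.Stm2
import Pool.Agent.H916R2.Relations

/-! Large primes can be removed, levels prime to six. -/

set_option autoImplicit false
set_option linter.unusedSectionVars false

namespace Pool.Agent.NH35.HQ

open Finset Pool.Agent.H916R2 Pool.Agent.NH35.HG Pool.Agent.NH35.HE Pool.Agent.NH35.HK

/-- in odd levels all elements are good -/
theorem gd_of_odd {m : ℕ} [NeZero m] (hm : Odd m) (z : ZMod m) : Gd z := by
  have hom : addOrderOf z ∣ m := by
    refine addOrderOf_dvd_of_nsmul_eq_zero ?_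
    rw [nsmul_eq_mul, ZMod.natCast_self, zero_mul]
  have h1 := Odd.of_dvd_nat hm hom
  unfold Gd
  rw [Nat.odd_iff] at h1
  omega

theorem odd_of_six {m : ℕ} (h6 : m.Coprime 6) : Odd m := by
  rw [Nat.odd_iff]
  by_contra h
  have h2 : 2 ∣ m := by omega
  have h3 : 2 ∣ Nat.gcd m 6 := Nat.dvd_gcd h2 (by norm_num)
  rw [h6] at h3
  omega

theorem prime_six {m p : ℕ} (h6 : m.Coprime 6) (hp : p.Prime) (hpm : p ∣ m) :
    p ≠ 2 ∧ p ≠ 3 ∧ 3 < p := by
  have h : ¬ p ∣ 6 := by
    intro h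
    have h3 : p ∣ Nat.gcd m 6 := Nat.dvd_gcd hpm h
    rw [h6] at h3
    exact hp.one_lt.ne' (Nat.dvd_one.1 h3)
  have h2 : p ≠ 2 := by
    rintro rfl
    exact h (by norm_num)
  have h3 : p ≠ 3 := by
    rintro rfl
    exact h (by norm_num)
  have h4 := hp.two_le
  exact ⟨h2, h3, by omega⟩

theorem remH_of (h1 : S_concB) : S_remH := by
  classical
  intro m ℓ _ h6 hℓ hℓm s hcard hrel
  have hodd := odd_of_six h6
  obtain ⟨e, he, hf⟩ := h1 m ℓ (Or.inl hodd) hℓ hℓm (prime_six h6 hℓ hℓm).2.2 s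
    (fun z _ => gd_of_odd hodd z) hcard hrel
  have hA : ∀ (Q : Type) [AddCommGroup Q] (c : ZMod m → Q), OddDist c →
      ((s.filter fun z => ℓ ∣ addOrderOf z).map c).sum = 0 := by
    intro Q _ c hc
    rw [hf Q c hc]
    refine Finset.sum_eq_zero fun q hq => ?_
    have hq' := Finset.mem_of_mem_erase hq
    obtain ⟨h2, h3, _⟩ := prime_six h6 (Nat.prime_of_mem_primeFactors hq')
      (Nat.dvd_of_mem_primeFactors hq')
    rw [he q h2 h3, zero_smul]
  refine ⟨hA, ?_⟩
  intro t
  have hc : OddDist (fun a : ZMod m => saw ((t : ZMod m) * a)) :=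
    { neg := fun a => by rw [mul_neg, saw_neg]
      half := fun a ha => saw_half (by rw [← mul_add, ha, mul_zero])
      dist := fun p d _ hpd a => saw_dist_unit hpd t a }
  have h3 := sum_count (s.filter fun z => ¬ ℓ ∣ addOrderOf z) (fun a => saw ((t : ZMod m) * a))
  have h4 := Multiset.filter_add_not (fun z => ℓ ∣ addOrderOf z) s
  have h5 : (s.map fun a => saw ((t : ZMod m) * a)).sum =
      ((s.filter fun z => ¬ ℓ ∣ addOrderOf z).map fun a => saw ((t : ZMod m) * a)).sum := by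
    conv_lhs => rw [← h4]
    rw [Multiset.map_add, Multiset.sum_add, hA ℤ _ hc, zero_add]
  rw [← h5, ← sum_count] at h3
  have h6' := hrel t
  simp only [smul_eq_mul] at h3
  exact h3.trans h6'

end Pool.Agent.NH35.HQ
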