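import Pool.Agent.NH35.HQ.OddQ
import Pool.Agent.NH35.HQ.RemH
import Pool.Agent.NH35.HK.Lev

/-! The combinatorial theorem for levels prime to six. -/

set_option autoImplicit false
set_option linter.unusedSectionVars false

namespace Pool.Agent.NH35.HQ

open Finset Pool.Agent.H916R2 Pool.Agent.NH35.HG Pool.Agent.NH35.HE Pool.Agent.NH35.HK

/-- bound of the weight by bounds for the products -/
lemma wt90 {m : ℕ} (I : Finset m.primeFactors) (z : ZMod m) (g : ℕ → ℕ) (w : ℚ) (hw : 0 ≤ w)
    (hg : ∀ q : m.primeFactors, q ∈ ty z → 0 < g q.1 ∧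
      g q.1 ≤ Nat.totient (q.1 ^ (addOrderOf z).factorization q.1))
    (h1 : ty z = I → 4 ≤ w * (∏ q ∈ I.map (Function.Embedding.subtype _), g q : ℕ))
    (h2 : ty z = univ → I ≠ univ → 16 ≤ w * (∏ q ∈ m.primeFactors, g q : ℕ)) : wt2 I z ≤ w := by
  classical
  unfold wt2
  split_ifs with h3 h4
  · have h5 : (∏ q ∈ I.map (Function.Embedding.subtype _), g q) ≤
        ∏ q ∈ I, Nat.totient (q.1 ^ (addOrderOf z).factorization q.1) := by
      rw [← prodty63]
      exact prod_le_prod' fun q hq => (hg q (h3 ▸ hq)).2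
    have h6 : 0 < ∏ q ∈ I, Nat.totient (q.1 ^ (addOrderOf z).factorization q.1) :=
      prod_pos fun q hq => (hg q (h3 ▸ hq)).1.trans_le (hg q (h3 ▸ hq)).2
    have h7 : (0 : ℚ) < ∏ q ∈ I, (Nat.totient (q.1 ^ (addOrderOf z).factorization q.1) : ℚ) := by
      exact_mod_cast h6
    rw [div_le_iff₀ h7]
    have h8 : ((∏ q ∈ I.map (Function.Embedding.subtype _), g q : ℕ) : ℚ) ≤
        ∏ q ∈ I, (Nat.totient (q.1 ^ (addOrderOf z).factorization q.1) : ℚ) := by
      exact_mod_cast h5
    exact (h1 h3).trans (mul_le_mul_of_nonneg_left h8 hw)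
  · have h3' : I ≠ univ := fun h => h3 (h4.trans h.symm)
    have h5 : (∏ q ∈ m.primeFactors, g q) ≤
        ∏ q : m.primeFactors, Nat.totient (q.1 ^ (addOrderOf z).factorization q.1) := by
      rw [← produniv63]
      exact prod_le_prod' fun q _ => (hg q (h4 ▸ mem_univ q)).2
    have h6 : 0 < ∏ q : m.primeFactors, Nat.totient (q.1 ^ (addOrderOf z).factorization q.1) :=
      prod_pos fun q _ => (hg q (h4 ▸ mem_univ q)).1.trans_le (hg q (h4 ▸ mem_univ q)).2
    have h7 : (0 : ℚ) < ∏ q : m.primeFactors,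
        (Nat.totient (q.1 ^ (addOrderOf z).factorization q.1) : ℚ) := by
      exact_mod_cast h6
    rw [div_le_iff₀ h7]
    have h8 : ((∏ q ∈ m.primeFactors, g q : ℕ) : ℚ) ≤
        ∏ q : m.primeFactors, (Nat.totient (q.1 ^ (addOrderOf z).factorization q.1) : ℚ) := by
      exact_mod_cast h5
    exact (h2 h4 h3').trans (mul_le_mul_of_nonneg_left h8 hw)
  · exact hw

/-- the order of an element of full type whose Euler product is minimal -/
lemma ord35_90 {m : ℕ} [NeZero m] {z : ZMod m} (hP : m.primeFactors = {5, 7})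
    (hd : ∀ q ∈ m.primeFactors, q ∣ addOrderOf z) (hne : addOrderOf z ≠ 35) :
    48 ≤ ∏ q ∈ m.primeFactors, Nat.totient (q ^ (addOrderOf z).factorization q) := by
  have ho : addOrderOf z ≠ 0 := by
    have : Finite (ZMod m) := inferInstance
    exact (addOrderOf_pos z).ne'
  have hom : addOrderOf z ∣ m := by
    refine addOrderOf_dvd_of_nsmul_eq_zero ?_
    rw [nsmul_eq_mul, ZMod.natCast_self, zero_mul]
  rw [hP] at hd ⊢
  have d5 : 5 ∣ addOrderOf z := hd 5 (by decide)
  have d7 : 7 ∣ addOrderOf z := hd 7 (by decide)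
  have v5 := Nat.prime_five.factorization_pos_of_dvd ho d5
  have p7 : Nat.Prime 7 := by norm_num
  have v7 := p7.factorization_pos_of_dvd ho d7
  have hpf : (addOrderOf z).primeFactors ⊆ {5, 7} := by
    rw [← hP]
    exact Nat.primeFactors_mono hom (NeZero.ne m)
  have hn : addOrderOf z =
      5 ^ (addOrderOf z).factorization 5 * 7 ^ (addOrderOf z).factorization 7 := by
    have e1 := Nat.prod_factorization_pow_eq_self ho
    have e2 : ∏ p ∈ ({5, 7} : Finset ℕ), p ^ (addOrderOf z).factorization p =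
        (addOrderOf z).factorization.prod (fun p k => p ^ k) := by
      rw [Finsupp.prod]
      refine (prod_subset (by simpa using hpf) ?_).symm
      intro p _ hp
      rw [Finsupp.notMem_support_iff] at hp
      rw [hp, pow_zero]
    rw [← e2] at e1
    rw [prod_insert (by decide), prod_singleton] at e1
    exact e1.symm
  rw [prod_insert (by decide), prod_singleton, Nat.totient_prime_pow Nat.prime_five v5,
      Nat.totient_prime_pow p7 v7]
  obtain ⟨c, hc⟩ : ∃ c, (addOrderOf z).factorization 5 = c + 1 := ⟨_, (Nat.sub_add_cancel v5).symm⟩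
  obtain ⟨d, hd'⟩ : ∃ d, (addOrderOf z).factorization 7 = d + 1 := ⟨_, (Nat.sub_add_cancel v7).symm⟩
  rw [hc, hd'] at hn ⊢
  rw [Nat.add_sub_cancel, Nat.add_sub_cancel]
  have hsome : 0 < c ∨ 0 < d := by
    by_contra hcon
    push Not at hcon
    obtain ⟨h3, h4⟩ := hcon
    have c0 : c = 0 := by omega
    have d0 : d = 0 := by omega
    rw [c0, d0] at hn
    exact hne (hn.trans (by norm_num))
  have p5 : 1 ≤ 5 ^ c := Nat.one_le_pow _ _ (by norm_num)
  have p7' : 1 ≤ 7 ^ d := Nat.one_le_pow _ _ (by norm_num)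
  have key : 2 ≤ 5 ^ c * 7 ^ d := by
    have q5 : 0 < c → 2 ≤ 5 ^ c := fun h => by
      calc 2 ≤ 5 ^ 1 := by norm_num
        _ ≤ 5 ^ c := Nat.pow_le_pow_right (by norm_num) h
    have q7 : 0 < d → 2 ≤ 7 ^ d := fun h => by
      calc 2 ≤ 7 ^ 1 := by norm_num
        _ ≤ 7 ^ d := Nat.pow_le_pow_right (by norm_num) h
    rcases hsome with h | h
    · calc 2 = 2 * 1 := by norm_num
        _ ≤ _ := Nat.mul_le_mul (q5 h) p7'
    · calc 2 = 1 * 2 := by norm_num
        _ ≤ _ := Nat.mul_le_mul p5 (q7 h)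
  have e9 : 5 ^ c * (5 - 1) * (7 ^ d * (7 - 1)) = 24 * (5 ^ c * 7 ^ d) := by
    norm_num
    ring
  rw [e9]
  omega

/-- the condition modulo two -/
lemma c2a90 (h4 : S_c2) (h5 : S_excH) (m k : ℕ) [NeZero m] (h6 : m.Coprime 6) (hk : 2 ≤ k)
    (hc3 : m.primeFactors.card ≤ 3) (hle : ∀ p ∈ m.primeFactors, p ≤ k + 1)
    (hcase : k ≤ 6 ∨ ∀ p ∈ m.primeFactors, ∀ q ∈ m.primeFactors, p ≠ q →
      4 * k < (p - 1) * (q - 1))
    (s : Multiset (ZMod m)) (hs : Multiset.card s ≤ k)
    (hR : Rel (fun z : ZMod m => (s.count z : ℤ))) :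
    C2 univ (fun z : ZMod m => (s.count z : ℤ)) := by
  classical
  have hodd := odd_of_six h6
  by_cases hex : m.primeFactors = {5, 7} ∧ Multiset.card s = 6 ∧ ∀ z ∈ s, addOrderOf z = 35
  · exact h5 m hex.1 s hex.2.1 hex.2.2 hR
  refine h4 m (Or.inl hodd) hc3 s fun I hI => ?_
  have hcu : (univ : Finset m.primeFactors).card = m.primeFactors.card := by
    rw [card_univ, Fintype.card_coe]
  obtain ⟨J, hJ⟩ : ∃ J, J = I.map (Function.Embedding.subtype _) := ⟨_, rfl⟩
  have hJs : J ⊆ m.primeFactors := by rw [hJ]; exact map63 I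
  have hJc : J.card = 2 := by rw [hJ, card_map, hI]
  have hpr : ∀ q ∈ m.primeFactors, q.Prime ∧ 5 ≤ q := by
    intro q hq
    have hqp := Nat.prime_of_mem_primeFactors hq
    obtain ⟨a, b, c⟩ := prime_six h6 hqp (Nat.dvd_of_mem_primeFactors hq)
    refine ⟨hqp, ?_⟩
    rcases Nat.lt_or_ge q 5 with h | h
    · exfalso
      have : q = 4 := by omega
      subst this
      exact absurd hqp (by norm_num)
    · exact h
  have hg : ∀ z : ZMod m, ∀ q : m.primeFactors, q ∈ ty z → 0 < q.1 - 1 ∧
      q.1 - 1 ≤ Nat.totient (q.1 ^ (addOrderOf z).factorization q.1) := by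
    intro z q hq
    have hqp := Nat.prime_of_mem_primeFactors q.2
    exact ⟨Nat.sub_pos_of_lt hqp.one_lt, totodd63 hqp (mem_ty63.1 hq)⟩
  rcases hcase with hk6 | hpq
  · -- few elements
    have hP57 : m.primeFactors ⊆ {5, 7} := by
      intro q hq
      obtain ⟨hqp, hq5⟩ := hpr q hq
      have hq7 : q ≤ 7 := (hle q hq).trans (by omega)
      have hq6 : q ≠ 6 := by
        rintro rfl
        exact absurd hqp (by norm_num)
      have : q = 5 ∨ q = 7 := by omega
      rcases this with rfl | rfl
      · decide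
      · decide
    have hJe : J = {5, 7} := eq_of_subset_of_card_le (hJs.trans hP57) (by rw [hJc]; decide)
    have hPe : m.primeFactors = {5, 7} := Subset.antisymm hP57 (hJe ▸ hJs)
    have hIU : I = univ := by
      refine eq_univ_of_card I ?_
      have e1 : m.primeFactors.card = 2 := by rw [hPe]; decide
      rw [card_univ] at hcu
      omega
    have hp24 : ∏ q ∈ J, (q - 1) = 24 := by
      rw [hJe]
      decide
    have hw : ∀ z ∈ s, wt2 I z ≤ 1 / 6 := by
      intro z _
      refine wt90 I z (fun q => q - 1) (1 / 6) (by norm_num) (hg z) (fun _ => ?_) fun _ hne =>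
        absurd hIU hne
      rw [← hJ, hp24]
      norm_num
    rcases Nat.lt_or_ge (Multiset.card s) 6 with hlt | hge
    · have h7 := Multiset.sum_le_card_nsmul (s.map (wt2 I)) (1 / 6) (by
        intro x hx
        rw [Multiset.mem_map] at hx
        obtain ⟨z, hz, rfl⟩ := hx
        exact hw z hz)
      rw [Multiset.card_map, nsmul_eq_mul] at h7
      have h8 : (Multiset.card s : ℚ) ≤ 5 := by exact_mod_cast (by omega : Multiset.card s ≤ 5)
      linarith
    · have hs6 : Multiset.card s = 6 := by omega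
      have hnot : ¬ ∀ z ∈ s, addOrderOf z = 35 := fun h => hex ⟨hPe, hs6, h⟩
      push Not at hnot
      obtain ⟨z0, hz0, hne0⟩ := hnot
      obtain ⟨s1, hs1⟩ := Multiset.exists_cons_of_mem hz0
      have hc1 : Multiset.card s1 = 5 := by
        rw [hs1, Multiset.card_cons] at hs6
        omega
      have hw0 : wt2 I z0 ≤ 1 / 12 := by
        unfold wt2
        split_ifs with h7 h8
        · have h9 : (48 : ℚ) ≤ ∏ q ∈ I,
              (Nat.totient (q.1 ^ (addOrderOf z0).factorization q.1) : ℚ) := by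
            have h10 := ord35_90 (z := z0) hPe (by
              intro q hq
              have h11 : (⟨q, hq⟩ : m.primeFactors) ∈ ty z0 := by
                rw [h7, hIU]
                exact mem_univ _
              exact mem_ty63.1 h11) hne0
            rw [← produniv63 (m := m) (fun q => Nat.totient (q ^ (addOrderOf z0).factorization q)),
              ← hIU] at h10
            exact_mod_cast h10
          rw [div_le_iff₀ (by linarith)]
          linarith
        · exact absurd (h8.trans hIU.symm) h7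
        · norm_num
      rw [hs1, Multiset.map_cons, Multiset.sum_cons]
      have h5 := Multiset.sum_le_card_nsmul (s1.map (wt2 I)) (1 / 6) (by
        intro a ha
        rw [Multiset.mem_map] at ha
        obtain ⟨z, hz, rfl⟩ := ha
        exact hw z (by rw [hs1]; exact Multiset.mem_cons_of_mem hz))
      rw [Multiset.card_map, hc1, nsmul_eq_mul] at h5
      norm_num at h5 hw0 ⊢
      linarith
  · -- the general case
    obtain ⟨PI, hPI⟩ : ∃ PI, PI = ∏ q ∈ J, (q - 1) := ⟨_, rfl⟩
    have hIP : 4 * k < PI := by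
      obtain ⟨a, b, hab, he⟩ := card_eq_two.1 hJc
      rw [hPI, he, prod_pair hab]
      exact hpq a (hJs (by rw [he]; simp)) b (hJs (by rw [he]; simp)) hab
    have hUP : I ≠ univ → 4 * PI ≤ ∏ q ∈ m.primeFactors, (q - 1) := by
      intro hne
      have hJne : J ≠ m.primeFactors := by
        intro h
        apply hne
        refine eq_univ_of_card I ?_
        have e1 : m.primeFactors.card = 2 := by rw [← h, hJc]
        rw [card_univ] at hcu
        omega
      obtain ⟨r, hr, hrJ⟩ := exists_of_ssubset (hJs.ssubset_of_ne hJne)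
      have h7 : ∏ q ∈ insert r J, (q - 1) ≤ ∏ q ∈ m.primeFactors, (q - 1) := by
        refine prod_le_prod_of_subset_of_one_le' (insert_subset hr hJs) fun q hq _ => ?_
        have := (hpr q hq).2
        omega
      rw [prod_insert hrJ, ← hPI] at h7
      have h8 := (hpr r hr).2
      have h9 : 4 * PI ≤ (r - 1) * PI := Nat.mul_le_mul_right _ (by omega)
      exact h9.trans h7
    have hPI0 : (0 : ℚ) < PI := by exact_mod_cast (by omega : 0 < PI)
    have hkw : (k : ℚ) * (4 / PI) < 1 := by
      rw [← mul_div_assoc, div_lt_one hPI0]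
      have : (4 * k : ℚ) < PI := by exact_mod_cast hIP
      linarith
    have hw0 : (0 : ℚ) ≤ 4 / PI := by positivity
    have hwt : ∀ z ∈ s, wt2 I z ≤ 4 / PI := by
      intro z _
      refine wt90 I z (fun q => q - 1) (4 / PI) hw0 (hg z) (fun _ => ?_) fun _ hne => ?_
      · rw [← hJ, ← hPI, div_mul_cancel₀ _ hPI0.ne']
      · have h7 : ((4 * PI : ℕ) : ℚ) ≤ ((∏ q ∈ m.primeFactors, (q - 1) : ℕ) : ℚ) := by
          exact_mod_cast hUP hne
        have h8 : (16 : ℚ) = 4 / PI * ((4 * PI : ℕ) : ℚ) := by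
          push_cast
          field_simp
          norm_num
        rw [h8]
        exact mul_le_mul_of_nonneg_left h7 hw0
    have h7 := Multiset.sum_le_card_nsmul (s.map (wt2 I)) (4 / PI) (by
      intro x hx
      rw [Multiset.mem_map] at hx
      obtain ⟨z, hz, rfl⟩ := hx
      exact hwt z hz)
    rw [Multiset.card_map, nsmul_eq_mul] at h7
    have h8 : (Multiset.card s : ℚ) * (4 / PI) ≤ k * (4 / PI) :=
      mul_le_mul_of_nonneg_right (by exact_mod_cast hs) hw0
    linarith

theorem hodgeH_of (h1 : S_remH) (h3 : S_coreH) (h4 : S_c2) (h5 : S_excH) : S_hodgeH := by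
  intro m k _ h6 hcard3 hcase s hs hR Q _ c hc
  have hm := odd_of_six h6
  rcases Nat.lt_or_ge (Multiset.card s) 2 with hlt | hge
  · rcases Nat.lt_or_ge (Multiset.card s) 1 with h0 | h0
    · have hs0 : s = 0 := Multiset.card_eq_zero.1 (by omega)
      rw [hs0]
      simp
    · have hs1 : Multiset.card s = 1 := by omega
      obtain ⟨z, rfl⟩ := Multiset.card_eq_one.1 hs1
      have h4 := hR 1
      have h5 := sum_count ({z} : Multiset (ZMod m)) (fun a => saw (((1 : (ZMod m)ˣ) : ZMod m) * a))
      simp only [smul_eq_mul] at h5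
      rw [h4] at h5
      rw [Multiset.map_singleton, Multiset.sum_singleton, Units.val_one, one_mul] at h5
      have hz : z = 0 := by
        by_contra hz
        unfold saw at h5
        rw [if_neg hz] at h5
        obtain ⟨j, hj⟩ := hm
        omega
      rw [Multiset.map_singleton, Multiset.sum_singleton, hz]
      exact hc.half 0 (by simp)
  · have hk : 2 ≤ k := hge.trans hs
    obtain ⟨s', hle, hord, hR', hsum⟩ := rem63 k
      (fun s' : Multiset (ZMod m) => Rel (fun z : ZMod m => (s'.count z : ℤ)))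
      (m.primeFactors.filter fun p => ¬ p ≤ k + 1) (by
        intro ℓ hℓ s' hs' hP
        rw [mem_filter] at hℓ
        obtain ⟨ha, hb⟩ := h1 m ℓ h6 (Nat.prime_of_mem_primeFactors hℓ.1)
          (Nat.dvd_of_mem_primeFactors hℓ.1) s' (by omega) hP
        exact ⟨hb, ha⟩) s hs hR
    rw [hsum Q c hc]
    obtain ⟨m0, kk, hprod, hm00, hcop, hpf, s0, hs0⟩ := lvl63 (fun p => p ≤ k + 1) s' hord
    have : NeZero m0 := ⟨hm00⟩
    have h60 : m0.Coprime 6 := Nat.Coprime.coprime_dvd_left (Dvd.intro_left _ hprod) h6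
    have hodd0 : Odd m0 := odd_of_six h60
    have hcard0 : Multiset.card s0 ≤ k := by
      have e1 : Multiset.card s' = Multiset.card s0 := by rw [← hs0, Multiset.card_map]
      have e2 := Multiset.card_le_card hle
      omega
    have hl1 := (lev_ok m m0 kk hm hprod hcop s0).1
    rw [hs0] at hl1
    have hR0 := hl1 hR'
    have hC2 : C2 univ (fun z : ZMod m0 => (s0.count z : ℤ)) := by
      refine c2a90 h4 h5 m0 k h60 hk (by rw [hpf]; exact hcard3) (fun p hp => ?_) ?_ s0 hcard0 hR0
      · rw [hpf, mem_filter] at hp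
        exact hp.2
      · rw [hpf]
        exact hcase
    have hfin := h3 m0 (Or.inl hodd0) (fun z => (s0.count z : ℤ)) (fun z _ => gd_of_odd hodd0 z)
      hR0 hC2 Q (fun b => c (iota kk b)) (hc.comp_iota hprod)
    have h6 := sum_count s0 (fun b => c (iota kk b))
    rw [← hs0, Multiset.map_map]
    exact h6.symm.trans hfin

end Pool.Agent.NH35.HQ
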