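import Pool.Agent.NH35.HQ.Stm
import Pool.Agent.NH35.HK.Rev
import Pool.Agent.NH35.HK.Sy

/-! HQ-14 (project of helper35): from systems to distributions, `S_revF`. By helper89, after
`Pool.Agent.NH35.HK.Rev`. -/

set_option autoImplicit false
set_option linter.unusedSectionVars false

namespace Pool.Agent.NH35.HQ

open Finset Pool.Agent.H916R2 Pool.Agent.NH35.HG Pool.Agent.NH35.HE Pool.Agent.NH35.HK

namespace RevFH89

open Pool.Agent.NH35.HK.HL4

variable {m : ℕ} [NeZero m] {Q : Type} [AddCommGroup Q]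

open Classical in
/-- the sum over a box -/
noncomputable def BW (C : Co m) (I : Finset m.primeFactors) (N : ℕ) (z : ZMod m)
    (f : (∀ q : m.primeFactors, HH m q) → Q) : Q :=
  ∑ u, (if ((C.E u : (ZMod m)ˣ) : ZMod m) * en m N = z ∧ ∀ q, q ∉ I → u q = 1 then f u else 0)

lemma ev_eqw (C : Co m) (c : Finset m.primeFactors → (∀ q : m.primeFactors, HH m q) → Q)
    (z : ZMod m) : ev C c z = BW C (ty z) (addOrderOf z) z (c (ty z)) := by
  unfold ev BW InBox
  refine Finset.sum_congr rfl fun u _ => ?_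
  congr

lemma BW_congr (C : Co m) (I : Finset m.primeFactors) (N : ℕ) (z : ZMod m)
    {f g : (∀ q : m.primeFactors, HH m q) → Q} (h : ∀ u, f u = g u) :
    BW C I N z f = BW C I N z g := by
  have : f = g := funext h
  rw [this]

lemma BW_add (C : Co m) (I : Finset m.primeFactors) (N : ℕ) (z : ZMod m)
    (f g : (∀ q : m.primeFactors, HH m q) → Q) :
    BW C I N z f + BW C I N z g = BW C I N z (fun u => f u + g u) := by
  unfold BW
  rw [← Finset.sum_add_distrib]
  refine Finset.sum_congr rfl fun u _ => ?_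
  split_ifs <;> simp

lemma BW_neg (C : Co m) (I : Finset m.primeFactors) (N : ℕ) (z : ZMod m)
    (f : (∀ q : m.primeFactors, HH m q) → Q) :
    BW C I N z (fun u => - f u) = - BW C I N z f := by
  unfold BW
  rw [← Finset.sum_neg_distrib]
  refine Finset.sum_congr rfl fun u _ => ?_
  split_ifs <;> simp

lemma BW_zero (C : Co m) (I : Finset m.primeFactors) (N : ℕ) (z : ZMod m)
    {f : (∀ q : m.primeFactors, HH m q) → Q} (h : ∀ u, f u = 0) : BW C I N z f = 0 := by
  unfold BW
  refine Finset.sum_eq_zero fun u _ => ?_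
  rw [h]; simp

lemma ev_negw (C : Co m) {γ : Finset m.primeFactors → (∀ q : m.primeFactors, HH m q) → Q}
    (hs : ∀ I, Dep I (γ I)) (ho : Odd1 C.d γ) (z : ZMod m) :
    ev C γ (-z) = - ev C γ z := by
  classical
  have ht : ty (-z) = ty z := by
    ext q; rw [mem_ty, mem_ty, addOrderOf_neg]
  rw [ev_eqw, ev_eqw, ht, addOrderOf_neg, ← BW_neg]
  have h1 : BW C (ty z) (addOrderOf z) (-z) (γ (ty z)) =
      ∑ u, (if ((C.E (C.d.κ * u) : (ZMod m)ˣ) : ZMod m) * en m (addOrderOf z) = z ∧
        ∀ q, q ∉ ty z → u q = 1 then γ (ty z) u else 0) := by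
    unfold BW
    refine Finset.sum_congr rfl fun u _ => ?_
    have e : ((C.E (C.d.κ * u) : (ZMod m)ˣ) : ZMod m) * en m (addOrderOf z) =
        -(((C.E u : (ZMod m)ˣ) : ZMod m) * en m (addOrderOf z)) := by
      rw [map_mul, Units.val_mul, HL4.E_kappa]; ring
    have e2 : (((C.E u : (ZMod m)ˣ) : ZMod m) * en m (addOrderOf z) = -z) ↔
        (((C.E (C.d.κ * u) : (ZMod m)ˣ) : ZMod m) * en m (addOrderOf z) = z) := by
      rw [e]; exact neg_eq_iff_eq_neg.symm
    rw [if_congr (and_congr_left' e2) rfl rfl]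
  rw [h1, sum_mul C (ty z) (ord_dvd z) (fun q hq => mem_ty.2 hq) C.d.κ _ (hs _)]
  unfold BW
  refine Finset.sum_congr rfl fun u _ => ?_
  have hk : C.d.κ⁻¹ = C.d.κ := inv_eq_of_mul_eq_one_left C.d.hκ
  rw [hk, ho]

/-- the elements of the fibre of order divisible by `p` -/
lemma fib_onew (C : Co m) (γ : Finset m.primeFactors → (∀ q : m.primeFactors, HH m q) → Q)
    (P : m.primeFactors) (z : ZMod m) (hd : P.1 * addOrderOf z ∣ m) :
    ∑ w ∈ univ.filter (fun w : ZMod m => (P.1 : ZMod m) * w = z ∧ P.1 ∣ addOrderOf w), ev C γ w =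
      BW C (insert P (ty z)) (addOrderOf z) z (γ (insert P (ty z))) := by
  classical
  have hp : P.1.Prime := Nat.prime_of_mem_primeFactors P.2
  set N := addOrderOf z with hN
  have hty : ∀ w : ZMod m, addOrderOf w = P.1 * N → ty w = insert P (ty z) := by
    intro w hw
    ext q
    rw [mem_ty, Finset.mem_insert, mem_ty, hw, (Nat.prime_of_mem_primeFactors q.2).dvd_mul,
      Nat.prime_dvd_prime_iff_eq (Nat.prime_of_mem_primeFactors q.2) hp, ← hN, Subtype.ext_iff]
  have h1 : ∀ w ∈ univ.filter (fun w : ZMod m => (P.1 : ZMod m) * w = z ∧ P.1 ∣ addOrderOf w),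
      ev C γ w = ∑ u, (if ((C.E u : (ZMod m)ˣ) : ZMod m) * en m (P.1 * N) = w ∧
        ∀ q, q ∉ insert P (ty z) → u q = 1 then γ (insert P (ty z)) u else 0) := by
    intro w hw
    rw [mem_filter] at hw
    have ho : addOrderOf w = P.1 * N := by
      rw [(ord_mul P.1 hp w).1 hw.2.2, hw.2.1]
    rw [ev_eqw, hty w ho, ho]
    rfl
  rw [Finset.sum_congr rfl h1, Finset.sum_comm]
  unfold BW
  refine Finset.sum_congr rfl fun u _ => ?_
  have hen : (P.1 : ZMod m) * en m (P.1 * N) = en m N := by
    obtain ⟨s, hs⟩ := hd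
    have hm := NeZero.ne m
    have h0 : 0 < P.1 * N := by
      rcases Nat.eq_zero_or_pos (P.1 * N) with h0 | h0
      · rw [h0, zero_mul] at hs; exact absurd hs hm
      · exact h0
    have hN0 : 0 < N := by
      rcases Nat.eq_zero_or_pos N with h' | h'
      · rw [h', mul_zero] at h0; exact absurd h0 (lt_irrefl _)
      · exact h'
    have e1 : m / (P.1 * N) = s := Nat.div_eq_of_eq_mul_right h0 hs
    have e2 : m / N = P.1 * s :=
      Nat.div_eq_of_eq_mul_right hN0 (hs.trans (by ring))
    rw [en, en, e1, e2, Nat.cast_mul]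
  set v : ZMod m := ((C.E u : (ZMod m)ˣ) : ZMod m) * en m (P.1 * N) with hv
  have hpv : (P.1 : ZMod m) * v = ((C.E u : (ZMod m)ˣ) : ZMod m) * en m N := by
    rw [hv, ← hen]; ring
  have hov : addOrderOf v = P.1 * N := by
    rw [hv, addOrderOf_unit_mul, addOrderOf_en hd]
  by_cases hoff : ∀ q, q ∉ insert P (ty z) → u q = 1
  · by_cases hz : ((C.E u : (ZMod m)ˣ) : ZMod m) * en m N = z
    · rw [if_pos ⟨hz, hoff⟩]
      rw [Finset.sum_eq_single v]
      · rw [if_pos ⟨rfl, hoff⟩]
      · intro w _ hw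
        rw [if_neg fun h => hw h.1.symm]
      · intro h
        exfalso
        apply h
        rw [mem_filter]
        exact ⟨mem_univ _, by rw [hpv, hz], by rw [hov]; exact dvd_mul_right _ _⟩
    · rw [if_neg fun h => hz h.1]
      refine Finset.sum_eq_zero fun w hw => ?_
      rw [if_neg]
      rintro ⟨h, _⟩
      rw [mem_filter] at hw
      apply hz
      rw [← hpv, h]
      exact hw.2.1
  · rw [if_neg fun h => hoff h.2]
    refine Finset.sum_eq_zero fun w _ => ?_
    rw [if_neg fun h => hoff h.2]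

/-- the element of the fibre of order prime to `p` -/
lemma fib_twow (C : Co m) {γ : Finset m.primeFactors → (∀ q : m.primeFactors, HH m q) → Q}
    (hs : ∀ I, Dep I (γ I))
    (P : m.primeFactors) (z : ZMod m) (hd : ¬ P.1 ∣ addOrderOf z) :
    ∑ w ∈ univ.filter (fun w : ZMod m => (P.1 : ZMod m) * w = z ∧ ¬ P.1 ∣ addOrderOf w),
      ev C γ w = BW C (ty z) (addOrderOf z) z (fun u => γ (ty z) ((C.d.τ P)⁻¹ * u)) := by
  classical
  have hp : P.1.Prime := Nat.prime_of_mem_primeFactors P.2
  set N := addOrderOf z with hN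
  have hNm : N ∣ m := ord_dvd z
  have h1 : ∀ w ∈ univ.filter (fun w : ZMod m => (P.1 : ZMod m) * w = z ∧ ¬ P.1 ∣ addOrderOf w),
      ev C γ w = ∑ u, (if ((C.E u : (ZMod m)ˣ) : ZMod m) * en m N = w ∧
        ∀ q, q ∉ ty z → u q = 1 then γ (ty z) u else 0) := by
    intro w hw
    rw [mem_filter] at hw
    have ho : addOrderOf w = N := by
      rw [(ord_mul P.1 hp w).2 hw.2.2, hw.2.1]
    have ht : ty w = ty z := by
      ext q; rw [mem_ty, mem_ty, ho]
    rw [ev_eqw, ht, ho]
    rfl
  rw [Finset.sum_congr rfl h1, Finset.sum_comm]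
  have h2 := sum_mul C (ty z) hNm (fun q hq => mem_ty.2 hq) (C.d.τ P) (γ (ty z)) (hs _) z
  refine Eq.trans ?_ h2
  refine Finset.sum_congr rfl fun u _ => ?_
  set v : ZMod m := ((C.E u : (ZMod m)ˣ) : ZMod m) * en m N with hv
  have hpv : (P.1 : ZMod m) * v = ((C.E (C.d.τ P * u) : (ZMod m)ˣ) : ZMod m) * en m N := by
    have := E_tau C P hNm hd
    rw [hv, map_mul, Units.val_mul]
    linear_combination -((C.E u : (ZMod m)ˣ) : ZMod m) * this
  have hov : addOrderOf v = N := by
    rw [hv, addOrderOf_unit_mul, addOrderOf_en hNm]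
  by_cases hoff : ∀ q, q ∉ ty z → u q = 1
  · by_cases hz : ((C.E (C.d.τ P * u) : (ZMod m)ˣ) : ZMod m) * en m N = z
    · rw [if_pos ⟨hz, hoff⟩]
      rw [Finset.sum_eq_single v]
      · rw [if_pos ⟨rfl, hoff⟩]
      · intro w _ hw
        rw [if_neg fun h => hw h.1.symm]
      · intro h
        exfalso
        apply h
        rw [mem_filter]
        exact ⟨mem_univ _, by rw [hpv, hz], by rw [hov]; exact hd⟩
    · rw [if_neg fun h => hz h.1]
      refine Finset.sum_eq_zero fun w hw => ?_
      rw [if_neg]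
      rintro ⟨h, _⟩
      rw [mem_filter] at hw
      apply hz
      rw [← hpv, h]
      exact hw.2.1
  · rw [if_neg fun h => hoff h.2]
    refine Finset.sum_eq_zero fun w _ => ?_
    rw [if_neg fun h => hoff h.2]

/-- the value at an element of trivial type -/
lemma ev_triv (C : Co m) {γ : Finset m.primeFactors → (∀ q : m.primeFactors, HH m q) → Q}
    (h0 : γ ∅ = 0) (z : ZMod m) (hz : ty z = ∅) : ev C γ z = 0 := by
  rw [ev_eqw, hz, h0]
  exact BW_zero C _ _ _ fun u => rfl

lemma half_val (a : ZMod m) (ha : a + a = 0) (h0 : a ≠ 0) : 2 * a.val = m := by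
  have h1 : ((2 * a.val : ℕ) : ZMod m) = 0 := by
    rw [two_mul]
    push_cast
    rw [ZMod.natCast_zmod_val]
    exact ha
  rw [ZMod.natCast_eq_zero_iff] at h1
  obtain ⟨k, hk⟩ := h1
  have hlt := ZMod.val_lt a
  have hpos : 0 < a.val := by
    rcases Nat.eq_zero_or_pos a.val with h | h
    · exact absurd ((ZMod.val_eq_zero a).1 h) h0
    · exact h
  have hk1 : k = 1 := by
    rcases Nat.lt_trichotomy k 1 with h | h | h
    · have : k = 0 := by omega
      rw [this, mul_zero] at hk; omega
    · exact h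
    · exfalso
      have : m * 2 ≤ m * k := Nat.mul_le_mul_left m h
      omega
  rw [hk, hk1, mul_one]

end RevFH89

open RevFH89 Pool.Agent.NH35.HK.HL4 in
theorem revF_of : S_revF := by
  classical
  intro m _ _ C Q _ γ hF ho
  have hm := NeZero.ne m
  -- the relation at one prime, with the type of `z`
  have hins : ∀ (P : m.primeFactors) (z : ZMod m), ¬ P.1 ∣ addOrderOf z →
      BW C (insert P (ty z)) (addOrderOf z) z (γ (insert P (ty z))) =
        BW C (ty z) (addOrderOf z) z (NN P (γ (insert P (ty z)))) := by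
    intro P z hA
    exact sum_insert C (ty z) (ord_dvd z) P (fun h => hA (mem_ty.1 h)) hA _ z
  have hdist : ∀ p d : ℕ, p.Prime → p * d = m → ∀ a : ZMod m,
      ∑ i ∈ range p, ev C γ (a + (i : ZMod m) * (d : ZMod m)) = ev C γ ((p : ZMod m) * a) := by
    intro p d hp hpd a
    have hpm : p ∣ m := ⟨d, hpd.symm⟩
    obtain ⟨P, hP⟩ : ∃ P : m.primeFactors, P.1 = p :=
      ⟨⟨p, Nat.mem_primeFactors.2 ⟨hp, hpm, hm⟩⟩, rfl⟩
    refine (sum_fibre (ev C γ) p d hp.pos hpd a).trans ?_
    subst hP
    set z : ZMod m := (P.1 : ZMod m) * a with hz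
    rw [← Finset.sum_filter_add_sum_filter_not _ (fun w : ZMod m => P.1 ∣ addOrderOf w),
      Finset.filter_filter, Finset.filter_filter]
    have hNz : addOrderOf z ∣ m := ord_dvd z
    by_cases hA : P.1 ∣ addOrderOf z
    · have hemp : ∑ w ∈ univ.filter (fun w : ZMod m => (P.1 : ZMod m) * w = z ∧
          ¬ P.1 ∣ addOrderOf w), ev C γ w = 0 := by
        refine Finset.sum_eq_zero fun w hw => ?_
        exfalso
        rw [mem_filter] at hw
        apply hw.2.2
        rw [(ord_mul P.1 hp w).2 hw.2.2, hw.2.1]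
        exact hA
      have hda : P.1 * addOrderOf z ∣ m := by
        have h1 : P.1 ∣ addOrderOf a := by
          by_contra h
          apply h
          rw [(ord_mul P.1 hp a).2 h]
          exact hA
        rw [hz, ← (ord_mul P.1 hp a).1 h1]
        exact ord_dvd a
      rw [hemp, add_zero, fib_onew C γ P z hda,
        Finset.insert_eq_of_mem (mem_ty.2 hA), ev_eqw]
    · have hda : P.1 * addOrderOf z ∣ m :=
        Nat.Coprime.mul_dvd_of_dvd_of_dvd ((Nat.Prime.coprime_iff_not_dvd hp).2 hA) hpm hNz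
      have hPI : P ∉ ty z := fun h => hA (mem_ty.1 h)
      rw [fib_onew C γ P z hda, hins P z hA, fib_twow C hF.dep P z hA, BW_add, ev_eqw]
      refine BW_congr C _ _ _ fun u => ?_
      rw [hF.rel (insert P (ty z)) P (Finset.mem_insert_self _ _) u, Finset.erase_insert hPI]
      abel
  refine ⟨⟨ev_negw C hF.dep ho, ?_, hdist⟩, ?_⟩
  · intro a ha
    by_cases h0 : a = 0
    · apply ev_triv C hF.emp
      rw [Finset.eq_empty_iff_forall_notMem]
      intro q hq
      rw [mem_ty, h0, addOrderOf_zero] at hq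
      exact (Nat.prime_of_mem_primeFactors q.2).one_lt.ne' (Nat.dvd_one.1 hq)
    · have hv := half_val a ha h0
      have hd : addOrderOf a = 2 := by
        have h1 : addOrderOf a ∣ 2 := by
          apply addOrderOf_dvd_of_nsmul_eq_zero
          rw [two_nsmul]; exact ha
        rcases (Nat.dvd_prime Nat.prime_two).1 h1 with h | h
        · exact absurd (AddMonoid.addOrderOf_eq_one_iff.1 h) h0
        · exact h
      obtain ⟨P, hP⟩ : ∃ P : m.primeFactors, P.1 = 2 :=
        ⟨⟨2, Nat.mem_primeFactors.2 ⟨Nat.prime_two, ⟨_, hv.symm⟩, hm⟩⟩, rfl⟩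
      have hP0 : ¬ P.1 ∣ addOrderOf (0 : ZMod m) := by
        rw [addOrderOf_zero, hP]; norm_num
      have hset : univ.filter (fun w : ZMod m => (P.1 : ZMod m) * w = 0 ∧ P.1 ∣ addOrderOf w) =
          {a} := by
        ext w
        rw [mem_filter, Finset.mem_singleton]
        constructor
        · rintro ⟨_, h1, h2⟩
          have hw0 : w ≠ 0 := by
            intro h
            rw [h] at h2
            exact hP0 h2
          have hww : w + w = 0 := by
            rw [← h1, hP]; push_cast; ring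
          have hw := half_val w hww hw0
          apply ZMod.val_injective
          omega
        · intro h
          rw [h]
          refine ⟨mem_univ _, ?_, ?_⟩
          · rw [hP]; push_cast; rw [two_mul]; exact ha
          · rw [hP, hd]
      have h1 := fib_onew C γ P 0 (by rw [addOrderOf_zero, mul_one, hP]; exact ⟨_, hv.symm⟩)
      rw [hset, Finset.sum_singleton, hins P 0 hP0] at h1
      rw [h1]
      have hty0 : ty (0 : ZMod m) = ∅ := by
        rw [Finset.eq_empty_iff_forall_notMem]
        intro q hq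
        rw [mem_ty, addOrderOf_zero] at hq
        exact (Nat.prime_of_mem_primeFactors q.2).one_lt.ne' (Nat.dvd_one.1 hq)
      refine BW_zero C _ _ _ fun u => ?_
      rw [hF.rel (insert P (ty (0 : ZMod m))) P (Finset.mem_insert_self _ _) u, hty0,
        Finset.erase_insert (Finset.notMem_empty P), hF.emp]
      simp
  · funext I u
    have hN : NI m I ∣ m := SyAux.NI_dvd_m I
    set z : ZMod m := ((C.E u : (ZMod m)ˣ) : ZMod m) * en m (NI m I) with hz
    have hoz : addOrderOf z = NI m I := by
      rw [hz, addOrderOf_unit_mul, addOrderOf_en hN]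
    have htz : ty z = I := by
      ext q
      rw [mem_ty, hoz]
      constructor
      · intro h
        unfold NI at h
        rw [(Nat.prime_of_mem_primeFactors q.2).prime.dvd_finsetProd_iff] at h
        obtain ⟨r, hr, hqr⟩ := h
        have h1 := (Nat.prime_of_mem_primeFactors q.2).dvd_of_dvd_pow hqr
        rw [Nat.prime_dvd_prime_iff_eq (Nat.prime_of_mem_primeFactors q.2)
          (Nat.prime_of_mem_primeFactors r.2)] at h1
        rw [Subtype.ext h1]
        exact hr
      · intro h
        refine dvd_trans ?_ (SyAux.dvd_NI I q h)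
        refine dvd_pow_self _ ?_
        have := (Nat.prime_of_mem_primeFactors q.2).factorization_pos_of_dvd hm
          (Nat.dvd_of_mem_primeFactors q.2)
        exact this.ne'
    show ev C γ z = γ I u
    rw [ev_eqw, htz, hoz]
    unfold BW
    rw [Finset.sum_eq_single (rs I u)]
    · rw [if_pos]
      · exact hF.dep I _ _ fun q hq => rs_mem hq
      · refine ⟨?_, fun q hq => rs_nmem hq⟩
        rw [hz]
        refine E_en_congr C hN fun q hq => ?_
        rw [rs_mem]
        rw [← htz, mem_ty, hoz]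
        exact hq
    · intro v _ hv
      rw [if_neg]
      rintro ⟨h1, h2⟩
      apply hv
      funext q
      by_cases hq : q ∈ I
      · rw [rs_mem hq]
        exact SyAux.agree' C v u I h1 q hq
      · rw [rs_nmem hq, h2 q hq]
    · intro h; exact absurd (Finset.mem_univ _) h

end Pool.Agent.NH35.HQ
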