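import Pool.Agent.NH35.HQ.Stm

/-! Removing primes and passing to a lower level: general lemmas. -/

set_option autoImplicit false
set_option linter.unusedSectionVars false

namespace Pool.Agent.NH35.HQ

open Finset Pool.Agent.H916R2 Pool.Agent.NH35.HG Pool.Agent.NH35.HE Pool.Agent.NH35.HK

/-- removal of a set of large primes -/
lemma rem63 {m : ℕ} (k : ℕ) (P : Multiset (ZMod m) → Prop) (L : Finset ℕ)
    (hP : ∀ ℓ ∈ L, ∀ s : Multiset (ZMod m), Multiset.card s ≤ k → P s →
      P (s.filter fun z => ¬ ℓ ∣ addOrderOf z) ∧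
      ∀ (Q : Type) [AddCommGroup Q] (c : ZMod m → Q), OddDist c →
        ((s.filter fun z => ℓ ∣ addOrderOf z).map c).sum = 0)
    (s : Multiset (ZMod m)) (hs : Multiset.card s ≤ k) (h0 : P s) :
    ∃ s' : Multiset (ZMod m), s' ≤ s ∧ (∀ z ∈ s', ∀ ℓ ∈ L, ¬ ℓ ∣ addOrderOf z) ∧ P s' ∧
      ∀ (Q : Type) [AddCommGroup Q] (c : ZMod m → Q), OddDist c →
        (s.map c).sum = (s'.map c).sum := by
  induction L using Finset.induction_on with
  | empty => exact ⟨s, le_rfl, fun z _ ℓ hℓ => absurd hℓ (notMem_empty _), h0, fun Q _ c _ => rfl⟩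
  | insert ℓ L hℓL ih =>
    obtain ⟨s', hle, hord, hP', hsum⟩ := ih fun ℓ' h => hP ℓ' (mem_insert_of_mem h)
    obtain ⟨hb, ha⟩ := hP ℓ (mem_insert_self _ _) s' ((Multiset.card_le_card hle).trans hs) hP'
    refine ⟨s'.filter fun z => ¬ ℓ ∣ addOrderOf z, (Multiset.filter_le _ _).trans hle, ?_, hb, ?_⟩
    · intro z hz ℓ' hℓ'
      rw [Multiset.mem_filter] at hz
      rcases mem_insert.1 hℓ' with rfl | h
      · exact hz.2
      · exact hord z hz.1 ℓ' h
    · intro Q _ c hcd
      rw [hsum Q c hcd]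
      have h2 : s'.map c = (s'.filter fun z => ℓ ∣ addOrderOf z).map c +
          (s'.filter fun z => ¬ ℓ ∣ addOrderOf z).map c := by
        rw [← Multiset.map_add, Multiset.filter_add_not]
      rw [h2, Multiset.sum_add, ha Q c hcd, zero_add]

/-- passage to the level of a set of primes -/
lemma lvl63 {m : ℕ} [NeZero m] (T : ℕ → Prop) [DecidablePred T] (s' : Multiset (ZMod m))
    (hord : ∀ z ∈ s', ∀ ℓ ∈ m.primeFactors.filter fun p => ¬ T p, ¬ ℓ ∣ addOrderOf z) :
    ∃ m0 kk : ℕ, kk * m0 = m ∧ m0 ≠ 0 ∧ kk.Coprime m0 ∧ m0.primeFactors = m.primeFactors.filter T ∧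
      ∃ s0 : Multiset (ZMod m0), s0.map (iota kk : ZMod m0 → ZMod m) = s' := by
  have hm0 : m ≠ 0 := NeZero.ne m
  obtain ⟨m0, hm0def⟩ : ∃ m0, m0 = ∏ p ∈ m.primeFactors.filter T, p ^ m.factorization p := ⟨_, rfl⟩
  obtain ⟨kk, hkdef⟩ : ∃ kk, kk = ∏ p ∈ m.primeFactors.filter (fun p => ¬ T p),
    p ^ m.factorization p := ⟨_, rfl⟩
  have hprod : kk * m0 = m := by
    rw [hm0def, hkdef, mul_comm, prod_filter_mul_prod_filter_not]
    exact Nat.prod_factorization_pow_eq_self hm0
  have hm00 : m0 ≠ 0 := fun h => hm0 (by rw [← hprod, h, mul_zero])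
  have hkk0 : kk ≠ 0 := fun h => hm0 (by rw [← hprod, h, zero_mul])
  have hdiv0 : ∀ q : ℕ, q.Prime → q ∣ m0 → q ∈ m.primeFactors.filter T := by
    intro q hq hqm
    rw [hm0def] at hqm
    obtain ⟨p, hp, hqp⟩ := hq.prime.exists_mem_finset_dvd hqm
    have h4 := (Nat.prime_dvd_prime_iff_eq hq
      (Nat.prime_of_mem_primeFactors (mem_filter.1 hp).1)).1 (hq.dvd_of_dvd_pow hqp)
    rw [h4]
    exact hp
  have hdivk : ∀ q : ℕ, q.Prime → q ∣ kk →
      q ∈ m.primeFactors.filter (fun p => ¬ T p) := by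
    intro q hq hqm
    rw [hkdef] at hqm
    obtain ⟨p, hp, hqp⟩ := hq.prime.exists_mem_finset_dvd hqm
    have h4 := (Nat.prime_dvd_prime_iff_eq hq
      (Nat.prime_of_mem_primeFactors (mem_filter.1 hp).1)).1 (hq.dvd_of_dvd_pow hqp)
    rw [h4]
    exact hp
  have hcop : kk.Coprime m0 := by
    refine Nat.coprime_of_dvd fun q hq h4 h5 => ?_
    exact (mem_filter.1 (hdivk q hq h4)).2 (mem_filter.1 (hdiv0 q hq h5)).2
  have hpf : m0.primeFactors = m.primeFactors.filter T := by
    ext q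
    constructor
    · intro hq
      exact hdiv0 q (Nat.prime_of_mem_primeFactors hq) (Nat.dvd_of_mem_primeFactors hq)
    · intro hq
      have hq' := (mem_filter.1 hq).1
      refine Nat.mem_primeFactors.2 ⟨Nat.prime_of_mem_primeFactors hq', ?_, hm00⟩
      rw [hm0def]
      refine dvd_trans (dvd_pow_self q ?_) (Finset.dvd_prod_of_mem _ hq)
      exact ((Nat.prime_of_mem_primeFactors hq').factorization_pos_of_dvd hm0
        (Nat.dvd_of_mem_primeFactors hq')).ne'
  have hel : ∀ z ∈ s', (iota kk (((z.val / kk : ℕ)) : ZMod m0) : ZMod m) = z := by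
    intro z hz
    have hom : addOrderOf z ∣ m := by
      refine addOrderOf_dvd_of_nsmul_eq_zero ?_
      rw [nsmul_eq_mul, ZMod.natCast_self, zero_mul]
    have hoc : (addOrderOf z).Coprime kk := by
      refine Nat.coprime_of_dvd fun q hq h4 h5 => ?_
      exact hord z hz q (hdivk q hq h5) h4
    have ho0 : addOrderOf z ∣ m0 := by
      have hom' : addOrderOf z ∣ kk * m0 := hom.trans (dvd_of_eq hprod.symm)
      exact hoc.dvd_of_dvd_mul_left hom'
    have hz0 : m0 • z = 0 := addOrderOf_dvd_iff_nsmul_eq_zero.1 ho0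
    have hdz : m ∣ m0 * z.val := by
      rw [← ZMod.natCast_eq_zero_iff]
      push_cast
      rw [ZMod.natCast_zmod_val, ← nsmul_eq_mul]
      exact hz0
    have hkz : kk ∣ z.val := by
      have hdz' : kk * m0 ∣ z.val * m0 := by
        rw [mul_comm z.val m0]
        exact (dvd_of_eq hprod).trans hdz
      exact Nat.dvd_of_mul_dvd_mul_right (Nat.pos_of_ne_zero hm00) hdz'
    rw [iota_natCast hprod, Nat.mul_div_cancel' hkz, ZMod.natCast_zmod_val]
  refine ⟨m0, kk, hprod, hm00, hcop, hpf, s'.map fun z => ((z.val / kk : ℕ) : ZMod m0), ?_⟩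
  rw [Multiset.map_map]
  conv_rhs => rw [← Multiset.map_id s']
  exact Multiset.map_congr rfl fun z hz => hel z hz

lemma ord63 {m m0 kk : ℕ} [NeZero m] [NeZero m0] (h : kk * m0 = m) (b : ZMod m0) :
    addOrderOf (iota kk b : ZMod m) = addOrderOf b := by
  have h1 := addOrderOf_injective
    ({ toFun := fun b : ZMod m0 => (iota kk b : ZMod m)
       map_zero' := iota_zero
       map_add' := iota_add h } : ZMod m0 →+ ZMod m)
    (by
      rw [injective_iff_map_eq_zero]
      intro a ha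
      exact iota_eq_zero h ha) b
  exact h1

/-- the lower bound for the Euler function -/
def lb63 (q : ℕ) : ℕ := if q = 2 then 2 else q - 1

lemma tot63 {m : ℕ} [NeZero m] {z : ZMod m} (hz : Gd z) {q : ℕ} (hq : q.Prime)
    (hd : q ∣ addOrderOf z) :
    lb63 q ≤ Nat.totient (q ^ (addOrderOf z).factorization q) := by
  have ho : addOrderOf z ≠ 0 := by
    have : Finite (ZMod m) := inferInstance
    exact (addOrderOf_pos z).ne'
  have hv : 0 < (addOrderOf z).factorization q := hq.factorization_pos_of_dvd ho hd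
  rw [Nat.totient_prime_pow hq hv]
  unfold lb63
  split_ifs with h2
  · subst h2
    have h4 : 2 ^ 2 ∣ addOrderOf z := by
      unfold Gd at hz
      omega
    have hv2 : 2 ≤ (addOrderOf z).factorization 2 :=
      (Nat.prime_two.pow_dvd_iff_le_factorization ho).1 h4
    calc 2 = 2 ^ 1 * (2 - 1) := by norm_num
      _ ≤ 2 ^ ((addOrderOf z).factorization 2 - 1) * (2 - 1) :=
        Nat.mul_le_mul_right _ (Nat.pow_le_pow_right (by norm_num) (by omega))
  · exact Nat.le_mul_of_pos_left _ (Nat.pow_pos hq.pos)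

lemma totodd63 {m : ℕ} [NeZero m] {z : ZMod m} {q : ℕ} (hq : q.Prime)
    (hd : q ∣ addOrderOf z) :
    q - 1 ≤ Nat.totient (q ^ (addOrderOf z).factorization q) := by
  have ho : addOrderOf z ≠ 0 := by
    have : Finite (ZMod m) := inferInstance
    exact (addOrderOf_pos z).ne'
  have hv : 0 < (addOrderOf z).factorization q := hq.factorization_pos_of_dvd ho hd
  rw [Nat.totient_prime_pow hq hv]
  exact Nat.le_mul_of_pos_left _ (Nat.pow_pos hq.pos)

end Pool.Agent.NH35.HQ
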