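import Pool.Agent.NH35.HQ.Sys
import Pool.Agent.NH35.HK.Stm
import Pool.Agent.NH35.HE.StmF

/-! Diagonal hypersurfaces of small dimension: statements on distributions. -/

set_option autoImplicit false
set_option linter.unusedSectionVars false

namespace Pool.Agent.NH35.HQ

open Finset Pool.Agent.H916R2 Pool.Agent.NH35.HG Pool.Agent.NH35.HE Pool.Agent.NH35.HK

/-- the admissible levels -/
def Adm (m : ℕ) : Prop := Odd m ∨ 4 ∣ m

/-- the elements whose order is not twice an odd number -/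
def Gd {m : ℕ} (z : ZMod m) : Prop := addOrderOf z % 4 ≠ 2

/-- (B1) coordinates exist -/
def S_coA : Prop := ∀ (m : ℕ) [NeZero m], Adm m → Nonempty (Co m)

/-- (B2) the relation of a distribution at a prime `q`, in coordinates -/
def S_nrelA : Prop := ∀ (m : ℕ) [NeZero m], Adm m → ∀ (C : Co m) (Q : Type) [AddCommGroup Q]
  (D : ZMod m → Q), OddDist D → ∀ (I : Finset m.primeFactors), ∀ q ∈ I,
  ∀ u : ∀ q : m.primeFactors, HH m q,
  NN q (fun v => D (((C.E v : (ZMod m)ˣ) : ZMod m) * en m (NI m I))) u =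
    D (((C.E u : (ZMod m)ˣ) : ZMod m) * en m (NI m (I.erase q))) -
    D (((C.E ((C.d.τ q)⁻¹ * u) : (ZMod m)ˣ) : ZMod m) * en m (NI m (I.erase q)))

/-- the full system of a distribution -/
noncomputable def syF {m : ℕ} [NeZero m] (C : Co m) {Q : Type} [AddCommGroup Q]
    (D : ZMod m → Q) (I : Finset m.primeFactors) (u : ∀ q : m.primeFactors, HH m q) : Q :=
  D (((C.E u : (ZMod m)ˣ) : ZMod m) * en m (NI m I))

/-- (B3) from distributions to systems -/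
def S_syF : Prop := ∀ (m : ℕ) [NeZero m], Adm m → ∀ (C : Co m) (Q : Type) [AddCommGroup Q]
  (D : ZMod m → Q), OddDist D →
  Full C.d (syF C D) ∧ Odd1 C.d (syF C D) ∧ (∀ z : ZMod m, ev C (syF C D) z = D z) ∧
  ∀ ℓ : m.primeFactors, Sys C.d ℓ (sy C ℓ D) ∧ Odd1 C.d (sy C ℓ D) ∧
    ∀ z : ZMod m, ℓ.1 ∣ addOrderOf z → ev C (sy C ℓ D) z = D z

/-- (B4) from systems to distributions -/
def S_revF : Prop := ∀ (m : ℕ) [NeZero m], Adm m → ∀ (C : Co m) (Q : Type) [AddCommGroup Q]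
  (γ : Finset m.primeFactors → (∀ q : m.primeFactors, HH m q) → Q), Full C.d γ → Odd1 C.d γ →
  OddDist (ev C γ) ∧ syF C (ev C γ) = γ

/-- (B5) the boxes of the elements of a multiset -/
def S_boxA : Prop := ∀ (m : ℕ) [NeZero m], Adm m → ∀ (C : Co m) (ℓ : m.primeFactors)
  (Sp : Finset m.primeFactors) (K : ∀ q : m.primeFactors, Subgroup (HH m q))
  (s : Multiset (ZMod m)), (∀ z ∈ s, Gd z) → Multiset.card s + 1 < ℓ.1 → 3 < ℓ.1 →
  (∀ q : m.primeFactors, q.1 = 2 ∨ q.1 = 3 → q ∈ Sp) →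
  (∀ q : m.primeFactors, q.1 = 2 → ∀ g : HH m q,
    g ∈ K q ↔ (g : ZMod (q.1 ^ m.factorization q.1)).val % 4 = 1) →
  (∀ q : m.primeFactors, q.1 = 3 → ∀ g : HH m q,
    g ∈ K q ↔ (g : ZMod (q.1 ^ m.factorization q.1)).val % 3 = 1) →
  ∃ (T : Type) (_ : Fintype T) (β : BxS C.d ℓ Sp K T), ∀ (Q : Type) [AddCommGroup Q]
    (c : Finset m.primeFactors → (∀ q : m.primeFactors, HH m q) → Q),
    pair β.X c = ((s.filter fun z => ℓ.1 ∣ addOrderOf z).map (ev C c)).sum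

/-- (B6) the box of an element and its size -/
def S_boxW : Prop := ∀ (m : ℕ) [NeZero m], Adm m → ∀ (C : Co m) (z : ZMod m),
  ∃ b : ∀ q : m.primeFactors, Finset (HH m q),
    (∀ q ∈ ty z, (b q).card * Nat.totient (q.1 ^ (addOrderOf z).factorization q.1) =
      Fintype.card (HH m q)) ∧
    ∀ (Q : Type) [AddCommGroup Q]
      (c : Finset m.primeFactors → (∀ q : m.primeFactors, HH m q) → Q),
      ev C c z = ∑ u : ∀ q : m.primeFactors, HH m q, (open Classical in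
        if (∀ i ∈ ty z, u i ∈ b i) ∧ (∀ i, i ∉ ty z → u i = 1) then c (ty z) u else 0)

/-- the modulus -/
def bq (q : ℕ) : ℕ := if q = 2 then 4 else q

/-- the lower half of the units modulo `bq q` -/
def hf (q a : ℕ) : Prop := if q = 2 then a % 4 = 1 else a % q ≠ 0 ∧ 2 * (a % q) < q

instance (q a : ℕ) : Decidable (hf q a) := by unfold hf; infer_instance

/-- the element `BR` in terms of residues -/
def BQ (m ℓ q : ℕ) {Q : Type} [AddCommGroup Q] (c : ZMod m → Q) : Q :=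
  (∑ a ∈ range (ℓ * bq q), if hf ℓ a ∧ hf q a then
      c ((a * (m / (ℓ * bq q)) : ℕ) : ZMod m) else 0) +
  ∑ a ∈ range ℓ, if hf ℓ (ℓ - a) ∧ ¬ hf ℓ (q * (ℓ - a)) then
      c ((a * (m / ℓ) : ℕ) : ZMod m) else 0

/-- (B7) `BQ` in terms of systems -/
def S_brs : Prop := ∀ (m : ℕ) [NeZero m], Adm m → ∀ (C : Co m)
  (R : ∀ q : m.primeFactors, Finset (HH m q)),
  (∀ (q : m.primeFactors) (g : HH m q),
    g ∈ R q ↔ hf q.1 (g : ZMod (q.1 ^ m.factorization q.1)).val) →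
  Half C.d R ∧ ∀ (ℓ q : m.primeFactors), ℓ.1 ≠ 2 → q ≠ ℓ → ∀ (Q : Type) [AddCommGroup Q]
    (D : ZMod m → Q), OddDist D → pair (BR C.d R ℓ q) (sy C ℓ D) = BQ m ℓ.1 q.1 D

/-- (B8) twice `BQ` -/
def S_two : Prop := ∀ (m ℓ q : ℕ) [NeZero m], Adm m → ℓ.Prime → ℓ ≠ 2 →
  q.Prime → q ≠ ℓ → ℓ ∣ m → q ∣ m → ∀ (Q : Type) [AddCommGroup Q] (c : ZMod m → Q),
  OddDist c → (2 : ℤ) • BQ m ℓ q c = ∑ a ∈ range (bq q), if hf q a then
    c ((a * (m / bq q) : ℕ) : ZMod m) -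
    c (((((ℓ : ℕ) : ZMod (bq q))⁻¹ * (a : ZMod (bq q))).val * (m / bq q) : ℕ) : ZMod m) else 0

/-- (B9) the part of a short relation at a large prime -/
def S_concA : Prop := ∀ (m ℓ : ℕ) [NeZero m], Adm m → ℓ.Prime → ℓ ∣ m → 3 < ℓ →
  ∀ s : Multiset (ZMod m), (∀ z ∈ s, Gd z) → Multiset.card s + 1 < ℓ →
  Rel (fun z : ZMod m => (s.count z : ℤ)) →
  ∃ e : ℕ → ℤ, (∀ q, e q = 0 ∨ e q = 1 ∨ e q = -1) ∧
    ∀ (Q : Type) [AddCommGroup Q] (c : ZMod m → Q), OddDist c →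
      ((s.filter fun z => ℓ ∣ addOrderOf z).map c).sum =
        ∑ q ∈ m.primeFactors.erase ℓ, e q • BQ m ℓ q c

/-- supported on elements of types contained in `S` which are not of order twice an odd number -/
def Sup {m : ℕ} (S : Finset m.primeFactors) (x : ZMod m → ℤ) : Prop :=
  ∀ z, x z ≠ 0 → Gd z ∧ ty z ⊆ S

/-- the condition modulo two for all sets with an even number of at least four elements -/
def C4 {m : ℕ} [NeZero m] (S : Finset m.primeFactors) (x : ZMod m → ℤ) : Prop :=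
  ∀ (C : Co m) (I : Finset m.primeFactors), I ⊆ S → 4 ≤ I.card → Even I.card →
    ∃ (w : ∀ q : m.primeFactors, HH m q) (c : ZMod m → ZMod 2), OddDist c ∧
      (∀ A, ¬ I ⊆ A → syF C c A = 0) ∧ syF C c I = fI C.d I w ∧ ∑ z, x z • c z = 0

/-- (B10) one prime is removed, up to the elements `BQ` -/
def S_stepC : Prop := ∀ (m : ℕ) [NeZero m], Adm m → ∀ (S : Finset m.primeFactors)
  (ℓ : m.primeFactors), ℓ ∈ S → (ℓ.1 = 2 → S = {ℓ}) → ∀ x : ZMod m → ℤ, Sup S x → Rel x →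
  C4 S x → ∃ (e : ℕ → ℤ) (x' : ZMod m → ℤ), (∀ q : m.primeFactors, q ∉ S.erase ℓ → e q.1 = 0) ∧
    Sup (S.erase ℓ) x' ∧ ∀ (Q : Type) [AddCommGroup Q] (c : ZMod m → Q), OddDist c →
      ∑ z, x z • c z = ∑ q ∈ m.primeFactors.erase ℓ.1, e q • BQ m ℓ.1 q c + ∑ z, x' z • c z

/-- the number theoretic criterion -/
def CX (m : ℕ) [NeZero m] (x : ZMod m → ℤ) : Prop := (Odd m → CD m x) ∧ (4 ∣ m → CEall m x)

/-- (B11) invariance of the criterion -/
def S_cxinv : Prop := ∀ (m : ℕ) [NeZero m] (x y : ZMod m → ℤ),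
  (∀ (Q : Type) [AddCommGroup Q] (c : ZMod m → Q), OddDist c →
    ∑ z, x z • c z = ∑ z, y z • c z) → (Rel x → Rel y) ∧ (CX m x → CX m y)

/-- the differences of the residues in the lower half -/
def Gq (q a b : ℕ) : ℤ :=
  ∑ r ∈ range (bq q), if hf q r then (((a * r) % bq q : ℕ) : ℤ) - (((b * r) % bq q : ℕ) : ℤ) else 0

/-- (B12) a unit with an odd difference (Gauss) -/
def S_gq : Prop := ∀ q : ℕ, q.Prime → q ≠ 2 → ∃ a : ℕ, a.Coprime q ∧ Odd (Gq q a 1)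

/-- (B13) the function `FH` of `BQ` -/
def S_kx : Prop := ∀ (m ℓ b n : ℕ) [NeZero m] [NeZero (ℓ * n)], Adm m → ℓ.Prime → ℓ ≠ 2 → 0 < b →
  ¬ ℓ ∣ n → ℓ ^ b * n = m → ∀ (e : ℕ → ℤ) (x x' : ZMod m → ℤ),
  (∀ z, x' z ≠ 0 → ¬ ℓ ∣ addOrderOf z) →
  (∀ (Q : Type) [AddCommGroup Q] (c : ZMod m → Q), OddDist c →
    ∑ z, x z • c z = ∑ q ∈ m.primeFactors.erase ℓ, e q • BQ m ℓ q c + ∑ z, x' z • c z) → Rel x →
  ∃ x0 : ZMod (ℓ * n) → ℤ, Rel x0 ∧ (∀ (Q : Type) [AddCommGroup Q] (c : ZMod m → Q), OddDist c →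
    ∑ z, x z • c z = ∑ z : ZMod (ℓ * n), x0 z • c (iota (ℓ ^ (b - 1)) z)) ∧
    ∀ t t' : (ZMod n)ˣ, 2 * FH ℓ n x0 t t' = ((ℓ : ℤ) - 1) * ∑ q ∈ m.primeFactors.erase ℓ,
      e q * ((n / bq q : ℕ) : ℤ) * Gq q (t : ZMod n).val (t' : ZMod n).val

/-- the conclusion of the next two statements -/
def KillAt (m : ℕ) [NeZero m] : Prop := ∀ ℓ : ℕ, ℓ.Prime → ℓ ≠ 2 → ℓ ∣ m →
  ∀ (e : ℕ → ℤ) (x x' : ZMod m → ℤ), (∀ z, x' z ≠ 0 → ¬ ℓ ∣ addOrderOf z) →
  (∀ (Q : Type) [AddCommGroup Q] (c : ZMod m → Q), OddDist c →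
    ∑ z, x z • c z = ∑ q ∈ m.primeFactors.erase ℓ, e q • BQ m ℓ q c + ∑ z, x' z • c z) →
  Rel x → CX m x → ∀ q ∈ m.primeFactors.erase ℓ, Even (e q)

/-- (B14) the arithmetic condition implies that the coefficients are even, odd levels -/
def S_killO : Prop := ∀ (m : ℕ) [NeZero m], Odd m → KillAt m

/-- (B15) the same for levels divisible by four -/
def S_killE : Prop := ∀ (m : ℕ) [NeZero m], 4 ∣ m → KillAt m

/-- (B16) the core -/
def S_coreQ : Prop := ∀ (m : ℕ) [NeZero m], Adm m → ∀ x : ZMod m → ℤ, (∀ z, x z ≠ 0 → Gd z) →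
  Rel x → CX m x → C4 univ x → ∀ (Q : Type) [AddCommGroup Q] (c : ZMod m → Q), OddDist c →
    ∑ z, x z • c z = 0

/-- the weight of an element for the set `I` -/
noncomputable def wt {m : ℕ} (I : Finset m.primeFactors) (z : ZMod m) : ℚ := by
  classical
  exact if ty z = I then 16 / ∏ q ∈ I, (Nat.totient (q.1 ^ (addOrderOf z).factorization q.1) : ℚ)
    else if ty z = univ then
      128 / ∏ q : m.primeFactors, (Nat.totient (q.1 ^ (addOrderOf z).factorization q.1) : ℚ)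
    else 0

/-- (B17) the condition modulo two by counting -/
def S_c4 : Prop := ∀ (m : ℕ) [NeZero m], Adm m → m.primeFactors.card ≤ 5 →
  ∀ s : Multiset (ZMod m),
  (∀ I : Finset m.primeFactors, I.card = 4 → (s.map (wt I)).sum < 1) →
  C4 univ (fun z : ZMod m => (s.count z : ℤ))

/-- (B18) large primes can be removed, levels divisible by four -/
def S_remE : Prop := ∀ (m ℓ : ℕ) [NeZero m], 4 ∣ m → ℓ.Prime → ℓ ∣ m → 3 < ℓ →
  ∀ s : Multiset (ZMod m), (∀ z ∈ s, Gd z) → Multiset.card s + 1 < ℓ →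
  Rel (fun z : ZMod m => (s.count z : ℤ)) → CEall m (fun z : ZMod m => (s.count z : ℤ)) →
  (∀ (Q : Type) [AddCommGroup Q] (c : ZMod m → Q), OddDist c →
    ((s.filter fun z => ℓ ∣ addOrderOf z).map c).sum = 0) ∧
  Rel (fun z : ZMod m => ((s.filter fun z => ¬ ℓ ∣ addOrderOf z).count z : ℤ)) ∧
  CEall m (fun z : ZMod m => ((s.filter fun z => ¬ ℓ ∣ addOrderOf z).count z : ℤ))

/-- (B19) transfer of the criterion to a lower level, when the quotient of the levels is prime to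
the remaining primes -/
def S_cxlev : Prop := ∀ (m m0 k : ℕ) [NeZero m] [NeZero m0], 4 ∣ m0 → k * m0 = m → k.Coprime m0 →
  ∀ s0 : Multiset (ZMod m0),
  (Rel (fun z : ZMod m => ((s0.map (iota k : ZMod m0 → ZMod m)).count z : ℤ)) →
    Rel (fun z : ZMod m0 => (s0.count z : ℤ))) ∧
  (CEall m (fun z : ZMod m => ((s0.map (iota k : ZMod m0 → ZMod m)).count z : ℤ)) →
    CEall m0 (fun z : ZMod m0 => (s0.count z : ℤ)))

/-- (B20) the combinatorial theorem for odd levels -/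
def S_oddQ : Prop := ∀ (m k : ℕ) [NeZero m], Odd m →
  (m.primeFactors.filter fun p => p ≤ k + 1).card ≤ 5 →
  (∀ I ⊆ m.primeFactors.filter fun p => p ≤ k + 1, I.card = 4 → 16 * k < ∏ q ∈ I, (q - 1)) →
  ((m.primeFactors.filter fun p => p ≤ k + 1).card = 5 →
    128 * k < ∏ q ∈ m.primeFactors.filter fun p => p ≤ k + 1, (q - 1)) →
  ∀ s : Multiset (ZMod m), Multiset.card s ≤ k → Rel (fun z : ZMod m => (s.count z : ℤ)) →
  CD m (fun z : ZMod m => (s.count z : ℤ)) →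
  ∀ (Q : Type) [AddCommGroup Q] (c : ZMod m → Q), OddDist c → (s.map c).sum = 0

/-- (B21) a finite computation: for six units modulo `420` which satisfy the relations there is a
class modulo five up to sign and modulo seven up to sign which is not hit -/
def S_fin : Prop := ∀ s : Multiset (ZMod 420), Multiset.card s = 6 → (∀ z ∈ s, IsUnit z) →
  Rel (fun z : ZMod 420 => (s.count z : ℤ)) → ∃ i j : ℕ, (i = 1 ∨ i = 2) ∧ (j = 1 ∨ j = 2 ∨ j = 3) ∧
    ∀ z ∈ s, ¬ ((z.val % 5 = i ∨ z.val % 5 = 5 - i) ∧ (z.val % 7 = j ∨ z.val % 7 = 7 - j))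

/-- (B22) the exceptional case -/
def S_exc : Prop := ∀ (m : ℕ) [NeZero m], 4 ∣ m → m.primeFactors = {2, 3, 5, 7} →
  ∀ s : Multiset (ZMod m), Multiset.card s = 6 → (∀ z ∈ s, addOrderOf z = 420) →
  Rel (fun z : ZMod m => (s.count z : ℤ)) → C4 univ (fun z : ZMod m => (s.count z : ℤ))

/-- (B23) the combinatorial theorem for levels divisible by four -/
def S_evenQ : Prop := ∀ (m : ℕ) [NeZero m], 4 ∣ m → ∀ s : Multiset (ZMod m), (∀ z ∈ s, Gd z) →
  Multiset.card s ≤ 10 →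
  Multiset.card s + Multiset.card (s.filter fun z => 4 ∣ addOrderOf z) ≤ 12 →
  Rel (fun z : ZMod m => (s.count z : ℤ)) → CEall m (fun z : ZMod m => (s.count z : ℤ)) →
  ∀ (Q : Type) [AddCommGroup Q] (c : ZMod m → Q), OddDist c → (s.map c).sum = 0

/-- (B24) descent of the classes to a lower level -/
def S_down : Prop := ∀ (m m0 k : ℕ) [NeZero m] [NeZero m0], k * m0 = m →
  ∀ s0 : Multiset (ZMod m0 × ℤ),
  OddClass m (s0.map fun z => ((iota k z.1 : ZMod m), z.2)) → OddClass m0 s0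

/-- (B25) from level `2 * m` to level `4 * m` -/
def S_up2 : Prop := ∀ m : ℕ, Odd m → ∀ s : Multiset (ZMod (2 * m) × ℤ), WeakClass (2 * m) s →
  WeakClass (4 * m) (s.map fun z => ((iota 2 z.1 : ZMod (4 * m)), z.2))

/-- (B26) the criterion at level `4 * m` gives the criterion at level `m` for the entries of level
`m` attached to entries of level `2 * m` -/
def S_cecd2 : Prop := ∀ (m : ℕ) [NeZero m] [NeZero (2 * m)] [NeZero (4 * m)], Odd m →
  ∀ s : Multiset (ZMod (2 * m)),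
  CEall (4 * m) (fun z => ((s.map (iota 2 : ZMod (2 * m) → ZMod (4 * m))).count z : ℤ)) →
  CD m (fun z => ((s.bind dbl).count z : ℤ))

end Pool.Agent.NH35.HQ
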