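import Pool.Agent.NH35.HQ.Stm

/-! Hodge classes on diagonal hypersurfaces of small dimension and degree prime to six:
statements. -/

set_option autoImplicit false
set_option linter.unusedSectionVars false

namespace Pool.Agent.NH35.HQ

open Finset Pool.Agent.H916R2 Pool.Agent.NH35.HG Pool.Agent.NH35.HE Pool.Agent.NH35.HK

/-- (H1) the part of a short relation at a large prime, with the support of the coefficients -/
def S_concB : Prop := ∀ (m ℓ : ℕ) [NeZero m], Adm m → ℓ.Prime → ℓ ∣ m → 3 < ℓ →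
  ∀ s : Multiset (ZMod m), (∀ z ∈ s, Gd z) → Multiset.card s + 1 < ℓ →
  Rel (fun z : ZMod m => (s.count z : ℤ)) →
  ∃ e : ℕ → ℤ, (∀ q, q ≠ 2 → q ≠ 3 → e q = 0) ∧
    ∀ (Q : Type) [AddCommGroup Q] (c : ZMod m → Q), OddDist c →
      ((s.filter fun z => ℓ ∣ addOrderOf z).map c).sum =
        ∑ q ∈ m.primeFactors.erase ℓ, e q • BQ m ℓ q c

/-- the condition modulo two for all sets with an even number of at least two elements -/
def C2 {m : ℕ} [NeZero m] (S : Finset m.primeFactors) (x : ZMod m → ℤ) : Prop :=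
  ∀ (C : Co m) (I : Finset m.primeFactors), I ⊆ S → 2 ≤ I.card → Even I.card →
    ∃ (w : ∀ q : m.primeFactors, HH m q) (c : ZMod m → ZMod 2), OddDist c ∧
      (∀ A, ¬ I ⊆ A → syF C c A = 0) ∧ syF C c I = fI C.d I w ∧ ∑ z, x z • c z = 0

/-- (H2) the core -/
def S_coreH : Prop := ∀ (m : ℕ) [NeZero m], Adm m → ∀ x : ZMod m → ℤ, (∀ z, x z ≠ 0 → Gd z) →
  Rel x → C2 univ x → ∀ (Q : Type) [AddCommGroup Q] (c : ZMod m → Q), OddDist c →
    ∑ z, x z • c z = 0

/-- the weight of an element for the set `I` with two elements -/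
noncomputable def wt2 {m : ℕ} (I : Finset m.primeFactors) (z : ZMod m) : ℚ := by
  classical
  exact if ty z = I then 4 / ∏ q ∈ I, (Nat.totient (q.1 ^ (addOrderOf z).factorization q.1) : ℚ)
    else if ty z = univ then
      16 / ∏ q : m.primeFactors, (Nat.totient (q.1 ^ (addOrderOf z).factorization q.1) : ℚ)
    else 0

/-- (H3) the condition modulo two by counting -/
def S_c2 : Prop := ∀ (m : ℕ) [NeZero m], Adm m → m.primeFactors.card ≤ 3 →
  ∀ s : Multiset (ZMod m),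
  (∀ I : Finset m.primeFactors, I.card = 2 → (s.map (wt2 I)).sum < 1) →
  C2 univ (fun z : ZMod m => (s.count z : ℤ))

/-- (H4) a finite computation -/
def S_finH : Prop := ∀ s : Multiset (ZMod 35), Multiset.card s = 6 → (∀ z ∈ s, IsUnit z) →
  Rel (fun z : ZMod 35 => (s.count z : ℤ)) → ∃ i j : ℕ, (i = 1 ∨ i = 2) ∧ (j = 1 ∨ j = 2 ∨ j = 3) ∧
    ∀ z ∈ s, ¬ ((z.val % 5 = i ∨ z.val % 5 = 5 - i) ∧ (z.val % 7 = j ∨ z.val % 7 = 7 - j))

/-- (H5) the exceptional case -/
def S_excH : Prop := ∀ (m : ℕ) [NeZero m], m.primeFactors = {5, 7} →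
  ∀ s : Multiset (ZMod m), Multiset.card s = 6 → (∀ z ∈ s, addOrderOf z = 35) →
  Rel (fun z : ZMod m => (s.count z : ℤ)) → C2 univ (fun z : ZMod m => (s.count z : ℤ))

/-- (H6) large primes can be removed -/
def S_remH : Prop := ∀ (m ℓ : ℕ) [NeZero m], m.Coprime 6 → ℓ.Prime → ℓ ∣ m →
  ∀ s : Multiset (ZMod m), Multiset.card s + 1 < ℓ → Rel (fun z : ZMod m => (s.count z : ℤ)) →
  (∀ (Q : Type) [AddCommGroup Q] (c : ZMod m → Q), OddDist c →
    ((s.filter fun z => ℓ ∣ addOrderOf z).map c).sum = 0) ∧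
  Rel (fun z : ZMod m => ((s.filter fun z => ¬ ℓ ∣ addOrderOf z).count z : ℤ))

/-- (H7) the combinatorial theorem for levels prime to six -/
def S_hodgeH : Prop := ∀ (m k : ℕ) [NeZero m], m.Coprime 6 →
  (m.primeFactors.filter fun p => p ≤ k + 1).card ≤ 3 →
  (k ≤ 6 ∨ ∀ p ∈ m.primeFactors.filter (fun p => p ≤ k + 1),
    ∀ q ∈ m.primeFactors.filter (fun p => p ≤ k + 1), p ≠ q → 4 * k < (p - 1) * (q - 1)) →
  ∀ s : Multiset (ZMod m), Multiset.card s ≤ k → Rel (fun z : ZMod m => (s.count z : ℤ)) →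
  ∀ (Q : Type) [AddCommGroup Q] (c : ZMod m → Q), OddDist c → (s.map c).sum = 0

end Pool.Agent.NH35.HQ
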